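import Pool.Agent.MP_c1dca2_ag.SC8.Defs
import Pool.Agent.MP_c1dca2_ag.SC5.B4

/-!
# [SC8-B4] the sum over one special element (copy of SC5/B4 with `Fam8`)
-/

set_option autoImplicit false

open NumberField IsDedekindDomain SC5

namespace SC8

variable {k : Type} [Field k] [NumberField k] {I : Type} [Fintype I] {L : I → Type}
  [∀ i, Field (L i)] [∀ i, NumberField (L i)] [∀ i, Algebra k (L i)] {S : Finset (Pr k)}
  {al : ∀ i, Pr (L i) → 𝓞 (L i)} {Cg : ℕ}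

theorem b4slot_QG (hF : Fam8 k L S al Cg) (i : I) (V : Finset (PL L))
    (hVS : ∀ o ∈ V, bl k o.2 ∉ S) (hinj : ∀ o ∈ V, ∀ o' ∈ V, bl k o.2 = bl k o'.2 → o = o')
    (h : PL L → (PL L → ℤˣ) → ℝ) (hpos : ∀ o e, 0 ≤ h o e)
    (hloc : ∀ o e e', (∀ q ∈ up k {i} o, e q = e' q) → h o e = h o e') :
    QG Cg (fun o : {o // o ∈ V} => b4Q k i o.1) (fun o e => h o.1 (b4ext i e)) where
  disj := by
    intro j j' hjj
    rw [Finset.disjoint_left]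
    intro q hq hq'
    rw [b4mem_Q] at hq hq'
    exact hjj (Subtype.ext (hinj _ j.2 _ j'.2 (hq.symm.trans hq')))
  nonneg := fun j e => hpos _ _
  loc := by
    intro j e e' he
    apply hloc
    intro q hq
    obtain ⟨q', rfl⟩ := b4inc_eta i q (Finset.mem_singleton.1 ((mem_up _ _ _).1 hq).1)
    rw [b4ext_inc, b4ext_inc]
    exact he q' ((b4mem_Q i j.1 q').2 ((mem_up _ _ _).1 hq).2)
  two := by
    intro j q hq h2
    rw [b4mem_Q] at hq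
    have h3 : (2 : 𝓞 k) ∈ (bl k q).asIdeal := by
      rw [mem_bl, map_ofNat]
      exact h2
    rw [hq] at h3
    exact hF.two _ (hVS _ j.2) h3
  large := by
    intro j q hq
    rw [b4mem_Q] at hq
    apply hF.large
    rw [hq]
    exact hVS _ j.2

theorem slot_a (hF : Fam8 k L S al Cg) (ε ε₁ : ℝ) (hε : 0 < ε) (hε' : ε < 1) (hε₁ : 0 < ε₁) :
    ∃ A t₀ : ℝ, 0 < A ∧ 1 ≤ t₀ ∧ ∀ t t' : ℝ, t₀ ≤ t → t ≤ t' → ∀ V : Finset (PL L),
      (∀ o ∈ V, bl k o.2 ∉ S) → (∀ o ∈ V, ∀ o' ∈ V, bl k o.2 = bl k o'.2 → o = o') →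
      (∑ o ∈ V, Real.log (nv (bl k o.2))) ≤ t ^ (1 - ε₁) →
      ∀ i, ∀ h : PL L → (PL L → ℤˣ) → ℝ, (∀ o e, 0 ≤ h o e) →
      (∀ o e e', (∀ q ∈ up k {i} o, e q = e' q) → h o e = h o e') →
      ∀ T : Finset (PL L), (∀ w ∈ T, w.1 = i ∧ t < Real.log (nv w.2) ∧ Real.log (nv w.2) ≤ t' ∧
        ∀ o ∈ V, bl k w.2 ≠ bl k o.2) →
      ∑ w ∈ T, ((nv w.2 : ℝ))⁻¹ * ∏ o ∈ V, h o (fun q => bt al q w) ≤
        A * t' ^ ε * ∏ o ∈ V, avg (up k {i} o) (h o) 1 := by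
  classical
  have hex := b4unif (fun (i : I) (A t₀ : ℝ) => ∀ t t' : ℝ, 1 ≤ t →
      t₀ ≤ t → t ≤ t' → ∀ V : Finset (PL L),
      (∀ o ∈ V, bl k o.2 ∉ S) → (∀ o ∈ V, ∀ o' ∈ V, bl k o.2 = bl k o'.2 → o = o') →
      (∑ o ∈ V, Real.log (nv (bl k o.2))) ≤ t ^ (1 - ε₁) →
      ∀ h : PL L → (PL L → ℤˣ) → ℝ, (∀ o e, 0 ≤ h o e) →
      (∀ o e e', (∀ q ∈ up k {i} o, e q = e' q) → h o e = h o e') →
      ∀ T : Finset (PL L), (∀ w ∈ T, w.1 = i ∧ t < Real.log (nv w.2) ∧ Real.log (nv w.2) ≤ t' ∧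
        ∀ o ∈ V, bl k w.2 ≠ bl k o.2) →
      ∑ w ∈ T, ((nv w.2 : ℝ))⁻¹ * ∏ o ∈ V, h o (fun q => bt al q w) ≤
        A * t' ^ ε * ∏ o ∈ V, avg (up k {i} o) (h o) 1) (by
    intro i A t₀ A' t₀' h0 hAA htt t t' h1 h1' h2 V h3 h4 h5 h h6 h7 T h8
    refine (h0 t t' h1 (htt.trans h1') h2 V h3 h4 h5 h h6 h7 T h8).trans ?_
    apply mul_le_mul_of_nonneg_right
    · apply mul_le_mul_of_nonneg_right hAA
      exact Real.rpow_nonneg (by linarith) _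
    · exact Finset.prod_nonneg fun o _ => avg_nonneg _ _ (h6 o) _) (by
    intro i
    obtain ⟨A, t₀, hA, ht₀, hs⟩ := sum_a (L i) (al i) Cg (hF.gen i) ε (ε₁ / 2) hε hε'
      (by positivity)
    refine ⟨A, t₀ + (Module.finrank k (L i) : ℝ) ^ (2 / ε₁), hA, ?_, ?_⟩
    · have : 0 ≤ (Module.finrank k (L i) : ℝ) ^ (2 / ε₁) := by positivity
      linarith
    · intro t t' h1 h1' h2 V h3 h4 h5 h h6 h7 T h8
      have hnn : 0 ≤ (Module.finrank k (L i) : ℝ) ^ (2 / ε₁) := by positivity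
      have key := hs t t' (by linarith) h2 (J := {o // o ∈ V}) (fun o => b4Q k i o.1)
        (fun o e => h o.1 (b4ext i e)) (b4slot_QG hF i V h3 h4 h h6 h7)
        ((b4slot_size i V).trans (b4slot_pow _ ε₁ t _ hε₁ h1 (by linarith) h5))
        (T.preimage (b4inc i) (b4inc_inj i).injOn) (by
          intro w hw
          rw [Finset.mem_preimage] at hw
          have h9 := h8 _ hw
          refine ⟨h9.2.1, h9.2.2.1, ?_⟩
          intro j hj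
          rw [b4mem_Q] at hj
          exact h9.2.2.2 j.1 j.2 hj)
      rw [b4slot_avgs i V h h7] at key
      rw [b4slot_sum i T (fun w hw => (h8 w hw).1)]
      refine le_trans (le_of_eq ?_) key
      apply Finset.sum_congr rfl
      intro w _
      rw [b4slot_prod]
      rfl)
  obtain ⟨A, t₀, hA, ht₀, hmain⟩ := hex
  refine ⟨A, t₀, hA, ht₀, ?_⟩
  intro t t' h1 h2 V h3 h4 h5 i h h6 h7 T h8
  exact hmain i t t' (ht₀.trans h1) h1 h2 V h3 h4 h5 h h6 h7 T h8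

theorem slot_b (hF : Fam8 k L S al Cg) (ε ε₁ : ℝ) (hε : 0 < ε) (hε' : ε < 1) (hε₁ : 0 < ε₁) :
    ∃ A t₀ : ℝ, 0 < A ∧ 1 ≤ t₀ ∧ ∀ t Y : ℝ, t₀ ≤ t → 0 < Y → ∀ V : Finset (PL L),
      (∀ o ∈ V, bl k o.2 ∉ S) → (∀ o ∈ V, ∀ o' ∈ V, bl k o.2 = bl k o'.2 → o = o') →
      (∑ o ∈ V, Real.log (nv (bl k o.2))) ≤ t ^ (1 - ε₁) →
      ∀ i, ∀ h : PL L → (PL L → ℤˣ) → ℝ, (∀ o e, 0 ≤ h o e) →
      (∀ o e e', (∀ q ∈ up k {i} o, e q = e' q) → h o e = h o e') →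
      ∀ T : Finset (PL L), (∀ w ∈ T, w.1 = i ∧ t < Real.log (nv w.2) ∧ (nv w.2 : ℝ) ≤ Y ∧
        ∀ o ∈ V, bl k w.2 ≠ bl k o.2) →
      ∑ w ∈ T, (Y / nv w.2) ^ (3 / 4 : ℝ) * ∏ o ∈ V, h o (fun q => bt al q w) ≤
        A * Y * t ^ (-1 + ε) * ∏ o ∈ V, avg (up k {i} o) (h o) 1 := by
  classical
  have hex := b4unif (fun (i : I) (A t₀ : ℝ) => ∀ t Y : ℝ, 1 ≤ t →
      t₀ ≤ t → 0 < Y → ∀ V : Finset (PL L),
      (∀ o ∈ V, bl k o.2 ∉ S) → (∀ o ∈ V, ∀ o' ∈ V, bl k o.2 = bl k o'.2 → o = o') →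
      (∑ o ∈ V, Real.log (nv (bl k o.2))) ≤ t ^ (1 - ε₁) →
      ∀ h : PL L → (PL L → ℤˣ) → ℝ, (∀ o e, 0 ≤ h o e) →
      (∀ o e e', (∀ q ∈ up k {i} o, e q = e' q) → h o e = h o e') →
      ∀ T : Finset (PL L), (∀ w ∈ T, w.1 = i ∧ t < Real.log (nv w.2) ∧ (nv w.2 : ℝ) ≤ Y ∧
        ∀ o ∈ V, bl k w.2 ≠ bl k o.2) →
      ∑ w ∈ T, (Y / nv w.2) ^ (3 / 4 : ℝ) * ∏ o ∈ V, h o (fun q => bt al q w) ≤
        A * Y * t ^ (-1 + ε) * ∏ o ∈ V, avg (up k {i} o) (h o) 1) (by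
    intro i A t₀ A' t₀' h0 hAA htt t Y h1 h1' h2 V h3 h4 h5 h h6 h7 T h8
    refine (h0 t Y h1 (htt.trans h1') h2 V h3 h4 h5 h h6 h7 T h8).trans ?_
    apply mul_le_mul_of_nonneg_right
    · apply mul_le_mul_of_nonneg_right
      · exact mul_le_mul_of_nonneg_right hAA h2.le
      · exact Real.rpow_nonneg (by linarith) _
    · exact Finset.prod_nonneg fun o _ => avg_nonneg _ _ (h6 o) _) (by
    intro i
    obtain ⟨A, t₀, hA, ht₀, hs⟩ := sum_b (L i) (al i) Cg (hF.gen i) ε (ε₁ / 2) hε hε'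
      (by positivity)
    refine ⟨A, t₀ + (Module.finrank k (L i) : ℝ) ^ (2 / ε₁), hA, ?_, ?_⟩
    · have : 0 ≤ (Module.finrank k (L i) : ℝ) ^ (2 / ε₁) := by positivity
      linarith
    · intro t Y h1 h1' h2 V h3 h4 h5 h h6 h7 T h8
      have hnn : 0 ≤ (Module.finrank k (L i) : ℝ) ^ (2 / ε₁) := by positivity
      have key := hs t Y (by linarith) h2 (J := {o // o ∈ V}) (fun o => b4Q k i o.1)
        (fun o e => h o.1 (b4ext i e)) (b4slot_QG hF i V h3 h4 h h6 h7)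
        ((b4slot_size i V).trans (b4slot_pow _ ε₁ t _ hε₁ h1 (by linarith) h5))
        (T.preimage (b4inc i) (b4inc_inj i).injOn) (by
          intro w hw
          rw [Finset.mem_preimage] at hw
          have h9 := h8 _ hw
          refine ⟨h9.2.1, h9.2.2.1, ?_⟩
          intro j hj
          rw [b4mem_Q] at hj
          exact h9.2.2.2 j.1 j.2 hj)
      rw [b4slot_avgs i V h h7] at key
      rw [b4slot_sum i T (fun w hw => (h8 w hw).1)]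
      refine le_trans (le_of_eq ?_) key
      apply Finset.sum_congr rfl
      intro w _
      rw [b4slot_prod]
      rfl)
  obtain ⟨A, t₀, hA, ht₀, hmain⟩ := hex
  refine ⟨A, t₀, hA, ht₀, ?_⟩
  intro t Y h1 h2 V h3 h4 h5 i h h6 h7 T h8
  exact hmain i t Y (ht₀.trans h1) h1 h2 V h3 h4 h5 h h6 h7 T h8

end SC8
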