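import Pool.Agent.MP_c1dca2_ag.SC8.C5a
import Pool.Agent.MP_c1dca2_ag.SC8.C4a
import Pool.Agent.MP_c1dca2_ag.SC8.C4b
import Pool.Agent.MP_c1dca2_ag.SC8.C2
import Pool.Agent.MP_c1dca2_ag.SC5.C5
import Pool.Agent.MP_c1dca2_ag.SC5.C6

/-!
# [SC8-C5b] the configurations with an element of index `≠ W` in the first block
(copy of SC7/U7 and SC7/U8)

`pattern_sum8`: copy SC7/U7.lean (`pattern_sum3` and the private lemmas before it) with `cp3_sum` replaced by `cp8_sum` and `slot_sum3` by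
`slot_sum8` (SC8/C2; its hypothesis is `hdeg.even`), `p i₁ = 1` (so `p i₁` is minimal: `hmin : ∀ i, 1 ≤ p i → p i₁ ≤ p i` is trivial), and
without the factor `exp (MP ..)`: the exponent of `Λ` is `(1 - η) + 2 r^2 / K`.
`total8`: copy SC7/U8.lean. `pat K Λ P = p`; for `P ∈ Ps` with its element `o`, `o.1 ≠ W`, in block `1`: `p o.1 = 1` (as in U8), take
`i₁ = o.1`. Exponents: `(1 - 1/K)(-1 + ε) + ε r + (1 - η) + 2 r^2/K ≤ -η/4` with `ε = η / (8 (r + 1))`, `K ≥ 16 (1 + 2 r^2)/η`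
(`SC5.c6_expo` with `x = 1`).
-/

set_option autoImplicit false

open NumberField IsDedekindDomain SC5 SC7

namespace SC8

theorem total8 {k : Type} [Field k] [NumberField k] {I : Type} [Fintype I] {L : I → Type}
    [∀ i, Field (L i)] [∀ i, NumberField (L i)] [∀ i, Algebra k (L i)] (M : Type) [Field M]
    [NumberField M] [Algebra k M] [IsGalois k M] [∀ i, Algebra (L i) M]
    [∀ i, IsScalarTower k (L i) M] {S : Finset (Pr k)}
    {al : ∀ i, Pr (L i) → 𝓞 (L i)} {Cg : ℕ} (hF : Fam8 k L S al Cg) (W : I)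
    (hdeg : Deg8 k L W) :
    ∃ (δ C Λ₀ : ℝ) (K : ℕ), 0 < δ ∧ 0 < C ∧ 1 ≤ Λ₀ ∧ 2 ≤ K ∧ ∀ Λ : ℝ, Λ₀ ≤ Λ →
      ∀ (E : PL L → PL L → PL L → ℤˣ) (Ps : Finset (Finset (PL L))),
        (∀ P ∈ Ps, Adm S al Λ E P ∧
          ∃ o ∈ P, o.1 ≠ W ∧ Λ ^ (1 - 1 / (K : ℝ)) < Real.log (nv o.2)) →
        ∑ P ∈ Ps, (Real.exp Λ / NP P) ^ (3 / 4 : ℝ) ≤ C * Real.exp Λ * Λ ^ (-δ) := by
  classical
  obtain ⟨η, hη0, hη1, hps⟩ := pattern_sum8 M hF W hdeg
  set r : ℝ := (Fintype.card I : ℝ) with hr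
  have hr0 : 0 ≤ r := Nat.cast_nonneg _
  set ε : ℝ := η / (8 * (r + 1)) with hε
  have hε0 : 0 < ε := by positivity
  have hε1 : ε < 1 := by
    rw [hε, div_lt_one (by positivity)]
    nlinarith
  obtain ⟨m, hm⟩ := exists_nat_ge (max 1 (16 * (1 + 2 * r ^ 2) / η))
  have hm1 : 1 ≤ m := by
    have : (1 : ℝ) ≤ m := (le_max_left _ _).trans hm
    exact_mod_cast this
  have hm2 : 16 * (1 + 2 * r ^ 2) / η ≤ m := (le_max_right _ _).trans hm
  set K : ℕ := 2 * m with hKdef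
  have hK2 : 2 ≤ K := by omega
  have hm0 : (0 : ℝ) < m := by exact_mod_cast hm1
  have hKr : (K : ℝ) = 2 * m := by rw [hKdef]; push_cast; ring
  have hK0 : (0 : ℝ) < K := by rw [hKr]; linarith
  obtain ⟨C, Λ₀, hC, hΛ₀, hmain⟩ := hps K hK2 ε hε0 hε1
  refine ⟨η / 4, C * ((K + 1 : ℕ) : ℝ) ^ Fintype.card I, Λ₀, K, by positivity, by positivity,
    hΛ₀, hK2, ?_⟩
  intro Λ hΛ E Ps hPs
  have hΛ1 : 1 ≤ Λ := hΛ₀.trans hΛ
  have hΛ0 : 0 < Λ := by linarith
  have hblk1 : ∀ P ∈ Ps, ∀ o ∈ P, 1 ≤ blk K Λ o := by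
    intro P hP o ho
    exact one_le_blk K (by omega) Λ o (c6_log_le P Λ hΛ0.le (hPs P hP).1.norm o ho)
  set R : Finset (I → ℕ) := Fintype.piFinset (fun _ => Finset.range (K + 1)) with hR
  have hmaps : ∀ P ∈ Ps, pat K Λ P ∈ R := by
    intro P _
    rw [hR, Fintype.mem_piFinset]
    intro i
    rw [Finset.mem_range]
    exact Nat.lt_succ_of_le (c6_pat_le _ _ _ _)
  rw [← Finset.sum_fiberwise_of_maps_to hmaps]
  have hcardR : R.card = (K + 1) ^ Fintype.card I := by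
    rw [hR, Fintype.card_piFinset]
    simp
  have hbound : ∀ p ∈ R, ∑ P ∈ Ps with pat K Λ P = p, (Real.exp Λ / NP P) ^ (3 / 4 : ℝ) ≤
      C * Real.exp Λ * Λ ^ (-(η / 4)) := by
    intro p _
    by_cases hne : (Ps.filter (fun P => pat K Λ P = p)).Nonempty
    swap
    · rw [Finset.not_nonempty_iff_eq_empty] at hne
      rw [hne, Finset.sum_empty]
      positivity
    obtain ⟨P, hP⟩ := hne
    rw [Finset.mem_filter] at hP
    obtain ⟨hP, hpat⟩ := hP
    obtain ⟨o, ho, hoW, hbig⟩ := (hPs P hP).2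
    have ho1 : blk K Λ o ≤ 1 := by
      unfold blk
      refine Nat.sInf_le ?_
      show tau K Λ 1 < Real.log (nv o.2)
      unfold tau
      rw [if_pos (by omega)]
      push_cast
      exact hbig
    have hpo1 : p o.1 ≤ 1 := by
      rw [← hpat]
      exact (c6_pat_le_blk _ _ _ _ ho).trans ho1
    have hpo2 : ∀ o' ∈ P, 1 ≤ p o'.1 := by
      intro o' ho'
      rw [← hpat]
      rcases c6_pat_cases K Λ P o'.1 with h | ⟨o'', ho'', _, h⟩
      · exfalso
        have hne' : (P.filter (fun q => q.1 = o'.1)).Nonempty := ⟨o', by simp [ho']⟩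
        obtain ⟨q, hq, h'⟩ := Finset.exists_mem_eq_inf' hne' (blk K Λ)
        have h1 : pat K Λ P o'.1 =
            (P.filter (fun q => q.1 = o'.1)).inf' hne' (blk K Λ) := by
          unfold pat
          rw [dif_pos]
        rw [Finset.mem_filter] at hq
        have := hblk1 P hP q hq.1
        omega
      · rw [h]
        exact hblk1 P hP o'' ho''
    have hp1 : p o.1 = 1 := le_antisymm hpo1 (hpo2 o ho)
    have h := hmain Λ hΛ p o.1 hoW hp1 E
      (Ps.filter (fun P => pat K Λ P = p)) (by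
        intro P hP
        rw [Finset.mem_filter] at hP
        exact ⟨(hPs P hP.1).1, hP.2⟩)
    refine h.trans ?_
    have htau : tau K Λ 1 = Λ ^ (1 - 1 / (K : ℝ)) := by
      unfold tau
      rw [if_pos (by omega)]
      push_cast
      rfl
    rw [htau, ← Real.rpow_mul hΛ0.le]
    have hexp := c6_expo η ε r (K : ℝ) 1 hη0 hη1 hr0 hε0 hε hK0 (by rw [hKr]; linarith) (by
      rw [div_le_iff₀ hK0]
      have : (1 : ℝ) ≤ m := by exact_mod_cast hm1
      linarith)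
    have e0 : (1 - η) * ((K : ℝ) - 1 + 1) / K = 1 - η := by
      field_simp
      ring
    rw [e0] at hexp
    have e1 : C * Real.exp Λ * Λ ^ ((1 - 1 / (K : ℝ)) * (-1 + ε)) * Λ ^ (ε * r) *
        Λ ^ ((1 - η) + 2 * r ^ 2 / K) =
        C * Real.exp Λ * Λ ^ ((1 - 1 / (K : ℝ)) * (-1 + ε) + ε * r +
          ((1 - η) + 2 * r ^ 2 / K)) := by
      rw [Real.rpow_add hΛ0 ((1 - 1 / (K : ℝ)) * (-1 + ε) + ε * r),
        Real.rpow_add hΛ0 ((1 - 1 / (K : ℝ)) * (-1 + ε)) (ε * r)]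
      ring
    rw [e1]
    apply mul_le_mul_of_nonneg_left _ (by positivity)
    exact Real.rpow_le_rpow_of_exponent_le hΛ1 hexp
  calc _ ≤ ∑ p ∈ R, C * Real.exp Λ * Λ ^ (-(η / 4)) := Finset.sum_le_sum hbound
    _ = _ := by
      rw [Finset.sum_const, nsmul_eq_mul, hcardR]
      push_cast
      ring

end SC8
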