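import Pool.Agent.MP_c1dca2_ag.SC8.C5b
import Pool.Agent.MP_c1dca2_ag.SC5.C7
import Pool.Agent.MP_c1dca2_ag.SC5.T2

/-!
# [SC8-C7] Part I: configurations with a very large element of index `≠ W` (copy of SC5/C7, SC7/U10)

Let `δ, C', Λ₀, K₀` be from `total8`, `C` from `cfg_count b S`, `n = card ι`, `Λ = log (C N^n)`. Take `K = 2 K₀`.
1. `typ_omega b S C`: the `c` with `(log Λ)^2 < ncard (TT S c)` have density `0`.
2. For the others with a configuration `(x, P)` as in the statement (`Cf8.rel`, ...): `P.card = ncard (TT S c) ≤ (log Λ)^2` (`Cfg.inj`,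
`tt`), `Λ^(1 - 1/K₀) < log (nv o.2)` for `N ≥ N₀`, because `Λ ≤ (n + 1) log N` for large `N` and
`((n+1) log N)^(1 - 1/K₀) ≤ (log N)^(1 - 1/(2 K₀))` for large `N`. `P` is `Adm S al Λ (E x)`: `norm : NP P ≤ exp Λ` from `cfg_count` (its first
part) and `c7_NP`; `big` from `Λ^(1/2) ≤ Λ^(1 - 1/K₀)`. As in `SC5.c7_R` (copy it with the condition `∃ o ∈ P, o.1 ≠ W ∧ ...`): for every
`x : κ` the number of these `c` is at most `C * (C' * (C N^n) * Λ^(-δ))`. Sum over the finitely many `x`, divide by `(2 N + 1)^n`.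
-/

set_option autoImplicit false

open NumberField IsDedekindDomain SC5 SC7 Filter Topology

namespace SC8

open scoped Classical in
/-- the configurations with property `Q` and few elements -/
theorem c7_R8 {k : Type} [Field k] [NumberField k] {I : Type} {L : I → Type}
    [∀ i, Field (L i)] [∀ i, NumberField (L i)] [∀ i, Algebra k (L i)] {S : Finset (Pr k)}
    {al : ∀ i, Pr (L i) → 𝓞 (L i)} {ι : Type} [Fintype ι] (b : Module.Basis ι ℤ (𝓞 k))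
    {C : ℝ} (hC1 : 1 ≤ C)
    (hC : ∀ N : ℕ, 1 ≤ N → ∀ V : Finset (Pr k), (∀ v ∈ V, v ∉ S) →
      (C * (N : ℝ) ^ (Fintype.card ι) < ∏ v ∈ V, (nv v : ℝ) →
        ¬ ∃ c : ι → ℤ, (∀ i, |c i| ≤ N) ∧ c ≠ 0 ∧ TT S ((el b c : 𝓞 k) : k) = (V : Set (Pr k))) ∧
      (Nat.card {c : ι → ℤ // (∀ i, |c i| ≤ N) ∧ c ≠ 0 ∧
        TT S ((el b c : 𝓞 k) : k) = (V : Set (Pr k))} : ℝ) ≤
        C * (C * (N : ℝ) ^ (Fintype.card ι) / ∏ v ∈ V, (nv v : ℝ)) ^ (3 / 4 : ℝ))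
    {δ C' Λ : ℝ} (E : PL L → PL L → PL L → ℤˣ) (Q : Finset (PL L) → Prop)
    (hQ : ∀ P, Q P → ∃ o ∈ P, Λ ^ (1 / 2 : ℝ) < Real.log (nv o.2))
    (ht : ∀ (Ps : Finset (Finset (PL L))),
        (∀ P ∈ Ps, Adm S al Λ E P ∧ Q P) →
        ∑ P ∈ Ps, (Real.exp Λ / NP P) ^ (3 / 4 : ℝ) ≤ C' * Real.exp Λ * Λ ^ (-δ))
    {N : ℕ} (hN : 1 ≤ N)
    (hΛ : Λ = Real.log (C * (N : ℝ) ^ (Fintype.card ι))) :
    (((c7_box ι N).filter (fun c => c ≠ 0 ∧ ∃ P : Finset (PL L), Cfg k S P ∧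
      TT S ((el b c : 𝓞 k) : k) = (fun o : PL L => bl k o.2) '' (P : Set (PL L)) ∧
      (∀ o ∈ P, Rel k (E o) o (sgn al P)) ∧ (P.card : ℝ) ≤ Real.log Λ ^ 2 ∧
      Q P)).card : ℝ) ≤
      C * (C' * (C * (N : ℝ) ^ (Fintype.card ι)) * Λ ^ (-δ)) := by
  have hNR : (1 : ℝ) ≤ N := by exact_mod_cast hN
  have hX : 0 < C * (N : ℝ) ^ (Fintype.card ι) := by positivity
  have hexp : Real.exp Λ = C * (N : ℝ) ^ (Fintype.card ι) := by
    rw [hΛ, Real.exp_log hX]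
  set q : (ι → ℤ) → Finset (PL L) → Prop := fun c P => Cfg k S P ∧
      TT S ((el b c : 𝓞 k) : k) = (fun o : PL L => bl k o.2) '' (P : Set (PL L)) ∧
      (∀ o ∈ P, Rel k (E o) o (sgn al P)) ∧ (P.card : ℝ) ≤ Real.log Λ ^ 2 ∧
      Q P with hq
  show (((c7_box ι N).filter (fun c => c ≠ 0 ∧ ∃ P : Finset (PL L), q c P)).card : ℝ) ≤ _
  set A := (c7_box ι N).filter (fun c => c ≠ 0 ∧ ∃ P : Finset (PL L), q c P) with hA
  set g : (ι → ℤ) → Finset (PL L) := fun c => if h : ∃ P, q c P then h.choose else ∅ with hg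
  have hgq : ∀ c ∈ A, q c (g c) := by
    intro c hc
    rw [hA, Finset.mem_filter] at hc
    have h := hc.2.2
    simp only [hg]
    rw [dif_pos h]
    exact h.choose_spec
  have hbox : ∀ c ∈ A, (∀ i, |c i| ≤ N) ∧ c ≠ 0 := by
    intro c hc
    rw [hA, Finset.mem_filter, c7_mem_box] at hc
    exact ⟨hc.1, hc.2.1⟩
  have hV : ∀ P : Finset (PL L), Cfg k S P → ∀ v ∈ P.image (fun o : PL L => bl k o.2), v ∉ S := by
    intro P hP v hv
    rw [Finset.mem_image] at hv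
    obtain ⟨o, ho, rfl⟩ := hv
    exact hP.out o ho
  have hadm : ∀ P ∈ A.image g, Adm S al Λ E P ∧ Q P := by
    intro P hP
    rw [Finset.mem_image] at hP
    obtain ⟨c, hc, rfl⟩ := hP
    obtain ⟨h1, h2, h3, h4, h5⟩ := hgq c hc
    refine ⟨⟨h1, ?_, h4, hQ _ h5, h3⟩, h5⟩
    rw [hexp]
    by_contra hlt
    rw [not_le] at hlt
    rw [← c7_NP h1] at hlt
    refine (hC N hN _ (hV _ h1)).1 hlt ⟨c, (hbox c hc).1, (hbox c hc).2, ?_⟩
    rw [h2, Finset.coe_image]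
  have hfib : ∀ P ∈ A.image g, (((A.filter (fun c => g c = P)).card : ℕ) : ℝ) ≤
      C * (Real.exp Λ / NP P) ^ (3 / 4 : ℝ) := by
    intro P hP
    have hcfg := (hadm P hP).1.cfg
    have h1 := (hC N hN _ (hV P hcfg)).2
    rw [c7_NP hcfg, c7_card, ← hexp] at h1
    refine le_trans ?_ h1
    norm_cast
    refine Finset.card_le_card fun c hc => ?_
    rw [Finset.mem_filter] at hc
    rw [Finset.mem_filter, c7_mem_box]
    refine ⟨(hbox c hc.1).1, (hbox c hc.1).2, ?_⟩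
    have h2 := (hgq c hc.1).2.1
    rw [hc.2] at h2
    rw [h2, Finset.coe_image]
  calc ((A.card : ℕ) : ℝ) = ∑ P ∈ A.image g, (((A.filter (fun c => g c = P)).card : ℕ) : ℝ) := by
        rw [Finset.card_eq_sum_card_image g A]
        push_cast
        rfl
    _ ≤ ∑ P ∈ A.image g, C * (Real.exp Λ / NP P) ^ (3 / 4 : ℝ) := Finset.sum_le_sum hfib
    _ = C * ∑ P ∈ A.image g, (Real.exp Λ / NP P) ^ (3 / 4 : ℝ) := by rw [Finset.mul_sum]
    _ ≤ C * (C' * Real.exp Λ * Λ ^ (-δ)) :=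
        mul_le_mul_of_nonneg_left (ht _ hadm) (by linarith)
    _ = C * (C' * (C * (N : ℝ) ^ (Fintype.card ι)) * Λ ^ (-δ)) := by rw [hexp]

/-- the exponents -/
theorem c7_exp {C : ℝ} (hC1 : 1 ≤ C) (n : ℕ) {K₀ : ℕ} (hK : 2 ≤ K₀) :
    ∀ᶠ N : ℕ in atTop, Real.log (C * (N : ℝ) ^ n) ^ (1 - 1 / (K₀ : ℝ)) ≤
      Real.log N ^ (1 - 1 / ((2 * K₀ : ℕ) : ℝ)) := by
  have hK0 : (0 : ℝ) < K₀ := by
    have : 0 < K₀ := by omega
    exact_mod_cast this
  have hK2 : (2 : ℝ) ≤ K₀ := by exact_mod_cast hK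
  have hpos : (0 : ℝ) < 1 / (2 * (K₀ : ℝ)) := by positivity
  have hlog : Tendsto (fun N : ℕ => Real.log N) atTop atTop :=
    Real.tendsto_log_atTop.comp tendsto_natCast_atTop_atTop
  have h1 : Tendsto (fun N : ℕ => Real.log N ^ (1 / (2 * (K₀ : ℝ)))) atTop atTop :=
    (tendsto_rpow_atTop hpos).comp hlog
  obtain ⟨N₁, hN₁⟩ := exists_nat_ge C
  filter_upwards [h1.eventually_ge_atTop (((n : ℝ) + 1) ^ (1 - 1 / (K₀ : ℝ))), Filter.eventually_ge_atTop N₁,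
    Filter.eventually_ge_atTop 1, hlog.eventually_ge_atTop 1] with N hN hN1 hN2 hN3
  have hNR : (1 : ℝ) ≤ N := by exact_mod_cast hN2
  have hCN : C ≤ N := hN₁.trans (by exact_mod_cast hN1)
  have hy : 0 < Real.log N := by linarith
  have hL : Real.log (C * (N : ℝ) ^ n) ≤ ((n : ℝ) + 1) * Real.log N := by
    rw [Real.log_mul (by linarith) (by positivity), Real.log_pow]
    have := Real.log_le_log (by linarith) hCN
    linarith
  have hL0 : 0 ≤ Real.log (C * (N : ℝ) ^ n) := by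
    apply Real.log_nonneg
    have h2 : (1 : ℝ) ≤ (N : ℝ) ^ n := one_le_pow₀ hNR
    nlinarith
  have he0 : 0 ≤ 1 - 1 / (K₀ : ℝ) := by
    have : 1 / (K₀ : ℝ) ≤ 1 := by
      rw [div_le_one hK0]
      linarith
    linarith
  calc Real.log (C * (N : ℝ) ^ n) ^ (1 - 1 / (K₀ : ℝ)) ≤ (((n : ℝ) + 1) * Real.log N) ^ (1 - 1 / (K₀ : ℝ)) :=
        Real.rpow_le_rpow hL0 hL he0
    _ = ((n : ℝ) + 1) ^ (1 - 1 / (K₀ : ℝ)) * Real.log N ^ (1 - 1 / (K₀ : ℝ)) :=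
        Real.mul_rpow (by positivity) hy.le
    _ ≤ Real.log N ^ (1 / (2 * (K₀ : ℝ))) * Real.log N ^ (1 - 1 / (K₀ : ℝ)) :=
        mul_le_mul_of_nonneg_right hN (Real.rpow_nonneg hy.le _)
    _ = Real.log N ^ (1 - 1 / ((2 * K₀ : ℕ) : ℝ)) := by
        rw [← Real.rpow_add hy]
        congr 1
        push_cast
        field_simp
        ring

theorem count_top {k : Type} [Field k] [NumberField k] {I : Type} [Fintype I] {L : I → Type}
    [∀ i, Field (L i)] [∀ i, NumberField (L i)] [∀ i, Algebra k (L i)] (M : Type) [Field M]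
    [NumberField M] [Algebra k M] [IsGalois k M] [∀ i, Algebra (L i) M]
    [∀ i, IsScalarTower k (L i) M] {S : Finset (Pr k)}
    {al : ∀ i, Pr (L i) → 𝓞 (L i)} {Cg : ℕ} (hF : Fam8 k L S al Cg) (W : I)
    (hdeg : Deg8 k L W) {κ : Type} [Finite κ] (E : κ → PL L → PL L → PL L → ℤˣ)
    {ι : Type} [Fintype ι] (b : Module.Basis ι ℤ (𝓞 k)) :
    ∃ K : ℕ, 2 ≤ K ∧ Tendsto (fun N : ℕ => (Nat.card {c : ι → ℤ // (∀ i, |c i| ≤ N) ∧ c ≠ 0 ∧
      ∃ (x : κ) (P : Finset (PL L)), Cf8 S al (E x) ((el b c : 𝓞 k) : k) P ∧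
        ∃ o ∈ P, o.1 ≠ W ∧ Real.log N ^ (1 - 1 / (K : ℝ)) < Real.log (nv o.2)} : ℝ) /
        (2 * N + 1) ^ (Fintype.card ι)) atTop (𝓝 0) := by
  classical
  have : Fintype κ := Fintype.ofFinite κ
  obtain ⟨C, hC1, hC⟩ := cfg_count b S
  obtain ⟨δ, C', Λ₀, K₀, hδ, hC', hΛ₀, hK₀, ht⟩ := total8 M hF W hdeg
  refine ⟨2 * K₀, by omega, ?_⟩
  have hne : Nonempty ι := b.index_nonempty
  have hn : Fintype.card ι ≠ 0 := Fintype.card_ne_zero
  -- the parameter tends to infinity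
  have hX : Tendsto (fun N : ℕ => C * (N : ℝ) ^ (Fintype.card ι)) atTop atTop :=
    Tendsto.const_mul_atTop (by linarith)
      ((tendsto_pow_atTop hn).comp tendsto_natCast_atTop_atTop)
  have hL : Tendsto (fun N : ℕ => Real.log (C * (N : ℝ) ^ (Fintype.card ι))) atTop atTop :=
    Real.tendsto_log_atTop.comp hX
  have hbd : Tendsto (fun N : ℕ => (Fintype.card κ : ℝ) * (C * (C' * C) *
      Real.log (C * (N : ℝ) ^ (Fintype.card ι)) ^ (-δ))) atTop (𝓝 0) := by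
    have h1 := ((tendsto_rpow_neg_atTop hδ).comp hL).const_mul (C * (C' * C))
    have h2 := h1.const_mul (Fintype.card κ : ℝ)
    simpa using h2
  have hT2 := typ_omega b S C hC1
  have hsum := hT2.add hbd
  rw [add_zero] at hsum
  refine squeeze_zero' (Filter.Eventually.of_forall fun N => by positivity) ?_ hsum
  filter_upwards [Filter.eventually_ge_atTop 1, hL.eventually_ge_atTop Λ₀, hL.eventually_ge_atTop 1,
    c7_exp hC1 (Fintype.card ι) hK₀] with N hN hΛN hΛ1 hex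
  set Λ : ℝ := Real.log (C * (N : ℝ) ^ (Fintype.card ι)) with hΛ
  have hNR : (1 : ℝ) ≤ N := by exact_mod_cast hN
  have hD : (0 : ℝ) < (2 * N + 1) ^ (Fintype.card ι) := by positivity
  set Q : Finset (PL L) → Prop := fun P =>
    ∃ o ∈ P, o.1 ≠ W ∧ Λ ^ (1 - 1 / (K₀ : ℝ)) < Real.log (nv o.2) with hQd
  have hQ : ∀ P, Q P → ∃ o ∈ P, Λ ^ (1 / 2 : ℝ) < Real.log (nv o.2) := by
    rintro P ⟨o, ho, -, hlt⟩
    refine ⟨o, ho, lt_of_le_of_lt ?_ hlt⟩
    refine Real.rpow_le_rpow_of_exponent_le hΛ1 ?_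
    have hK2 : (2 : ℝ) ≤ K₀ := by exact_mod_cast hK₀
    have h3 : 1 / (K₀ : ℝ) ≤ 1 / 2 := one_div_le_one_div_of_le (by norm_num) hK2
    linarith
  -- the sets
  rw [c7_card, c7_card]
  set A := (c7_box ι N).filter (fun c => c ≠ 0 ∧
      ∃ (x : κ) (P : Finset (PL L)), Cf8 S al (E x) ((el b c : 𝓞 k) : k) P ∧
        ∃ o ∈ P, o.1 ≠ W ∧ Real.log N ^ (1 - 1 / ((2 * K₀ : ℕ) : ℝ)) < Real.log (nv o.2)) with hA
  set D := (c7_box ι N).filter (fun c => c ≠ 0 ∧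
      Real.log Λ ^ 2 < ((TT S ((el b c : 𝓞 k) : k)).ncard : ℝ)) with hDD
  set R : κ → Finset (ι → ℤ) := fun x => (c7_box ι N).filter (fun c => c ≠ 0 ∧
      ∃ P : Finset (PL L), Cfg k S P ∧
      TT S ((el b c : 𝓞 k) : k) = (fun o : PL L => bl k o.2) '' (P : Set (PL L)) ∧
      (∀ o ∈ P, Rel k (E x o) o (sgn al P)) ∧ (P.card : ℝ) ≤ Real.log Λ ^ 2 ∧
      Q P) with hR
  have hsub : A ⊆ D ∪ Finset.univ.biUnion R := by
    intro c hc
    rw [hA, Finset.mem_filter] at hc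
    obtain ⟨hcb, hc0, x, P, hP8, o, ho, hoW, hol⟩ := hc
    obtain ⟨hP, hTT, hrel⟩ := hP8
    by_cases h2 : c ∈ D
    · exact Finset.mem_union_left _ h2
    refine Finset.mem_union_right _ (Finset.mem_biUnion.mpr ⟨x, Finset.mem_univ x, ?_⟩)
    rw [hDD, Finset.mem_filter] at h2
    have h4 : ((TT S ((el b c : 𝓞 k) : k)).ncard : ℝ) ≤ Real.log Λ ^ 2 := by
      by_contra h5
      rw [not_le] at h5
      exact h2 ⟨hcb, hc0, h5⟩
    have hinj : Set.InjOn (fun o : PL L => bl k o.2) (P : Set (PL L)) :=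
      fun o ho o' ho' h => hP.inj o ho o' ho' h
    have h6 : (TT S ((el b c : 𝓞 k) : k)).ncard = P.card := by
      rw [hTT, hinj.ncard_image, Set.ncard_coe_finset]
    rw [h6] at h4
    rw [hR, Finset.mem_filter]
    exact ⟨hcb, hc0, P, hP, hTT, hrel, h4, o, ho, hoW, lt_of_le_of_lt hex hol⟩
  have hcard : (A.card : ℝ) ≤ D.card + ∑ x : κ, ((R x).card : ℝ) := by
    have h1 := Finset.card_le_card hsub
    have h2 := Finset.card_union_le D (Finset.univ.biUnion R)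
    have h4 : (Finset.univ.biUnion R).card ≤ ∑ x : κ, (R x).card := Finset.card_biUnion_le
    have h5 : A.card ≤ D.card + ∑ x : κ, (R x).card := by omega
    exact_mod_cast h5
  have hRx : ∀ x : κ, ((R x).card : ℝ) ≤ C * (C' * (C * (N : ℝ) ^ (Fintype.card ι)) * Λ ^ (-δ)) :=
    fun x => c7_R8 b hC1 hC (E x) Q hQ (fun Ps hPs => ht Λ hΛN (E x) Ps hPs) hN hΛ
  have hRs : ∑ x : κ, ((R x).card : ℝ) ≤
      (Fintype.card κ : ℝ) * (C * (C' * (C * (N : ℝ) ^ (Fintype.card ι)) * Λ ^ (-δ))) := by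
    refine (Finset.sum_le_sum fun x _ => hRx x).trans ?_
    rw [Finset.sum_const, nsmul_eq_mul, Finset.card_univ]
  have hΛpos : 0 < Λ := lt_of_lt_of_le (by linarith) hΛN
  have hpw : (N : ℝ) ^ (Fintype.card ι) ≤ (2 * N + 1) ^ (Fintype.card ι) :=
    pow_le_pow_left₀ (by positivity) (by linarith) _
  have hrp : 0 ≤ Λ ^ (-δ) := Real.rpow_nonneg hΛpos.le _
  have hfin : (Fintype.card κ : ℝ) * (C * (C' * (C * (N : ℝ) ^ (Fintype.card ι)) * Λ ^ (-δ))) ≤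
      ((Fintype.card κ : ℝ) * (C * (C' * C) * Λ ^ (-δ))) * (2 * N + 1) ^ (Fintype.card ι) := by
    have h1 : 0 ≤ (Fintype.card κ : ℝ) * (C * (C' * C) * Λ ^ (-δ)) := by positivity
    have h2 := mul_le_mul_of_nonneg_left hpw h1
    calc _ = ((Fintype.card κ : ℝ) * (C * (C' * C) * Λ ^ (-δ))) * (N : ℝ) ^ (Fintype.card ι) := by
          ring
      _ ≤ _ := h2
  calc (A.card : ℝ) / (2 * N + 1) ^ (Fintype.card ι)
      ≤ (D.card + ((Fintype.card κ : ℝ) * (C * (C' * C) * Λ ^ (-δ))) *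
          (2 * N + 1) ^ (Fintype.card ι)) / (2 * N + 1) ^ (Fintype.card ι) := by
        apply div_le_div_of_nonneg_right _ hD.le
        linarith
    _ = (D.card : ℝ) / (2 * N + 1) ^ (Fintype.card ι) +
        (Fintype.card κ : ℝ) * (C * (C' * C) * Λ ^ (-δ)) := by
        field_simp

end SC8
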