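import Pool.Agent.MP_c1dca2_ag.SC7.U1

/-!
# [SC8] every section of a twist is congruent modulo 2 to the section of the rational Weierstrass
point: definitions
-/

set_option autoImplicit false

open NumberField IsDedekindDomain SC5 SC7

noncomputable section

namespace SC8

/-- The family of the fields `L i` with the chosen generators of primes (`SC5.Fam` without the
conditions on the degrees). -/
structure Fam8 (k : Type) [Field k] [NumberField k] {I : Type} [Fintype I] (L : I → Type)
    [∀ i, Field (L i)] [∀ i, NumberField (L i)] [∀ i, Algebra k (L i)] (S : Finset (Pr k))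
    (al : ∀ i, Pr (L i) → 𝓞 (L i)) (Cg : ℕ) : Prop where
  unr : ∀ i, ∀ v, v ∉ S → ∀ T : Finset (Pr (L i)), (∀ w, w ∈ T ↔ bl k w = v) →
    ∑ w ∈ T, dg k w = Module.finrank k (L i)
  two : ∀ v : Pr k, v ∉ S → (2 : 𝓞 k) ∉ v.asIdeal
  gen : ∀ i, Gen (al i) Cg
  large : ∀ i, ∀ w : Pr (L i), bl k w ∉ S → Cg < nv w

/-- The degrees of the fields: exactly one index `W` has degree `1`. -/
structure Deg8 (k : Type) [Field k] {I : Type} [Fintype I] (L : I → Type) [∀ i, Field (L i)]
    [∀ i, Algebra k (L i)] (W : I) : Prop where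
  one : Module.finrank k (L W) = 1
  two_le : ∀ i, i ≠ W → 2 ≤ Module.finrank k (L i)
  even : Even (∑ i, Module.finrank k (L i))
  six_le : 6 ≤ ∑ i, Module.finrank k (L i)

open scoped Classical in
/-- The cost of the relation at `o`, if the signs at the primes of `L W` are random, too. -/
def cpW (k : Type) [Field k] [NumberField k] {I : Type} [Fintype I] {L : I → Type}
    [∀ i, Field (L i)] [∀ i, NumberField (L i)] [∀ i, Algebra k (L i)] (W : I) (K : ℕ) (Λ : ℝ)
    (p : I → ℕ) (o : PL L) : ℝ :=
  if o.1 ∈ insert W (vis p (blk K Λ o)) then beta3 k (insert W (vis p (blk K Λ o))) o else 1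

open scoped Classical in
/-- The proportion of the signs at the prime of `L W` above `o` for which the relation at `o`
holds. -/
def rw8 (k : Type) [Field k] [NumberField k] {I : Type} [Fintype I] {L : I → Type}
    [∀ i, Field (L i)] [∀ i, NumberField (L i)] [∀ i, Algebra k (L i)] (W : I)
    (E : PL L → PL L → ℤˣ) (o : PL L) (e : PL L → ℤˣ) : ℝ :=
  avg (up k {W} o) (fun e => if Rel k E o e then (1 : ℝ) else 0) e

open scoped Classical in
/-- `1` if `a` is, up to elements of smaller value, a square. -/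
def psi {K : Type} [Field K] [NumberField K] (v : Pr K) (a : K) : ℤˣ :=
  if ∃ t : K, v.valuation K (a - t ^ 2) < v.valuation K a then 1 else -1

/-- `G` depends only on the class modulo `v ^ 3`. -/
def Per {K : Type} [Field K] [NumberField K] (v : Pr K) (G : 𝓞 K → ℝ) : Prop :=
  ∀ a a' : 𝓞 K, a - a' ∈ v.asIdeal ^ 3 → G a = G a'

/-- The mean value of `G` over the classes modulo `v ^ 3`. -/
def mn {K : Type} [Field K] [NumberField K] (v : Pr K) (G : 𝓞 K → ℝ) : ℝ :=
  (∑ᶠ y : 𝓞 K ⧸ (v.asIdeal ^ 3), G (Quotient.out y)) / (nv v : ℝ) ^ 3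

/-- `P` is a configuration for `c` and the relations `E x`. -/
structure Cf8 {k : Type} [Field k] [NumberField k] {I : Type} {L : I → Type}
    [∀ i, Field (L i)] [∀ i, NumberField (L i)] [∀ i, Algebra k (L i)] (S : Finset (Pr k))
    (al : ∀ i, Pr (L i) → 𝓞 (L i)) (E : PL L → PL L → PL L → ℤˣ) (c : k) (P : Finset (PL L)) :
    Prop where
  cfg : Cfg k S P
  tt : TT S c = (fun o => bl k o.2) '' (P : Set (PL L))
  rel : ∀ o ∈ P, Rel k (E o) o (sgn al P)

end SC8
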