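import Pool.Agent.MP_c1dca2_ag.SC5.HD
import Pool.Agent.MP_c1dca2_ag.SC8.Defs

/-!
# [SC8] the interface between `Dat` and the counting half: definitions
-/

set_option autoImplicit false

open NumberField IsDedekindDomain Polynomial SC2 SC3 SC5

noncomputable section

namespace SC8

variable {I : Type} {L : I → Type} [∀ i, Field (L i)] [∀ i, NumberField (L i)]

/-- `S` is large enough (`SC5.GS` without the conditions on the degrees). -/
structure GS8 [Fintype I] (k : Type) [Field k] [NumberField k] [∀ i, Algebra k (L i)] (C : Type)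
    [Field C] [Algebra k C] [Algebra.IsAlgebraic k C] (f : k[X]) (S : Finset (Pr k))
    (al : ∀ i, Pr (L i) → 𝓞 (L i)) (Cg : ℕ) : Prop where
  fam : Fam8 k L S al Cg
  good : ∀ v : Pr k, v ∉ S → ∀ A : ValuationSubring k, IsVal v A → GoodAt A f
  evF : ∀ a b : C, aeval a f = 0 → aeval b f = 0 → ∀ i, ∀ τ : L i →ₐ[k] FF k a b,
    ∀ u : Pr (FF k a b), bl k u ∉ S → ∀ w : Pr (L i),
      (∀ x, w.valuation (L i) x ≤ 1 ↔ u.valuation (FF k a b) (τ x) ≤ 1) →
        ∀ y, Ev u (τ y) ↔ Ev w y

end SC8
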