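import Pool.Agent.MP_c1dca2_ag.SC5.H0
import Pool.Agent.MP_c1dca2_ag.SC5.H3
import Pool.Agent.MP_c1dca2_ag.SC8.HD

/-!
# [SC8-D0] powers of Frobenius fix `k(a, b)` (cf. SC5/H3)
-/

set_option autoImplicit false

open NumberField IsDedekindDomain Polynomial SC2 SC3 SC5

namespace SC8

variable {k L C : Type} [Field k] [NumberField k] [Field L] [NumberField L] [Field C]
  [Algebra k L] [Algebra k C] [IsAlgClosed C]

theorem frob_fix_root {f : k[X]} {A : ValuationSubring k} (hA : GoodAt A f) {V : ValuationSubring C}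
    {w : Pr L} (hAv : IsVal (bl k w) A) {τ : L →ₐ[k] C} (h : Lies τ V w) (θ : L)
    (hθ : aeval θ f = 0) (φ : C ≃ₐ[k] C)
    (hφ : Frob (nv (bl k w)) V φ) (m : ℕ) (hm : dg k w ∣ m) :
    (φ ^ m) (τ θ) = τ θ := by
  obtain ⟨-, hmem, hd, -⟩ := root_facts hA (lies_above h hAv)
  obtain ⟨j, hj⟩ := hm
  have hr : aeval (τ θ) f = 0 := by
    rw [aeval_algHom_apply, hθ, map_zero]
  have hr' : aeval ((φ ^ m) (τ θ)) f = 0 := by
    rw [aeval_algHom_apply, hr, map_zero]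
  have hθV : τ θ ∈ V := hmem _ hr
  obtain ⟨B, hB⟩ := exists_isVal w
  have hθB : θ ∈ B := (hB.mem θ).2 ((h θ).1 hθV)
  have hq : nv (bl k w) ^ m = nv w ^ j := by
    rw [nv_eq (k := k) w, ← pow_mul, ← hj]
  have h1 : w.valuation L (θ ^ (nv w ^ j) - θ) < 1 := by
    rw [← hB.lt]
    have hfin := hB.fin
    let _ := Fintype.ofFinite (IsLocalRing.ResidueField B)
    have hcard : Fintype.card (IsLocalRing.ResidueField B) = nv w := by
      rw [← Nat.card_eq_fintype_card, hB.card]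
      rfl
    have h2 : IsLocalRing.residue B (⟨θ, hθB⟩ ^ (nv w ^ j) - ⟨θ, hθB⟩) = 0 := by
      rw [map_sub, map_pow, ← hcard, FiniteField.pow_card_pow, sub_self]
    rw [IsLocalRing.residue_eq_zero_iff] at h2
    have h3 : θ ^ (nv w ^ j) - θ ∈ B.nonunits := by
      rw [ValuationSubring.mem_nonunits_iff_exists_mem_maximalIdeal]
      exact ⟨_, h2⟩
    exact (B.mem_nonunits_iff).1 h3
  rw [← lies_lt h] at h1
  have h4 : V.valuation ((φ ^ m) (τ θ) - τ θ) < 1 := by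
    have h5 := (frob_pow hφ m).frob (τ θ) hθV
    rw [V.mem_nonunits_iff, hq] at h5
    have h6 : (φ ^ m) (τ θ) - τ θ = ((φ ^ m) (τ θ) - τ θ ^ (nv w ^ j)) +
        τ (θ ^ (nv w ^ j) - θ) := by
      rw [map_sub, map_pow]
      ring
    rw [h6]
    exact Valuation.map_add_lt _ h5 h1
  have h7 : (φ ^ m) (τ θ) = τ θ := by
    by_contra hne
    rw [hd _ _ hr' hr hne] at h4
    exact lt_irrefl _ h4
  exact h7

theorem frob_fixF [Algebra.IsAlgebraic k C] {f : k[X]} {A : ValuationSubring k}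
    (hA : GoodAt A f) {V : ValuationSubring C} {a b : C} (ha : aeval a f = 0)
    (hb : aeval b f = 0) {u : Pr (FF k a b)} (hAv : IsVal (bl k u) A)
    (h : Lies (FF k a b).val V u) (φ : C ≃ₐ[k] C) (hφ : Frob (nv (bl k u)) V φ) (m : ℕ)
    (hm : dg k u ∣ m) : (φ ^ m) a = a ∧ (φ ^ m) b = b := by
  obtain ⟨ha1, hb1⟩ := h0_mem (k := k) a b
  refine ⟨?_, ?_⟩
  · refine frob_fix_root hA hAv h (⟨a, ha1⟩ : FF k a b) ?_ φ hφ m hm
    apply Subtype.ext
    have h1 : ((aeval (⟨a, ha1⟩ : FF k a b) f : FF k a b) : C) = aeval a f :=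
      (aeval_algHom_apply (FF k a b).val (⟨a, ha1⟩ : FF k a b) f).symm
    rw [h1, ha]
    rfl
  · refine frob_fix_root hA hAv h (⟨b, hb1⟩ : FF k a b) ?_ φ hφ m hm
    apply Subtype.ext
    have h1 : ((aeval (⟨b, hb1⟩ : FF k a b) f : FF k a b) : C) = aeval b f :=
      (aeval_algHom_apply (FF k a b).val (⟨b, hb1⟩ : FF k a b) f).symm
    rw [h1, hb]
    rfl

end SC8
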