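import Pool.Agent.MP_c1dca2_ag.SC5.A2
import Pool.Agent.MP_c1dca2_ag.SC5.A7
import Pool.Agent.MP_c1dca2_ag.SC8.Defs

/-!
# [SC8-D1] primes of prime norm modulo which a given nonsquare is not a square (cf. SC7/U3, U3a)

`M = F(√e)`: a number field with `Module.finrank F M = 2` and `θ' : 𝓞 M`, `θ' ^ 2 = e`, such that for every `x : 𝓞 M` there are `A B : 𝓞 F` with
`2 e x = A + B θ'` (in `𝓞 M`): copy `u3a_dec` (and what it uses) of SC7/U3a (it is private there).
1. Let `u : Pr F`, `2 * e ∉ u`, `sg u e = 1`, i.e. `e - b ^ 2 ∈ u` for some `b : 𝓞 F`, and `W : Pr M` with `bl F W = u`. Then `(θ' - b)(θ' + b) ∈ W`, so `θ' ≡ ± b` modulo `W` and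
every `x : 𝓞 M` satisfies `2 e x ≡ A ± B b` modulo `W`; `2 e` is invertible modulo `u`. So every class modulo `W` contains an element of `𝓞 F`: `dg F W = 1`
(copy `u3a_dg`, compare `u3a_main`).
2. `unram F M` gives a finite set `S` such that for `u ∉ S` the sum of the `dg F W` over the `W` above `u` is `2`: for `u` as in 1. outside `S` there are exactly two `W`
above `u`, with `nv W = nv u` (`nv_eq`).
3. `sum_lower F`: `T₀` with `nv u` prime, `z < nv u ≤ z'`, `∑_{T₀} 1/nv u ≥ log (log z'/log z) - C₁`. Let `T₁` be the set of the `u ∈ T₀` outside `S` with `2 e ∉ u`, `sg u e = 1`. By `sum_upper M`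
for the set of the `W` above the `u ∈ T₁`: `2 ∑_{T₁} 1/nv u ≤ log (log z'/log z) + C₂`. The `u ∈ T₀` in `S` or with `2 e ∈ u` contribute at most a constant (finitely many: `finite_mem`).
Take `T` = the other elements of `T₀` (`e ∉ u`, `sg u e = -1`): the sum is at least `(1 - 1/2) log (log z'/log z) - C`.
-/

set_option autoImplicit false

open NumberField IsDedekindDomain SC5 SC7

namespace SC8

private theorem d1_card {K : Type} [Field K] [NumberField K] (v : Pr K) :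
    nv v = Nat.card (𝓞 K ⧸ v.asIdeal) := by
  unfold nv
  rw [Ideal.absNorm_apply, Submodule.cardQuot_apply]

private theorem d1_finite {K : Type} [Field K] [NumberField K] (v : Pr K) :
    Finite (𝓞 K ⧸ v.asIdeal) := Ideal.finiteQuotientOfFreeOfNeBot v.asIdeal v.ne_bot

private theorem d1_dg {k L : Type} [Field k] [NumberField k] [Field L] [NumberField L]
    [Algebra k L] (u : Pr L)
    (h : ∀ y : 𝓞 L, ∃ b : 𝓞 k, y - algebraMap (𝓞 k) (𝓞 L) b ∈ u.asIdeal) : dg k u = 1 := by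
  have hle : (bl k u).asIdeal ≤ Ideal.comap (algebraMap (𝓞 k) (𝓞 L)) u.asIdeal := fun a ha => ha
  let f : 𝓞 k ⧸ (bl k u).asIdeal →+* 𝓞 L ⧸ u.asIdeal :=
    Ideal.quotientMap u.asIdeal (algebraMap (𝓞 k) (𝓞 L)) hle
  have hsurj : Function.Surjective f := by
    intro c
    obtain ⟨y, rfl⟩ := Ideal.Quotient.mk_surjective c
    obtain ⟨b, hb⟩ := h y
    refine ⟨Ideal.Quotient.mk _ b, ?_⟩
    have h1 : f (Ideal.Quotient.mk _ b) = Ideal.Quotient.mk _ (algebraMap (𝓞 k) (𝓞 L) b) :=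
      Ideal.quotientMap_mk
    rw [h1]
    exact (Ideal.Quotient.eq.2 hb).symm
  have hfin := d1_finite (bl k u)
  have h1 := Nat.card_le_card_of_surjective f hsurj
  rw [← d1_card, ← d1_card, nv_eq (k := k) u] at h1
  have h2 := two_le_nv (bl k u)
  have h3 : dg k u ≤ 1 := by
    by_contra hcon
    push Not at hcon
    have h4 : nv (bl k u) ^ 1 < nv (bl k u) ^ dg k u := Nat.pow_lt_pow_right (by omega) hcon
    rw [pow_one] at h4
    omega
  have h4 := dg_pos (k := k) u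
  omega

open Polynomial in
private theorem d1_dec {Ls : Type} [Field Ls] [NumberField Ls] (a' : 𝓞 Ls)
    (hns : ∀ c : Ls, c ^ 2 ≠ (a' : Ls)) :
    ∃ (M : Type) (_ : Field M) (_ : NumberField M) (_ : Algebra Ls M),
      Module.finrank Ls M = 2 ∧ ∃ θ' : 𝓞 M, θ' ^ 2 = algebraMap (𝓞 Ls) (𝓞 M) a' ∧
        ∀ x : 𝓞 M, ∃ A B : 𝓞 Ls, algebraMap (𝓞 Ls) (𝓞 M) (2 * a') * x =
          algebraMap (𝓞 Ls) (𝓞 M) A + algebraMap (𝓞 Ls) (𝓞 M) B * θ' := by
  have hirr : Irreducible (X ^ 2 - C (a' : Ls)) :=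
    X_pow_sub_C_irreducible_of_prime Nat.prime_two hns
  have hfact : Fact (Irreducible (X ^ 2 - C (a' : Ls))) := ⟨hirr⟩
  let M := AdjoinRoot (X ^ 2 - C (a' : Ls))
  have hf0 : (X ^ 2 - C (a' : Ls)) ≠ 0 := hirr.ne_zero
  let pb : PowerBasis Ls M := AdjoinRoot.powerBasis hf0
  have hpbdim : pb.dim = 2 := by
    show (AdjoinRoot.powerBasis hf0).dim = 2
    rw [AdjoinRoot.powerBasis_dim, natDegree_X_pow_sub_C]
  have hpbgen : pb.gen = AdjoinRoot.root _ := AdjoinRoot.powerBasis_gen hf0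
  have hfin : Module.Finite Ls M := pb.finite
  have hchar : CharZero M := charZero_of_injective_algebraMap (algebraMap Ls M).injective
  have hfd : FiniteDimensional ℚ M := Module.Finite.trans (R := ℚ) Ls M
  have hNF : NumberField M := ⟨⟩
  have hroot : (AdjoinRoot.root (X ^ 2 - C (a' : Ls)) : M) ^ 2 = algebraMap Ls M (a' : Ls) := by
    have h1 := AdjoinRoot.eval₂_root (X ^ 2 - C (a' : Ls))
    rw [eval₂_sub, eval₂_pow, eval₂_X, eval₂_C, sub_eq_zero] at h1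
    exact h1
  set ρ : M := AdjoinRoot.root (X ^ 2 - C (a' : Ls)) with hρ
  have hσ : ∃ σ : M →ₐ[Ls] M, σ ρ = -ρ := by
    refine ⟨AdjoinRoot.liftAlgHom _ (Algebra.ofId Ls M) (-ρ) ?_, AdjoinRoot.liftAlgHom_root _ _ _ _⟩
    rw [eval₂_sub, eval₂_pow, eval₂_X, eval₂_C, neg_sq, hroot, sub_eq_zero]
    rfl
  obtain ⟨σ, hσ⟩ := hσ
  have hrep : ∀ x : M, ∃ r s : Ls, x = algebraMap Ls M r + algebraMap Ls M s * ρ := by
    intro x
    obtain ⟨g, hg, hx⟩ := pb.exists_eq_aeval x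
    rw [hpbdim] at hg
    have hg1 : g = C (g.coeff 1) * X + C (g.coeff 0) :=
      eq_X_add_C_of_natDegree_le_one (by omega)
    refine ⟨g.coeff 0, g.coeff 1, ?_⟩
    rw [hx, hpbgen]
    conv_lhs => rw [hg1]
    rw [map_add, map_mul, aeval_C, aeval_C, aeval_X, add_comm]
  have hρint : IsIntegral ℤ ρ := by
    apply IsIntegral.of_pow (n := 2) (by norm_num)
    rw [hroot]
    exact (a'.isIntegral_coe).map (Algebra.algHom ℤ Ls M)
  have hpull : ∀ r : Ls, IsIntegral ℤ (algebraMap Ls M r) → IsIntegral ℤ r := fun r hr =>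
    (isIntegral_algebraMap_iff (algebraMap Ls M).injective).1 hr
  refine ⟨M, inferInstance, hNF, inferInstance, ?_, ⟨ρ, hρint⟩, ?_, ?_⟩
  · rw [pb.finrank, hpbdim]
  · apply RingOfIntegers.ext
    exact hroot
  · intro x
    obtain ⟨r, s, hx⟩ := hrep (x : M)
    have hxint : IsIntegral ℤ (x : M) := x.isIntegral_coe
    have hσint : IsIntegral ℤ (σ (x : M)) := hxint.map (σ.restrictScalars ℤ)
    have hσx : σ (x : M) = algebraMap Ls M r - algebraMap Ls M s * ρ := by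
      rw [hx, map_add, map_mul, AlgHom.commutes, AlgHom.commutes, hσ]
      ring
    have h1 : IsIntegral ℤ (2 * r) := by
      apply hpull
      have h2 : algebraMap Ls M (2 * r) = (x : M) + σ (x : M) := by
        rw [hσx, hx, map_mul, map_ofNat]
        ring
      rw [h2]
      exact hxint.add hσint
    have h2 : IsIntegral ℤ (2 * s * (a' : Ls)) := by
      apply hpull
      have h3 : algebraMap Ls M (2 * s * (a' : Ls)) = ((x : M) - σ (x : M)) * ρ := by
        rw [hσx, hx, map_mul, map_mul, map_ofNat, ← hroot]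
        ring
      rw [h3]
      exact (hxint.sub hσint).mul hρint
    refine ⟨a' * ⟨2 * r, h1⟩, ⟨2 * s * (a' : Ls), h2⟩, ?_⟩
    apply RingOfIntegers.ext
    show algebraMap Ls M ((2 * a' : 𝓞 Ls) : Ls) * (x : M) =
      algebraMap Ls M ((a' : Ls) * (2 * r)) + algebraMap Ls M (2 * s * (a' : Ls)) * ρ
    have h4 : ((2 * a' : 𝓞 Ls) : Ls) = 2 * (a' : Ls) := by
      show algebraMap (𝓞 Ls) Ls (2 * a') = _
      rw [map_mul, map_ofNat]
    rw [h4, hx]
    simp only [map_mul, map_ofNat]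
    ring

private theorem d1_two {Ls M : Type} [Field Ls] [NumberField Ls] [Field M] [NumberField M]
    [Algebra Ls M] (w : Pr Ls)
    (h : ∑ W ∈ (finite_bl (k := Ls) (L := M) w).toFinset, dg Ls W = 2)
    (hW : ∃ W : Pr M, bl Ls W = w ∧ dg Ls W = 1) :
    2 ≤ ((finite_bl (k := Ls) (L := M) w).toFinset.filter (fun W => dg Ls W = 1)).card := by
  classical
  obtain ⟨W0, h0, h1⟩ := hW
  set A := (finite_bl (k := Ls) (L := M) w).toFinset with hA
  have hW0 : W0 ∈ A := (Set.Finite.mem_toFinset _).2 h0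
  have h2 : dg Ls W0 + ∑ W ∈ A.erase W0, dg Ls W = 2 := by
    rw [Finset.add_sum_erase A _ hW0]
    exact h
  rw [h1] at h2
  have h3 : ∑ W ∈ A.erase W0, dg Ls W = 1 := by omega
  have h4 : ∃ W1 ∈ A.erase W0, dg Ls W1 ≠ 0 := by
    by_contra hcon
    push Not at hcon
    rw [Finset.sum_eq_zero hcon] at h3
    omega
  obtain ⟨W1, hW1, h5⟩ := h4
  have h6 : dg Ls W1 ≤ 1 := by
    rw [← h3]
    exact Finset.single_le_sum (f := fun W => dg Ls W) (fun _ _ => Nat.zero_le _) hW1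
  have h7 : ({W0, W1} : Finset (Pr M)) ⊆ A.filter (fun W => dg Ls W = 1) := by
    intro W hW
    rw [Finset.mem_insert, Finset.mem_singleton] at hW
    rw [Finset.mem_filter]
    rcases hW with rfl | rfl
    · exact ⟨hW0, h1⟩
    · exact ⟨Finset.mem_of_mem_erase hW1, by omega⟩
  calc 2 = ({W0, W1} : Finset (Pr M)).card :=
        (Finset.card_pair (Finset.ne_of_mem_erase hW1).symm).symm
    _ ≤ _ := Finset.card_le_card h7

private theorem d1_main {Ls M : Type} [Field Ls] [NumberField Ls] [Field M] [NumberField M]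
    [Algebra Ls M] (e : 𝓞 Ls) (θ' : 𝓞 M)
    (hθ' : θ' ^ 2 = algebraMap (𝓞 Ls) (𝓞 M) e)
    (hdec : ∀ x : 𝓞 M, ∃ A B : 𝓞 Ls,
      algebraMap (𝓞 Ls) (𝓞 M) (2 * e) * x =
        algebraMap (𝓞 Ls) (𝓞 M) A + algebraMap (𝓞 Ls) (𝓞 M) B * θ')
    (w : Pr Ls) (hw : 2 * e ∉ w.asIdeal) (hs : sg w e = 1) (W : Pr M) (hW : bl Ls W = w) :
    dg Ls W = 1 := by
  have hsq : IsSquare (Ideal.Quotient.mk w.asIdeal e) := by
    unfold sg at hs
    by_contra hcon
    rw [if_neg hcon] at hs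
    exact absurd hs (by decide)
  obtain ⟨c, hc⟩ := hsq
  obtain ⟨b, rfl⟩ := Ideal.Quotient.mk_surjective c
  have h1 : e - b ^ 2 ∈ w.asIdeal := by
    rw [← map_mul] at hc
    have := Ideal.Quotient.eq.1 hc
    rwa [← sq] at this
  have h2 : algebraMap (𝓞 Ls) (𝓞 M) (e - b ^ 2) ∈ W.asIdeal := by
    rw [← mem_bl, hW]
    exact h1
  have h3 : algebraMap (𝓞 Ls) (𝓞 M) (e - b ^ 2) =
      (θ' - algebraMap (𝓞 Ls) (𝓞 M) b) *
        (θ' - algebraMap (𝓞 Ls) (𝓞 M) (- b)) := by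
    rw [map_sub, map_pow, ← hθ', map_neg]
    ring
  rw [h3] at h2
  have h4 : ∃ β : 𝓞 Ls, θ' - algebraMap (𝓞 Ls) (𝓞 M) β ∈ W.asIdeal := by
    rcases W.isPrime.mem_or_mem h2 with h5 | h5
    · exact ⟨_, h5⟩
    · exact ⟨_, h5⟩
  obtain ⟨β, hβ⟩ := h4
  obtain ⟨t, ht⟩ : ∃ t : 𝓞 Ls, t * (2 * e) - 1 ∈ w.asIdeal := by
    have hmax : w.asIdeal.IsMaximal := w.isMaximal
    obtain ⟨t, i, hi, h6⟩ := hmax.exists_inv hw
    refine ⟨t, ?_⟩
    have h7 : t * (2 * e) - 1 = - i := by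
      rw [← h6]
      ring
    rw [h7]
    exact neg_mem hi
  apply d1_dg
  intro y
  obtain ⟨A, B, hAB⟩ := hdec y
  refine ⟨t * (A + B * β), ?_⟩
  have ht' : algebraMap (𝓞 Ls) (𝓞 M) (t * (2 * e) - 1) ∈ W.asIdeal := by
    rw [← mem_bl, hW]
    exact ht
  have h6 : y - algebraMap (𝓞 Ls) (𝓞 M) (t * (A + B * β)) =
      algebraMap (𝓞 Ls) (𝓞 M) t * algebraMap (𝓞 Ls) (𝓞 M) B *
        (θ' - algebraMap (𝓞 Ls) (𝓞 M) β) -
      y * algebraMap (𝓞 Ls) (𝓞 M) (t * (2 * e) - 1) := by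
    have h7 : algebraMap (𝓞 Ls) (𝓞 M) (t * (2 * e) - 1) =
        algebraMap (𝓞 Ls) (𝓞 M) t *
          algebraMap (𝓞 Ls) (𝓞 M) (2 * e) - 1 := by
      rw [map_sub, map_mul, map_one]
    rw [h7, map_mul, map_add, map_mul]
    have h8 : y * (algebraMap (𝓞 Ls) (𝓞 M) t *
          algebraMap (𝓞 Ls) (𝓞 M) (2 * e) - 1) =
        algebraMap (𝓞 Ls) (𝓞 M) t *
          (algebraMap (𝓞 Ls) (𝓞 M) (2 * e) * y) - y := by
      ring
    rw [h8, hAB]
    ring
  rw [h6]
  exact sub_mem (Ideal.mul_mem_left _ _ hβ) (Ideal.mul_mem_left _ _ ht')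

theorem nonres {F : Type} [Field F] [NumberField F] (e : 𝓞 F) (he : ∀ c : F, c ^ 2 ≠ (e : F)) :
    ∃ C : ℝ, ∀ z z' : ℝ, 3 / 2 ≤ z → z ≤ z' → ∃ T : Finset (Pr F),
      (∀ u ∈ T, (nv u).Prime ∧ e ∉ u.asIdeal ∧ sg u e = -1 ∧ z < nv u ∧ (nv u : ℝ) ≤ z') ∧
        1 / 2 * Real.log (Real.log z' / Real.log z) - C ≤ ∑ u ∈ T, ((nv u : ℝ))⁻¹ := by
  classical
  have he0 : e ≠ 0 := by
    rintro rfl
    exact he 0 (by simp)
  obtain ⟨M, _, _, _, hM, θ', hθ', hdec⟩ := d1_dec e he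
  have h2e : (2 * e : 𝓞 F) ≠ 0 := mul_ne_zero two_ne_zero he0
  obtain ⟨C₁, hC₁⟩ := sum_lower F
  obtain ⟨C₃, hC₃⟩ := sum_upper M
  obtain ⟨Sr, hSr⟩ := unram F M
  set E : Finset (Pr F) := Sr ∪ (finite_mem (2 * e) h2e).toFinset with hE
  refine ⟨C₁ + E.card + C₃ / 2, fun z z' hz hzz => ?_⟩
  obtain ⟨T, hT, hsum⟩ := hC₁ z z' hz hzz
  set l : ℝ := Real.log (Real.log z' / Real.log z) with hl
  set Q : Pr F → Prop := fun w => ∃ W : Pr M, bl F W = w ∧ dg F W = 1 with hQ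
  -- removing the exceptional primes
  have hE1 : ∑ w ∈ T, ((nv w : ℝ))⁻¹ ≤ ∑ w ∈ T \ E, ((nv w : ℝ))⁻¹ + E.card := by
    rw [← Finset.sum_inter_add_sum_sdiff T E, add_comm]
    gcongr
    calc ∑ w ∈ T ∩ E, ((nv w : ℝ))⁻¹ ≤ ∑ w ∈ T ∩ E, (1 : ℝ) := by
          refine Finset.sum_le_sum fun w _ => ?_
          have h3 : (1 : ℝ) ≤ nv w := by
            have := two_le_nv w
            exact_mod_cast (by omega : 1 ≤ nv w)
          exact inv_le_one_of_one_le₀ h3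
      _ = (T ∩ E).card := by simp
      _ ≤ E.card := by exact_mod_cast Finset.card_le_card Finset.inter_subset_right
  have hsplit : ∑ w ∈ T \ E, ((nv w : ℝ))⁻¹ = ∑ w ∈ (T \ E).filter Q, ((nv w : ℝ))⁻¹ +
      ∑ w ∈ (T \ E).filter (fun w => ¬ Q w), ((nv w : ℝ))⁻¹ :=
    (Finset.sum_filter_add_sum_filter_not _ _ _).symm
  -- the primes with a prime of degree one above
  have hup : 2 * ∑ w ∈ (T \ E).filter Q, ((nv w : ℝ))⁻¹ ≤ l + C₃ := by
    set U : Finset (Pr M) := ((T \ E).filter Q).biUnion (fun w =>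
      (finite_bl (k := F) (L := M) w).toFinset.filter (fun W => dg F W = 1)) with hU
    have hnv : ∀ w : Pr F, ∀ W ∈ (finite_bl (k := F) (L := M) w).toFinset.filter
        (fun W => dg F W = 1), nv W = nv w := by
      intro w W hW
      rw [Finset.mem_filter, Set.Finite.mem_toFinset] at hW
      have h1 := nv_eq (k := F) W
      rw [hW.2, pow_one] at h1
      rw [h1]
      exact congrArg nv hW.1
    have h1 := hC₃ z z' hz hzz U (by
      intro W hW
      rw [hU, Finset.mem_biUnion] at hW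
      obtain ⟨w, hw, hW⟩ := hW
      rw [Finset.mem_filter, Finset.mem_sdiff] at hw
      rw [hnv w W hW]
      exact (hT w hw.1.1).2)
    have h2 : ∑ W ∈ U, ((nv W : ℝ))⁻¹ = ∑ w ∈ (T \ E).filter Q,
        ∑ W ∈ (finite_bl (k := F) (L := M) w).toFinset.filter (fun W => dg F W = 1),
          ((nv W : ℝ))⁻¹ := by
      rw [hU]
      apply Finset.sum_biUnion
      intro w _ w' _ hne
      rw [Function.onFun, Finset.disjoint_left]
      intro W hW hW'
      rw [Finset.mem_filter, Set.Finite.mem_toFinset] at hW hW'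
      exact hne (hW.1.symm.trans hW'.1)
    rw [h2] at h1
    refine le_trans ?_ h1
    rw [Finset.mul_sum]
    apply Finset.sum_le_sum
    intro w hw
    rw [Finset.mem_filter, Finset.mem_sdiff] at hw
    have hwE : w ∉ Sr := fun h => hw.1.2 (Finset.mem_union_left _ h)
    have h3 : ∑ W ∈ (finite_bl (k := F) (L := M) w).toFinset, dg F W = 2 := by
      rw [← hM]
      exact (hSr w hwE).1 _ (fun W => Set.Finite.mem_toFinset _)
    have h4 := d1_two w h3 hw.2
    rw [Finset.sum_congr rfl (fun W hW => by rw [hnv w W hW]), Finset.sum_const, nsmul_eq_mul]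
    apply mul_le_mul_of_nonneg_right _ (by positivity)
    exact_mod_cast h4
  refine ⟨(T \ E).filter (fun w => ¬ Q w), fun u hu => ?_, by linarith⟩
  rw [Finset.mem_filter, Finset.mem_sdiff] at hu
  obtain ⟨⟨huT, huE⟩, huQ⟩ := hu
  obtain ⟨hp, hz1, hz2⟩ := hT u huT
  have h2 : 2 * e ∉ u.asIdeal := by
    intro h
    apply huE
    rw [hE, Finset.mem_union, Set.Finite.mem_toFinset]
    exact Or.inr h
  refine ⟨hp, fun h => h2 (Ideal.mul_mem_left _ _ h), ?_, hz1, hz2⟩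
  by_contra hs
  have hs1 : sg u e = 1 := by
    unfold sg at hs ⊢
    split_ifs with h
    · rfl
    · rw [if_neg h] at hs
      exact absurd rfl hs
  obtain ⟨W, hW⟩ := exists_bl (k := F) (L := M) u
  exact huQ ⟨W, hW, d1_main e θ' hθ' hdec u h2 hs1 W hW⟩

end SC8
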