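import Pool.Agent.MP_c1dca2_ag.SC8.D1
import Pool.Agent.MP_c1dca2_ag.SC5.A8

/-!
# [SC8-D2] the norms of these primes are not summable

Suppose the series converges, with sum `s`. Let `T` be as in `nonres` with `z = 2` and remove the `u` with `bl k u ∈ S` (finitely many `u`, `finite_bl`; they contribute at most a constant `C'`).
For the others `nv u` is prime, so `dg k u = 1` and `nv (bl k u) = nv u` (`a8_dg`); `p = nv u` is in the index set (with `v = bl k u`). Over every `p` there are at most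
`finrank ℚ F` primes `u` with `nv u = p` (`bl ℚ`-fibres: `card_bl` for `ℚ ⊆ F`; or: `(p : 𝓞 F) ∈ u`, and the number of the `u` containing `p` is at most `finrank ℚ F`).
So `∑_{u ∈ T} 1/nv u ≤ C' + finrank ℚ F * s` for all `z'`, a contradiction for `z' → ∞` (`Real.tendsto_log_atTop`).
-/

set_option autoImplicit false

open NumberField IsDedekindDomain SC5 SC7

namespace SC8

private theorem d2_surj (x : 𝓞 ℚ) : ∃ n : ℤ, (n : 𝓞 ℚ) = x := by
  refine ⟨Rat.ringOfIntegersEquiv x, ?_⟩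
  have h := Rat.ringOfIntegersEquiv.symm_apply_apply x
  conv_rhs => rw [← h]
  rw [← map_intCast (Rat.ringOfIntegersEquiv.symm : ℤ →+* 𝓞 ℚ)]
  simp

private theorem d2_mem (v : Pr ℚ) : ((nv v : ℕ) : 𝓞 ℚ) ∈ v.asIdeal := by
  unfold nv
  exact Ideal.absNorm_mem v.asIdeal

private theorem d2_le (v v' : Pr ℚ) (hp : (nv v).Prime) (h : nv v = nv v') : v.asIdeal ≤ v'.asIdeal := by
  intro x hx
  obtain ⟨n, rfl⟩ := d2_surj x
  have h1 : ((nv v : ℕ) : ℤ) ∣ n := by
    by_contra hcon
    have hc : IsCoprime ((nv v : ℕ) : ℤ) n := by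
      rw [Int.isCoprime_iff_gcd_eq_one]
      have := (Nat.Prime.coprime_iff_not_dvd hp (n := n.natAbs)).2 (fun hd => hcon (Int.natCast_dvd.2 hd))
      simpa [Int.gcd, Int.natAbs_natCast] using this
    obtain ⟨a, b, hab⟩ := hc
    apply v.isPrime.ne_top
    rw [Ideal.eq_top_iff_one]
    have h2 : (1 : 𝓞 ℚ) = (a : 𝓞 ℚ) * ((nv v : ℕ) : 𝓞 ℚ) + (b : 𝓞 ℚ) * (n : 𝓞 ℚ) := by
      have := congrArg (fun m : ℤ => (m : 𝓞 ℚ)) hab
      push_cast at this
      exact this.symm
    rw [h2]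
    exact add_mem (Ideal.mul_mem_left _ _ (d2_mem v)) (Ideal.mul_mem_left _ _ hx)
  obtain ⟨m, rfl⟩ := h1
  push_cast
  rw [h]
  exact Ideal.mul_mem_right _ _ (d2_mem v')

private theorem d2_eq (v v' : Pr ℚ) (hp : (nv v).Prime) (h : nv v = nv v') : v = v' :=
  HeightOneSpectrum.ext (le_antisymm (d2_le v v' hp h) (d2_le v' v (h ▸ hp) h.symm))

private theorem d2_card {F : Type} [Field F] [NumberField F] (T : Finset (Pr F)) (p : ℕ) (hp : p.Prime)
    (hT : ∀ u ∈ T, nv u = p) : T.card ≤ Module.finrank ℚ F := by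
  classical
  rcases T.eq_empty_or_nonempty with h | ⟨u0, hu0⟩
  · rw [h]
    simp
  · have h1 : ∀ u ∈ T, bl ℚ u = bl ℚ u0 := by
      intro u hu
      have hu1 := a8_dg (k := ℚ) u (by rw [hT u hu]; exact hp)
      have hu2 := a8_dg (k := ℚ) u0 (by rw [hT u0 hu0]; exact hp)
      apply d2_eq
      · rw [hu1.2, hT u hu]
        exact hp
      · rw [hu1.2, hu2.2, hT u hu, hT u0 hu0]
    refine le_trans ?_ (card_bl (k := ℚ) (bl ℚ u0) T h1)
    rw [Finset.card_eq_sum_ones]
    exact Finset.sum_le_sum fun W _ => dg_pos (k := ℚ) W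

theorem nonres_sum {k F : Type} [Field k] [NumberField k] [Field F] [NumberField F]
    [Algebra k F] (S : Finset (Pr k)) (e : 𝓞 F) (he : ∀ c : F, c ^ 2 ≠ (e : F)) :
    ¬ Summable (fun p : {p : ℕ | p.Prime ∧ ∃ v : Pr k, v ∉ S ∧ nv v = p ∧
      ∃ u : Pr F, bl k u = v ∧ dg k u = 1 ∧ e ∉ u.asIdeal ∧ sg u e = -1} =>
        ((p : ℕ) : ℝ)⁻¹) := by
  classical
  intro hsum
  set Idx : Set ℕ := {p : ℕ | p.Prime ∧ ∃ v : Pr k, v ∉ S ∧ nv v = p ∧
      ∃ u : Pr F, bl k u = v ∧ dg k u = 1 ∧ e ∉ u.asIdeal ∧ sg u e = -1} with hIdx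
  have hsum' : Summable (Idx.indicator (fun p : ℕ => (p : ℝ)⁻¹)) :=
    summable_subtype_iff_indicator.1 hsum
  set s₀ : ℝ := ∑' p, Idx.indicator (fun p : ℕ => (p : ℝ)⁻¹) p with hs₀
  obtain ⟨C, hC⟩ := nonres e he
  set E : Finset (Pr F) := S.biUnion (fun v => (finite_bl (k := k) (L := F) v).toFinset) with hE
  set D : ℝ := (Module.finrank ℚ F : ℝ) with hD
  -- the bound
  have hb : ∀ z' : ℝ, 2 ≤ z' → 1 / 2 * Real.log (Real.log z' / Real.log 2) - C ≤ E.card + D * s₀ := by
    intro z' hz'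
    obtain ⟨T, hT, hl⟩ := hC 2 z' (by norm_num) hz'
    refine hl.trans ?_
    rw [← Finset.sum_inter_add_sum_sdiff T E]
    apply add_le_add
    · calc ∑ w ∈ T ∩ E, ((nv w : ℝ))⁻¹ ≤ ∑ w ∈ T ∩ E, (1 : ℝ) := by
            refine Finset.sum_le_sum fun w _ => ?_
            have h3 : (1 : ℝ) ≤ nv w := by
              have := two_le_nv w
              exact_mod_cast (by omega : 1 ≤ nv w)
            exact inv_le_one_of_one_le₀ h3
        _ = (T ∩ E).card := by simp
        _ ≤ E.card := by exact_mod_cast Finset.card_le_card Finset.inter_subset_right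
    · have hmem : ∀ u ∈ T \ E, nv u ∈ Idx := by
        intro u hu
        rw [Finset.mem_sdiff] at hu
        obtain ⟨h1, h2, h3, _, _⟩ := hT u hu.1
        obtain ⟨h4, h5⟩ := a8_dg (k := k) u h1
        refine ⟨h1, bl k u, fun hS => hu.2 ?_, h5, u, rfl, h4, h2, h3⟩
        rw [hE, Finset.mem_biUnion]
        exact ⟨_, hS, (Set.Finite.mem_toFinset _).2 rfl⟩
      rw [← Finset.sum_fiberwise_of_maps_to (t := (T \ E).image nv) (g := nv)
        (fun u hu => Finset.mem_image_of_mem _ hu)]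
      have h6 : ∀ p ∈ (T \ E).image nv, ∑ u ∈ (T \ E).filter (fun u => nv u = p), ((nv u : ℝ))⁻¹ ≤
          D * Idx.indicator (fun p : ℕ => (p : ℝ)⁻¹) p := by
        intro p hp
        obtain ⟨u, hu, rfl⟩ := Finset.mem_image.1 hp
        rw [Set.indicator_of_mem (hmem u hu)]
        have hpr : (nv u).Prime := (hmem u hu).1
        rw [Finset.sum_congr rfl (fun w hw => by rw [(Finset.mem_filter.1 hw).2]), Finset.sum_const,
          nsmul_eq_mul]
        apply mul_le_mul_of_nonneg_right _ (by positivity)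
        rw [hD]
        exact_mod_cast d2_card _ (nv u) hpr (fun w hw => (Finset.mem_filter.1 hw).2)
      refine (Finset.sum_le_sum h6).trans ?_
      rw [← Finset.mul_sum]
      apply mul_le_mul_of_nonneg_left _ (by positivity)
      exact hsum'.sum_le_tsum _ (fun p _ => Set.indicator_nonneg (fun _ _ => by positivity) _)
  -- the contradiction
  set R : ℝ := 2 * (C + (E.card + D * s₀)) with hR
  have hl2 : 0 < Real.log 2 := Real.log_pos (by norm_num)
  have h1 := hb (Real.exp (Real.log 2 * Real.exp (|R| + 1))) (by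
    have h2 : (1 : ℝ) ≤ Real.exp (|R| + 1) := Real.one_le_exp (by positivity)
    calc (2 : ℝ) = Real.exp (Real.log 2) := (Real.exp_log (by norm_num)).symm
      _ ≤ Real.exp (Real.log 2 * Real.exp (|R| + 1)) := by
          apply Real.exp_le_exp.2
          nlinarith)
  rw [Real.log_exp, mul_div_cancel_left₀ _ hl2.ne', Real.log_exp] at h1
  have h2 := le_abs_self R
  linarith

end SC8
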