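import Pool.Agent.MP_c1dca2_ag.SC4.X2
import Pool.Agent.MP_c1dca2_ag.SC4.X3
import Pool.Agent.MP_c1dca2_ag.SC8.Defs

/-!
# [SC8-D3] elements avoiding a large set of primes
-/

set_option autoImplicit false

open NumberField IsDedekindDomain SC5 SC7 Filter Topology

namespace SC8

theorem avoid {k : Type} [Field k] [NumberField k] {ι : Type} [Fintype ι]
    (b : Module.Basis ι ℤ (𝓞 k)) (V : Set (Pr k))
    (hV : ¬ Summable (fun p : {p : ℕ | p.Prime ∧ ∃ v ∈ V, nv v = p} => ((p : ℕ) : ℝ)⁻¹)) :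
    Tendsto (fun N : ℕ => (Nat.card {c : ι → ℤ // (∀ i, |c i| ≤ N) ∧
      ∀ v ∈ V, ¬ (el b c ∈ v.asIdeal ∧ el b c ∉ v.asIdeal ^ 2)} : ℝ) /
        (2 * N + 1) ^ (Fintype.card ι)) atTop (𝓝 0) := by
  classical
  have key : ∀ p : ℕ, ∃ Sp : Set (ι → ZMod (p ^ 2)),
      (p.Prime ∧ ∃ v ∈ V, nv v = p) →
        ((Nat.card Sp : ℝ) ≤ (1 - ((p : ℝ) - 1) / (p : ℝ) ^ 2) * ((p : ℝ) ^ 2) ^ (Fintype.card ι) ∧
        ∀ c : ι → ℤ, (∀ v ∈ V, ¬ (el b c ∈ v.asIdeal ∧ el b c ∉ v.asIdeal ^ 2)) →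
          (fun i => (c i : ZMod (p ^ 2))) ∈ Sp) := by
    intro p
    by_cases hp : p.Prime ∧ ∃ v ∈ V, nv v = p
    · obtain ⟨hp1, v, hv, hvp⟩ := hp
      obtain ⟨A, hA1, hA2⟩ := SC4.card_class b p hp1 v.asIdeal hvp
      exact ⟨A, fun _ => ⟨hA1, fun c hc => hA2 c (hc v hv)⟩⟩
    · exact ⟨Set.univ, fun h => absurd h hp⟩
  choose Sp hSp using key
  exact SC4.density_zero {p : ℕ | p.Prime ∧ ∃ v ∈ V, nv v = p} (fun p hp => hp.1) hV Sp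
    (fun p hp => (hSp p hp).1)
    {c | ∀ v ∈ V, ¬ (el b c ∈ v.asIdeal ∧ el b c ∉ v.asIdeal ^ 2)}
    (fun c hc p hp => (hSp p hp).2 c hc)

end SC8
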