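import Pool.Agent.MP_c1dca2_ag.SC8.H7
import Pool.Agent.MP_c1dca2_ag.SC8.D0
import Pool.Agent.MP_c1dca2_ag.SC5.H4
import Pool.Agent.MP_c1dca2_ag.SC5.H5

/-!
# [SC8-D4] the classes of a section whose non-rational special roots are all at small primes

Let `w' = algebraMap k C w`. (compare the proofs of `SC8.kap_even8` (H8) and `SC8.rel_key8` (J1))
`rho_w`: `A` the valuation ring of `v`, `V` above `A`. `D.root` and `emb_surj`: `D.ρ V = τ (θ i)`; `lies_exists`: `w₁ : Pr (L i)` with `Lies τ V w₁`, `bl k w₁ = v`; `Conf.mem`: `⟨i, w₁⟩ ∈ P`.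
`nv w₁ ≥ nv v > B` (`nv_bl_le`), so `i = W` by `hB` and `D.ρ V = τ (θ W) = w'` (`hW`, `AlgHom.commutes`).
`ev_small`: `D.δ a b ∈ FF k a b` (`D.fix`, `FF_mem`), `≠ 0`. Let `u`, `v = bl k u ∉ S`, `B < nv v`; `V` with `Lies F.val V u` (`above_val`), `A` (`exists_isVal`), `Above A V` (`lies_above`), `GoodAt A f`
(`hS.good`), `V.valuation 2 = 1` (`root_facts`). `z² = D.δ a b`; by `ev_of_fix` it is enough that inertia fixes `z`: `D.even` (if `¬ EvA A c`, then `v ∈ TT S c`, `D.ρ V = w'` by `rho_w`, `≠ a, b`;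
if `EvA A c` there is no condition).
`sq_local`: `v = bl k u ∈ TT S c`, `B < nv v`, `dg k u = 1`. `V`, `A` as above, `φ` with `Frob (nv v) V φ` (`SC2.exists_frob`, `hA.card`, `hA.fin`; as in SC5/J2). `φ a = a`, `φ b = b` (`frob_fixF` with `m = 1`).
`D.ρ V = w'`. Choose `zδ² = D.δ a b`, `γ² = (w' - a)(w' - b)`, `ε² = e` in `C`. `D.sgn` (with `g = φ`): `φ zδ * γ = zδ * φ γ`. `(zδ ε)² = t²`, so `zδ ε = ± t` is fixed by `φ` (`FF_fix`). So `φ zδ φ ε = zδ ε` and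
`φ (ε γ) = ε γ` (`zδ, ε, γ ≠ 0`; all of `φ zδ / zδ`, `φ ε / ε`, `φ γ / γ` are `± 1`: `e ∈ FF k a b` and `D.δ a b`, `γ²` are fixed by `φ`). `(d ε γ)² = d² e (w' - a)(w' - b) = (y : C)`,
where `d : k`. So `z = d ε γ` is fixed by `φ`, and by `frob_sign` (`L = FF k a b`, `τ = F.val`, `m = 1`, `2 ∉ u` as `V.valuation 2 = 1`, `lies_int`): `z = sg u y * z`; `z ≠ 0` and `2 ≠ 0`: `sg u y = 1`
(`sg u y = -1` would give `2 z = 0`).
-/

set_option autoImplicit false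

open NumberField IsDedekindDomain Polynomial SC2 SC3 SC5

namespace SC8

variable {k C : Type} [Field k] [NumberField k] [Field C] [Algebra k C] [IsAlgClosed C]
  [IsGalois k C] {I : Type} [Fintype I] {L : I → Type} [∀ i, Field (L i)]
  [∀ i, NumberField (L i)] [∀ i, Algebra k (L i)]

theorem rho_w {f : k[X]} {θ : ∀ i, L i} (hR : RF k L f θ) (hf : f ≠ 0)
    {S : Finset (Pr k)} {al : ∀ i, Pr (L i) → 𝓞 (L i)} {Cg : ℕ} (hS : GS8 k C f S al Cg)
    (c : 𝓞 k) (D : Dat k C f (c : k)) (P : Finset (PL L)) (hP : Conf θ S D P) (W : I) (w : k)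
    (hW : θ W = algebraMap k (L W) w) (B : ℕ) (hB : ∀ o ∈ P, o.1 ≠ W → nv o.2 ≤ B)
    (v : Pr k) (hv : v ∈ TT S (c : k)) (hvB : B < nv v) (A : ValuationSubring k)
    (hA : IsVal v A) (V : ValuationSubring C) (hV : Above A V) :
    D.ρ V = algebraMap k C w := by
  have hgood := hS.good v hv.1 A hA
  have hn : ¬ EvA A (c : k) := fun h => hv.2 ((hA.ev _).1 h)
  obtain ⟨i, τ, hτ⟩ := emb_surj hR hf (D.ρ V) (D.root A V hgood hV hn)
  obtain ⟨w₁, hw₁, hbl⟩ := lies_exists hA hV τ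
  have hmem : (⟨i, w₁⟩ : PL L) ∈ P := (hP.mem v hv A hA V hV i τ w₁ hw₁).2 hτ
  by_cases hi : i = W
  · subst hi
    rw [← hτ, hW, τ.commutes]
  · exfalso
    have h1 : nv w₁ ≤ B := hB ⟨i, w₁⟩ hmem hi
    have h2 : nv (bl k w₁) ≤ nv w₁ := nv_bl_le w₁
    rw [hbl] at h2
    omega

theorem ev_small {f : k[X]} {θ : ∀ i, L i} (hR : RF k L f θ) (hf : f ≠ 0)
    {S : Finset (Pr k)} {al : ∀ i, Pr (L i) → 𝓞 (L i)} {Cg : ℕ} (hS : GS8 k C f S al Cg)
    (c : 𝓞 k) (D : Dat k C f (c : k)) (P : Finset (PL L)) (hP : Conf θ S D P) (W : I) (w : k)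
    (hW : θ W = algebraMap k (L W) w) (B : ℕ) (hB : ∀ o ∈ P, o.1 ≠ W → nv o.2 ≤ B)
    (a b : C) (ha : aeval a f = 0) (hb : aeval b f = 0) (hab : a ≠ b)
    (haw : a ≠ algebraMap k C w) (hbw : b ≠ algebraMap k C w) :
    ∃ d : FF k a b, (d : C) = D.δ a b ∧ d ≠ 0 ∧
      ∀ u : Pr (FF k a b), bl k u ∉ S → B < nv (bl k u) → Ev u d := by
  have hδF : D.δ a b ∈ FF k a b := FF_mem a b _ (D.fix a b ha hb hab)
  have hδ0 : D.δ a b ≠ 0 := D.ne a b ha hb hab
  refine ⟨⟨D.δ a b, hδF⟩, rfl, fun h => hδ0 (congrArg Subtype.val h), ?_⟩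
  intro u huS huB
  obtain ⟨V, hLies⟩ := above_val (FF k a b) u
  obtain ⟨A, hA⟩ := exists_isVal (bl k u)
  have hV : Above A V := lies_above hLies hA
  have hgood := hS.good _ huS A hA
  have h2 := (root_facts hgood hV).1
  obtain ⟨z, hz⟩ := IsAlgClosed.exists_pow_nat_eq (D.δ a b) (n := 2) (by norm_num)
  refine ev_of_fix (FF k a b) hLies h2 _ z hz fun σ hσ => ?_
  refine D.even A V hgood hV a b ha hb hab (fun hn => ?_) z hz σ hσ
  have hvT : bl k u ∈ TT S (c : k) := ⟨huS, fun h => hn ((hA.ev _).2 h)⟩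
  rw [rho_w hR hf hS c D P hP W w hW B hB _ hvT huB A hA V hV]
  exact ⟨fun h => haw h.symm, fun h => hbw h.symm⟩

theorem sq_local {f : k[X]} {θ : ∀ i, L i} (hR : RF k L f θ) (hf : f ≠ 0)
    {S : Finset (Pr k)} {al : ∀ i, Pr (L i) → 𝓞 (L i)} {Cg : ℕ} (hS : GS8 k C f S al Cg)
    (c : 𝓞 k) (D : Dat k C f (c : k)) (P : Finset (PL L)) (hP : Conf θ S D P) (W : I) (w : k)
    (hW : θ W = algebraMap k (L W) w) (B : ℕ) (hB : ∀ o ∈ P, o.1 ≠ W → nv o.2 ≤ B)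
    (a b : C) (ha : aeval a f = 0) (hb : aeval b f = 0) (hab : a ≠ b)
    (haw : a ≠ algebraMap k C w) (hbw : b ≠ algebraMap k C w) (e t : C) (he : e ≠ 0)
    (heF : e ∈ FF k a b) (ht : t ∈ FF k a b) (het : D.δ a b * e = t ^ 2) (d : k) (hd : d ≠ 0)
    (y : 𝓞 (FF k a b)) (hy : ((y : FF k a b) : C) = algebraMap k C d ^ 2 *
      (e * ((algebraMap k C w - a) * (algebraMap k C w - b))))
    (u : Pr (FF k a b)) (hu : bl k u ∈ TT S (c : k)) (huB : B < nv (bl k u))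
    (hdg : dg k u = 1) (hyu : y ∉ u.asIdeal) : sg u y = 1 := by
  have huS : bl k u ∉ S := hu.1
  obtain ⟨V, hLies⟩ := above_val (FF k a b) u
  obtain ⟨A, hA⟩ := exists_isVal (bl k u)
  have hV : Above A V := lies_above hLies hA
  have hgood := hS.good _ huS A hA
  have h2 := (root_facts hgood hV).1
  have hn : ¬ EvA A (c : k) := fun h => hu.2 ((hA.ev _).1 h)
  have hρ := rho_w hR hf hS c D P hP W w hW B hB _ hu huB A hA V hV
  have hfin := hA.fin
  obtain ⟨φ, hφ'⟩ := exists_frob (C := C) hV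
  have hφ : Frob (nv (bl k u)) V φ := by
    rw [hA.card] at hφ'
    exact hφ'
  obtain ⟨hφa, hφb⟩ := frob_fixF hgood ha hb hA hLies φ hφ 1 (by rw [hdg])
  rw [pow_one] at hφa hφb
  obtain ⟨zδ, hzδ⟩ := IsAlgClosed.exists_pow_nat_eq (D.δ a b) (n := 2) (by norm_num)
  obtain ⟨γ, hγ⟩ := IsAlgClosed.exists_pow_nat_eq ((algebraMap k C w - a) * (algebraMap k C w - b))
    (n := 2) (by norm_num)
  obtain ⟨ε, hε⟩ := IsAlgClosed.exists_pow_nat_eq e (n := 2) (by norm_num)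
  have hsgn : φ zδ * γ = zδ * φ γ :=
    D.sgn A V hgood hV a b ha hb hab hn (by rw [hρ]; exact fun h => haw h.symm)
      (by rw [hρ]; exact fun h => hbw h.symm) φ hφ.stab hφa hφb zδ γ hzδ (by rw [hρ]; exact hγ)
  have hzδ0 : zδ ≠ 0 := by
    rintro rfl
    apply D.ne a b ha hb hab
    rw [← hzδ]
    simp
  have hφt : φ t = t := FF_fix a b t ht φ hφa hφb
  have h3 : φ (zδ * ε) = zδ * ε := by
    have h4 : (zδ * ε) ^ 2 = t ^ 2 := by rw [mul_pow, hzδ, hε, het]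
    rcases sq_eq_sq_iff_eq_or_eq_neg.1 h4 with h5 | h5
    · rw [h5, hφt]
    · rw [h5, map_neg, hφt]
  rw [map_mul] at h3
  have hφzδ0 : φ zδ ≠ 0 := (_root_.map_ne_zero _).2 hzδ0
  have h6 : φ ε * φ γ = ε * γ := by
    apply mul_left_cancel₀ (mul_ne_zero hzδ0 hφzδ0)
    linear_combination (zδ * φ γ) * h3 - zδ * ε * hsgn
  have hfix : ∀ x : FF k a b, (φ ^ 1) ((FF k a b).val x) = (FF k a b).val x := by
    intro x
    rw [pow_one]
    exact FF_fix a b _ x.2 φ hφa hφb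
  have h2u : (2 : 𝓞 (FF k a b)) ∉ u.asIdeal := by
    intro h
    have h7 := (lies_int hLies (2 : 𝓞 (FF k a b))).2 h
    have h8 : (FF k a b).val ((2 : 𝓞 (FF k a b)) : FF k a b) = 2 := by
      have h9 : ((2 : 𝓞 (FF k a b)) : FF k a b) = 2 := map_ofNat (algebraMap (𝓞 (FF k a b)) (FF k a b)) 2
      rw [h9, map_ofNat]
    rw [h8, h2] at h7
    exact lt_irrefl _ h7
  set z : C := algebraMap k C d * (ε * γ) with hz
  have hz2 : z ^ 2 = (FF k a b).val (y : FF k a b) := by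
    have h7 : (FF k a b).val (y : FF k a b) = ((y : FF k a b) : C) := rfl
    rw [h7, hy, hz, mul_pow, mul_pow, hε, hγ]
  have hφz : φ z = z := by
    rw [hz, map_mul, map_mul, AlgEquiv.commutes, h6]
  have hz0 : z ≠ 0 := by
    intro h0
    rw [h0, zero_pow two_ne_zero] at hz2
    apply hyu
    have h7 : (y : FF k a b) = 0 := Subtype.ext hz2.symm
    have h8 : y = 0 := RingOfIntegers.ext h7
    rw [h8]
    exact zero_mem _
  have hfs := frob_sign hLies h2u φ hφ 1 (by rw [hdg]) one_pos hfix y hyu z hz2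
  rw [pow_one, hφz, hdg, Nat.div_one, pow_one] at hfs
  rcases Int.units_eq_one_or (sg u y) with h | h
  · exact h
  · exfalso
    rw [h] at hfs
    have h20 : (2 : C) ≠ 0 := by
      intro h0
      rw [h0, map_zero] at h2
      exact zero_ne_one h2
    have h5 : (2 : C) * z = 0 := by
      push_cast at hfs
      linear_combination hfs
    exact hz0 ((mul_eq_zero.1 h5).resolve_left h20)

end SC8
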