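import Pool.Agent.MP_c1dca2_ag.SC8.D2
import Pool.Agent.MP_c1dca2_ag.SC8.D3
import Pool.Agent.MP_c1dca2_ag.SC8.D4
import Pool.Agent.MP_c1dca2_ag.SC5.H9
import Pool.Agent.MP_c1dca2_ag.SC5.T2

/-!
# [SC8-D5] Part III: all elements of index `≠ W` are small, but the classes are not those of the point `w`

`w' = algebraMap k C w`. `S' = S ∪ {v | nv v ≤ B}` (finite, `finite_nv`), `U` from `sel` for `S'`; `R` = the finset of the roots of `f` in `C`. For `a b ∈ R`, `e ∈ U a b` such that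
`y₀ = e (w' - a)(w' - b) ∈ F := FF k a b` is not a square in `F` (and `≠ 0`): choose `d : ℤ`, `d ≠ 0`, with `d² y₀` integral (a multiple `d y₀` of an element of a number field is integral, so is `d (d y₀)`),
`y : 𝓞 F` its value: `y` is not a square in `F`, either. Let `V_{a,b,e}` be the set of the `v : Pr k` with `v ∉ S'` and a `u : Pr F` with `bl k u = v`, `dg k u = 1`, `y ∉ u`, `sg u y = -1`. `nonres_sum` and
`avoid`: the set `X_{a,b,e}` of the `c : ι → ℤ` such that `el b c ∉ v \ v²` for all `v ∈ V_{a,b,e}` has density `0`; so has the union over the finitely many `(a, b, e)` (`R ×ˢ R`, `U a b`; sums of sequences tending to `0`).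
CLAIM: every `c` of the statement is in the union. Let `D`, `a ≠ b`, `P` be as in the statement. `ev_small`: `d₀ : F` with value `D.δ a b`, even at all `u` with `bl k u ∉ S'`; `sel`: `e ∈ U a b`, `t ∈ F` with
`D.δ a b * e = t²`. `y₀` is not a square in `F`: if `y₀ = s²`, `s ∈ F`, then `D.δ a b ((w'-a)(w'-b)) = (t²/e) (s²/e) = (t s / e)²`, contrary to the assumption. If `c ∉ X_{a,b,e}`, there is `v ∈ V_{a,b,e}`, with
`u`, and `el b c ∈ v \ v²`, so `v ∈ TT S (el b c)` (`v ∉ S`; SC5/T2 or H6: an element of `v \ v²` is not even, `h6_val_exp`) and `sq_local` gives `sg u y = 1`: contradiction.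
-/

set_option autoImplicit false

open NumberField IsDedekindDomain Polynomial SC2 SC3 SC5 Filter Topology

namespace SC8

theorem d5_val_exp {K : Type} [Field K] [NumberField K] (w : Pr K) (a : 𝓞 K) (ha : a ∈ w.asIdeal)
    (ha2 : a ∉ w.asIdeal ^ 2) : w.valuation K (a : K) = WithZero.exp (-1 : ℤ) := by
  have h1 : w.intValuation a ≤ WithZero.exp (-((1 : ℕ) : ℤ)) := by
    rw [w.intValuation_le_pow_iff_mem, pow_one]
    exact ha
  have h2 : ¬ w.intValuation a ≤ WithZero.exp (-((2 : ℕ) : ℤ)) := by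
    rw [w.intValuation_le_pow_iff_mem]
    exact ha2
  have h3 : w.intValuation a ≠ 0 := by
    intro h
    apply h2
    rw [h]
    exact zero_le
  rw [show w.valuation K (a : K) = w.intValuation a from w.valuation_of_algebraMap a]
  obtain ⟨n, hn⟩ : ∃ n : ℤ, w.intValuation a = WithZero.exp n := ⟨_, (WithZero.exp_log h3).symm⟩
  rw [hn] at h1 h2 ⊢
  rw [WithZero.exp_le_exp] at h1 h2
  have h4 : n = -1 := by push_cast at h1 h2; omega
  rw [h4]

/-- an element of `v` outside `v ^ 2` is not even at `v` -/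
theorem d5_not_ev {K : Type} [Field K] [NumberField K] (w : Pr K) (a : 𝓞 K)
    (ha : a ∈ w.asIdeal) (ha2 : a ∉ w.asIdeal ^ 2) : ¬ Ev w (a : K) := by
  rintro ⟨b, hb⟩
  rw [d5_val_exp w a ha ha2] at hb
  have hb0 : w.valuation K b ≠ 0 := by
    intro h0
    rw [h0, zero_pow two_ne_zero] at hb
    exact WithZero.exp_ne_zero hb
  obtain ⟨n, hn⟩ : ∃ n : ℤ, w.valuation K b = WithZero.exp n := ⟨_, (WithZero.exp_log hb0).symm⟩
  rw [hn, ← WithZero.exp_nsmul] at hb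
  have h2 := WithZero.exp_injective hb
  rw [nsmul_eq_mul] at h2
  push_cast at h2
  omega

/-- the set of the `c` avoiding the primes at which `y` is not a square has density `0` -/
theorem d5_one {k F : Type} [Field k] [NumberField k] [Field F] [NumberField F] [Algebra k F]
    {ι : Type} [Fintype ι] (b : Module.Basis ι ℤ (𝓞 k)) (S' : Finset (Pr k)) (y₀ : F)
    (hy : ∀ s : F, s ^ 2 ≠ y₀) :
    ∃ (d : k) (y : 𝓞 F), d ≠ 0 ∧ (y : F) = algebraMap k F d ^ 2 * y₀ ∧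
      Tendsto (fun N : ℕ => (Nat.card {c : ι → ℤ // (∀ i, |c i| ≤ N) ∧
        ∀ v ∈ {v : Pr k | v ∉ S' ∧ ∃ u : Pr F, bl k u = v ∧ dg k u = 1 ∧ y ∉ u.asIdeal ∧
          sg u y = -1}, ¬ (el b c ∈ v.asIdeal ∧ el b c ∉ v.asIdeal ^ 2)} : ℝ) /
        (2 * N + 1) ^ (Fintype.card ι)) atTop (𝓝 0) := by
  have halg : IsAlgebraic ℤ y₀ := by
    have h1 : IsAlgebraic ℚ y₀ := Algebra.IsAlgebraic.isAlgebraic y₀
    exact (IsFractionRing.isAlgebraic_iff ℤ ℚ F).2 h1
  obtain ⟨n, hn0, hn⟩ := halg.exists_integral_multiple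
  have hint : IsIntegral ℤ ((n : F) ^ 2 * y₀) := by
    have h1 : (n : F) ^ 2 * y₀ = (n : F) * (n • y₀) := by
      rw [zsmul_eq_mul]
      ring
    rw [h1]
    exact (isIntegral_algebraMap (R := ℤ) (A := F) (x := n)).mul hn
  have hnF : (n : F) ≠ 0 := by
    exact_mod_cast hn0
  let y : 𝓞 F := ⟨(n : F) ^ 2 * y₀, hint⟩
  have hyF : (y : F) = (n : F) ^ 2 * y₀ := rfl
  have hysq : ∀ c : F, c ^ 2 ≠ (y : F) := by
    intro c hc
    apply hy (c / n)
    rw [div_pow, hc, hyF, mul_div_cancel_left₀ _ (pow_ne_zero 2 hnF)]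
  refine ⟨(n : k), y, by exact_mod_cast hn0, ?_, ?_⟩
  · rw [hyF, map_intCast]
  · apply avoid b
    have h1 := nonres_sum (k := k) S' y hysq
    intro h2
    apply h1
    have hset : {p : ℕ | p.Prime ∧ ∃ v : Pr k, v ∉ S' ∧ nv v = p ∧
        ∃ u : Pr F, bl k u = v ∧ dg k u = 1 ∧ y ∉ u.asIdeal ∧ sg u y = -1} =
      {p : ℕ | p.Prime ∧ ∃ v ∈ {v : Pr k | v ∉ S' ∧ ∃ u : Pr F, bl k u = v ∧ dg k u = 1 ∧
        y ∉ u.asIdeal ∧ sg u y = -1}, nv v = p} := by
      ext p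
      constructor
      · rintro ⟨hp, v, hv, hvp, hu⟩
        exact ⟨hp, v, ⟨hv, hu⟩, hvp⟩
      · rintro ⟨hp, v, ⟨hv, hu⟩, hvp⟩
        exact ⟨hp, v, hv, hvp, hu⟩
    rw [hset]
    exact h2

theorem d5_card {ι : Type} [Fintype ι] [DecidableEq ι] (N : ℕ) (p : (ι → ℤ) → Prop)
    [DecidablePred p] :
    Nat.card {c : ι → ℤ // (∀ i, |c i| ≤ N) ∧ p c} =
      ((Fintype.piFinset (fun _ : ι => Finset.Icc (-(N : ℤ)) N)).filter p).card := by
  apply Nat.subtype_card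
  intro c
  rw [Finset.mem_filter, Fintype.mem_piFinset]
  refine and_congr_left fun _ => ?_
  refine forall_congr' fun i => ?_
  rw [Finset.mem_Icc, abs_le]

/-- a finite union of sets of density `0` has density `0` -/
theorem d5_union {ι : Type} [Fintype ι] {τ : Type} (T : Finset τ) (p : τ → (ι → ℤ) → Prop)
    (q : (ι → ℤ) → Prop) (hq : ∀ c, q c → ∃ t ∈ T, p t c)
    (hp : ∀ t ∈ T, Tendsto (fun N : ℕ => (Nat.card {c : ι → ℤ // (∀ i, |c i| ≤ N) ∧ p t c} : ℝ) /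
      (2 * N + 1) ^ (Fintype.card ι)) atTop (𝓝 0)) :
    Tendsto (fun N : ℕ => (Nat.card {c : ι → ℤ // (∀ i, |c i| ≤ N) ∧ q c} : ℝ) /
      (2 * N + 1) ^ (Fintype.card ι)) atTop (𝓝 0) := by
  classical
  have h1 := tendsto_finsetSum T hp
  rw [Finset.sum_const_zero] at h1
  refine squeeze_zero (fun N => by positivity) (fun N => ?_) h1
  rw [← Finset.sum_div]
  refine div_le_div_of_nonneg_right ?_ (by positivity)
  rw [d5_card N q]
  have h2 : ((Fintype.piFinset (fun _ : ι => Finset.Icc (-(N : ℤ)) N)).filter q) ⊆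
      T.biUnion (fun t => (Fintype.piFinset (fun _ : ι => Finset.Icc (-(N : ℤ)) N)).filter (p t)) := by
    intro c hc
    rw [Finset.mem_filter] at hc
    obtain ⟨t, ht, htc⟩ := hq c hc.2
    rw [Finset.mem_biUnion]
    exact ⟨t, ht, Finset.mem_filter.2 ⟨hc.1, htc⟩⟩
  have h3 := (Finset.card_le_card h2).trans Finset.card_biUnion_le
  have h4 : ∀ t ∈ T, (Nat.card {c : ι → ℤ // (∀ i, |c i| ≤ N) ∧ p t c}) =
      ((Fintype.piFinset (fun _ : ι => Finset.Icc (-(N : ℤ)) N)).filter (p t)).card :=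
    fun t _ => d5_card N (p t)
  rw [← Finset.sum_congr rfl h4] at h3
  exact_mod_cast h3

/-- the sets belonging to the triples `(a, a', e)` -/
theorem d5_key {k C : Type} [Field k] [NumberField k] [Field C] [Algebra k C] [IsAlgClosed C]
    [IsGalois k C] {I : Type} [Fintype I] {L : I → Type} [∀ i, Field (L i)]
    [∀ i, NumberField (L i)] [∀ i, Algebra k (L i)] {f : k[X]} {θ : ∀ i, L i}
    (hR : RF k L f θ) (hf : f ≠ 0) {S : Finset (Pr k)} {al : ∀ i, Pr (L i) → 𝓞 (L i)}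
    {Cg : ℕ} (hS : GS8 k C f S al Cg) (W : I) (w : k) (hW : θ W = algebraMap k (L W) w)
    {ι : Type} [Fintype ι] (b : Module.Basis ι ℤ (𝓞 k)) (B : ℕ) (S' : Finset (Pr k))
    (hS' : ∀ v, v ∉ S' → v ∉ S ∧ B < nv v) (a a' e : C) :
    ∃ p : (ι → ℤ) → Prop, Tendsto (fun N : ℕ =>
        (Nat.card {c : ι → ℤ // (∀ i, |c i| ≤ N) ∧ p c} : ℝ) /
          (2 * N + 1) ^ (Fintype.card ι)) atTop (𝓝 0) ∧
      ∀ (c : ι → ℤ) (D : Dat k C f ((el b c : 𝓞 k) : k)), aeval a f = 0 → aeval a' f = 0 →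
        a ≠ a' → a ≠ algebraMap k C w → a' ≠ algebraMap k C w →
        (¬ ∃ t ∈ FF k a a',
          D.δ a a' * ((algebraMap k C w - a) * (algebraMap k C w - a')) = t ^ 2) →
        e ≠ 0 → e ∈ FF k a a' → (∃ t ∈ FF k a a', D.δ a a' * e = t ^ 2) →
        (∃ P : Finset (PL L), Conf θ S D P ∧ ∀ o ∈ P, o.1 ≠ W → nv o.2 ≤ B) → p c := by
  by_cases he : e ∈ FF k a a' ∧ e ≠ 0
  swap
  · refine ⟨fun _ => False, ?_, ?_⟩
    · refine tendsto_const_nhds.congr fun N => ?_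
      have h1 : IsEmpty {c : ι → ℤ // (∀ i, |c i| ≤ N) ∧ False} := ⟨fun x => x.2.2⟩
      rw [Nat.card_of_isEmpty]
      simp
    · intro c D _ _ _ _ _ _ h1 h2
      exact absurd ⟨h2, h1⟩ he
  obtain ⟨heF, he0⟩ := he
  have hw : algebraMap k C w ∈ FF k a a' := (FF k a a').algebraMap_mem w
  obtain ⟨haF, ha'F⟩ := h0_mem (k := k) a a'
  have hy₀ : e * ((algebraMap k C w - a) * (algebraMap k C w - a')) ∈ FF k a a' :=
    mul_mem heF (mul_mem (sub_mem hw haF) (sub_mem hw ha'F))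
  by_cases hsq : ∃ s : FF k a a', s ^ 2 =
      (⟨e * ((algebraMap k C w - a) * (algebraMap k C w - a')), hy₀⟩ : FF k a a')
  · refine ⟨fun _ => False, ?_, ?_⟩
    · refine tendsto_const_nhds.congr fun N => ?_
      have h1 : IsEmpty {c : ι → ℤ // (∀ i, |c i| ≤ N) ∧ False} := ⟨fun x => x.2.2⟩
      rw [Nat.card_of_isEmpty]
      simp
    · rintro c D _ _ _ _ _ h1 _ _ ⟨t, ht, hte⟩ _
      obtain ⟨s, hs⟩ := hsq
      apply h1
      have hs' : (s : C) ^ 2 = e * ((algebraMap k C w - a) * (algebraMap k C w - a')) :=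
        congrArg (fun z : FF k a a' => (z : C)) hs
      refine ⟨t * s / e, div_mem (mul_mem ht s.2) heF, ?_⟩
      rw [div_pow, mul_pow, hs', ← hte]
      field_simp
  · obtain ⟨d, y, hd, hy, hT⟩ := d5_one b S'
      (⟨e * ((algebraMap k C w - a) * (algebraMap k C w - a')), hy₀⟩ : FF k a a')
      (fun s hs => hsq ⟨s, hs⟩)
    refine ⟨_, hT, ?_⟩
    rintro c D ha hb hab haw hbw - - - ⟨t, ht, hte⟩ ⟨P, hP, hB⟩ v ⟨hvS', u, hbl, hdg, hyu, hsg⟩
      ⟨hv1, hv2⟩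
    obtain ⟨hvS, hvB⟩ := hS' v hvS'
    have hTT : bl k u ∈ TT S (((el b c : 𝓞 k)) : k) := by
      rw [hbl]
      exact ⟨hvS, d5_not_ev v _ hv1 hv2⟩
    have hyC : ((y : FF k a a') : C) = algebraMap k C d ^ 2 *
        (e * ((algebraMap k C w - a) * (algebraMap k C w - a'))) := by
      rw [hy]
      rfl
    have h1 := sq_local hR hf hS (el b c) D P hP W w hW B hB a a' ha hb hab haw hbw e t he0 heF ht
      hte d hd y hyC u hTT (by rw [hbl]; exact hvB) hdg hyu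
    rw [hsg] at h1
    exact absurd h1 (by decide)

theorem partIII {k C : Type} [Field k] [NumberField k] [Field C] [Algebra k C] [IsAlgClosed C]
    [IsGalois k C] {I : Type} [Fintype I] {L : I → Type} [∀ i, Field (L i)]
    [∀ i, NumberField (L i)] [∀ i, Algebra k (L i)] {f : k[X]} {θ : ∀ i, L i}
    (hR : RF k L f θ) (hf : f ≠ 0) {S : Finset (Pr k)} {al : ∀ i, Pr (L i) → 𝓞 (L i)}
    {Cg : ℕ} (hS : GS8 k C f S al Cg) (W : I) (w : k) (hW : θ W = algebraMap k (L W) w)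
    {ι : Type} [Fintype ι] (b : Module.Basis ι ℤ (𝓞 k)) (B : ℕ) :
    Tendsto (fun N : ℕ => (Nat.card {c : ι → ℤ // (∀ i, |c i| ≤ N) ∧ c ≠ 0 ∧
      ∃ D : Dat k C f ((el b c : 𝓞 k) : k),
        (∃ a a' : C, aeval a f = 0 ∧ aeval a' f = 0 ∧ a ≠ a' ∧ a ≠ algebraMap k C w ∧
          a' ≠ algebraMap k C w ∧ ¬ ∃ t ∈ FF k a a',
            D.δ a a' * ((algebraMap k C w - a) * (algebraMap k C w - a')) = t ^ 2) ∧
        ∃ P : Finset (PL L), Conf θ S D P ∧ ∀ o ∈ P, o.1 ≠ W → nv o.2 ≤ B} : ℝ) /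
        (2 * N + 1) ^ (Fintype.card ι)) atTop (𝓝 0) := by
  classical
  let S' : Finset (Pr k) := S ∪ (finite_nv k B).toFinset
  have hS' : ∀ v, v ∉ S' → v ∉ S ∧ B < nv v := by
    intro v hv
    rw [Finset.mem_union, Set.Finite.mem_toFinset, Set.mem_ofPred_eq] at hv
    push Not at hv
    exact hv
  obtain ⟨U, hU⟩ := sel (k := k) (C := C) S'
  choose p hp1 hp2 using fun x : C × C × C =>
    d5_key hR hf hS W w hW b B S' hS' x.1 x.2.1 x.2.2
  let R : Finset C := (f.aroots C).toFinset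
  let T : Finset (C × C × C) := (R ×ˢ R).biUnion
    (fun q => (U q.1 q.2).image (fun e => (q.1, q.2, e)))
  refine d5_union T p _ ?_ (fun t _ => hp1 t)
  rintro c ⟨-, D, ⟨a, a', ha, hb, hab, haw, hbw, hns⟩, P, hP, hB⟩
  obtain ⟨d, hd1, hd2, hd3⟩ := ev_small hR hf hS (el b c) D P hP W w hW B hB a a' ha hb hab haw hbw
  obtain ⟨e, heU, t, ht, het⟩ := (hU a a').2 d hd2 (fun u hu => by
    obtain ⟨h1, h2⟩ := hS' _ hu
    exact hd3 u h1 h2)
  obtain ⟨he0, heF⟩ := (hU a a').1 e heU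
  rw [hd1] at het
  refine ⟨(a, a', e), ?_, hp2 (a, a', e) c D ha hb hab haw hbw hns he0 heF ⟨t, ht, het⟩
    ⟨P, hP, hB⟩⟩
  rw [Finset.mem_biUnion]
  refine ⟨(a, a'), ?_, Finset.mem_image.2 ⟨e, heU, rfl⟩⟩
  rw [Finset.mem_product, Multiset.mem_toFinset, Multiset.mem_toFinset, mem_aroots, mem_aroots]
  exact ⟨⟨hf, ha⟩, hf, hb⟩

end SC8
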