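import Pool.Agent.MP_c1dca2_ag.SC8.E0a

set_option autoImplicit false

open IsLocalRing Polynomial

namespace SC8

open SEC

variable {k K : Type} [Field k] [Field K] [Algebra k K]

/-! ## [SC8-E0] a rational point gives a section (file E0.lean; uses E0a) -/

section Lift

variable {P : RatPlace k K} {B : ValuationSubring (Om K)} (h : SC2.Above P.A B)

/-- `k^alg → B` -/
noncomputable def E0_inc (hB : IsPlace k K B) : kb k K →+* B :=
  ((kb k K).toSubring.subtype).codRestrict B.toSubring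
    (fun a => place_alg B hB a a.2)

/-- `k^alg → residue field` -/
noncomputable def E0_iota (hB : IsPlace k K B) : kb k K →+* ResidueField B :=
  (residue B).comp (E0_inc hB)

theorem E0_res_eq {B : ValuationSubring (Om K)} (x y : B) :
    residue B x = residue B y ↔ (x : Om K) - y ∈ B.nonunits := by
  rw [← sub_eq_zero, ← map_sub, residue_eq_zero_iff]
  exact (ValuationSubring.coe_mem_nonunits_iff (A := B) (a := x - y)).symm

theorem E0_iota_eq (hB : IsPlace k K B) (a : kb k K) (x : B) :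
    E0_iota hB a = residue B x ↔ (a : Om K) - x ∈ B.nonunits := E0_res_eq (E0_inc hB a) x

include h in
theorem E0_bij (hB : IsPlace k K B) : Function.Bijective (E0_iota hB) := by
  refine ⟨(E0_iota hB).injective, fun r => ?_⟩
  obtain ⟨⟨x, hx⟩, rfl⟩ := residue_surjective r
  obtain ⟨a, ha, ha1⟩ := E0_res P h x hx
  refine ⟨⟨a, ha⟩, ?_⟩
  rw [E0_iota_eq]
  rw [B.mem_nonunits_iff] at ha1 ⊢
  rw [Valuation.map_sub_swap]
  exact ha1

include h in
/-- every element of `Gal(k^alg / k)` lifts to the decomposition group of `B` -/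
theorem E0_lift [CharZero k] (τ : kb k K ≃ₐ[k] kb k K) : ∃ σ : Om K ≃ₐ[K] Om K,
    (∀ z, σ z ∈ B ↔ z ∈ B) ∧ ∀ a : kb k K, σ (a : Om K) = (τ a : Om K) := by
  have hB := E0_place P h
  have hchar : CharZero K := charZero_of_injective_algebraMap (algebraMap k K).injective
  let e : kb k K ≃+* ResidueField B := RingEquiv.ofBijective _ (E0_bij h hB)
  have he : ∀ a, e a = E0_iota hB a := fun _ => rfl
  let θ : ResidueField B ≃+* ResidueField B := (e.symm.trans (τ : kb k K ≃+* kb k K)).trans e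
  have hθ : ∀ a, θ (e a) = e (τ a) := by
    intro a
    simp [θ]
  obtain ⟨σ, hσ, hσ1⟩ := SC2.exists_lift h θ (by
    intro a ha
    have haA : a ∈ P.A := (h a).1 ha
    obtain ⟨c, hc⟩ := P.rat a haA
    have h1 : e (algebraMap k (kb k K) c) = residue B ⟨algebraMap K (Om K) a, ha⟩ := by
      rw [he, E0_iota_eq]
      have h2 := E0_nonunit h _ hc
      rw [map_sub, ← E0_alg] at h2
      rw [B.mem_nonunits_iff] at h2 ⊢
      rw [Valuation.map_sub_swap]
      exact h2
    rw [← h1, hθ, AlgEquiv.commutes])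
  refine ⟨σ, hσ, fun a => ?_⟩
  have haB := place_alg B hB a a.2
  have h1 := hσ1 a haB
  have h2 : residue B ⟨(a : Om K), haB⟩ = e a := by
    rw [he]
    rfl
  rw [h2, hθ, he] at h1
  have h3 := (E0_iota_eq hB _ _).1 h1.symm
  have h4 : σ (a : Om K) ∈ kb k K := by
    have h := (mem_algebraicClosure_iff').1 a.2
    exact (mem_algebraicClosure_iff').2 (h.map (σ.restrictScalars k))
  have h5 := E0_zero hB _ ((kb k K).sub_mem (τ a).2 h4) h3
  exact (sub_eq_zero.1 h5).symm

include h in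
/-- the elements of the decomposition group which fix `k^alg` are inert -/
theorem E0_inert (σ : Om K ≃ₐ[K] Om K) (hσ : ∀ z, σ z ∈ B ↔ z ∈ B)
    (h1 : ∀ a ∈ kb k K, σ a = a) : IsInert K B σ := by
  refine ⟨hσ, fun z hz => ?_⟩
  obtain ⟨a, ha, ha1⟩ := E0_res P h z hz
  have h2 : ∀ x, x ∈ B.nonunits → σ x ∈ B.nonunits := by
    intro x hx
    by_contra hcon
    rw [B.mem_nonunits_iff, not_lt] at hcon
    rw [B.mem_nonunits_iff] at hx
    have h3 : (σ x)⁻¹ ∈ B := by
      rw [← B.valuation_le_one_iff, map_inv₀]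
      exact inv_le_one_of_one_le₀ hcon
    rw [← map_inv₀, hσ] at h3
    by_cases hx0 : x = 0
    · rw [hx0, map_zero, map_zero] at hcon
      exact absurd hcon (by simp)
    have h4 := (B.valuation_le_one_iff _).2 h3
    have h5 : B.valuation x * B.valuation x⁻¹ < 1 := mul_lt_one_of_lt_of_le hx h4
    rw [← map_mul, mul_inv_cancel₀ hx0, map_one] at h5
    exact lt_irrefl _ h5
  have h3 := h2 _ ha1
  rw [map_sub, h1 a ha] at h3
  rw [B.mem_nonunits_iff] at h3 ha1 ⊢
  have h4 : σ z - z = (σ z - a) - (z - a) := by ring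
  rw [h4]
  exact Valuation.map_sub_lt _ h3 ha1

end Lift

/-! ### topology -/

/-- a homomorphism to a Galois group is continuous if the stabilisers are open -/
theorem E0_cont {G : Type} [Group G] [TopologicalSpace G] [IsTopologicalGroup G] {F L : Type}
    [Field F] [Field L] [Algebra F L] (φ : G →* (L ≃ₐ[F] L))
    (h : ∀ x : L, IsOpen {g : G | φ g x = x}) : Continuous φ := by
  apply continuous_of_continuousAt_one _ (continuousAt_def.mpr _)
  intro N hN
  rw [map_one, krullTopology_mem_nhds_one_iff] at hN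
  obtain ⟨E, hE, hO⟩ := hN
  have hfg : E.FG := IntermediateField.fg_of_fg_toSubalgebra E
    (Subalgebra.fg_of_fg_toSubmodule (Module.Finite.iff_fg.1 hE))
  obtain ⟨S, hS⟩ := hfg
  have h1 : (⋂ x ∈ S, {g : G | φ g x = x}) ∈ nhds (1 : G) := by
    rw [Filter.biInter_finset_mem]
    intro x _
    exact (h x).mem_nhds (by simp)
  refine Filter.mem_of_superset h1 fun g hg => hO ?_
  rw [Set.mem_iInter₂] at hg
  rw [SetLike.mem_coe, IntermediateField.mem_fixingSubgroup_iff]
  have h2 : E ≤ IntermediateField.fixedField (Subgroup.zpowers (φ g)) := by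
    rw [← hS, IntermediateField.adjoin_le_iff]
    intro y hy
    rw [SetLike.mem_coe, IntermediateField.mem_fixedField_iff]
    intro f hf
    have h3 : Subgroup.zpowers (φ g) ≤ MulAction.stabilizer _ y := by
      rw [Subgroup.zpowers_le]
      exact hg y hy
    exact h3 hf
  intro x hx
  have h3 := h2 hx
  rw [IntermediateField.mem_fixedField_iff] at h3
  exact h3 _ (Subgroup.mem_zpowers _)

/-- the stabiliser of an element of `K^alg` is open -/
theorem E0_open (x : Om K) : IsOpen {σ : Om K ≃ₐ[K] Om K | σ x = x} :=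
  stabilizer_isOpen_of_isIntegral (K := K) x

/-- the preimage of a set under evaluation is closed -/
theorem E0_closed (x : Om K) (S : Set (Om K)) : IsClosed {σ : Om K ≃ₐ[K] Om K | σ x ∈ S} := by
  rw [← isOpen_compl_iff, isOpen_iff_mem_nhds]
  intro σ hσ
  have h1 : (fun g : Om K ≃ₐ[K] Om K => σ * g) '' {g | g x = x} ∈ nhds σ := by
    have h2 := (isOpenMap_mul_left σ) _ (E0_open x)
    exact h2.mem_nhds ⟨1, by simp, by simp⟩
  refine Filter.mem_of_superset h1 ?_
  rintro _ ⟨g, hg, rfl⟩ h3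
  apply hσ
  change σ (g x) ∈ S at h3
  rw [hg] at h3
  exact h3

/-- the decomposition group of `B` -/
def E0_D (B : ValuationSubring (Om K)) : Subgroup (Om K ≃ₐ[K] Om K) where
  carrier := {σ | ∀ z, σ z ∈ B ↔ z ∈ B}
  mul_mem' := by
    intro a b ha hb z
    rw [AlgEquiv.mul_apply, ha, hb]
  one_mem' := fun _ => Iff.rfl
  inv_mem' := by
    intro a ha z
    rw [← ha, ← AlgEquiv.mul_apply, mul_inv_cancel, AlgEquiv.one_apply]

theorem E0_D_closed (B : ValuationSubring (Om K)) : IsClosed (E0_D B : Set (Om K ≃ₐ[K] Om K)) := by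
  have h1 : (E0_D B : Set (Om K ≃ₐ[K] Om K)) = ⋂ z : Om K,
      {σ | σ z ∈ {w : Om K | w ∈ B ↔ z ∈ B}} := by
    ext σ
    rw [Set.mem_iInter]
    rfl
  rw [h1]
  exact isClosed_iInter fun z => E0_closed z _

/-- `M / K` is normal -/
theorem E0_normal_mem (z : Om K) (hz : z ∈ Mnr k K) (g : Om K ≃ₐ[K] Om K) : g z ∈ Mnr k K := by
  intro B hB σ hσ
  let B' : ValuationSubring (Om K) := B.comap (g : Om K →+* Om K)
  have hmem : ∀ z, z ∈ B' ↔ g z ∈ B := fun z => Iff.rfl
  have hgi : ∀ z, g (g⁻¹ z) = z := by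
    intro z
    rw [← AlgEquiv.mul_apply, mul_inv_cancel, AlgEquiv.one_apply]
  have hig : ∀ z, g⁻¹ (g z) = z := by
    intro z
    rw [← AlgEquiv.mul_apply, inv_mul_cancel, AlgEquiv.one_apply]
  have hB' : IsPlace k K B' := by
    refine ⟨fun a => ?_, fun h => hB.2 ?_⟩
    · rw [hmem, E0_alg, AlgEquiv.commutes, ← E0_alg]
      exact hB.1 a
    · ext x
      refine ⟨fun _ => trivial, fun _ => ?_⟩
      have h1 : g⁻¹ x ∈ B' := by
        rw [h]
        trivial
      rw [hmem, hgi] at h1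
      exact h1
  have hnu : ∀ x, x ∈ B'.nonunits ↔ g x ∈ B.nonunits := by
    intro x
    by_cases hx : x = 0
    · subst hx
      rw [map_zero, B'.mem_nonunits_iff, B.mem_nonunits_iff, map_zero, map_zero]
      simp
    · have h1 : ∀ {L : Type} [Field L] (U : ValuationSubring L) (x : L), x ≠ 0 →
          (x ∈ U.nonunits ↔ x⁻¹ ∉ U) := by
        intro L _ U x hx
        rw [U.mem_nonunits_iff, ← U.valuation_le_one_iff, map_inv₀, not_le,
          one_lt_inv₀ (zero_lt_iff.2 ((Valuation.ne_zero_iff _).2 hx))]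
      rw [h1 B' x hx, h1 B (g x) ((_root_.map_ne_zero g).2 hx), hmem, map_inv₀]
  have h1 : IsInert K B' (g⁻¹ * σ * g) := by
    refine ⟨fun x => ?_, fun x hx => ?_⟩
    · rw [hmem, AlgEquiv.mul_apply, AlgEquiv.mul_apply, hgi, hσ.1, hmem]
    · rw [hnu, map_sub, AlgEquiv.mul_apply, AlgEquiv.mul_apply, hgi]
      exact hσ.2 _ ((hmem x).1 hx)
  have h2 := hz B' hB' _ h1
  rw [AlgEquiv.mul_apply, AlgEquiv.mul_apply] at h2
  have h3 := congrArg g h2
  rwa [hgi] at h3

theorem E0_normal [CharZero K] : Normal K (Mnr k K) := by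
  rw [IntermediateField.normal_iff_forall_map_le']
  rintro g _ ⟨z, hz, rfl⟩
  exact E0_normal_mem z hz g

theorem E0_normal_kb [CharZero k] : Normal k (kb k K) := by
  have := m4_isGalois (k := k) (K := K)
  infer_instance

/-- A rational point gives a section. -/
theorem exists_comesFrom [CharZero k] (P : RatPlace k K) :
    ∃ s : Sect k K, s.ComesFrom P := by
  have hchar : CharZero K := charZero_of_injective_algebraMap (algebraMap k K).injective
  obtain ⟨B, h⟩ := SC2.exists_above (C := Om K) P.A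
  have hB := E0_place P h
  have hn : Normal K (Mnr k K) := E0_normal
  have hn' : Normal k (kb k K) := E0_normal_kb
  have hg := m4_isGalois (k := k) (K := K)
  -- the restriction to `M`
  let ρ : E0_D B →* (Mnr k K ≃ₐ[K] Mnr k K) :=
    (AlgEquiv.restrictNormalHom (F := K) (K₁ := Om K) (Mnr k K)).comp (E0_D B).subtype
  have hρ : ∀ (σ : E0_D B) (z : Mnr k K), (ρ σ z : Om K) = σ.1 (z : Om K) := fun σ z =>
    AlgEquiv.restrictNormal_commutes σ.1 (Mnr k K) z
  -- the restriction to `k^alg`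
  have hkb : ∀ (σ : Om K ≃ₐ[K] Om K) (a : Om K), a ∈ kb k K → σ a ∈ kb k K := by
    intro σ a ha
    have h := (mem_algebraicClosure_iff').1 ha
    exact (mem_algebraicClosure_iff').2 (h.map (σ.restrictScalars k))
  let π : E0_D B →* (kb k K ≃ₐ[k] kb k K) :=
    ((AlgEquiv.restrictNormalHom (F := k) (K₁ := Om K) (kb k K)).comp
      (AlgEquiv.restrictScalarsHom k)).comp (E0_D B).subtype
  have hπ : ∀ (σ : E0_D B) (a : kb k K), (π σ a : Om K) = σ.1 (a : Om K) := fun σ a =>
    AlgEquiv.restrictNormal_commutes (σ.1.restrictScalars k) (kb k K) a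
  have hρc : Continuous ρ := by
    apply E0_cont
    intro z
    have h1 : {σ : E0_D B | ρ σ z = z} = Subtype.val ⁻¹' {σ : Om K ≃ₐ[K] Om K | σ (z : Om K) = z} := by
      ext σ
      rw [Set.mem_ofPred_eq, Set.mem_preimage, Set.mem_ofPred_eq, ← hρ, Subtype.ext_iff]
    rw [h1]
    exact (E0_open _).preimage continuous_subtype_val
  have hπc : Continuous π := by
    apply E0_cont
    intro z
    have h1 : {σ : E0_D B | π σ z = z} = Subtype.val ⁻¹' {σ : Om K ≃ₐ[K] Om K | σ (z : Om K) = z} := by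
      ext σ
      rw [Set.mem_ofPred_eq, Set.mem_preimage, Set.mem_ofPred_eq, ← hπ, Subtype.ext_iff]
    rw [h1]
    exact (E0_open _).preimage continuous_subtype_val
  have hsurj : Function.Surjective π := by
    intro τ
    obtain ⟨σ, hσ, hσ1⟩ := E0_lift h τ
    refine ⟨⟨σ, hσ⟩, ?_⟩
    ext a
    rw [hπ]
    exact hσ1 a
  have hker : π.ker ≤ ρ.ker := by
    intro σ hσ
    rw [MonoidHom.mem_ker] at hσ ⊢
    have h1 : IsInert K B σ.1 := by
      apply E0_inert h σ.1 σ.2
      intro a ha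
      have h2 := hπ σ ⟨a, ha⟩
      rw [hσ] at h2
      exact h2.symm
    ext z
    rw [hρ]
    exact z.2 B hB σ.1 h1
  let s : (kb k K ≃ₐ[k] kb k K) →* (Mnr k K ≃ₐ[K] Mnr k K) := π.liftOfSurjective hsurj ⟨ρ, hker⟩
  have hs : ∀ σ, s (π σ) = ρ σ := fun σ =>
    MonoidHom.liftOfRightInverse_comp_apply π _ (Function.rightInverse_surjInv hsurj) ⟨ρ, hker⟩ σ
  have hcomp : CompactSpace (E0_D B) := isCompact_iff_compactSpace.1 (E0_D_closed B).isCompact
  have hT2 : T2Space (kb k K ≃ₐ[k] kb k K) := krullTopology_t2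
  have hquot : Topology.IsQuotientMap π := (hπc.isClosedMap).isQuotientMap hπc hsurj
  refine ⟨⟨s, ?_, ?_⟩, B.comap (algebraMap (Mnr k K) (Om K)), ?_, ?_⟩
  · rw [hquot.continuous_iff]
    have h1 : (s : (kb k K ≃ₐ[k] kb k K) → (Mnr k K ≃ₐ[K] Mnr k K)) ∘ π = ρ := funext hs
    rw [h1]
    exact hρc
  · intro τ a ha
    obtain ⟨σ, rfl⟩ := hsurj τ
    rw [hs, hρ, hπ]
  · intro z
    rw [ValuationSubring.mem_comap]
    exact h z
  · intro τ z
    obtain ⟨σ, rfl⟩ := hsurj τ
    rw [ValuationSubring.mem_comap, ValuationSubring.mem_comap]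
    show ((s (π σ) z : Mnr k K) : Om K) ∈ B ↔ (z : Om K) ∈ B
    rw [hs, hρ]
    exact σ.2 _

end SC8
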