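import Pool.Agent.MP_c1dca2_ag.SEC.S

/-!
# Sections modulo 2 (MP_c1dca2_ag): statement-level definitions
-/

set_option autoImplicit false

open Polynomial

noncomputable section

namespace SCJ

section General

variable {k K : Type} [Field k] [Field K] [Algebra k K]

/-- The sections `s` and `s'` are congruent modulo `2`: up to conjugation by `Gal(M / K k^alg)` they
act in the same way on the maximal elementary abelian 2-extension of `K k^alg` in `M`, which is
generated by the `z ∈ M` with `z² ∈ K k^alg`. -/
def Sect.EqMod2 (s s' : Sect k K) : Prop :=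
  ∃ γ : Pi1 k K, (∀ z : MM k K, z.incl ∈ kbar k K → γ.act k K z = z) ∧
    ∀ τ, ∀ z : MM k K, z.incl ^ 2 ∈ IntermediateField.adjoin K (kbar k K : Set (Om K)) →
      (s'.toHom τ).act k K z = (γ * s.toHom τ * γ⁻¹).act k K z

/-- `P` is a rational Weierstrass point of the curve `y² = F(x)`. -/
def RatPlace.IsWeierstrass (P : RatPlace k K) (F : k[X]) (x : K) : Prop :=
  (∃ w : k, F.eval w = 0 ∧ x - algebraMap k K w ∈ P.A.nonunits) ∨ (Odd F.natDegree ∧ x ∉ P.A)

end General

/-- For the function field `K = k(x, y)` of the curve `y² = F(x)`: every section is congruent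
modulo `2` to the sections of some rational Weierstrass point. -/
def ModTwo (k : Type) [Field k] (F : k[X]) : Prop :=
  ∀ (K : Type) [Field K] [Algebra k K] (x y : K), Transcendental k x → y ^ 2 = aeval x F →
    IntermediateField.adjoin k {x, y} = ⊤ → ∀ s : Sect k K, ∃ P : RatPlace k K,
      P.IsWeierstrass F x ∧ (∃ t : Sect k K, t.ComesFrom P) ∧
        ∀ t : Sect k K, t.ComesFrom P → t.EqMod2 s

end SCJ
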