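import Pool.Agent.MP_c1dca2_ag.SC5.G4
import Pool.Agent.MP_c1dca2_ag.SC8.S

/-!
# [SC8-F2] transport of the data to another algebraic closure (copy of SC5/G4)
-/

set_option autoImplicit false

open Polynomial SC2 SC3 SC5

noncomputable section

namespace SC8

theorem dat_transport8 {k C C' : Type} [Field k] [Field C] [Algebra k C] [Field C'] [Algebra k C']
    (e : C ≃ₐ[k] C') (f : k[X]) (c : k) (D : Dat k C f c) : ∃ D' : Dat k C' f c,
      ∀ a b : C', D'.δ a b = e (D.δ (e.symm a) (e.symm b)) := by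
  let pV : ValuationSubring C' → ValuationSubring C := fun V' => V'.comap (e : C →+* C')
  have hmem : ∀ (V' : ValuationSubring C') (z : C), z ∈ pV V' ↔ e z ∈ V' := fun V' z => Iff.rfl
  have hnon : ∀ (V' : ValuationSubring C') (z : C), z ∈ (pV V').nonunits ↔ e z ∈ V'.nonunits :=
    fun V' z => g4_lt (e : C ≃+* C') V' z
  have habove : ∀ (A : ValuationSubring k) (V' : ValuationSubring C'), Above A V' →
      Above A (pV V') := by
    intro A V' h a
    rw [hmem, e.commutes]
    exact h a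
  let cj : (C' ≃ₐ[k] C') → (C ≃ₐ[k] C) := fun τ => (e.trans τ).trans e.symm
  let cj' : (C ≃ₐ[k] C) → (C' ≃ₐ[k] C') := fun τ => (e.symm.trans τ).trans e
  have hcj : ∀ τ z, cj τ z = e.symm (τ (e z)) := fun _ _ => rfl
  have hcj' : ∀ τ z, cj' τ z = e (τ (e.symm z)) := fun _ _ => rfl
  have hst : ∀ (V V' : ValuationSubring C') (g : C' ≃ₐ[k] C'), (∀ z, g z ∈ V' ↔ z ∈ V) →
      ∀ z, cj g z ∈ pV V' ↔ z ∈ pV V := by
    intro V V' g hg z
    rw [hmem, hmem, hcj, e.apply_symm_apply, hg]
  have hin : ∀ (V' : ValuationSubring C') (τ : C' ≃ₐ[k] C'), Iner V' τ → Iner (pV V') (cj τ) := by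
    intro V' τ hτ
    refine ⟨hst V' V' τ hτ.stab, fun z hz => ?_⟩
    rw [hnon, map_sub, hcj, e.apply_symm_apply]
    exact hτ.triv _ ((hmem V' z).1 hz)
  have hin' : ∀ (V' : ValuationSubring C') (τ : C ≃ₐ[k] C), Iner (pV V') τ → Iner V' (cj' τ) := by
    intro V' τ hτ
    refine ⟨fun z => ?_, fun z hz => ?_⟩
    · rw [hcj', ← hmem, hτ.stab, hmem, e.apply_symm_apply]
    · have h1 := hτ.triv (e.symm z) (by rw [hmem, e.apply_symm_apply]; exact hz)
      rw [hnon, map_sub, e.apply_symm_apply] at h1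
      exact h1
  have hrt : ∀ a : C', aeval a f = 0 → aeval (e.symm a) f = 0 := by
    intro a ha
    have h1 : aeval (e.symm a) f = e.symm (aeval a f) := aeval_algHom_apply e.symm.toAlgHom a f
    rw [h1, ha, map_zero]
  have hrt' : ∀ a : C, aeval a f = 0 → aeval (e a) f = 0 := by
    intro a ha
    have h1 : aeval (e a) f = e (aeval a f) := aeval_algHom_apply e.toAlgHom a f
    rw [h1, ha, map_zero]
  have hne : ∀ a b : C', a ≠ b → e.symm a ≠ e.symm b := fun a b h h' => h (e.symm.injective h')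
  have hsq : ∀ (a b z : C'), z ^ 2 = e (D.δ (e.symm a) (e.symm b)) →
      (e.symm z) ^ 2 = D.δ (e.symm a) (e.symm b) := by
    intro a b z hz
    rw [← map_pow, hz, e.symm_apply_apply]
  have hρ : ∀ (V' : ValuationSubring C') (a : C'), e (D.ρ (pV V')) ≠ a →
      D.ρ (pV V') ≠ e.symm a := by
    intro V' a h h'
    exact h (by rw [h', e.apply_symm_apply])
  refine ⟨{
    δ := fun a b => e (D.δ (e.symm a) (e.symm b))
    ρ := fun V' => e (D.ρ (pV V'))
    ne := ?_
    fix := ?_
    root := ?_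
    eqv := ?_
    even := ?_
    odd := ?_
    sgn := ?_ }, fun _ _ => rfl⟩
  · intro a b ha hb hab h
    exact D.ne _ _ (hrt a ha) (hrt b hb) (hne a b hab) ((map_eq_zero e).1 h)
  · intro a b ha hb hab σ hσa hσb
    have h1 := D.fix _ _ (hrt a ha) (hrt b hb) (hne a b hab) (cj σ)
      (by rw [hcj, e.apply_symm_apply, hσa]) (by rw [hcj, e.apply_symm_apply, hσb])
    rw [hcj] at h1
    have h2 := congrArg e h1
    rw [e.apply_symm_apply] at h2
    exact h2
  · intro A V' hA hV' hodd
    exact hrt' _ (D.root A (pV V') hA (habove A V' hV') hodd)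
  · intro A V V' hA hV hV' hodd g hg
    have h1 := D.eqv A (pV V) (pV V') hA (habove A V hV) (habove A V' hV') hodd (cj g)
      (hst V V' g hg)
    have h2 := congrArg e h1
    rw [hcj, e.apply_symm_apply] at h2
    exact h2
  · intro A V hA hV a b ha hb hab hr z hz τ hτ
    have h1 := D.even A (pV V) hA (habove A V hV) _ _ (hrt a ha) (hrt b hb) (hne a b hab)
      (fun hodd => ⟨hρ V a (hr hodd).1, hρ V b (hr hodd).2⟩) (e.symm z) (hsq a b z hz) (cj τ)
      (hin V τ hτ)
    rw [hcj, e.apply_symm_apply] at h1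
    exact e.symm.injective h1
  · intro A V hA hV a b ha hb hab hodd hr z hz
    obtain ⟨τ, hτ, hτz⟩ := D.odd A (pV V) hA (habove A V hV) _ _ (hrt a ha) (hrt b hb)
      (hne a b hab) hodd (by
        rcases hr with h | h
        · left; rw [← h, e.symm_apply_apply]
        · right; rw [← h, e.symm_apply_apply]) (e.symm z) (hsq a b z hz)
    refine ⟨cj' τ, hin' V τ hτ, ?_⟩
    rw [hcj', hτz, map_neg, e.apply_symm_apply]
  · intro A V hA hV a b ha hb hab hodd hra hrb g hg hga hgb z γ hz hγ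
    have h1 := D.sgn A (pV V) hA (habove A V hV) _ _ (hrt a ha) (hrt b hb) (hne a b hab) hodd
      (hρ V a hra) (hρ V b hrb) (cj g) (hst V V g hg) (by rw [hcj, e.apply_symm_apply, hga])
      (by rw [hcj, e.apply_symm_apply, hgb]) (e.symm z) (e.symm γ) (hsq a b z hz) (by
        rw [← map_pow, hγ, map_mul, map_sub, map_sub, e.symm_apply_apply])
    rw [hcj, hcj, e.apply_symm_apply, e.apply_symm_apply, ← map_mul, ← map_mul] at h1
    exact e.symm.injective h1

end SC8
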