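import Mathlib

/-!
# [SC8-F3] a cocycle with values in the permutation module of a set with an odd number of elements

`u * u = 1` in `ℤˣ` (`Int.units_mul_self`), commutative.
1. `ψ 1 a = 1` (`hc 1 1 a`). For `σ a₀ n`: `ψ (σ ^ n) a₀ = ∏ i ∈ Finset.range n, ψ σ (σ ^ i • a₀)` (induction with `hc σ (σ^n) a₀`, `pow_succ'`).
2. CLAIM: `ψ σ a = 1` if `σ • a = a`. Let `u = ψ σ a`. For every finset `T ⊆ X` with `x ∈ T → σ • x ∈ T`: `∏_{x ∈ T} ψ σ x = u ^ T.card`. Strong induction on `T`: if
`b ∈ T`, let `l = Function.minimalPeriod (σ • ·) b > 0` (finite: `X` is finite), `O = (range l).image (σ ^ · • b) ⊆ T`, injective on `range l`, so by 1. (`σ ^ l • b = b`)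
`∏_{x ∈ O} ψ σ x = ψ (σ ^ l) b = ψ (σ ^ l) a` (`h2`: `σ ^ l` fixes `a` and `b`) `= u ^ l` (1. with `σ ^ i • a = a`), `O.card = l`; `T \ O` is again stable (`x ∉ O → σ • x ∉ O`:
`O` is mapped onto itself). For `T = univ`: `1 = u ^ |X| = u`, because `|X|` is odd.
3. So `ψ` is constant on cosets: if `σ • a = σ' • a` then `σ' = σ τ` with `τ = σ⁻¹ σ'`, `τ • a = a`, `ψ σ' a = ψ σ (τ • a) * ψ τ a = ψ σ a`. For every orbit of `G`
choose a base point (`Quotient.out` of `MulAction.orbitRel G X`); for `x` with base point `p`, `x = σ • p`: `ν₀ x = ψ σ p` (well defined). For `x = τ • p`: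
`ν₀ (σ • x) = ψ (σ τ) p = ψ σ x * ψ τ p = ψ σ x * ν₀ x`, so `ψ σ x = ν₀ (σ • x) * ν₀ x`. Let `ε = ∏ ν₀ = ± 1` and `ν x = ε * ν₀ x`: `∏ ν = ε ^ |X| * ε = 1`.
-/

set_option autoImplicit false

namespace SC8

section

variable {G X : Type} [Group G] [MulAction G X] (ψ : G → X → ℤˣ)
    (hc : ∀ σ τ a, ψ (σ * τ) a = ψ σ (τ • a) * ψ τ a)

include hc

theorem f3_one (a : X) : ψ 1 a = 1 := by
  have h := hc 1 1 a
  rw [one_mul, one_smul] at h
  exact (mul_eq_left.1 h.symm)

theorem f3_pow (σ : G) (a : X) (n : ℕ) :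
    ψ (σ ^ n) a = ∏ i ∈ Finset.range n, ψ σ (σ ^ i • a) := by
  induction n with
  | zero => rw [pow_zero, Finset.range_zero, Finset.prod_empty, f3_one ψ hc]
  | succ n ih => rw [pow_succ', hc, ih, Finset.prod_range_succ, mul_comm]

theorem f3_stable [Fintype X] [DecidableEq X]
    (h2 : ∀ σ (a b : X), σ • a = a → σ • b = b → ψ σ a = ψ σ b) (σ : G) (a : X) (ha : σ • a = a)
    (n : ℕ) : ∀ T : Finset X, T.card = n → (∀ x ∈ T, σ • x ∈ T) →
      ∏ x ∈ T, ψ σ x = ψ σ a ^ T.card := by
  induction n using Nat.strong_induction_on with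
  | _ n ih =>
    intro T hT hst
    by_cases hne : T = ∅
    · subst hne
      simp
    obtain ⟨b, hb⟩ := Finset.nonempty_iff_ne_empty.2 hne
    set f : X → X := fun x => σ • x with hf
    have hinj : Function.Injective f := MulAction.injective σ
    have hit : ∀ (m : ℕ) (x : X), f^[m] x = σ ^ m • x := by
      intro m x
      rw [hf, smul_iterate_apply]
    have hper : b ∈ Function.periodicPts f := hinj.mem_periodicPts b
    set l := Function.minimalPeriod f b with hl
    have hl0 : 0 < l := Function.minimalPeriod_pos_of_mem_periodicPts hper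
    have hlb : σ ^ l • b = b := by
      rw [← hit]
      exact Function.isPeriodicPt_minimalPeriod f b
    set O := (Finset.range l).image (fun i => σ ^ i • b) with hO
    have hOinj : Set.InjOn (fun i => σ ^ i • b) (Finset.range l) := by
      intro i hi j hj hij
      have h1 := Function.iterate_injOn_Iio_minimalPeriod (f := f) (x := b)
      refine h1 (Finset.mem_range.1 hi) (Finset.mem_range.1 hj) ?_
      simp only [hit]
      exact hij
    have hOT : O ⊆ T := by
      intro x hx
      obtain ⟨i, hi, rfl⟩ := Finset.mem_image.1 hx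
      have h1 : ∀ j : ℕ, σ ^ j • b ∈ T := by
        intro j
        induction j with
        | zero => rwa [pow_zero, one_smul]
        | succ j ihj =>
          rw [pow_succ', mul_smul]
          exact hst _ ihj
      exact h1 i
    have hOc : O.card = l := by
      rw [hO, Finset.card_image_of_injOn hOinj, Finset.card_range]
    have hlast : ∀ x, σ • x ∈ O → x ∈ O := by
      intro x hx
      obtain ⟨i, hi, hix⟩ := Finset.mem_image.1 hx
      rw [Finset.mem_range] at hi
      rcases Nat.eq_zero_or_pos i with h0 | h0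
      · refine Finset.mem_image.2 ⟨l - 1, Finset.mem_range.2 (by omega), ?_⟩
        apply hinj
        show σ • σ ^ (l - 1) • b = σ • x
        rw [← hix, h0, ← mul_smul, ← pow_succ', Nat.sub_add_cancel hl0, hlb]
        simp
      · refine Finset.mem_image.2 ⟨i - 1, Finset.mem_range.2 (by omega), ?_⟩
        apply hinj
        show σ • σ ^ (i - 1) • b = σ • x
        rw [← hix, ← mul_smul, ← pow_succ', Nat.sub_add_cancel h0]
    have hprodO : ∏ x ∈ O, ψ σ x = ψ σ a ^ O.card := by
      rw [hO, Finset.prod_image hOinj, ← hO, hOc, ← f3_pow ψ hc]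
      have hla : σ ^ l • a = a := by
        have h3 : ∀ j : ℕ, σ ^ j • a = a := by
          intro j
          induction j with
          | zero => rw [pow_zero, one_smul]
          | succ j ihj => rw [pow_succ', mul_smul, ihj, ha]
        exact h3 l
      rw [← h2 (σ ^ l) a b hla hlb, f3_pow ψ hc]
      have h3 : ∀ j : ℕ, σ ^ j • a = a := by
        intro j
        induction j with
        | zero => rw [pow_zero, one_smul]
        | succ j ihj => rw [pow_succ', mul_smul, ihj, ha]
      rw [Finset.prod_congr rfl fun i _ => by rw [h3 i], Finset.prod_const, Finset.card_range]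
    have hcard : (T \ O).card = T.card - O.card := Finset.card_sdiff_of_subset hOT
    have hle : O.card ≤ T.card := Finset.card_le_card hOT
    have h4 := ih (T \ O).card (by omega) (T \ O) rfl (by
      intro x hx
      rw [Finset.mem_sdiff] at hx ⊢
      exact ⟨hst x hx.1, fun h => hx.2 (hlast x h)⟩)
    rw [← Finset.prod_sdiff hOT, h4, hprodO, ← pow_add, hcard, Nat.sub_add_cancel hle]

theorem f3_fix [Fintype X] (hX : Odd (Fintype.card X)) (hp : ∀ σ, ∏ a, ψ σ a = 1)
    (h2 : ∀ σ (a b : X), σ • a = a → σ • b = b → ψ σ a = ψ σ b) (σ : G) (a : X) (ha : σ • a = a) :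
    ψ σ a = 1 := by
  classical
  have h := f3_stable ψ hc h2 σ a ha _ Finset.univ rfl (fun x _ => Finset.mem_univ _)
  rw [hp, Finset.card_univ] at h
  obtain ⟨m, hm⟩ := hX
  rw [hm, pow_succ, pow_mul, Int.units_sq, one_pow, one_mul] at h
  exact h.symm

end

theorem cobound {G X : Type} [Group G] [MulAction G X] [Fintype X]
    (hX : Odd (Fintype.card X)) (ψ : G → X → ℤˣ)
    (hc : ∀ σ τ a, ψ (σ * τ) a = ψ σ (τ • a) * ψ τ a) (hp : ∀ σ, ∏ a, ψ σ a = 1)
    (h2 : ∀ σ (a b : X), σ • a = a → σ • b = b → ψ σ a = ψ σ b) :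
    ∃ ν : X → ℤˣ, ∏ a, ν a = 1 ∧ ∀ σ a, ψ σ a = ν (σ • a) * ν a := by
  classical
  have hfix := f3_fix ψ hc hX hp h2
  set q : X → X := fun x => Quotient.out (Quotient.mk (MulAction.orbitRel G X) x) with hq
  have hq1 : ∀ x, ∃ τ : G, τ • q x = x := by
    intro x
    have h1 : (MulAction.orbitRel G X).r (q x) x := Quotient.exact (Quotient.out_eq _)
    have h2' : q x ∈ MulAction.orbit G x := h1
    have h3 : x ∈ MulAction.orbit G (q x) := MulAction.mem_orbit_symm.1 h2'
    exact h3
  have hq2 : ∀ (σ : G) (x : X), q (σ • x) = q x := by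
    intro σ x
    simp only [hq]
    congr 1
    apply Quotient.sound
    exact ⟨σ, rfl⟩
  choose s hs using hq1
  have hco : ∀ (τ : G) (x : X), τ • q x = x → ψ τ (q x) = ψ (s x) (q x) := by
    intro τ x hτ
    have h1 : τ = s x * ((s x)⁻¹ * τ) := by rw [mul_inv_cancel_left]
    have h3 : ((s x)⁻¹ * τ) • q x = q x := by
      rw [mul_smul, hτ, inv_smul_eq_iff, hs]
    conv_lhs => rw [h1]
    rw [hc, h3, hfix _ _ h3, mul_one]
  set ν₀ : X → ℤˣ := fun x => ψ (s x) (q x) with hν₀
  have hstep : ∀ (σ : G) (x : X), ν₀ (σ • x) = ψ σ x * ν₀ x := by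
    intro σ x
    have h1 : (σ * s x) • q (σ • x) = σ • x := by
      rw [hq2, mul_smul, hs]
    have h3 := hco (σ * s x) (σ • x) h1
    show ψ (s (σ • x)) (q (σ • x)) = ψ σ x * ψ (s x) (q x)
    rw [← h3, hq2, hc, hs]
  set ε : ℤˣ := ∏ x, ν₀ x with hε
  refine ⟨fun x => ε * ν₀ x, ?_, ?_⟩
  · rw [Finset.prod_mul_distrib, Finset.prod_const, Finset.card_univ, ← hε]
    obtain ⟨m, hm⟩ := hX
    rw [hm, pow_succ, pow_mul, Int.units_sq, one_pow, one_mul, Int.units_mul_self]
  · intro σ x
    show ψ σ x = ε * ν₀ (σ • x) * (ε * ν₀ x)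
    rw [hstep]
    have h1 := Int.units_mul_self ε
    have h3 := Int.units_mul_self (ν₀ x)
    calc ψ σ x = (ε * ε) * (ν₀ x * ν₀ x) * ψ σ x := by rw [h1, h3, one_mul, one_mul]
      _ = ε * (ψ σ x * ν₀ x) * (ε * ν₀ x) := by ac_rfl

end SC8
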