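import Mathlib

/-!
# [SC8-F4a] Kummer theory: realising signs

Let `G = Ω ≃ₐ[E] Ω`. For `g ∈ G`, `a : X`: `(g (Z a))² = Z a²` (`Z a² ∈ E`), so `g (Z a) = ± Z a`; define `χ g a : ZMod 2` by `g (Z a) = (-1) ^ (χ g a).val * Z a`
(`Z a ≠ - Z a` as `2 ≠ 0`, `Z a ≠ 0`). `χ (g h) = χ g + χ h`, so the set `H` of the `χ g` is an `AddSubgroup`, hence a `Submodule (ZMod 2) (X → ZMod 2)`
(`AddSubgroup.toZModSubmodule`). Let `n a = 0` if `ν a = 1`, else `1`. Suppose `n ∉ H`. Then there is a linear functional `L` on `X → ZMod 2` with `L = 0` on `H` and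
`L n ≠ 0` (`Submodule.exists_le_ker_of_notMem` or `Submodule.exists_dual_map_eq_bot_of_notMem`). `L v = ∑_{a ∈ A} v a` for `A = {a | L (Pi.single a 1) = 1}`
(every element of `ZMod 2` is `0` or `1`). `L = 0` on `H`: for all `g`, `∏_{a ∈ A} Z a` is fixed by `g`; so it is in `E`
(`IsGalois.mem_bot_iff_fixed` / `InfiniteGalois.mem_bot_iff_fixed`), and by `hA`: `A = ∅` (then `L = 0`, contradiction) or `A = univ` (then
`L n = ∑ n a = 0` because `∏ ν a = 1`: `∏ ν a = (-1) ^ (∑ n a)`, contradiction). So `n = χ γ` for some `γ`.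
-/

set_option autoImplicit false

namespace SC8

section

variable {E Ω : Type} [Field E] [Field Ω] [Algebra E Ω] {X : Type}

open Classical in
/-- the sign of `g` at `Z a`, as an element of `ZMod 2` -/
noncomputable def f4aChi (Z : X → Ω) (g : Ω ≃ₐ[E] Ω) (a : X) : ZMod 2 :=
  if g (Z a) = Z a then 0 else 1

theorem f4a_or (Z : X → Ω) (hZ : ∀ a, ∃ d : E, Z a ^ 2 = algebraMap E Ω d) (g : Ω ≃ₐ[E] Ω)
    (a : X) : g (Z a) = Z a ∨ g (Z a) = -Z a := by
  obtain ⟨d, hd⟩ := hZ a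
  have h1 : g (Z a) ^ 2 = Z a ^ 2 := by
    rw [← map_pow, hd, g.commutes]
  exact sq_eq_sq_iff_eq_or_eq_neg.1 h1

theorem f4a_ne (h2 : (2 : Ω) ≠ 0) {z : Ω} (hz : z ≠ 0) : -z ≠ z := by
  intro h
  have h1 : (2 : Ω) * z = 0 := by linear_combination -h
  rcases mul_eq_zero.1 h1 with h3 | h3
  · exact h2 h3
  · exact hz h3

theorem f4a_mul (h2 : (2 : Ω) ≠ 0) (Z : X → Ω) (h0 : ∀ a, Z a ≠ 0)
    (hZ : ∀ a, ∃ d : E, Z a ^ 2 = algebraMap E Ω d) (g h : Ω ≃ₐ[E] Ω) :
    f4aChi Z (g * h) = f4aChi Z g + f4aChi Z h := by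
  funext a
  have hne := f4a_ne h2 (h0 a)
  have hgh : (g * h) (Z a) = g (h (Z a)) := rfl
  show f4aChi Z (g * h) a = f4aChi Z g a + f4aChi Z h a
  unfold f4aChi
  rw [hgh]
  rcases f4a_or Z hZ g a with h3 | h3 <;> rcases f4a_or Z hZ h a with h4 | h4
  · rw [h4, h3, if_pos rfl, add_zero]
  · rw [h4, map_neg, h3, if_neg hne, if_pos rfl, zero_add]
  · rw [h4, h3, if_neg hne, if_pos rfl, add_zero]
  · rw [h4, map_neg, h3, neg_neg, if_pos rfl, if_neg hne]
    decide

/-- the realised sign vectors -/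
noncomputable def f4aH (h2 : (2 : Ω) ≠ 0) (Z : X → Ω) (h0 : ∀ a, Z a ≠ 0)
    (hZ : ∀ a, ∃ d : E, Z a ^ 2 = algebraMap E Ω d) : AddSubgroup (X → ZMod 2) where
  carrier := Set.range (f4aChi (E := E) Z)
  add_mem' := by
    rintro _ _ ⟨g, rfl⟩ ⟨h, rfl⟩
    exact ⟨g * h, f4a_mul h2 Z h0 hZ g h⟩
  zero_mem' := by
    refine ⟨1, ?_⟩
    funext a
    show f4aChi Z (1 : Ω ≃ₐ[E] Ω) a = 0
    unfold f4aChi
    exact if_pos rfl
  neg_mem' := by
    intro v hv
    have h1 : -v = v := by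
      funext a
      show -v a = v a
      generalize v a = t
      revert t
      decide
    rw [h1]
    exact hv

/-- the product over a set of indices -/
theorem f4a_prod [Fintype X] [DecidableEq X] (h2 : (2 : Ω) ≠ 0) (Z : X → Ω) (h0 : ∀ a, Z a ≠ 0)
    (hZ : ∀ a, ∃ d : E, Z a ^ 2 = algebraMap E Ω d) (g : Ω ≃ₐ[E] Ω) (A : Finset X) :
    g (∏ a ∈ A, Z a) = (-1) ^ (∑ a ∈ A, f4aChi Z g a).val * ∏ a ∈ A, Z a := by
  induction A using Finset.induction_on with
  | empty => simp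
  | insert a A ha ih =>
    rw [Finset.prod_insert ha, Finset.sum_insert ha, map_mul, ih]
    have h3 : ∀ s t : ZMod 2, ((-1 : Ω)) ^ (s + t).val = (-1) ^ s.val * (-1) ^ t.val := by
      intro s t
      have h4 : ∀ s t : ZMod 2, (s + t).val % 2 = (s.val + t.val) % 2 := by decide
      rw [← pow_add, neg_one_pow_eq_pow_mod_two, h4, ← neg_one_pow_eq_pow_mod_two]
    rw [h3]
    have h5 : g (Z a) = (-1) ^ (f4aChi Z g a).val * Z a := by
      unfold f4aChi
      rcases f4a_or Z hZ g a with h6 | h6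
      · rw [if_pos h6, h6]
        simp
      · rw [if_neg (by rw [h6]; exact f4a_ne h2 (h0 a)), h6]
        have h7 : (1 : ZMod 2).val = 1 := rfl
        rw [h7]
        ring
    rw [h5]
    ring

end

theorem kummer_real {E Ω : Type} [Field E] [Field Ω] [Algebra E Ω] [IsGalois E Ω] {X : Type}
    [Fintype X] [DecidableEq X] (h2 : (2 : Ω) ≠ 0) (Z : X → Ω) (h0 : ∀ a, Z a ≠ 0)
    (hZ : ∀ a, ∃ d : E, Z a ^ 2 = algebraMap E Ω d)
    (hA : ∀ A : Finset X, (∃ d : E, ∏ a ∈ A, Z a = algebraMap E Ω d) →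
      A = ∅ ∨ A = Finset.univ) (ν : X → ℤˣ) (hν : ∏ a, ν a = 1) :
    ∃ γ : Ω ≃ₐ[E] Ω, ∀ a, γ (Z a) = ((ν a : ℤ) : Ω) * Z a := by
  set n : X → ZMod 2 := fun a => if ν a = 1 then 0 else 1 with hn
  set H := AddSubgroup.toZModSubmodule 2 (f4aH h2 Z h0 hZ) with hH
  have hmem : n ∈ H := by
    by_contra hnH
    obtain ⟨L, hL, hLH⟩ := Submodule.exists_le_ker_of_notMem hnH
    set A : Finset X := Finset.univ.filter (fun a => L (Pi.single a 1) = 1) with hAdef
    have hLv : ∀ v : X → ZMod 2, L v = ∑ a ∈ A, v a := by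
      intro v
      have h3 : v = ∑ a, v a • (Pi.single a 1 : X → ZMod 2) := by
        funext b
        rw [Finset.sum_apply, Finset.sum_eq_single b]
        · simp
        · intro c _ hc
          simp [hc.symm]
        · intro hb
          exact absurd (Finset.mem_univ b) hb
      conv_lhs => rw [h3]
      rw [map_sum, hAdef, Finset.sum_filter]
      apply Finset.sum_congr rfl
      intro a _
      rw [map_smul, smul_eq_mul]
      have h4 : ∀ t : ZMod 2, t = 0 ∨ t = 1 := by decide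
      rcases h4 (L (Pi.single a 1)) with h5 | h5
      · rw [h5, mul_zero, if_neg (by decide)]
      · rw [h5, mul_one, if_pos rfl]
    have hfix : ∀ g : Ω ≃ₐ[E] Ω, g (∏ a ∈ A, Z a) = ∏ a ∈ A, Z a := by
      intro g
      have h3 : f4aChi Z g ∈ H := ⟨g, rfl⟩
      have h4 : L (f4aChi Z g) = 0 := hLH h3
      rw [f4a_prod h2 Z h0 hZ g A, ← hLv, h4]
      simp
    obtain ⟨d, hd⟩ := (InfiniteGalois.mem_range_algebraMap_iff_fixed _).2 hfix
    rcases hA A ⟨d, hd.symm⟩ with h3 | h3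
    · apply hL
      rw [hLv, h3, Finset.sum_empty]
    · apply hL
      rw [hLv, h3]
      have h4 : ∀ s : Finset X, ∑ a ∈ s, n a = if ∏ a ∈ s, ν a = 1 then 0 else 1 := by
        intro s
        induction s using Finset.induction_on with
        | empty => simp
        | insert a s ha ih =>
          rw [Finset.sum_insert ha, Finset.prod_insert ha, ih, hn]
          simp only
          generalize ∏ a ∈ s, ν a = u
          generalize ν a = v
          rcases Int.units_eq_one_or u with rfl | rfl <;> rcases Int.units_eq_one_or v with rfl | rfl <;> decide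
      rw [h4, hν, if_pos rfl]
  obtain ⟨γ, hγ⟩ := hmem
  refine ⟨γ, fun a => ?_⟩
  have h3 := congrFun hγ a
  rw [hn] at h3
  simp only [f4aChi] at h3
  rcases Int.units_eq_one_or (ν a) with h4 | h4
  · rw [h4] at h3 ⊢
    simp only [if_true] at h3
    have h5 : γ (Z a) = Z a := by
      by_contra hne
      rw [if_neg hne] at h3
      exact absurd h3 (by decide)
    rw [h5]
    simp
  · rw [h4] at h3 ⊢
    have h5 : γ (Z a) ≠ Z a := by
      intro he
      rw [if_pos he] at h3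
      exact absurd h3 (by decide)
    rcases f4a_or Z hZ γ a with h6 | h6
    · exact absurd h6 h5
    · rw [h6]
      simp

end SC8
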