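import Pool.Agent.MP_c1dca2_ag.SC8.F51

/-!
# [SC8-F4b] independence of the classes

`zprod_mem`: `z R(x) = P(x) + Q(x) y`, `R ≠ 0` (`eg_form`), `F = f.map ..`, `w' = algebraMap w`. Squaring and multiplying with `(x - w')^|A|`:
`∏_{a ∈ A} (x - a) · R(x)² = (x - w')^|A| ((P² + Q² c F)(x) + 2 P(x) Q(x) y)`. By `eg_indep`: `2 P Q (X - C w')^|A| = 0`, so `P = 0` or `Q = 0`, and
`∏_{a ∈ A} (X - C a) R² = (X - C w')^|A| (P² + Q² c F)` in `(kb k K)[X]`.
If `Q = 0`: `P ≠ 0`, and for `a ∈ A` (`a ≠ w'`) the multiplicity of `a` is `1 + 2 mult_a R` on the left and `2 mult_a P` on the right: so `A = ∅`.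
If `P = 0`: `Q ≠ 0`; let `a` be a root of `f`, `a ≠ w'`, `a ∉ A`: the multiplicity is `2 mult_a R` on the left, `2 mult_a Q + 1` on the right (`f` has simple roots), a contradiction.
`zprod_all`: the converse: `Ω` = all roots of `f`, `∏_{a ∈ Ω} (x - a) = (y/s)²`, `s² = c lc`, `lc` the leading coefficient of `f`; `Ω = insert w' A`, `|A| + 1 = natDegree f` is even. `z² (x - w')^|A| = ∏_{A} (x - a) = (y/s)² / (x - w')`,
so `(z (x - w')^((|A|+1)/2))² = (y/s)²`, `z = ± (y/s) / (x - w')^(..) ∈ Eg k K`.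
`rt_odd`: the number of the roots of `f` in the algebraically closed field `kb k K` is `natDegree f` (separable), one of them is `w'`.
-/

set_option autoImplicit false

open Polynomial SEC SC5

namespace SC8

variable {k K : Type} [Field k] [CharZero k] [Field K] [Algebra k K]

theorem f4b_mult_prod {L : Type} [Field L] (A : Finset L) (a : L) [DecidableEq L] :
    rootMultiplicity a (∏ b ∈ A, (X - C b)) = if a ∈ A then 1 else 0 := by
  classical
  rw [← count_roots, roots_prod_X_sub_C]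
  by_cases h : a ∈ A
  · rw [if_pos h]
    exact Multiset.count_eq_one_of_mem A.nodup h
  · rw [if_neg h]
    exact Multiset.count_eq_zero_of_notMem h

theorem f4b_pow {L : Type} [Field L] (p : L[X]) (a : L) (n : ℕ) :
    rootMultiplicity a (p ^ n) = n * rootMultiplicity a p := by
  classical
  rw [← count_roots, ← count_roots, roots_pow, Multiset.count_nsmul]

theorem f4b_mult_X {L : Type} [Field L] (a w : L) (h : a ≠ w) (n : ℕ) :
    rootMultiplicity a ((X - C w) ^ n) = 0 := by
  rw [f4b_pow _, rootMultiplicity_eq_zero, mul_zero]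
  rw [IsRoot.def, eval_sub, eval_X, eval_C]
  exact sub_ne_zero.2 h

omit [CharZero k] in
theorem f4b_aeval_prod (x : K) (A : Finset (kb k K)) :
    aeval (tO x) (∏ a ∈ A, (X - C a)) = ∏ a ∈ A, (tO x - (a : Om K)) := by
  rw [map_prod]
  refine Finset.prod_congr rfl fun a _ => ?_
  rw [map_sub, aeval_X, aeval_C]
  rfl

omit [CharZero k] in
theorem f4b_aeval_f (x : K) (f : k[X]) :
    aeval (tO x) (f.map (algebraMap k (kb k K))) = tO (aeval x f) := by
  rw [aeval_map_algebraMap, aeval_algebraMap_apply]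

omit [CharZero k] in
theorem f4b_y {f : k[X]} {c w : k} {x y : K} (h : Crv f c w x y) :
    tO y ^ 2 = aeval (tO x) (C (algebraMap k (kb k K) c) * f.map (algebraMap k (kb k K))) := by
  rw [map_mul, f4b_aeval_f, aeval_C, tO, ← map_pow, h.eq, map_mul]
  congr 1

theorem zprod_mem {f : k[X]} {c w : k} {x y : K} (h : Crv f c w x y) (A : Finset (kb k K))
    (hA : ∀ a ∈ A, aeval a f = 0 ∧ a ≠ algebraMap k (kb k K) w) (z : Om K)
    (hz : z ^ 2 * (tO x - ((algebraMap k (kb k K) w : kb k K) : Om K)) ^ A.card =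
      ∏ a ∈ A, (tO x - (a : Om K))) (hzE : z ∈ Eg k K) :
    A = ∅ ∨ ∀ a : kb k K, aeval a f = 0 → a ≠ algebraMap k (kb k K) w → a ∈ A := by
  classical
  obtain ⟨P, Q, R, hR, hzR⟩ := eg_form h z hzE
  set F := f.map (algebraMap k (kb k K)) with hF
  set w' : kb k K := algebraMap k (kb k K) w with hw'
  set c' : kb k K := algebraMap k (kb k K) c with hc'
  have hy := f4b_y h
  rw [← hF, ← hc'] at hy
  have hxw : aeval (tO x) (X - C w') = tO x - (w' : Om K) := by
    rw [map_sub, aeval_X, aeval_C]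
    rfl
  have key := eg_indep h
    ((P ^ 2 + Q ^ 2 * (C c' * F)) * (X - C w') ^ A.card - (∏ a ∈ A, (X - C a)) * R ^ 2)
    (2 * P * Q * (X - C w') ^ A.card) (by
      rw [map_sub, map_mul, map_mul, map_mul, map_mul, map_mul, map_add, map_mul, map_pow,
        map_pow, map_pow, map_pow, ← hy, hxw, f4b_aeval_prod, ← hz]
      rw [show aeval (tO x) (2 : (kb k K)[X]) = (2 : Om K) from map_ofNat _ 2]
      linear_combination (-(z * aeval (tO x) R) - (aeval (tO x) P + aeval (tO x) Q * tO y)) *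
        (tO x - (w' : Om K)) ^ A.card * hzR)
  obtain ⟨k1, k2⟩ := key
  have h20 : (2 : (kb k K)[X]) ≠ 0 := two_ne_zero
  have hXw : (X - C w') ^ A.card ≠ 0 := pow_ne_zero _ (X_sub_C_ne_zero w')
  have hPQ : P = 0 ∨ Q = 0 := by
    rcases mul_eq_zero.1 k2 with k3 | k3
    · rcases mul_eq_zero.1 k3 with k4 | k4
      · rcases mul_eq_zero.1 k4 with k5 | k5
        · exact absurd k5 h20
        · exact Or.inl k5
      · exact Or.inr k4
    · exact absurd k3 hXw
  have hPA : (∏ a ∈ A, (X - C a) : (kb k K)[X]) ≠ 0 :=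
    Finset.prod_ne_zero_iff.2 fun a _ => X_sub_C_ne_zero a
  have hRHS : (∏ a ∈ A, (X - C a)) * R ^ 2 ≠ 0 := mul_ne_zero hPA (pow_ne_zero _ hR)
  have k3 : (P ^ 2 + Q ^ 2 * (C c' * F)) * (X - C w') ^ A.card =
      (∏ a ∈ A, (X - C a)) * R ^ 2 := sub_eq_zero.1 k1
  rcases hPQ with rfl | rfl
  · right
    intro a ha haw
    by_contra haA
    rw [zero_pow two_ne_zero, zero_add] at k3
    have h4 : Q ^ 2 * (C c' * F) * (X - C w') ^ A.card ≠ 0 := by rw [k3]; exact hRHS
    have h5 : Q ^ 2 * (C c' * F) ≠ 0 := left_ne_zero_of_mul h4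
    have h6 : C c' * F ≠ 0 := right_ne_zero_of_mul h5
    have hQ : Q ≠ 0 := fun h0 => h5 (by rw [h0, zero_pow two_ne_zero, zero_mul])
    have h7 := congrArg (rootMultiplicity a) k3
    rw [rootMultiplicity_mul h4, rootMultiplicity_mul h5, rootMultiplicity_mul h6,
      rootMultiplicity_mul hRHS, f4b_pow Q, f4b_pow R, f4b_mult_X a w' haw,
      f4b_mult_prod, if_neg haA, rootMultiplicity_C] at h7
    have hsep : F.Separable := h.sep.map
    have h8 : rootMultiplicity a F ≤ 1 := rootMultiplicity_le_one_of_separable hsep a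
    have h9 : 0 < rootMultiplicity a F := by
      rw [rootMultiplicity_pos (right_ne_zero_of_mul h6), IsRoot.def, hF, eval_map_algebraMap]
      exact ha
    omega
  · left
    by_contra hne
    obtain ⟨a, ha⟩ := Finset.nonempty_of_ne_empty hne
    obtain ⟨-, haw⟩ := hA a ha
    rw [zero_pow two_ne_zero, zero_mul, add_zero] at k3
    have h4 : P ^ 2 * (X - C w') ^ A.card ≠ 0 := by rw [k3]; exact hRHS
    have hP : P ≠ 0 := fun h0 => h4 (by rw [h0, zero_pow two_ne_zero, zero_mul])
    have h7 := congrArg (rootMultiplicity a) k3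
    rw [rootMultiplicity_mul h4, rootMultiplicity_mul hRHS, f4b_pow P, f4b_pow R,
      f4b_mult_X a w' haw, f4b_mult_prod, if_pos ha] at h7
    omega

omit [CharZero k] in
/-- the roots of `f` in `kb k K` -/
theorem f4b_roots {f : k[X]} {c w : k} {x y : K} (h : Crv f c w x y) (A : Finset (kb k K))
    (hA : ∀ a, a ∈ A ↔ aeval a f = 0 ∧ a ≠ algebraMap k (kb k K) w) :
    A.card + 1 = f.natDegree ∧
      f.map (algebraMap k (kb k K)) = C (algebraMap k (kb k K) f.leadingCoeff) *
        ((X - C (algebraMap k (kb k K) w)) * ∏ a ∈ A, (X - C a)) := by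
  classical
  have hac : IsAlgClosure k (kb k K) := algebraicClosure.isAlgClosure k (Om K)
  have hcl : IsAlgClosed (kb k K) := hac.isAlgClosed
  set F := f.map (algebraMap k (kb k K)) with hF
  set w' : kb k K := algebraMap k (kb k K) w with hw'
  have hsep : F.Separable := h.sep.map
  have hF0 : F ≠ 0 := hsep.ne_zero
  have hsp : F.Splits := IsAlgClosed.splits F
  have hnd : F.roots.Nodup := nodup_roots hsep
  have hwA : w' ∉ A := fun h0 => ((hA w').1 h0).2 rfl
  have hval : F.roots = (insert w' A).val := by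
    rw [Multiset.Nodup.ext hnd (insert w' A).nodup]
    intro a
    rw [mem_roots hF0, IsRoot.def, hF, eval_map_algebraMap, Finset.mem_val, Finset.mem_insert,
      hA]
    constructor
    · intro h1
      by_cases h2 : a = w'
      · exact Or.inl h2
      · exact Or.inr ⟨h1, h2⟩
    · rintro (h1 | h1)
      · rw [h1, hw', aeval_algebraMap_apply, coe_aeval_eq_eval, h.root, map_zero]
      · exact h1.1
  have hcard : F.roots.card = A.card + 1 := by
    rw [hval, Finset.card_val, Finset.card_insert_of_notMem hwA]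
  have hdeg : F.natDegree = f.natDegree := natDegree_map _
  refine ⟨?_, ?_⟩
  · rw [← hcard, ← hdeg]
    exact hsp.natDegree_eq_card_roots.symm
  · have h1 := hsp.eq_prod_roots
    rw [hval] at h1
    have h2 : (Multiset.map (fun a => X - C a) (insert w' A).val).prod =
        ∏ a ∈ insert w' A, (X - C a) := rfl
    rw [h2, Finset.prod_insert hwA] at h1
    rw [h1]
    congr 2
    rw [hF, leadingCoeff_map]

theorem zprod_all {f : k[X]} {c w : k} {x y : K} (h : Crv f c w x y) (A : Finset (kb k K))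
    (hA : ∀ a, a ∈ A ↔ aeval a f = 0 ∧ a ≠ algebraMap k (kb k K) w) (z : Om K)
    (hz : z ^ 2 * (tO x - ((algebraMap k (kb k K) w : kb k K) : Om K)) ^ A.card =
      ∏ a ∈ A, (tO x - (a : Om K))) : z ∈ Eg k K := by
  obtain ⟨hcard, hprod⟩ := f4b_roots h A hA
  obtain ⟨m, hm⟩ := h.even
  obtain ⟨s, hs⟩ := exists_sqrt_kb (K := K) (c * f.leadingCoeff)
  have hy := f4b_y h
  rw [hprod, map_mul, map_mul, map_mul, aeval_C, aeval_C, f4b_aeval_prod, ← hz, map_sub, aeval_X,
    aeval_C] at hy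
  set w' : kb k K := algebraMap k (kb k K) w with hw'
  have hs' : ((s : kb k K) : Om K) ^ 2 = algebraMap (kb k K) (Om K) (algebraMap k (kb k K) c) *
      algebraMap (kb k K) (Om K) (algebraMap k (kb k K) f.leadingCoeff) := by
    rw [← map_mul, ← map_mul, ← hs]
    rfl
  have hsq : (tO y) ^ 2 = ((s : Om K) * z * (tO x - (w' : Om K)) ^ m) ^ 2 := by
    have h3 : A.card + 1 = 2 * m := by omega
    have h4 : (tO x - (w' : Om K)) ^ A.card * (tO x - (w' : Om K)) =
        ((tO x - (w' : Om K)) ^ m) ^ 2 := by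
      rw [← pow_succ, h3, pow_mul']
    have h5 : algebraMap (kb k K) (Om K) w' = (w' : Om K) := rfl
    rw [hy, h5, mul_pow, mul_pow, hs', ← h4]
    ring
  have hs0 : (s : Om K) ≠ 0 := by
    intro h0
    have h6 : s = 0 := Subtype.ext h0
    rw [h6, zero_pow two_ne_zero] at hs
    have h7 : c * f.leadingCoeff ≠ 0 := mul_ne_zero h.cne (leadingCoeff_ne_zero.2 h.sep.ne_zero)
    exact h7 ((FaithfulSMul.algebraMap_injective k (kb k K)) (by rw [← hs, map_zero]))
  have hxw : aeval (tO x) (X - C w') = tO x - (w' : Om K) := by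
    rw [map_sub, aeval_X, aeval_C]
    rfl
  have hxw0 : tO x - (w' : Om K) ≠ 0 := by
    rw [← hxw]
    exact aeval_ne_zero x h.tr _ (X_sub_C_ne_zero w')
  have hmem : (s : Om K) * (tO x - (w' : Om K)) ^ m ∈ Eg k K := by
    have h6 := eg_mem x (C s * (X - C w') ^ m)
    rw [map_mul, map_pow, hxw, aeval_C] at h6
    exact h6
  have hymem : tO y ∈ Eg k K := (Eg k K).algebraMap_mem y
  have h0 : (s : Om K) * (tO x - (w' : Om K)) ^ m ≠ 0 := mul_ne_zero hs0 (pow_ne_zero _ hxw0)
  rcases sq_eq_sq_iff_eq_or_eq_neg.1 hsq with h6 | h6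
  · have h7 : z = tO y * ((s : Om K) * (tO x - (w' : Om K)) ^ m)⁻¹ := by
      rw [eq_mul_inv_iff_mul_eq₀ h0, h6]
      ring
    rw [h7]
    exact mul_mem hymem (inv_mem hmem)
  · have h7 : z = -tO y * ((s : Om K) * (tO x - (w' : Om K)) ^ m)⁻¹ := by
      rw [eq_mul_inv_iff_mul_eq₀ h0, h6]
      ring
    rw [h7]
    exact mul_mem (neg_mem hymem) (inv_mem hmem)

theorem rt_odd {f : k[X]} {c w : k} {x y : K} (h : Crv f c w x y) [Fintype (Rt k K f w)] :
    Odd (Fintype.card (Rt k K f w)) := by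
  classical
  set A : Finset (kb k K) := Finset.univ.map (Function.Embedding.subtype
    (fun a : kb k K => aeval a f = 0 ∧ a ≠ algebraMap k (kb k K) w)) with hAdef
  have hA : ∀ a, a ∈ A ↔ aeval a f = 0 ∧ a ≠ algebraMap k (kb k K) w := by
    intro a
    rw [hAdef, Finset.mem_map]
    constructor
    · rintro ⟨b, -, rfl⟩
      exact b.2
    · intro ha
      exact ⟨⟨a, ha⟩, Finset.mem_univ _, rfl⟩
  have hcard := (f4b_roots h A hA).1
  have h1 : A.card = Fintype.card (Rt k K f w) := by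
    rw [hAdef, Finset.card_map]
    rfl
  obtain ⟨m, hm⟩ := h.even
  have h4 := h.four
  rw [← h1]
  refine ⟨m - 1, ?_⟩
  omega

end SC8
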