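import Pool.Agent.MP_c1dca2_ag.SC8.FD

/-!
# [SC8-F51] the elements of `K k^alg`
-/

set_option autoImplicit false

open Polynomial SEC SC5

namespace SC8

variable {k K : Type} [Field k] [CharZero k] [Field K] [Algebra k K]

theorem f51_map (x : K) (g : k[X]) :
    aeval (tO x) (g.map (algebraMap k (kb k K))) = tO (aeval x g) := by
  rw [aeval_map_algebraMap, aeval_algebraMap_apply]

/-- the square of `y` -/
theorem f51_sq {f : k[X]} {c w : k} {x y : K} (h : Crv f c w x y) :
    tO y ^ 2 = aeval (tO x) (C (algebraMap k (kb k K) c) * f.map (algebraMap k (kb k K))) := by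
  have h1 : tO y ^ 2 = tO (y ^ 2) := (map_pow _ _ _).symm
  rw [h1, h.eq, map_mul (aeval (tO x)), f51_map, aeval_C]
  change algebraMap K (Om K) (algebraMap k K c * aeval x f) =
    algebraMap (kb k K) (Om K) (algebraMap k (kb k K) c) * algebraMap K (Om K) (aeval x f)
  rw [map_mul, ← IsScalarTower.algebraMap_apply k K (Om K),
    ← IsScalarTower.algebraMap_apply k (kb k K) (Om K)]

/-- `z` has the form `(P(x) + Q(x) y) / R(x)`. -/
def F51P (x y : K) (z : Om K) : Prop := ∃ P Q R : (kb k K)[X], R ≠ 0 ∧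
  z * aeval (tO x) R = aeval (tO x) P + aeval (tO x) Q * tO y

theorem f51_kb (x y : K) (a : kb k K) : F51P (k := k) x y (a : Om K) := by
  refine ⟨C a, 0, 1, one_ne_zero, ?_⟩
  rw [map_one, mul_one, aeval_C, map_zero, zero_mul, add_zero]
  rfl

theorem f51_add {x y : K} {z z' : Om K} (h : F51P (k := k) x y z) (h' : F51P (k := k) x y z') :
    F51P (k := k) x y (z + z') := by
  obtain ⟨P, Q, R, hR, e⟩ := h
  obtain ⟨P', Q', R', hR', e'⟩ := h'
  refine ⟨P * R' + P' * R, Q * R' + Q' * R, R * R', mul_ne_zero hR hR', ?_⟩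
  simp only [map_mul, map_add]
  linear_combination (aeval (tO x) R') * e + (aeval (tO x) R) * e'

theorem f51_mul {f : k[X]} {c w : k} {x y : K} (hC : Crv f c w x y) {z z' : Om K}
    (h : F51P (k := k) x y z) (h' : F51P (k := k) x y z') : F51P (k := k) x y (z * z') := by
  obtain ⟨P, Q, R, hR, e⟩ := h
  obtain ⟨P', Q', R', hR', e'⟩ := h'
  have hy := f51_sq hC
  refine ⟨P * P' + Q * Q' * (C (algebraMap k (kb k K) c) * f.map (algebraMap k (kb k K))),
    P * Q' + P' * Q, R * R', mul_ne_zero hR hR', ?_⟩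
  rw [map_add, map_mul (aeval (tO x)) (Q * Q'), ← hy]
  simp only [map_mul, map_add]
  linear_combination (z' * aeval (tO x) R') * e +
    (aeval (tO x) P + aeval (tO x) Q * tO y) * e'

theorem f51_inv {f : k[X]} {c w : k} {x y : K} (hC : Crv f c w x y) {z : Om K}
    (h : F51P (k := k) x y z) : F51P (k := k) x y z⁻¹ := by
  obtain ⟨P, Q, R, hR, e⟩ := h
  have hy := f51_sq hC
  by_cases hz : z = 0
  · refine ⟨0, 0, 1, one_ne_zero, ?_⟩
    rw [hz]
    simp
  set N : (kb k K)[X] := P ^ 2 - Q ^ 2 *
    (C (algebraMap k (kb k K) c) * f.map (algebraMap k (kb k K))) with hN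
  have hNv : aeval (tO x) N = (aeval (tO x) P + aeval (tO x) Q * tO y) *
      (aeval (tO x) P - aeval (tO x) Q * tO y) := by
    rw [hN, map_sub, map_mul, ← hy, map_pow, map_pow]
    ring
  by_cases hN0 : N = 0
  · rw [hN0, map_zero] at hNv
    have h1 : z * aeval (tO x) R ≠ 0 := mul_ne_zero hz (aeval_ne_zero x hC.tr R hR)
    rw [e] at h1
    have h2 := (mul_eq_zero.1 hNv.symm).resolve_left h1
    refine ⟨R, 0, 2 * P, ?_, ?_⟩
    · intro h3
      have h4 : (2 : (kb k K)[X]) ≠ 0 := by
        have : CharZero (kb k K) := charZero_of_injective_algebraMap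
          (algebraMap k (kb k K)).injective
        exact two_ne_zero
      have h5 := (mul_eq_zero.1 h3).resolve_left h4
      rw [h5, map_zero] at h1 h2
      rw [zero_add] at h1
      rw [zero_sub, neg_eq_zero] at h2
      exact h1 h2
    · rw [map_zero, zero_mul, add_zero, map_mul, map_ofNat]
      have h6 : z * aeval (tO x) R = 2 * aeval (tO x) P := by
        rw [e]
        linear_combination -h2
      rw [← h6]
      field_simp
  · refine ⟨R * P, -(R * Q), N, hN0, ?_⟩
    rw [hNv, ← e]
    simp only [map_mul, map_neg]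
    field_simp
    ring

theorem f51_field {f : k[X]} {c w : k} {x y : K} (hC : Crv f c w x y) (u : K) :
    F51P (k := k) x y (tO u) := by
  have hu : u ∈ IntermediateField.adjoin k {x, y} := by
    rw [hC.gen]
    exact IntermediateField.mem_top
  refine IntermediateField.adjoin_induction k (p := fun u _ => F51P (k := k) x y (tO u))
    ?_ ?_ ?_ ?_ ?_ hu
  · rintro v (rfl | rfl)
    · refine ⟨X, 0, 1, one_ne_zero, ?_⟩
      simp
    · refine ⟨0, 1, 1, one_ne_zero, ?_⟩
      simp
  · intro a
    have h1 : tO (algebraMap k K a) = ((algebraMap k (kb k K) a : kb k K) : Om K) := by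
      change algebraMap K (Om K) (algebraMap k K a) = algebraMap (kb k K) (Om K) (algebraMap k (kb k K) a)
      rw [← IsScalarTower.algebraMap_apply k K (Om K),
        ← IsScalarTower.algebraMap_apply k (kb k K) (Om K)]
    rw [h1]
    exact f51_kb x y _
  · intro a b _ _ ha hb
    rw [tO, map_add]
    exact f51_add ha hb
  · intro a _ ha
    rw [tO, map_inv₀]
    exact f51_inv hC ha
  · intro a b _ _ ha hb
    rw [tO, map_mul]
    exact f51_mul hC ha hb

theorem eg_form {f : k[X]} {c w : k} {x y : K} (h : Crv f c w x y) (z : Om K)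
    (hz : z ∈ Eg k K) : ∃ P Q R : (kb k K)[X], R ≠ 0 ∧
      z * aeval (tO x) R = aeval (tO x) P + aeval (tO x) Q * tO y := by
  change F51P (k := k) x y z
  refine IntermediateField.adjoin_induction K (p := fun z _ => F51P (k := k) x y z)
    ?_ ?_ ?_ ?_ ?_ hz
  · intro a ha
    exact f51_kb x y (⟨a, ha⟩ : kb k K)
  · exact f51_field h
  · intro a b _ _ ha hb
    exact f51_add ha hb
  · intro a _ ha
    exact f51_inv h ha
  · intro a b _ _ ha hb
    exact f51_mul h ha hb

theorem eg_mem (x : K) (P : (kb k K)[X]) : aeval (tO x) P ∈ Eg k K := by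
  rw [aeval_eq_sum_range]
  refine sum_mem fun i _ => ?_
  rw [Algebra.smul_def]
  refine mul_mem ?_ (pow_mem ?_ _)
  · exact IntermediateField.subset_adjoin K _ (P.coeff i).2
  · exact (Eg k K).algebraMap_mem x

theorem f51_inj {x : K} (hx : Transcendental k x) {P Q : (kb k K)[X]}
    (h : aeval (tO x) P = aeval (tO x) Q) : P = Q := by
  by_contra hne
  exact aeval_ne_zero x hx (P - Q) (sub_ne_zero.2 hne) (by rw [map_sub, h, sub_self])

/-- `y` is not in `k^alg(x)`. -/
theorem eg_indep {f : k[X]} {c w : k} {x y : K} (h : Crv f c w x y) (P Q : (kb k K)[X])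
    (h0 : aeval (tO x) P + aeval (tO x) Q * tO y = 0) : P = 0 ∧ Q = 0 := by
  have hchar : CharZero (kb k K) := charZero_of_injective_algebraMap
    (algebraMap k (kb k K)).injective
  have hy := f51_sq h
  have h1 : P ^ 2 = Q ^ 2 * (C (algebraMap k (kb k K) c) * f.map (algebraMap k (kb k K))) := by
    apply f51_inj h.tr
    rw [map_mul, ← hy, map_pow, map_pow]
    linear_combination (aeval (tO x) P - aeval (tO x) Q * tO y) * h0
  have hc' : algebraMap k (kb k K) c ≠ 0 := by
    rw [Ne, map_eq_zero]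
    exact h.cne
  have hF0 : f.map (algebraMap k (kb k K)) ≠ 0 := Polynomial.map_ne_zero h.sep.ne_zero
  have hQ : Q = 0 := by
    by_contra hQ
    have hP : P ≠ 0 := by
      intro hP
      rw [hP, zero_pow two_ne_zero] at h1
      exact mul_ne_zero (pow_ne_zero 2 hQ) (mul_ne_zero (C_ne_zero.2 hc') hF0) h1.symm
    set β : kb k K := algebraMap k (kb k K) w with hβ
    have h2 : (f.map (algebraMap k (kb k K))).rootMultiplicity β = 1 := by
      have h3 : (f.map (algebraMap k (kb k K))).IsRoot β := by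
        rw [IsRoot.def, hβ, eval_map, eval₂_at_apply, h.root, map_zero]
      have h4 := rootMultiplicity_le_one_of_separable (h.sep.map (f := algebraMap k (kb k K))) β
      have h5 := (rootMultiplicity_pos hF0).2 h3
      omega
    have h3 := congrArg (rootMultiplicity β) h1
    rw [rootMultiplicity_mul (mul_ne_zero (pow_ne_zero 2 hQ) (mul_ne_zero (C_ne_zero.2 hc') hF0)),
      rootMultiplicity_mul (mul_ne_zero (C_ne_zero.2 hc') hF0), rootMultiplicity_C, h2,
      pow_two, pow_two, rootMultiplicity_mul (mul_ne_zero hP hP),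
      rootMultiplicity_mul (mul_ne_zero hQ hQ)] at h3
    omega
  refine ⟨?_, hQ⟩
  rw [hQ, zero_pow two_ne_zero, zero_mul] at h1
  exact pow_eq_zero_iff two_ne_zero |>.1 h1

end SC8
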