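import Pool.Agent.MP_c1dca2_ag.SC8.FD
import Pool.Agent.MP_c1dca2_ag.SC2.A5

/-!
# [SC8-F52] the squares of elements of `M` have even values
-/

set_option autoImplicit false

open Polynomial SEC SC5

namespace SC8

variable {k K : Type} [Field k] [CharZero k] [Field K] [Algebra k K]

theorem f52_gal {K : Type} [Field K] [CharZero K] (E : IntermediateField K (Om K)) :
    IsGalois E (Om K) := by
  have h1 : IsGalois K (Om K) := inferInstance
  infer_instance

theorem f52_le {F : Type} [Field F] (B : ValuationSubring F) {u v : F} (hv : v ≠ 0) :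
    B.valuation u ≤ B.valuation v ↔ u / v ∈ B := by
  have hv0 : B.valuation v ≠ 0 := (Valuation.ne_zero_iff _).2 hv
  rw [← B.valuation_le_one_iff, map_div₀, div_le_one₀ (zero_lt_iff.2 hv0)]

theorem val_even (B : ValuationSubring (Om K)) (hB : IsPlace k K B) (z : Om K)
    (hz : z ∈ Mnr k K) (hz2 : z ^ 2 ∈ Eg k K) :
    ∃ g ∈ Eg k K, B.valuation (z ^ 2) = B.valuation g ^ 2 := by
  by_contra hcon
  push Not at hcon
  have hz0 : z ≠ 0 := by
    intro h
    apply hcon 0 (Eg k K).zero_mem
    rw [h]
    simp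
  have hchar : CharZero K := charZero_of_injective_algebraMap (algebraMap k K).injective
  have hgal : IsGalois (Eg k K) (Om K) := f52_gal (Eg k K)
  let A : ValuationSubring (Eg k K) := B.comap (algebraMap (Eg k K) (Om K))
  have hA : SC2.Above A B := fun a => Iff.rfl
  have h6 : (2 : Om K) ∈ kb k K := by
    have h := (kb k K).algebraMap_mem (2 : k)
    rwa [map_ofNat] at h
  have h7 : (2 : Om K) ≠ 0 := by
    have h : algebraMap k (Om K) 2 ≠ 0 := by
      rw [Ne, map_eq_zero]
      exact two_ne_zero
    rwa [map_ofNat] at h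
  have h2 : B.valuation (2 : Om K) = 1 := place_alg_val B hB 2 h6 h7
  have hd : ∀ e : Eg k K, A.valuation (⟨z ^ 2, hz2⟩ : Eg k K) ≠ A.valuation e ^ 2 := by
    intro e he
    rw [← map_pow] at he
    have hz20 : (⟨z ^ 2, hz2⟩ : Eg k K) ≠ 0 := by
      intro h
      exact pow_ne_zero 2 hz0 (congrArg Subtype.val h)
    have he0 : e ^ 2 ≠ 0 := by
      intro h
      rw [h, map_zero] at he
      exact (Valuation.ne_zero_iff _).2 hz20 he
    have he0' : (e : Om K) ^ 2 ≠ 0 := by
      intro h
      apply he0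
      apply Subtype.ext
      exact h
    apply hcon (e : Om K) e.2
    rw [← map_pow]
    apply le_antisymm
    · rw [f52_le B he0']
      have h3 := (f52_le A he0).1 he.le
      exact h3
    · rw [f52_le B (pow_ne_zero 2 hz0)]
      have h3 := (f52_le A hz20).1 he.ge
      exact h3
  obtain ⟨τ, hτ, hτz⟩ := SC2.exists_tau hA h2 (⟨z ^ 2, hz2⟩ : Eg k K) hd z rfl
  have h8 : (τ.restrictScalars K) z = z := hz B hB (τ.restrictScalars K) ⟨hτ.stab, hτ.triv⟩
  have h9 : z = -z := by
    rw [← hτz]
    exact h8.symm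
  apply hz0
  have h10 : (2 : Om K) * z = 0 := by linear_combination h9
  exact (mul_eq_zero.1 h10).resolve_left h7

end SC8
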