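import Pool.Agent.MP_c1dca2_ag.SC8.F51
import Pool.Agent.MP_c1dca2_ag.SEC.M2

/-!
# [SC8-F53] the values of `P(x) + Q(x) y`

Notation `v = B.valuation`, `x = tO x`, `F = f.map ..`, `y² = c F(x)`, `v` is trivial on `kb k K` (`place_alg_val`). For `P ≠ 0`: `val_poly`: write
`P = (X - C β)^m P₁` with `P₁(β) ≠ 0`, `m = rootMultiplicity β P` (`exists_eq_pow_rootMultiplicity_mul_and_not_dvd`); `P₁(x) = P₁(β) + (x - β) P₂(x)` has value `1`
(`val_aeval_le`). `F` has simple roots (`h.sep`, map, `Separable`), so `F = (X - C β) F₁` with `F₁(β) ≠ 0` if `f(β) = 0`: `v(y)² = v(x - β)` (`v c = 1`): `val_branch`.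
`unit_case` (`f(β) ≠ 0`): `v(y) = 1`. Let `(P, Q) ≠ (0, 0)`, `m` the minimum of the root multiplicities of the nonzero ones among `P, Q`; dividing by `(X - C β)^m` we
can assume `P(β) ≠ 0` or `Q(β) ≠ 0`, i.e. `v(P(x)) = 1` or `v(Q(x) y) = 1`, both `≤ 1`. `A = P + Q y`, `A' = P - Q y`: `v A, v A' ≤ 1`, `A + A' = 2 P`, `A - A' = 2 Q y`, so `v A = 1` or
`v A' = 1`. `A A' = P² - Q² c F =: N(x)`, `N ≠ 0` (`eg_indep`), `v (A A') = v(x-β)^(rootMultiplicity β N)`. So `v A` is `1` or `v(x-β)^n`. An element `g ≠ 0` of `Eg k K`: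
`eg_form`, quotient of two such values (`zpow`).
`inf_case` (`v x > 1`): `v(P(x)) = v(x)^(deg P)` (`val_aeval_big`), `v(y) = v(x)^(deg f / 2)` (`v(y)² = v(x)^(deg f)`, `pow_left_inj`). Let
`D` be the maximum of the degrees `deg P`, `deg Q + deg f / 2` of the nonzero terms: `v A, v A' ≤ v(x)^D`, one of `2P`, `2 Q y` has value exactly `v(x)^D`, so
`v A` or `v A'` is `v(x)^D` (ultrametric), and the product is `v(x)^(deg N)`.
`branch_case` (`f(β) = 0`): `v(P(x)) = v(y)^(2 m)`, `v(Q(x) y) = v(y)^(2 n + 1)` are different (`v y < 1`, `v y ≠ 0`), if `P, Q ≠ 0`; so `v(P + Q y)` is their maximum, and the same for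
`P - Q y`.
-/

set_option autoImplicit false

open Polynomial SEC SC5

namespace SC8

variable {k K : Type} [Field k] [CharZero k] [Field K] [Algebra k K]

theorem F53_x_le (B : ValuationSubring (Om K)) (hB : IsPlace k K B) (x : K) (β : kb k K)
    (hβ : B.valuation (tO x - (β : Om K)) < 1) : B.valuation (tO x) ≤ 1 := by
  have h1 : tO x = (tO x - (β : Om K)) + (β : Om K) := by ring
  rw [h1]
  exact (Valuation.map_add _ _ _).trans (max_le hβ.le (m2_coeff B hB β))

theorem F53_lin (x : K) (β : kb k K) : aeval (tO x) (X - C β) = tO x - (β : Om K) := by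
  rw [map_sub, aeval_X, aeval_C]
  rfl

theorem F53_two (B : ValuationSubring (Om K)) (hB : IsPlace k K B) :
    B.valuation (2 : Om K) = 1 := by
  have h6 : (2 : Om K) ∈ kb k K := by
    have h := (kb k K).algebraMap_mem (2 : k)
    rwa [map_ofNat] at h
  have h7 : (2 : Om K) ≠ 0 := by
    have h : algebraMap k (Om K) 2 ≠ 0 := by
      rw [Ne, map_eq_zero]
      exact two_ne_zero
    rwa [map_ofNat] at h
  exact place_alg_val B hB 2 h6 h7

theorem F53_y2 {f : k[X]} {c w : k} {x y : K} (h : Crv f c w x y) :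
    tO y ^ 2 = aeval (tO x) (C (algebraMap k (kb k K) c) * f.map (algebraMap k (kb k K))) := by
  rw [map_mul, aeval_C, aeval_map_algebraMap, ← IsScalarTower.algebraMap_apply, tO, ← map_pow,
    h.eq, map_mul, ← IsScalarTower.algebraMap_apply, aeval_algebraMap_apply]

theorem F53_norm {f : k[X]} {c w : k} {x y : K} (h : Crv f c w x y) (P Q : (kb k K)[X]) :
    (aeval (tO x) P + aeval (tO x) Q * tO y) * (aeval (tO x) P - aeval (tO x) Q * tO y) =
      aeval (tO x) (P ^ 2 - Q ^ 2 * (C (algebraMap k (kb k K) c) *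
        f.map (algebraMap k (kb k K)))) := by
  have h1 := F53_y2 h
  rw [map_sub, map_pow, map_mul, map_pow, ← h1]
  ring

theorem F53_norm_ne {f : k[X]} {c w : k} {x y : K} (h : Crv f c w x y) (P Q : (kb k K)[X])
    (hPQ : P ≠ 0 ∨ Q ≠ 0) : P ^ 2 - Q ^ 2 * (C (algebraMap k (kb k K) c) *
        f.map (algebraMap k (kb k K))) ≠ 0 := by
  intro h0
  have h1 := F53_norm h P Q
  rw [h0, map_zero, mul_eq_zero] at h1
  rcases h1 with h1 | h1
  · obtain ⟨h2, h3⟩ := eg_indep h P Q h1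
    rcases hPQ with h4 | h4
    · exact h4 h2
    · exact h4 h3
  · obtain ⟨h2, h3⟩ := eg_indep h P (-Q) (by
      rw [map_neg, neg_mul, ← sub_eq_add_neg]; exact h1)
    rcases hPQ with h4 | h4
    · exact h4 h2
    · exact h4 (neg_eq_zero.1 h3)

theorem F53_gen {f : k[X]} {c w : k} {x y : K} (h : Crv f c w x y)
    (B : ValuationSubring (Om K)) (hB : IsPlace k K B) (t : B.ValueGroup) (ht : t ≠ 0)
    (hP : ∀ P : (kb k K)[X], P ≠ 0 → ∃ n : ℤ, B.valuation (aeval (tO x) P) = t ^ n)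
    (hy : ∃ n : ℤ, B.valuation (tO y) = t ^ n) (P Q : (kb k K)[X]) (hPQ : P ≠ 0 ∨ Q ≠ 0) :
    ∃ n : ℤ, B.valuation (aeval (tO x) P + aeval (tO x) Q * tO y) = t ^ n := by
  obtain ⟨e, he⟩ := hy
  have h2v := F53_two B hB
  have hN := congrArg B.valuation (F53_norm h P Q)
  obtain ⟨nN, hnN⟩ := hP _ (F53_norm_ne h P Q hPQ)
  rw [hnN, map_mul] at hN
  have ha : P ≠ 0 → ∃ n : ℤ, B.valuation (aeval (tO x) P) = t ^ n := hP P
  have hb : Q ≠ 0 → ∃ n : ℤ, B.valuation (aeval (tO x) Q * tO y) = t ^ n := by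
    intro hQ
    obtain ⟨n, hn⟩ := hP Q hQ
    exact ⟨n + e, by rw [map_mul, hn, he, zpow_add₀ ht]⟩
  have ha0 : P = 0 → B.valuation (aeval (tO x) P) = 0 := by
    rintro rfl
    rw [map_zero, map_zero]
  have hb0 : Q = 0 → B.valuation (aeval (tO x) Q * tO y) = 0 := by
    rintro rfl
    rw [map_zero, zero_mul, map_zero]
  generalize aeval (tO x) P = a at *
  generalize aeval (tO x) Q * tO y = b at *
  have hM : ∃ D : ℤ, max (B.valuation a) (B.valuation b) = t ^ D := by
    by_cases hP0 : P = 0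
    · have hQ0 : Q ≠ 0 := hPQ.resolve_left (fun h => h hP0)
      obtain ⟨n, hn⟩ := hb hQ0
      exact ⟨n, by rw [ha0 hP0, hn, max_eq_right zero_le]⟩
    · by_cases hQ0 : Q = 0
      · obtain ⟨n, hn⟩ := ha hP0
        exact ⟨n, by rw [hb0 hQ0, hn, max_eq_left zero_le]⟩
      · obtain ⟨n, hn⟩ := ha hP0
        obtain ⟨m, hm⟩ := hb hQ0
        rcases max_choice (B.valuation a) (B.valuation b) with h1 | h1
        · exact ⟨n, by rw [h1, hn]⟩
        · exact ⟨m, by rw [h1, hm]⟩
  obtain ⟨D, hD⟩ := hM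
  have hA : B.valuation (a + b) ≤ t ^ D := by
    rw [← hD]; exact Valuation.map_add _ _ _
  have hA' : B.valuation (a - b) ≤ t ^ D := by
    rw [← hD]; exact Valuation.map_sub _ _ _
  have hor : B.valuation (a + b) = t ^ D ∨ B.valuation (a - b) = t ^ D := by
    by_contra hcon
    push Not at hcon
    have h1 := lt_of_le_of_ne hA hcon.1
    have h2 := lt_of_le_of_ne hA' hcon.2
    have h3 : B.valuation a < t ^ D := by
      have h4 : B.valuation (2 * a) < t ^ D := by
        have : 2 * a = (a + b) + (a - b) := by ring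
        rw [this]
        exact Valuation.map_add_lt _ h1 h2
      rwa [map_mul, h2v, one_mul] at h4
    have h5 : B.valuation b < t ^ D := by
      have h4 : B.valuation (2 * b) < t ^ D := by
        have : 2 * b = (a + b) - (a - b) := by ring
        rw [this]
        exact lt_of_le_of_lt (Valuation.map_sub _ _ _) (max_lt h1 h2)
      rwa [map_mul, h2v, one_mul] at h4
    exact absurd hD (max_lt h3 h5).ne
  rcases hor with h1 | h1
  · exact ⟨D, h1⟩
  · refine ⟨nN - D, ?_⟩
    rw [h1] at hN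
    rw [zpow_sub₀ ht, eq_div_iff (zpow_ne_zero _ ht)]
    exact hN

theorem F53_gen' {f : k[X]} {c w : k} {x y : K} (h : Crv f c w x y)
    (B : ValuationSubring (Om K)) (hB : IsPlace k K B) (t : B.ValueGroup) (ht : t ≠ 0)
    (hP : ∀ P : (kb k K)[X], P ≠ 0 → ∃ n : ℤ, B.valuation (aeval (tO x) P) = t ^ n)
    (hy : ∃ n : ℤ, B.valuation (tO y) = t ^ n) (g : Om K) (hg : g ∈ Eg k K) (hg0 : g ≠ 0) :
    ∃ n : ℤ, B.valuation g = t ^ n := by
  obtain ⟨P, Q, R, hR, h1⟩ := eg_form h g hg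
  have hR0 := aeval_ne_zero x h.tr R hR
  have hPQ : P ≠ 0 ∨ Q ≠ 0 := by
    by_contra hc
    push Not at hc
    rw [hc.1, hc.2, map_zero, zero_mul, add_zero, mul_eq_zero] at h1
    rcases h1 with h1 | h1
    · exact hg0 h1
    · exact hR0 h1
  obtain ⟨n, hn⟩ := F53_gen h B hB t ht hP hy P Q hPQ
  obtain ⟨m, hm⟩ := hP R hR
  refine ⟨n - m, ?_⟩
  have h2 := congrArg B.valuation h1
  rw [map_mul, hn, hm] at h2
  rw [zpow_sub₀ ht, eq_div_iff (zpow_ne_zero _ ht)]
  exact h2

theorem F53_t_ne {x : K} (hx : Transcendental k x) (B : ValuationSubring (Om K)) (β : kb k K) :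
    B.valuation (tO x - (β : Om K)) ≠ 0 := by
  rw [Valuation.ne_zero_iff, ← F53_lin]
  exact aeval_ne_zero x hx _ (X_sub_C_ne_zero β)

theorem val_poly (B : ValuationSubring (Om K)) (hB : IsPlace k K B) (x : K) (β : kb k K)
    (hβ : B.valuation (tO x - (β : Om K)) < 1) (P : (kb k K)[X]) (hP : P ≠ 0) :
    B.valuation (aeval (tO x) P) = B.valuation (tO x - (β : Om K)) ^ P.rootMultiplicity β := by
  obtain ⟨P₁, h1, h2⟩ := exists_eq_pow_rootMultiplicity_mul_and_not_dvd P hP β
  have hx := F53_x_le B hB x β hβ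
  have h3 : IsCoprime (X - C β) P₁ := ((irreducible_X_sub_C β).coprime_iff_not_dvd).2 h2
  have h5 := val_cop B hB (tO x) hx (X - C β) P₁ h3 (by rw [F53_lin]; exact hβ)
  conv_lhs => rw [h1]
  rw [map_mul, map_pow, F53_lin, map_mul, map_pow, h5, mul_one]

theorem val_branch {f : k[X]} {c w : k} {x y : K} (h : Crv f c w x y)
    (B : ValuationSubring (Om K)) (hB : IsPlace k K B) (β : kb k K)
    (hβ : B.valuation (tO x - (β : Om K)) < 1) (hf : aeval β f = 0) :
    B.valuation (tO x - (β : Om K)) = B.valuation (tO y) ^ 2 := by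
  have hH : (X - C β) ∣ f.map (algebraMap k (kb k K)) := by
    rw [dvd_iff_isRoot, IsRoot.def, eval_map_algebraMap]
    exact hf
  have h4 := F53_lin x β
  rcases val_factor B hB f h.sep c h.cne x y h.eq (X - C β) hH with ⟨h1, h2 | h2⟩ | ⟨h1, h2⟩
  · rw [h4] at h2
    exact absurd h2 hβ.ne
  · rw [h4] at h2
    exact h2
  · exact absurd (F53_x_le B hB x β hβ) (not_le.2 h1)

theorem val_unit_case {f : k[X]} {c w : k} {x y : K} (h : Crv f c w x y)
    (B : ValuationSubring (Om K)) (hB : IsPlace k K B) (β : kb k K)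
    (hβ : B.valuation (tO x - (β : Om K)) < 1) (hf : aeval β f ≠ 0) (g : Om K)
    (hg : g ∈ Eg k K) (hg0 : g ≠ 0) :
    ∃ n : ℤ, B.valuation g = B.valuation (tO x - (β : Om K)) ^ n := by
  have ht := F53_t_ne h.tr B β
  refine F53_gen' h B hB _ ht (fun P hP => ⟨P.rootMultiplicity β, ?_⟩) ⟨0, ?_⟩ g hg hg0
  · rw [zpow_natCast]
    exact val_poly B hB x β hβ P hP
  · have h1 := congrArg B.valuation (F53_y2 h)
    have hF : (C (algebraMap k (kb k K) c) * f.map (algebraMap k (kb k K))) ≠ 0 := by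
      refine mul_ne_zero ?_ ?_
      · rw [Ne, C_eq_zero, map_eq_zero]
        exact h.cne
      · exact (h.sep.map).ne_zero
    have hmul : (C (algebraMap k (kb k K) c) * f.map (algebraMap k (kb k K))).rootMultiplicity β
        = 0 := by
      rw [rootMultiplicity_eq_zero_iff]
      intro h2
      exfalso
      rw [IsRoot.def, eval_mul, eval_C, eval_map_algebraMap, mul_eq_zero, map_eq_zero] at h2
      rcases h2 with h2 | h2
      · exact h.cne h2
      · exact hf h2
    rw [val_poly B hB x β hβ _ hF, hmul, pow_zero, map_pow] at h1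
    rw [zpow_zero]
    apply m3_sq_inj
    rw [h1, one_pow]

theorem val_inf_case {f : k[X]} {c w : k} {x y : K} (h : Crv f c w x y)
    (B : ValuationSubring (Om K)) (hB : IsPlace k K B) (hx : 1 < B.valuation (tO x)) (g : Om K)
    (hg : g ∈ Eg k K) (hg0 : g ≠ 0) : ∃ n : ℤ, B.valuation g = B.valuation (tO x) ^ n := by
  have ht : B.valuation (tO x) ≠ 0 := (zero_lt_one.trans hx).ne'
  refine F53_gen' h B hB _ ht (fun P hP => ⟨P.natDegree, ?_⟩) ?_ g hg hg0
  · rw [zpow_natCast]
    exact val_aeval_big B hB (tO x) hx P hP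
  · have h1 := congrArg B.valuation (F53_y2 h)
    have hF0 : f.map (algebraMap k (kb k K)) ≠ 0 := (h.sep.map).ne_zero
    have hF : (C (algebraMap k (kb k K) c) * f.map (algebraMap k (kb k K))) ≠ 0 := by
      refine mul_ne_zero ?_ hF0
      rw [Ne, C_eq_zero, map_eq_zero]
      exact h.cne
    have hdeg : (C (algebraMap k (kb k K) c) * f.map (algebraMap k (kb k K))).natDegree =
        f.natDegree := by
      rw [natDegree_C_mul (by rw [Ne, map_eq_zero]; exact h.cne), natDegree_map]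
    obtain ⟨e, he⟩ := h.even
    refine ⟨e, ?_⟩
    rw [zpow_natCast]
    apply m3_sq_inj
    rw [← map_pow, h1, val_aeval_big B hB (tO x) hx _ hF, hdeg, he, ← pow_mul, mul_two]

theorem val_branch_case {f : k[X]} {c w : k} {x y : K} (h : Crv f c w x y)
    (B : ValuationSubring (Om K)) (hB : IsPlace k K B) (β : kb k K)
    (hβ : B.valuation (tO x - (β : Om K)) < 1) (hf : aeval β f = 0) (P Q : (kb k K)[X])
    (hPQ : P ≠ 0 ∨ Q ≠ 0) :
    B.valuation (aeval (tO x) P - aeval (tO x) Q * tO y) =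
        B.valuation (aeval (tO x) P + aeval (tO x) Q * tO y) ∧
      ∃ n : ℕ, B.valuation (aeval (tO x) P + aeval (tO x) Q * tO y) = B.valuation (tO y) ^ n := by
  have hbr := val_branch h B hB β hβ hf
  have ht := F53_t_ne h.tr B β
  have hs0 : B.valuation (tO y) ≠ 0 := by
    intro h0
    rw [hbr, h0] at ht
    exact ht (zero_pow two_ne_zero)
  have hs1 : B.valuation (tO y) < 1 := by
    by_contra hcon
    push Not at hcon
    rw [hbr] at hβ
    exact absurd hβ (not_lt.2 (one_le_pow₀ hcon))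
  have ha : P ≠ 0 → ∃ n : ℕ, B.valuation (aeval (tO x) P) = B.valuation (tO y) ^ (2 * n) := by
    intro hP
    exact ⟨P.rootMultiplicity β, by rw [val_poly B hB x β hβ P hP, hbr, ← pow_mul]⟩
  have hb : Q ≠ 0 → ∃ n : ℕ, B.valuation (aeval (tO x) Q * tO y) =
      B.valuation (tO y) ^ (2 * n + 1) := by
    intro hQ
    exact ⟨Q.rootMultiplicity β, by rw [map_mul, val_poly B hB x β hβ Q hQ, hbr, ← pow_mul,
      pow_succ]⟩
  have ha0 : P = 0 → B.valuation (aeval (tO x) P) = 0 := by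
    rintro rfl
    rw [map_zero, map_zero]
  have hb0 : Q = 0 → B.valuation (aeval (tO x) Q * tO y) = 0 := by
    rintro rfl
    rw [map_zero, zero_mul, map_zero]
  have hne : B.valuation (aeval (tO x) P) ≠ B.valuation (aeval (tO x) Q * tO y) := by
    by_cases hP0 : P = 0
    · have hQ0 : Q ≠ 0 := hPQ.resolve_left (fun h => h hP0)
      obtain ⟨n, hn⟩ := hb hQ0
      rw [ha0 hP0, hn]
      exact (pow_ne_zero _ hs0).symm
    · obtain ⟨n, hn⟩ := ha hP0
      by_cases hQ0 : Q = 0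
      · rw [hb0 hQ0, hn]
        exact pow_ne_zero _ hs0
      · obtain ⟨m, hm⟩ := hb hQ0
        rw [hn, hm]
        intro hcon
        have h1 := (pow_right_strictAnti₀ (zero_lt_iff.2 hs0) hs1).injective hcon
        omega
  have hmax : ∃ n : ℕ, max (B.valuation (aeval (tO x) P)) (B.valuation (aeval (tO x) Q * tO y)) =
      B.valuation (tO y) ^ n := by
    by_cases hP0 : P = 0
    · have hQ0 : Q ≠ 0 := hPQ.resolve_left (fun h => h hP0)
      obtain ⟨n, hn⟩ := hb hQ0
      exact ⟨_, by rw [ha0 hP0, hn, max_eq_right zero_le]⟩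
    · obtain ⟨n, hn⟩ := ha hP0
      by_cases hQ0 : Q = 0
      · exact ⟨_, by rw [hb0 hQ0, hn, max_eq_left zero_le]⟩
      · obtain ⟨m, hm⟩ := hb hQ0
        rcases max_choice (B.valuation (aeval (tO x) P))
          (B.valuation (aeval (tO x) Q * tO y)) with h1 | h1
        · exact ⟨_, by rw [h1, hn]⟩
        · exact ⟨_, by rw [h1, hm]⟩
  obtain ⟨n, hn⟩ := hmax
  have e1 := Valuation.map_add_of_distinct_val B.valuation hne
  have e2 := Valuation.map_add_of_distinct_val B.valuation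
    (x := aeval (tO x) P) (y := -(aeval (tO x) Q * tO y)) (by rwa [Valuation.map_neg])
  rw [← sub_eq_add_neg, Valuation.map_neg] at e2
  exact ⟨e2.trans e1.symm, n, e1.trans hn⟩

end SC8
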