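import Pool.Agent.MP_c1dca2_ag.SC8.F51
import Pool.Agent.MP_c1dca2_ag.SC2.A1

/-!
# [SC8-F54a] the hyperelliptic involution, places over a given point

`flip`: let `R = IntermediateField.adjoin (kb k K) {tO x}` (a subfield of `Om K`, over `kb k K`). `Om K` is algebraic over `R`: it is algebraic over `K`; `K = k(x, y)` is generated over `k`
by `x ∈ R` and `y`, `y² ∈ R` (`h.gen`), so every element of `K` is algebraic over `R`. So `Om K / R` is Galois (characteristic `0`, algebraically closed).
`tO y ∉ R`: an element of `R` is `P(x)/Q(x)` (`IntermediateField.mem_adjoin_simple_iff`), contradicting `eg_indep`. Hence there is `σ : Om K ≃ₐ[R] Om K` with `σ y ≠ y`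
(`InfiniteGalois`/`IsGalois.mem_bot_iff_fixed`); `(σ y)² = σ (y²) = y²` so `σ y = - y`. Restrict scalars to `kb k K`.
For such `σ`: `σ` maps `K` to `K` (the preimage of `tO '' K`, resp. the set of `u ∈ K` with `σ (tO u) ∈ range tO`, is an intermediate field of `K / k` containing `x`, `y`), so `σ` maps `Eg k K` into itself (`adjoin_le_iff`-style induction; `σ` fixes `kb k K`).
`flip_place`: `B' = B.comap σ`.
`place_fin`: the ring hom `φ : (kb k K)[X] → Om K`, `P ↦ P(x)` is injective (`aeval_ne_zero`). Let `𝔭 = (X - C β)` (maximal), `R = Localization.AtPrime 𝔭`, a local ring, `φ` extends to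
`R → Om K` (`IsLocalization.lift`: elements outside `𝔭` are not zero, so units in the field). `IsLocalRing.exists_factor_valuationRing` (see the proof of
`SC2.exists_above`) gives a valuation ring `B` containing the image, `R → B` local. `B ≠ ⊤` and `v (x - β) < 1`: `X - C β` is not a unit in `R`, so not in `B`. `k ⊆ B`: constants.
`place_inf`: the same with `φ : X ↦ x⁻¹` and `β = 0` (`x⁻¹` is transcendental, too: `Transcendental` of the inverse; or use `P ↦ P(x⁻¹) = x^{-n} (reverse P)(x)`): `v (x⁻¹) < 1`.
-/

set_option autoImplicit false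

open Polynomial SEC SC5

namespace SC8

variable {k K : Type} [Field k] [CharZero k] [Field K] [Algebra k K]

theorem f54a_add (u v : K) : tO (u + v) = tO u + tO v := map_add (algebraMap K (Om K)) u v

theorem f54a_mul (u v : K) : tO (u * v) = tO u * tO v := map_mul (algebraMap K (Om K)) u v

theorem f54a_inv (u : K) : tO u⁻¹ = (tO u)⁻¹ := map_inv₀ (algebraMap K (Om K)) u

theorem f54a_k (a : k) :
    tO (algebraMap k K a) = algebraMap (kb k K) (Om K) (algebraMap k (kb k K) a) := by
  change algebraMap K (Om K) (algebraMap k K a) = _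
  rw [← IsScalarTower.algebraMap_apply, ← IsScalarTower.algebraMap_apply]


/-- `σ` maps `K k^alg` to itself, if it maps `x` and `y` to `K k^alg` -/
theorem f54a_eg {x y : K} (hg : IntermediateField.adjoin k {x, y} = ⊤)
    (σ : Om K ≃ₐ[kb k K] Om K) (hx : σ (tO x) ∈ Eg k K) (hy : σ (tO y) ∈ Eg k K) (g : Om K)
    (hgm : g ∈ Eg k K) : σ g ∈ Eg k K := by
  have hk : ∀ a : k, σ (tO (algebraMap k K a)) = tO (algebraMap k K a) := by
    intro a
    rw [f54a_k, σ.commutes]
  have key : ∀ u ∈ IntermediateField.adjoin k {x, y}, σ (tO u) ∈ Eg k K := by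
    intro u hu
    refine IntermediateField.adjoin_induction (p := fun u _ => σ (tO u) ∈ Eg k K) k
      ?_ ?_ ?_ ?_ ?_ hu
    · intro u hu
      rcases hu with rfl | hu
      · exact hx
      · rw [Set.mem_singleton_iff] at hu
        rw [hu]
        exact hy
    · intro a
      rw [hk]
      exact (Eg k K).algebraMap_mem _
    · intro u v _ _ h1 h2
      rw [f54a_add, map_add]
      exact add_mem h1 h2
    · intro u _ h1
      rw [f54a_inv, map_inv₀]
      exact inv_mem h1
    · intro u v _ _ h1 h2
      rw [f54a_mul, map_mul]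
      exact mul_mem h1 h2
  refine IntermediateField.adjoin_induction (p := fun g _ => σ g ∈ Eg k K) K
      ?_ ?_ ?_ ?_ ?_ hgm
  · intro a ha
    have h1 : σ a = a := σ.commutes (⟨a, ha⟩ : kb k K)
    rw [h1]
    exact IntermediateField.subset_adjoin K _ ha
  · intro u
    exact key u (by rw [hg]; trivial)
  · intro u v _ _ h1 h2
    rw [map_add]
    exact add_mem h1 h2
  · intro u _ h1
    rw [map_inv₀]
    exact inv_mem h1
  · intro u v _ _ h1 h2
    rw [map_mul]
    exact mul_mem h1 h2

/-- `Om K` is algebraic over a field `R` over which the elements of `K` are algebraic -/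
theorem f54a_alg {R : Type} [Field R] [Algebra R (Om K)] (h : ∀ u : K, IsAlgebraic R (tO u)) :
    Algebra.IsAlgebraic R (Om K) := by
  refine ⟨fun z => ?_⟩
  obtain ⟨p, hp0, hp⟩ := Algebra.IsAlgebraic.isAlgebraic (R := K) z
  let A : IntermediateField R (Om K) := algebraicClosure R (Om K)
  let φ : K →+* A := (algebraMap K (Om K)).codRestrict A.toSubfield
    (fun u => mem_algebraicClosure_iff.2 (h u))
  have h1 : IsAlgebraic A z := by
    refine ⟨p.map φ, ?_, ?_⟩
    · rw [Ne, Polynomial.map_eq_zero]
      exact hp0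
    · rw [aeval_def, eval₂_map]
      exact hp
  exact h1.restrictScalars R

/-- `y ^ 2` as an element of `k^alg(x)` -/
theorem f54a_sq {f : k[X]} {c w : k} {x y : K} (h : Crv f c w x y) :
    (tO y) ^ 2 ∈ IntermediateField.adjoin (kb k K) {tO x} := by
  have h1 : (tO y) ^ 2 = aeval (tO x) ((Polynomial.C c * f).map (algebraMap k (kb k K))) := by
    rw [aeval_map_algebraMap, ← map_pow, h.eq, aeval_algebraMap_apply, map_mul, map_mul, aeval_C,
      map_mul]
  rw [h1, IntermediateField.mem_adjoin_simple_iff]
  exact ⟨(Polynomial.C c * f).map (algebraMap k (kb k K)), 1, by rw [map_one, div_one]⟩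

/-- `y` is not in `k^alg(x)` -/
theorem f54a_not {f : k[X]} {c w : k} {x y : K} (h : Crv f c w x y) :
    tO y ∉ IntermediateField.adjoin (kb k K) {tO x} := by
  have hy0 : tO y ≠ 0 := by
    intro h0
    have h1 := (eg_indep h 0 1 (by rw [h0, mul_zero, map_zero, add_zero])).2
    exact one_ne_zero h1
  intro hy
  rw [IntermediateField.mem_adjoin_simple_iff] at hy
  obtain ⟨r, s, hrs⟩ := hy
  have hs : aeval (tO x) s ≠ 0 := by
    intro h0
    rw [h0, div_zero] at hrs
    exact hy0 hrs
  rw [eq_div_iff hs] at hrs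
  have h1 := eg_indep h (-r) s (by rw [map_neg, mul_comm, hrs, neg_add_cancel])
  apply hs
  rw [h1.2, map_zero]

theorem flip {f : k[X]} {c w : k} {x y : K} (h : Crv f c w x y) :
    ∃ σ : Om K ≃ₐ[kb k K] Om K, σ (tO x) = tO x ∧ σ (tO y) = -tO y ∧
      ∀ g ∈ Eg k K, σ g ∈ Eg k K := by
  have hxR : tO x ∈ IntermediateField.adjoin (kb k K) {tO x} :=
    IntermediateField.subset_adjoin _ _ rfl
  have halg : Algebra.IsAlgebraic (IntermediateField.adjoin (kb k K) {tO x}) (Om K) := by
    apply f54a_alg
    have key : ∀ u ∈ IntermediateField.adjoin k {x, y},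
        IsAlgebraic (IntermediateField.adjoin (kb k K) {tO x}) (tO u) := by
      intro u hu
      refine IntermediateField.adjoin_induction (p := fun u _ =>
        IsAlgebraic (IntermediateField.adjoin (kb k K) {tO x}) (tO u)) k ?_ ?_ ?_ ?_ ?_ hu
      · intro u hu
        rcases hu with rfl | hu
        · exact isAlgebraic_algebraMap
            (⟨tO u, hxR⟩ : IntermediateField.adjoin (kb k K) {tO u})
        · rw [Set.mem_singleton_iff] at hu
          rw [hu]
          refine IsAlgebraic.of_pow two_pos ?_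
          exact isAlgebraic_algebraMap
            (⟨tO y ^ 2, f54a_sq h⟩ : IntermediateField.adjoin (kb k K) {tO x})
      · intro a
        rw [f54a_k]
        exact isAlgebraic_algebraMap
          (⟨algebraMap (kb k K) (Om K) (algebraMap k (kb k K) a),
            (IntermediateField.adjoin (kb k K) {tO x}).algebraMap_mem _⟩ :
            IntermediateField.adjoin (kb k K) {tO x})
      · intro u v _ _ h1 h2
        rw [f54a_add]
        exact h1.add h2
      · intro u _ h1
        rw [f54a_inv]
        exact h1.inv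
      · intro u v _ _ h1 h2
        rw [f54a_mul]
        exact h1.mul h2
    intro u
    exact key u (by rw [h.gen]; trivial)
  have hcl : IsAlgClosure (IntermediateField.adjoin (kb k K) {tO x}) (Om K) :=
    ⟨inferInstance, halg⟩
  have hch : CharZero (IntermediateField.adjoin (kb k K) {tO x}) := inferInstance
  have hgal : IsGalois (IntermediateField.adjoin (kb k K) {tO x}) (Om K) :=
    IsAlgClosure.isGalois _ _
  have hy : ¬ ∀ σ : Om K ≃ₐ[IntermediateField.adjoin (kb k K) {tO x}] Om K,
      σ (tO y) = tO y := by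
    intro hσ
    rw [← InfiniteGalois.mem_bot_iff_fixed, IntermediateField.mem_bot] at hσ
    obtain ⟨z, hz⟩ := hσ
    apply f54a_not h
    rw [← hz]
    exact z.2
  push Not at hy
  obtain ⟨σ, hσ⟩ := hy
  have h2 : σ (tO y) ^ 2 = tO y ^ 2 := by
    rw [← map_pow]
    exact σ.commutes (⟨tO y ^ 2, f54a_sq h⟩ : IntermediateField.adjoin (kb k K) {tO x})
  have h3 : σ (tO y) = -tO y := (sq_eq_sq_iff_eq_or_eq_neg.1 h2).resolve_left hσ
  have h4 : σ (tO x) = tO x :=
    σ.commutes (⟨tO x, hxR⟩ : IntermediateField.adjoin (kb k K) {tO x})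
  have h5 : (σ.restrictScalars (kb k K)) (tO x) = tO x := h4
  have h6 : (σ.restrictScalars (kb k K)) (tO y) = -tO y := h3
  refine ⟨σ.restrictScalars (kb k K), h5, h6, ?_⟩
  apply f54a_eg h.gen
  · rw [h5]
    exact (Eg k K).algebraMap_mem x
  · rw [h6]
    exact neg_mem ((Eg k K).algebraMap_mem y)

/-- the image of a place is a place -/
theorem flip_place (σ : Om K ≃ₐ[kb k K] Om K) (B : ValuationSubring (Om K))
    (hB : IsPlace k K B) : ∃ B' : ValuationSubring (Om K), IsPlace k K B' ∧
      (∀ z, z ∈ B' ↔ σ z ∈ B) ∧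
      ∀ z z', B'.valuation z = B'.valuation z' ↔ B.valuation (σ z) = B.valuation (σ z') := by
  have hle : ∀ z z', (B.comap (σ : Om K →+* Om K)).valuation z ≤
      (B.comap (σ : Om K →+* Om K)).valuation z' ↔ B.valuation (σ z) ≤ B.valuation (σ z') := by
    intro z z'
    rw [ValuationSubring.valuation_le_iff, ValuationSubring.valuation_le_iff]
    constructor
    · rintro ⟨a, ha⟩
      refine ⟨⟨σ a, a.2⟩, ?_⟩
      rw [← ha, map_mul]
    · rintro ⟨b, hb⟩
      refine ⟨⟨σ.symm b, ?_⟩, ?_⟩
      · change σ (σ.symm b) ∈ B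
        rw [σ.apply_symm_apply]
        exact b.2
      · apply σ.injective
        rw [← hb, map_mul]
        change σ (σ.symm b) * _ = _
        rw [σ.apply_symm_apply]
  refine ⟨B.comap (σ : Om K →+* Om K), ⟨?_, ?_⟩, fun z => Iff.rfl, ?_⟩
  · intro a
    change σ (algebraMap k (Om K) a) ∈ B
    have h1 : algebraMap k (Om K) a = algebraMap (kb k K) (Om K) (algebraMap k (kb k K) a) := by
      rw [← IsScalarTower.algebraMap_apply]
    rw [h1, σ.commutes, ← h1]
    exact hB.1 a
  · intro htop
    apply hB.2
    rw [eq_top_iff]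
    intro z _
    have h1 : σ.symm z ∈ B.comap (σ : Om K →+* Om K) := by
      rw [htop]
      trivial
    have h2 : σ (σ.symm z) ∈ B := h1
    rwa [σ.apply_symm_apply] at h2
  · intro z z'
    rw [le_antisymm_iff, le_antisymm_iff, hle, hle]

end SC8
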