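import Pool.Agent.MP_c1dca2_ag.SC8.F51
import Pool.Agent.MP_c1dca2_ag.SC2.A1

/-!
# [SC8-F54b] the hyperelliptic involution, places over a given point

`flip`: let `R = IntermediateField.adjoin (kb k K) {tO x}` (a subfield of `Om K`, over `kb k K`). `Om K` is algebraic over `R`: it is algebraic over `K`; `K = k(x, y)` is generated over `k`
by `x ∈ R` and `y`, `y² ∈ R` (`h.gen`), so every element of `K` is algebraic over `R`. So `Om K / R` is Galois (characteristic `0`, algebraically closed).
`tO y ∉ R`: an element of `R` is `P(x)/Q(x)` (`IntermediateField.mem_adjoin_simple_iff`), contradicting `eg_indep`. Hence there is `σ : Om K ≃ₐ[R] Om K` with `σ y ≠ y`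
(`InfiniteGalois`/`IsGalois.mem_bot_iff_fixed`); `(σ y)² = σ (y²) = y²` so `σ y = - y`. Restrict scalars to `kb k K`.
For such `σ`: `σ` maps `K` to `K` (the preimage of `tO '' K`, resp. the set of `u ∈ K` with `σ (tO u) ∈ range tO`, is an intermediate field of `K / k` containing `x`, `y`), so `σ` maps `Eg k K` into itself (`adjoin_le_iff`-style induction; `σ` fixes `kb k K`).
`flip_place`: `B' = B.comap σ`.
`place_fin`: the ring hom `φ : (kb k K)[X] → Om K`, `P ↦ P(x)` is injective (`aeval_ne_zero`). Let `𝔭 = (X - C β)` (maximal), `R = Localization.AtPrime 𝔭`, a local ring, `φ` extends to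
`R → Om K` (`IsLocalization.lift`: elements outside `𝔭` are not zero, so units in the field). `IsLocalRing.exists_factor_valuationRing` (see the proof of
`SC2.exists_above`) gives a valuation ring `B` containing the image, `R → B` local. `B ≠ ⊤` and `v (x - β) < 1`: `X - C β` is not a unit in `R`, so not in `B`. `k ⊆ B`: constants.
`place_inf`: the same with `φ : X ↦ x⁻¹` and `β = 0` (`x⁻¹` is transcendental, too: `Transcendental` of the inverse; or use `P ↦ P(x⁻¹) = x^{-n} (reverse P)(x)`): `v (x⁻¹) < 1`.
-/

set_option autoImplicit false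

open Polynomial SEC SC5

namespace SC8

variable {k K : Type} [Field k] [CharZero k] [Field K] [Algebra k K]

/-- a place over the point `β` of the line, in a field which contains the function field -/
theorem F54b_gen {L Ω : Type} [Field L] [Field Ω] [Algebra L Ω] (t : Ω)
    (ht : ∀ H : L[X], H ≠ 0 → aeval t H ≠ 0) (β : L) :
    ∃ B : ValuationSubring Ω, (∀ a : L, algebraMap L Ω a ∈ B) ∧ B ≠ ⊤ ∧
      B.valuation (t - algebraMap L Ω β) < 1 := by
  let φ : L[X] →+* Ω := (aeval t : L[X] →ₐ[L] Ω).toRingHom
  have hφ : ∀ P, φ P = aeval t P := fun P => rfl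
  let I : Ideal L[X] := Ideal.span {X - C β}
  have hI : I.IsPrime := by
    rw [Ideal.span_singleton_prime (X_sub_C_ne_zero β)]
    exact prime_X_sub_C β
  have hu : ∀ y : I.primeCompl, IsUnit (φ y) := by
    rintro ⟨y, hy⟩
    have hy0 : y ≠ 0 := by
      rintro rfl
      exact hy I.zero_mem
    exact (ht y hy0).isUnit
  let ψ : Localization.AtPrime I →+* Ω := IsLocalization.lift (M := I.primeCompl) hu
  have hψ : ∀ P, ψ (algebraMap L[X] (Localization.AtPrime I) P) = φ P :=
    fun P => IsLocalization.lift_eq hu P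
  obtain ⟨B, h, hloc⟩ := IsLocalRing.exists_factor_valuationRing
    (R := Localization.AtPrime I) ψ
  have hmem : ∀ P : L[X], aeval t P ∈ B := by
    intro P
    have h1 := h (algebraMap L[X] (Localization.AtPrime I) P)
    rw [hψ] at h1
    exact h1
  have hX : X - C β ∈ I := Ideal.mem_span_singleton_self _
  have hval : aeval t (X - C β) = t - algebraMap L Ω β := by
    rw [map_sub, aeval_X, aeval_C]
  have hlt : B.valuation (t - algebraMap L Ω β) < 1 := by
    by_contra hn
    have hn' : B.valuation (t - algebraMap L Ω β) = 1 := by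
      refine le_antisymm ?_ (not_lt.1 hn)
      rw [ValuationSubring.valuation_le_one_iff, ← hval]
      exact hmem _
    have hm : t - algebraMap L Ω β ∈ B := by
      rw [← hval]
      exact hmem _
    have hun : IsUnit (⟨t - algebraMap L Ω β, hm⟩ : B) := by
      exact (ValuationSubring.valuation_eq_one_iff B _).2 hn'
    have hun2 : IsUnit ((ψ.codRestrict B.toSubring h)
        (algebraMap L[X] (Localization.AtPrime I) (X - C β))) := by
      have e1 : (ψ.codRestrict B.toSubring h)
          (algebraMap L[X] (Localization.AtPrime I) (X - C β)) =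
          (⟨t - algebraMap L Ω β, hm⟩ : B) := by
        apply Subtype.ext
        change ψ (algebraMap L[X] (Localization.AtPrime I) (X - C β)) = t - algebraMap L Ω β
        rw [hψ, hφ, hval]
      rw [e1]
      exact hun
    have hun3 := hloc.map_nonunit _ hun2
    rw [IsLocalization.AtPrime.isUnit_to_map_iff (Localization.AtPrime I) I] at hun3
    exact hun3 hX
  refine ⟨B, fun a => ?_, ?_, hlt⟩
  · have h1 := hmem (C a)
    rw [aeval_C] at h1
    exact h1
  · rintro rfl
    have hne : t - algebraMap L Ω β ≠ 0 := by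
      rw [← hval]
      exact ht _ (X_sub_C_ne_zero β)
    have h1 : (⊤ : ValuationSubring Ω).valuation (t - algebraMap L Ω β)⁻¹ ≤ 1 :=
      (ValuationSubring.valuation_le_one_iff _ _).2 (ValuationSubring.mem_top _)
    rw [map_inv₀] at h1
    have h0 : (⊤ : ValuationSubring Ω).valuation (t - algebraMap L Ω β) ≠ 0 :=
      (Valuation.ne_zero_iff _).2 hne
    exact absurd hlt (not_lt.2 ((inv_le_one₀ (zero_lt_iff.2 h0)).1 h1))

theorem place_fin (x : K) (hx : Transcendental k x) (β : kb k K) :
    ∃ B : ValuationSubring (Om K), IsPlace k K B ∧ B.valuation (tO x - (β : Om K)) < 1 := by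
  obtain ⟨B, h1, h2, h3⟩ := F54b_gen (L := kb k K) (tO x) (fun H hH => aeval_ne_zero x hx H hH) β
  exact ⟨B, ⟨fun a => h1 (algebraMap k (kb k K) a), h2⟩, h3⟩

theorem place_inf (x : K) (hx : Transcendental k x) :
    ∃ B : ValuationSubring (Om K), IsPlace k K B ∧ 1 < B.valuation (tO x) := by
  have hx0 : x ≠ 0 := by
    rintro rfl
    exact hx isAlgebraic_zero
  have hxi : Transcendental k x⁻¹ := by
    intro h
    apply hx
    rw [← inv_inv x]
    exact h.inv
  obtain ⟨B, h1, h2, h3⟩ := F54b_gen (L := kb k K) (tO x⁻¹)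
    (fun H hH => aeval_ne_zero x⁻¹ hxi H hH) 0
  refine ⟨B, ⟨fun a => h1 (algebraMap k (kb k K) a), h2⟩, ?_⟩
  rw [map_zero, sub_zero] at h3
  have h4 : tO x⁻¹ = (tO x)⁻¹ := map_inv₀ (algebraMap K (Om K)) x
  have h5 : tO x ≠ 0 := (map_ne_zero (algebraMap K (Om K))).2 hx0
  rw [h4, map_inv₀] at h3
  have h6 : B.valuation (tO x) ≠ 0 := (Valuation.ne_zero_iff _).2 h5
  exact (inv_lt_one₀ (zero_lt_iff.2 h6)).1 h3

end SC8
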