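import Mathlib

/-!
# [SC8-F55] polynomials over an algebraically closed field
-/

set_option autoImplicit false

open Polynomial

namespace SC8

theorem f55_prod {C : Type} [Field C] [IsAlgClosed C] [DecidableEq C] (p : C[X]) :
    p = Polynomial.C p.leadingCoeff *
      ∏ a ∈ p.roots.toFinset, (X - Polynomial.C a) ^ p.rootMultiplicity a := by
  have h1 := (IsAlgClosed.splits p).eq_prod_roots
  conv_lhs => rw [h1]
  congr 1
  rw [Finset.prod_multiset_map_count]
  refine Finset.prod_congr rfl fun a _ => ?_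
  rw [count_roots]

theorem poly_sqf {C : Type} [Field C] [IsAlgClosed C] (p : C[X]) (hp : p ≠ 0) :
    ∃ (A : Finset C) (q : C[X]), q ≠ 0 ∧ p = q ^ 2 * ∏ a ∈ A, (X - Polynomial.C a) := by
  classical
  obtain ⟨s, hs⟩ := IsAlgClosed.exists_pow_nat_eq p.leadingCoeff (n := 2) (by norm_num)
  refine ⟨p.roots.toFinset.filter (fun a => Odd (p.rootMultiplicity a)),
    Polynomial.C s * ∏ a ∈ p.roots.toFinset, (X - Polynomial.C a) ^ (p.rootMultiplicity a / 2),
    ?_, ?_⟩
  · refine mul_ne_zero ?_ ?_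
    · rw [Ne, C_eq_zero]
      intro h
      rw [h] at hs
      apply hp
      rw [← leadingCoeff_eq_zero, ← hs]
      simp
    · rw [Finset.prod_ne_zero_iff]
      exact fun a _ => pow_ne_zero _ (X_sub_C_ne_zero a)
  · conv_lhs => rw [f55_prod p, ← hs]
    rw [mul_pow, ← C_pow, mul_assoc]
    congr 1
    rw [← Finset.prod_pow, Finset.prod_filter, ← Finset.prod_mul_distrib]
    refine Finset.prod_congr rfl fun a _ => ?_
    rw [← pow_mul]
    rcases Nat.even_or_odd (p.rootMultiplicity a) with h | h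
    · rw [if_neg (Nat.not_odd_iff_even.2 h), mul_one, Nat.div_mul_cancel (even_iff_two_dvd.1 h)]
    · rw [if_pos h, ← pow_succ]
      congr 1
      obtain ⟨m, hm⟩ := h
      omega

theorem poly_sq {C : Type} [Field C] [IsAlgClosed C] (p : C[X]) (hp : p ≠ 0)
    (h : ∀ β : C, Even (p.rootMultiplicity β)) : ∃ q : C[X], p = q ^ 2 := by
  classical
  obtain ⟨s, hs⟩ := IsAlgClosed.exists_pow_nat_eq p.leadingCoeff (n := 2) (by norm_num)
  refine ⟨Polynomial.C s * ∏ a ∈ p.roots.toFinset,
    (X - Polynomial.C a) ^ (p.rootMultiplicity a / 2), ?_⟩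
  conv_lhs => rw [f55_prod p, ← hs]
  rw [mul_pow, ← C_pow]
  congr 1
  rw [← Finset.prod_pow]
  refine Finset.prod_congr rfl fun a _ => ?_
  rw [← pow_mul, Nat.div_mul_cancel (even_iff_two_dvd.1 (h a))]

end SC8
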