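import Pool.Agent.MP_c1dca2_ag.SC8.F52
import Pool.Agent.MP_c1dca2_ag.SC8.F53
import Pool.Agent.MP_c1dca2_ag.SC8.F54a
import Pool.Agent.MP_c1dca2_ag.SC8.F54b
import Pool.Agent.MP_c1dca2_ag.SC8.F55

/-!
# [SC8-F56a] `z ∈ M`, `z² ∈ K k^alg`: then `z² = p(x)` up to squares

`d = z² ≠ 0`, `d R(x) = P(x) + Q(x) y =: A`, `R ≠ 0` (`eg_form`), `A' = P(x) - Q(x) y`, `F = f.map ..`, `N = P² - Q² (C c F)`, `A A' = N(x)`, `N ≠ 0` (`A ≠ 0`, `A' ≠ 0` by `eg_indep`).
`norm_sq`: CLAIM `rootMultiplicity β N` is even for all `β : kb k K`. Let `B` be a place with `v (x - β) < 1` (`place_fin`), `t = v (x - β)`, `0 < t < 1` (`x ≠ β`).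
`v (N(x)) = t ^ rootMultiplicity β N` (`val_poly`), and an equation `t ^ m = t ^ n`, `m n : ℤ`, implies `m = n` (`zpow_right_injective₀` or similar, `t < 1`, `t ≠ 0`).
(a) `f(β) ≠ 0`: `v d = v g ^ 2` with `g ∈ Eg k K` (`val_even`), `v g = t ^ n` (`val_unit_case`). Let `σ` from `flip`, `B'` from `flip_place`. `val_even` for `B'`: `v' d = v' g' ^ 2`, so
`v (σ d) = v (σ g') ^ 2`, `σ g' ∈ Eg k K`, `v (σ g') = t ^ n'`. `σ d * R(x) = A'` (`σ` fixes `kb k K` and `x`: `σ (P(x)) = P(x)`). So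
`t ^ (mult N) = v (A A') = v d v (σ d) v (R(x))² = t ^ (2 (n + n' + mult R))`. Even.
(b) `f(β) = 0`: `v A' = v A = v(y) ^ n` (`val_branch_case`), `t = v(y)²` (`val_branch`). `v d = v g ^ 2` and `g R₁(x) = P₁(x) + Q₁(x) y` (`eg_form`), so `v g = v(y) ^ m` for some `m : ℤ` (numerator by `val_branch_case`,
`v (R₁(x)) = t ^ (..)` by `val_poly`). Hence `v A = v d v (R(x)) = v(y)^(2 m + 2 r)` and `v (N(x)) = (v A)² = v(y)^(4 (m + r)) = t ^ (2 (m + r))`. Even.
`poly_sq`: `N = n²`.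
`to_poly`: let `ν = n(x)`, so `A A' = ν²`, and `(A + ν)² = A² + 2 A ν + A A' = A (A + A' + 2 ν) = 2 A (P(x) + ν)`.
If `P + n ≠ 0`: `A + ν ≠ 0` (`A ≠ 0`), and with `p = 2 (P + n) R`, `g = p(x) / (A + ν) ∈ Eg k K`: `d g² = (A / R(x)) p(x)² / (2 A (P + n)(x)) = p(x)`. If `P + n = 0`: `(A + ν)² = 0`, so `A = - ν`, `g = R(x)`,
`p = - n R`: `d g² = A R(x) = p(x)`. (`aeval_ne_zero`.)
-/

set_option autoImplicit false

open Polynomial SEC SC5

namespace SC8

variable {k K : Type} [Field k] [CharZero k] [Field K] [Algebra k K]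

theorem F56a_mem {z P Q R y : Om K} (E : IntermediateField K (Om K)) (hR : R ≠ 0) (hRE : R ∈ E)
    (hP : P ∈ E) (hQ : Q ∈ E) (hy : y ∈ E) (h : z * R = P + Q * y) : z ∈ E := by
  have h1 : z = (P + Q * y) * R⁻¹ := by
    rw [← h, mul_assoc, mul_inv_cancel₀ hR, mul_one]
  rw [h1]
  exact mul_mem (add_mem hP (mul_mem hQ hy)) (inv_mem hRE)

theorem F56a_zinj {Γ : Type*} [LinearOrderedCommGroupWithZero Γ] {t : Γ} (h0 : t ≠ 0)
    (h1 : t < 1) {m n : ℤ} (h : t ^ m = t ^ n) : m = n :=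
  zpow_right_injective₀ (zero_lt_iff.2 h0) h1.ne h

theorem norm_sq {f : k[X]} {c w : k} {x y : K} (h : Crv f c w x y) (z : Om K)
    (hz : z ∈ Mnr k K) (hz0 : z ≠ 0) (P Q R : (kb k K)[X]) (hR : R ≠ 0)
    (hz2 : z ^ 2 * aeval (tO x) R = aeval (tO x) P + aeval (tO x) Q * tO y) :
    ∃ n : (kb k K)[X], P ^ 2 - Q ^ 2 * (C (algebraMap k (kb k K) c) *
      f.map (algebraMap k (kb k K))) = n ^ 2 := by
  have hac : IsAlgClosed (kb k K) := (algebraicClosure.isAlgClosure k (Om K)).isAlgClosed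
  have hR0 := aeval_ne_zero x h.tr R hR
  have hzz : z ^ 2 ≠ 0 := pow_ne_zero 2 hz0
  have hPQ : P ≠ 0 ∨ Q ≠ 0 := by
    by_contra hc
    push Not at hc
    rw [hc.1, hc.2, map_zero, zero_mul, add_zero, mul_eq_zero] at hz2
    rcases hz2 with h1 | h1
    · exact hzz h1
    · exact hR0 h1
  have hN0 := F53_norm_ne h P Q hPQ
  have hyE : tO y ∈ Eg k K := (Eg k K).algebraMap_mem y
  have hzE : z ^ 2 ∈ Eg k K :=
    F56a_mem (Eg k K) hR0 (eg_mem x R) (eg_mem x P) (eg_mem x Q) hyE hz2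
  refine poly_sq _ hN0 fun β => ?_
  obtain ⟨B, hB, hβ⟩ := place_fin x h.tr β
  have ht0 := F53_t_ne h.tr B β
  have hN := congrArg B.valuation (F53_norm h P Q)
  rw [val_poly B hB x β hβ _ hN0, map_mul] at hN
  obtain ⟨g, hg, hvg⟩ := val_even B hB z hz hzE
  have hg0 : g ≠ 0 := by
    rintro rfl
    rw [map_zero, zero_pow two_ne_zero, Valuation.zero_iff] at hvg
    exact hzz hvg
  have hA := congrArg B.valuation hz2
  rw [map_mul, hvg, val_poly B hB x β hβ _ hR] at hA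
  by_cases hf : aeval β f = 0
  · -- branch point
    have hbr := val_branch h B hB β hβ hf
    have hs0 : B.valuation (tO y) ≠ 0 := by
      intro h0
      rw [hbr, h0] at ht0
      exact ht0 (zero_pow two_ne_zero)
    have hs1 : B.valuation (tO y) < 1 := by
      by_contra hcon
      push Not at hcon
      rw [hbr] at hβ
      exact absurd hβ (not_lt.2 (one_le_pow₀ hcon))
    obtain ⟨hb1, a, hb2⟩ := val_branch_case h B hB β hβ hf P Q hPQ
    obtain ⟨P₁, Q₁, R₁, hR₁, hg1⟩ := eg_form h g hg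
    have hR₁0 := aeval_ne_zero x h.tr R₁ hR₁
    have hPQ₁ : P₁ ≠ 0 ∨ Q₁ ≠ 0 := by
      by_contra hc
      push Not at hc
      rw [hc.1, hc.2, map_zero, zero_mul, add_zero, mul_eq_zero] at hg1
      rcases hg1 with h1 | h1
      · exact hg0 h1
      · exact hR₁0 h1
    obtain ⟨-, a₁, hb3⟩ := val_branch_case h B hB β hβ hf P₁ Q₁ hPQ₁
    have hg2 := congrArg B.valuation hg1
    rw [map_mul, hb3, val_poly B hB x β hβ _ hR₁, hbr] at hg2
    rw [hb1, hb2, hbr] at hN
    rw [hb2, hbr] at hA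
    generalize B.valuation (tO y) = s at *
    generalize B.valuation g = u at *
    have e1 : rootMultiplicity β (P ^ 2 - Q ^ 2 * (C (algebraMap k (kb k K) c) *
        f.map (algebraMap k (kb k K)))) = a := by
      have h1 : s ^ ((a + a : ℕ) : ℤ) = s ^ ((2 * rootMultiplicity β
          (P ^ 2 - Q ^ 2 * (C (algebraMap k (kb k K) c) *
            f.map (algebraMap k (kb k K)))) : ℕ) : ℤ) := by
        rw [zpow_natCast, zpow_natCast, pow_add, pow_mul]
        exact hN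
      have h2 := F56a_zinj hs0 hs1 h1
      omega
    have e2 : u = s ^ ((a₁ : ℤ) - 2 * R₁.rootMultiplicity β) := by
      rw [zpow_sub₀ hs0, eq_div_iff (zpow_ne_zero _ hs0), zpow_natCast, ← hg2]
      congr 1
      rw [← pow_mul]
      exact_mod_cast zpow_natCast s (2 * R₁.rootMultiplicity β)
    have e3 : (a : ℤ) = 2 * ((a₁ : ℤ) - 2 * R₁.rootMultiplicity β) +
        2 * R.rootMultiplicity β := by
      apply F56a_zinj hs0 hs1
      rw [zpow_natCast, ← hA, e2, zpow_add₀ hs0]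
      congr 1
      · rw [← zpow_natCast, ← zpow_mul, mul_comm]
        rfl
      · rw [← pow_mul]
        exact_mod_cast (zpow_natCast s (2 * R.rootMultiplicity β)).symm
    rw [e1]
    have e4 : Even (a : ℤ) := by
      rw [e3, ← mul_add]
      exact even_two_mul _
    exact_mod_cast e4
  · -- the other points
    obtain ⟨n, hn⟩ := val_unit_case h B hB β hβ hf g hg hg0
    obtain ⟨σ, hσx, hσy, hσE⟩ := flip h
    obtain ⟨B', hB', hmem, hval⟩ := flip_place σ B hB
    obtain ⟨g', hg', hvg0⟩ := val_even B' hB' z hz hzE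
    have hvg' : B.valuation (σ (z ^ 2)) = B.valuation (σ g') ^ 2 := by
      rw [← map_pow B.valuation (σ g') 2, ← map_pow σ g' 2]
      apply (hval _ _).1
      rw [map_pow B'.valuation g' 2]
      exact hvg0
    have hσz : σ (z ^ 2) ≠ 0 := by
      rw [Ne, map_eq_zero]
      exact hzz
    have hg0' : σ g' ≠ 0 := by
      intro h0
      rw [h0, map_zero, zero_pow two_ne_zero, Valuation.zero_iff] at hvg'
      exact hσz hvg'
    obtain ⟨n', hn'⟩ := val_unit_case h B hB β hβ hf (σ g') (hσE g' hg') hg0'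
    have hσP : ∀ S : (kb k K)[X], σ (aeval (tO x) S) = aeval (tO x) S := by
      intro S
      have h1 := aeval_algHom_apply σ (tO x) S
      rw [hσx] at h1
      exact h1.symm
    have hA' := congrArg B.valuation (congrArg σ hz2)
    rw [map_mul σ, map_add σ, map_mul σ, hσP, hσP, hσP, hσy, mul_neg, ← sub_eq_add_neg, map_mul,
      hvg', hn', val_poly B hB x β hβ _ hR] at hA'
    rw [← hA, ← hA', hn] at hN
    generalize B.valuation (tO x - (β : Om K)) = t at *
    have e1 : ((rootMultiplicity β (P ^ 2 - Q ^ 2 * (C (algebraMap k (kb k K) c) *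
        f.map (algebraMap k (kb k K)))) : ℕ) : ℤ) = (n * 2 + R.rootMultiplicity β) +
          (n' * 2 + R.rootMultiplicity β) := by
      apply F56a_zinj ht0 hβ
      rw [zpow_natCast, ← hN, zpow_add₀ ht0, zpow_add₀ ht0, zpow_add₀ ht0, zpow_natCast,
        zpow_mul, zpow_mul]
      rfl
    have e2 : Even ((rootMultiplicity β (P ^ 2 - Q ^ 2 * (C (algebraMap k (kb k K) c) *
        f.map (algebraMap k (kb k K)))) : ℕ) : ℤ) := by
      rw [e1]
      exact ⟨n + n' + R.rootMultiplicity β, by ring⟩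
    exact_mod_cast e2

end SC8
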