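import Pool.Agent.MP_c1dca2_ag.SC8.F56a
import Pool.Agent.MP_c1dca2_ag.SC8.F52
import Pool.Agent.MP_c1dca2_ag.SC8.F53
import Pool.Agent.MP_c1dca2_ag.SC8.F54a
import Pool.Agent.MP_c1dca2_ag.SC8.F54b
import Pool.Agent.MP_c1dca2_ag.SC8.F55

/-!
# [SC8-F56b] `z ∈ M`, `z² ∈ K k^alg`: then `z² = p(x)` up to squares

`d = z² ≠ 0`, `d R(x) = P(x) + Q(x) y =: A`, `R ≠ 0` (`eg_form`), `A' = P(x) - Q(x) y`, `F = f.map ..`, `N = P² - Q² (C c F)`, `A A' = N(x)`, `N ≠ 0` (`A ≠ 0`, `A' ≠ 0` by `eg_indep`).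
`norm_sq`: CLAIM `rootMultiplicity β N` is even for all `β : kb k K`. Let `B` be a place with `v (x - β) < 1` (`place_fin`), `t = v (x - β)`, `0 < t < 1` (`x ≠ β`).
`v (N(x)) = t ^ rootMultiplicity β N` (`val_poly`), and an equation `t ^ m = t ^ n`, `m n : ℤ`, implies `m = n` (`zpow_right_injective₀` or similar, `t < 1`, `t ≠ 0`).
(a) `f(β) ≠ 0`: `v d = v g ^ 2` with `g ∈ Eg k K` (`val_even`), `v g = t ^ n` (`val_unit_case`). Let `σ` from `flip`, `B'` from `flip_place`. `val_even` for `B'`: `v' d = v' g' ^ 2`, so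
`v (σ d) = v (σ g') ^ 2`, `σ g' ∈ Eg k K`, `v (σ g') = t ^ n'`. `σ d * R(x) = A'` (`σ` fixes `kb k K` and `x`: `σ (P(x)) = P(x)`). So
`t ^ (mult N) = v (A A') = v d v (σ d) v (R(x))² = t ^ (2 (n + n' + mult R))`. Even.
(b) `f(β) = 0`: `v A' = v A = v(y) ^ n` (`val_branch_case`), `t = v(y)²` (`val_branch`). `v d = v g ^ 2` and `g R₁(x) = P₁(x) + Q₁(x) y` (`eg_form`), so `v g = v(y) ^ m` for some `m : ℤ` (numerator by `val_branch_case`,
`v (R₁(x)) = t ^ (..)` by `val_poly`). Hence `v A = v d v (R(x)) = v(y)^(2 m + 2 r)` and `v (N(x)) = (v A)² = v(y)^(4 (m + r)) = t ^ (2 (m + r))`. Even.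
`poly_sq`: `N = n²`.
`to_poly`: let `ν = n(x)`, so `A A' = ν²`, and `(A + ν)² = A² + 2 A ν + A A' = A (A + A' + 2 ν) = 2 A (P(x) + ν)`.
If `P + n ≠ 0`: `A + ν ≠ 0` (`A ≠ 0`), and with `p = 2 (P + n) R`, `g = p(x) / (A + ν) ∈ Eg k K`: `d g² = (A / R(x)) p(x)² / (2 A (P + n)(x)) = p(x)`. If `P + n = 0`: `(A + ν)² = 0`, so `A = - ν`, `g = R(x)`,
`p = - n R`: `d g² = A R(x) = p(x)`. (`aeval_ne_zero`.)
-/

set_option autoImplicit false

open Polynomial SEC SC5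

namespace SC8

variable {k K : Type} [Field k] [CharZero k] [Field K] [Algebra k K]

theorem F56b_alg {F : Type*} [Field F] {z2 A ν S r : F} (h1 : z2 * r = A)
    (h2 : (A + ν) ^ 2 = 2 * A * S) (h3 : A + ν ≠ 0) :
    z2 * (2 * S * r / (A + ν)) ^ 2 = 2 * S * r := by
  rw [div_pow, ← mul_div_assoc, div_eq_iff (pow_ne_zero 2 h3), h2, ← h1]
  ring

theorem to_poly {f : k[X]} {c w : k} {x y : K} (h : Crv f c w x y) (z : Om K)
    (hz : z ∈ Mnr k K) (hz0 : z ≠ 0) (hz2 : z ^ 2 ∈ Eg k K) :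
    ∃ (p : (kb k K)[X]) (g : Om K), p ≠ 0 ∧ g ∈ Eg k K ∧ g ≠ 0 ∧
      z ^ 2 * g ^ 2 = aeval (tO x) p := by
  obtain ⟨P, Q, R, hR, hz3⟩ := eg_form h (z ^ 2) hz2
  obtain ⟨n, hn⟩ := norm_sq h z hz hz0 P Q R hR hz3
  have hR0 := aeval_ne_zero x h.tr R hR
  have hN := F53_norm h P Q
  rw [hn, map_pow] at hN
  have hyE : tO y ∈ Eg k K := (Eg k K).algebraMap_mem y
  have hA0 : aeval (tO x) P + aeval (tO x) Q * tO y ≠ 0 := by
    rw [← hz3]
    exact mul_ne_zero (pow_ne_zero 2 hz0) hR0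
  have h2 : (2 : Om K) ≠ 0 := by
    have h0 : algebraMap k (Om K) 2 ≠ 0 := by
      rw [Ne, map_eq_zero]
      exact two_ne_zero
    rwa [map_ofNat] at h0
  have hsq : (aeval (tO x) P + aeval (tO x) Q * tO y + aeval (tO x) n) ^ 2 =
      2 * (aeval (tO x) P + aeval (tO x) Q * tO y) * aeval (tO x) (P + n) := by
    rw [map_add]
    linear_combination -hN
  by_cases hPn : P + n = 0
  · rw [hPn, map_zero, mul_zero] at hsq
    have h3 := pow_eq_zero_iff (two_ne_zero) |>.1 hsq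
    have hn0 : n ≠ 0 := by
      rintro rfl
      rw [map_zero, add_zero] at h3
      exact hA0 h3
    refine ⟨-n * R, aeval (tO x) R, mul_ne_zero (neg_ne_zero.2 hn0) hR, eg_mem x R, hR0, ?_⟩
    rw [map_mul, map_neg, sq (aeval (tO x) R), ← mul_assoc, hz3]
    congr 1
    exact eq_neg_of_add_eq_zero_left h3
  · have hS0 := aeval_ne_zero x h.tr (P + n) hPn
    have h3 : aeval (tO x) P + aeval (tO x) Q * tO y + aeval (tO x) n ≠ 0 := by
      intro h0
      rw [h0, zero_pow two_ne_zero] at hsq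
      exact (mul_ne_zero (mul_ne_zero h2 hA0) hS0) hsq.symm
    have h2' : (2 : (kb k K)[X]) ≠ 0 := by
      intro h0
      have h1 := congrArg (aeval (tO x)) h0
      rw [map_zero, map_ofNat] at h1
      exact h2 h1
    have hp : aeval (tO x) (2 * (P + n) * R) = 2 * aeval (tO x) (P + n) * aeval (tO x) R := by
      rw [map_mul, map_mul, map_ofNat]
    refine ⟨2 * (P + n) * R, aeval (tO x) (2 * (P + n) * R) /
      (aeval (tO x) P + aeval (tO x) Q * tO y + aeval (tO x) n),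
      mul_ne_zero (mul_ne_zero h2' hPn) hR, ?_, ?_, ?_⟩
    · exact div_mem (eg_mem x _) (add_mem (add_mem (eg_mem x P) (mul_mem (eg_mem x Q) hyE))
        (eg_mem x n))
    · refine div_ne_zero ?_ h3
      rw [hp]
      exact mul_ne_zero (mul_ne_zero h2 hS0) hR0
    · rw [hp]
      exact F56b_alg hz3 hsq h3

end SC8
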