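import Pool.Agent.MP_c1dca2_ag.SC8.F56b

/-!
# [SC8-F57a] the elements of `M` whose squares are in `K k^alg`

`sqrt_class1`: `to_poly` gives `z² g² = p(x)`, `poly_sqf` `p = q² ∏_{a ∈ A} (X - C a)`. Every `a ∈ A` is a root of `f`: otherwise let `B` be a place with `v (x - a) < 1` (`place_fin`), `t = v (x - a)`;
`v (z²) = v g₁ ^ 2`, `g₁ ∈ Eg k K` (`val_even`), `v g₁ = t ^ n₁`, `v g = t ^ n₂` (`val_unit_case`; `g₁ ≠ 0` since `z ≠ 0`), `v (q(x)) = t ^ m` (`val_poly`),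
`v (∏_{a' ∈ A} (x - a')) = t` (`a ∈ A`, the others are units: `a - a'` has value `1`, `place_alg_val`). So `t ^ (2 n₁ + 2 n₂) = t ^ (2 m + 1)`, a contradiction (`0 < t < 1`). `A.card` is even: let `B` be a place
with `t = v x > 1` (`place_inf`): `v (z²) = t ^ (2 n₁)`, `v g = t ^ n₂` (`val_inf_case`), `v (q(x)) = t ^ deg q`, `v (∏_{A}) = t ^ A.card` (`val_aeval_big`): `A.card` is even.
Put `r = q(x) / g`: `z² = r² ∏_{a ∈ A} (x - a)`.
`sqrt_class2`: let `w' = algebraMap k (kb k K) w`, `Ω` = the finset of the roots of `f` in `kb k K`, `F(x) = lc ∏_{a ∈ Ω} (x - a)` (`f` separable, `kb k K` algebraically closed), `Ω.card = natDegree f` is even.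
Choose `s ∈ kb k K` with `s² = c lc` (`≠ 0`): `∏_{a ∈ Ω} (x - a) = (y / s)²`. If `w' ∉ A`: `A' = A`. Otherwise `A' = Ω \ A`, again of even cardinality, `w' ∉ A'`,
and `∏_A (x - a) = (y/s)² / ∏_{A'} (x - a) = ((y/s) / ∏_{A'} (x - a))² ∏_{A'} (x - a)`. So in both cases `z² = r'² ∏_{a ∈ A'} (x - a)`, `r' ∈ Eg k K`. Given the `Z a`: `Z a² (x - w') = x - a` for `a ∈ A'`, so
`(∏_{A'} Z a)² (x - w')^(A'.card) = ∏_{A'} (x - a)`, and with `A'.card = 2 m`: `z² = (r' (x - w')^m ∏ Z a)²`, so `z = ± r' (x - w')^m ∏ Z a`.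
-/

set_option autoImplicit false

open Polynomial SEC SC5

namespace SC8

variable {k K : Type} [Field k] [CharZero k] [Field K] [Algebra k K]

theorem F57a_prod (x : K) (A : Finset (kb k K)) :
    aeval (tO x) (∏ a ∈ A, (X - C a)) = ∏ a ∈ A, (tO x - (a : Om K)) := by
  rw [map_prod]
  exact Finset.prod_congr rfl fun a _ => F53_lin x a

theorem F57a_zinj {Γ : Type*} [LinearOrderedCommGroupWithZero Γ] {t : Γ} (h0 : t ≠ 0)
    (h1 : t ≠ 1) {m n : ℤ} (h : t ^ m = t ^ n) : m = n :=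
  zpow_right_injective₀ (zero_lt_iff.2 h0) h1 h

theorem sqrt_class1 {f : k[X]} {c w : k} {x y : K} (h : Crv f c w x y) (z : Om K)
    (hz : z ∈ Mnr k K) (hz0 : z ≠ 0) (hz2 : z ^ 2 ∈ Eg k K) :
    ∃ (A : Finset (kb k K)) (r : Om K), (∀ a ∈ A, aeval a f = 0) ∧ Even A.card ∧ r ∈ Eg k K ∧
      r ≠ 0 ∧ z ^ 2 = r ^ 2 * ∏ a ∈ A, (tO x - (a : Om K)) := by
  classical
  have hac : IsAlgClosed (kb k K) := (algebraicClosure.isAlgClosure k (Om K)).isAlgClosed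
  obtain ⟨p, g, hp, hg, hg0, hzg⟩ := to_poly h z hz hz0 hz2
  obtain ⟨A, q, hq, hpq⟩ := poly_sqf p hp
  have hzz : z ^ 2 ≠ 0 := pow_ne_zero 2 hz0
  have hq0 := aeval_ne_zero x h.tr q hq
  have hpr0 : (∏ a ∈ A, (X - C a) : (kb k K)[X]) ≠ 0 :=
    Finset.prod_ne_zero_iff.2 fun a _ => X_sub_C_ne_zero a
  have hzg' : z ^ 2 * g ^ 2 = aeval (tO x) q ^ 2 * aeval (tO x) (∏ a ∈ A, (X - C a)) := by
    rw [hzg, hpq, map_mul, map_pow]
  -- the common argument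
  have key : ∀ (B : ValuationSubring (Om K)) (hB : IsPlace k K B) (t : B.ValueGroup)
      (ht : t ≠ 0) (ht1 : t ≠ 1)
      (hval : ∀ u ∈ Eg k K, u ≠ 0 → ∃ n : ℤ, B.valuation u = t ^ n) (e : ℤ)
      (he : B.valuation (aeval (tO x) (∏ a ∈ A, (X - C a))) = t ^ e), Even e := by
    intro B hB t ht ht1 hval e he
    obtain ⟨g₁, hg₁, hvg⟩ := val_even B hB z hz hz2
    have hg₁0 : g₁ ≠ 0 := by
      rintro rfl
      rw [map_zero, zero_pow two_ne_zero, Valuation.zero_iff] at hvg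
      exact hzz hvg
    obtain ⟨n₁, hn₁⟩ := hval g₁ hg₁ hg₁0
    obtain ⟨n₂, hn₂⟩ := hval g hg hg0
    obtain ⟨m, hm⟩ := hval _ (eg_mem x q) hq0
    have h1 := congrArg B.valuation hzg'
    rw [map_mul, hvg, map_mul, map_pow, map_pow, hm, hn₁, hn₂, he] at h1
    have h2 : t ^ (n₁ * 2 + n₂ * 2) = t ^ (m * 2 + e) := by
      rw [zpow_add₀ ht, zpow_add₀ ht, zpow_mul, zpow_mul, zpow_mul]
      exact h1
    have h3 := F57a_zinj ht ht1 h2
    exact ⟨n₁ + n₂ - m, by linarith⟩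
  refine ⟨A, aeval (tO x) q / g, ?_, ?_, div_mem (eg_mem x q) hg, div_ne_zero hq0 hg0, ?_⟩
  · intro a ha
    by_contra hf
    obtain ⟨B, hB, hβ⟩ := place_fin x h.tr a
    have ht0 := F53_t_ne h.tr B a
    have h1 := key B hB _ ht0 hβ.ne (fun u hu hu0 => val_unit_case h B hB a hβ hf u hu hu0) 1 (by
      rw [val_poly B hB x a hβ _ hpr0, ← count_roots, roots_prod_X_sub_C, zpow_one]
      rw [Multiset.count_eq_one_of_mem A.nodup ha, pow_one])
    exact absurd h1 (by decide)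
  · obtain ⟨B, hB, hx⟩ := place_inf x h.tr
    have ht0 : B.valuation (tO x) ≠ 0 := (zero_lt_one.trans hx).ne'
    have h1 := key B hB _ ht0 hx.ne' (fun u hu hu0 => val_inf_case h B hB hx u hu hu0) A.card (by
      rw [val_aeval_big B hB (tO x) hx _ hpr0, zpow_natCast]
      congr 1
      exact natDegree_finsetProd_X_sub_C_eq_card A id)
    exact_mod_cast h1
  · rw [← F57a_prod, div_pow, div_mul_eq_mul_div, eq_div_iff (pow_ne_zero 2 hg0)]
    exact hzg'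

end SC8
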