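import Pool.Agent.MP_c1dca2_ag.SC8.F57a
import Pool.Agent.MP_c1dca2_ag.SC8.F4b

/-!
# [SC8-F57b] the elements of `M` whose squares are in `K k^alg`
-/

set_option autoImplicit false

open Polynomial SEC SC5

namespace SC8

variable {k K : Type} [Field k] [CharZero k] [Field K] [Algebra k K]

omit [CharZero k] in
theorem f57b_mem (x : K) (a : kb k K) : tO x - (a : Om K) ∈ Eg k K :=
  sub_mem ((Eg k K).algebraMap_mem x) (IntermediateField.subset_adjoin K _ a.2)

omit [CharZero k] in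
/-- the last step -/
theorem f57b_last (x : K) (w' : kb k K) (z r : Om K)
    (A : Finset (kb k K)) (hr : r ∈ Eg k K) (hA : Even A.card)
    (hz : z ^ 2 = r ^ 2 * ∏ a ∈ A, (tO x - (a : Om K))) (Z : kb k K → Om K)
    (hZ : ∀ a ∈ A, Z a ^ 2 * (tO x - (w' : Om K)) = tO x - (a : Om K)) :
    ∃ r ∈ Eg k K, z = r * ∏ a ∈ A, Z a := by
  obtain ⟨m, hm⟩ := hA
  have h1 : (∏ a ∈ A, Z a) ^ 2 * (tO x - (w' : Om K)) ^ A.card =
      ∏ a ∈ A, (tO x - (a : Om K)) := by
    rw [← Finset.prod_pow, ← Finset.prod_const, ← Finset.prod_mul_distrib]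
    exact Finset.prod_congr rfl hZ
  have h2 : z ^ 2 = (r * (tO x - (w' : Om K)) ^ m * ∏ a ∈ A, Z a) ^ 2 := by
    rw [hz, ← h1, hm, pow_add]
    ring
  have h3 : r * (tO x - (w' : Om K)) ^ m ∈ Eg k K :=
    mul_mem hr (pow_mem (f57b_mem x w') m)
  rcases sq_eq_sq_iff_eq_or_eq_neg.1 h2 with h4 | h4
  · exact ⟨_, h3, h4⟩
  · exact ⟨_, neg_mem h3, by rw [h4]; ring⟩

theorem sqrt_class2 {f : k[X]} {c w : k} {x y : K} (h : Crv f c w x y) (z : Om K)
    (hz : z ∈ Mnr k K) (hz2 : z ^ 2 ∈ Eg k K) :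
    ∃ A : Finset (kb k K), (∀ a ∈ A, aeval a f = 0 ∧ a ≠ algebraMap k (kb k K) w) ∧
      ∀ Z : kb k K → Om K, (∀ a ∈ A, Z a ^ 2 * (tO x - ((algebraMap k (kb k K) w : kb k K) : Om K)) =
        tO x - (a : Om K)) → ∃ r ∈ Eg k K, z = r * ∏ a ∈ A, Z a := by
  classical
  by_cases hz0 : z = 0
  · refine ⟨∅, fun a ha => absurd ha (Finset.notMem_empty a), fun Z _ => ⟨0, (Eg k K).zero_mem, ?_⟩⟩
    rw [hz0, zero_mul]
  obtain ⟨A, r, hA, hev, hr, hr0, hzr⟩ := sqrt_class1 h z hz hz0 hz2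
  by_cases hw : algebraMap k (kb k K) w ∈ A
  · -- the complement
    have hf0 := h.sep.ne_zero
    set w' : kb k K := algebraMap k (kb k K) w with hw'
    set A₀ : Finset (kb k K) := (f.aroots (kb k K)).toFinset.erase w' with hA₀
    have hmem : ∀ a, a ∈ A₀ ↔ aeval a f = 0 ∧ a ≠ w' := by
      intro a
      rw [hA₀, Finset.mem_erase, Multiset.mem_toFinset, mem_aroots]
      exact ⟨fun h => ⟨h.2.2, h.1⟩, fun h => ⟨h.2, hf0, h.1⟩⟩
    obtain ⟨hcard, hfac⟩ := f4b_roots h A₀ hmem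
    set A' : Finset (kb k K) := A₀ \ A with hA'
    have hsub : A.erase w' ⊆ A₀ := by
      intro a ha
      rw [Finset.mem_erase] at ha
      exact (hmem a).2 ⟨hA a ha.2, ha.1⟩
    have hA'2 : A' = A₀ \ A.erase w' := by
      ext a
      rw [hA', Finset.mem_sdiff, Finset.mem_sdiff]
      constructor
      · rintro ⟨h1, h2⟩
        exact ⟨h1, fun h3 => h2 (Finset.mem_erase.1 h3).2⟩
      · rintro ⟨h1, h2⟩
        exact ⟨h1, fun h3 => h2 (Finset.mem_erase.2 ⟨((hmem a).1 h1).2, h3⟩)⟩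
    have hc1 : A'.card + (A.erase w').card = A₀.card := by
      rw [hA'2]
      exact Finset.card_sdiff_add_card_eq_card hsub
    have hc2 : (A.erase w').card + 1 = A.card := Finset.card_erase_add_one hw
    have hc : Even A'.card := by
      obtain ⟨m, hm⟩ := hev
      obtain ⟨n, hn⟩ := h.even
      exact ⟨n - m, by omega⟩
    have hprod : (∏ a ∈ A, (tO x - (a : Om K))) * ∏ a ∈ A', (tO x - (a : Om K)) =
        (tO x - (w' : Om K)) * ∏ a ∈ A₀, (tO x - (a : Om K)) := by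
      rw [← Finset.mul_prod_erase A _ hw, hA'2, mul_assoc, mul_comm (∏ a ∈ A.erase w', _),
        Finset.prod_sdiff hsub]
    have hy : tO y ^ 2 = algebraMap (kb k K) (Om K) (algebraMap k (kb k K) c) *
        (algebraMap (kb k K) (Om K) (algebraMap k (kb k K) f.leadingCoeff) *
          ((tO x - (w' : Om K)) * ∏ a ∈ A₀, (tO x - (a : Om K)))) := by
      rw [f4b_y h, hfac, map_mul, map_mul, map_mul, f4b_aeval_prod, aeval_C, aeval_C, map_sub,
        aeval_X, aeval_C]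
      rfl
    have hac : IsAlgClosed (kb k K) := SC2.kb_isAlgClosed
    obtain ⟨s, hs⟩ := IsAlgClosed.exists_pow_nat_eq
      (algebraMap k (kb k K) c * algebraMap k (kb k K) f.leadingCoeff) (n := 2) (by norm_num)
    have hs0 : s ≠ 0 := by
      intro h0
      rw [h0, zero_pow two_ne_zero] at hs
      rcases mul_eq_zero.1 hs.symm with h1 | h1
      · exact h.cne ((map_eq_zero _).1 h1)
      · exact hf0 (leadingCoeff_eq_zero.1 ((map_eq_zero _).1 h1))
    have hs' : (s : Om K) ^ 2 = algebraMap (kb k K) (Om K) (algebraMap k (kb k K) c) *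
        algebraMap (kb k K) (Om K) (algebraMap k (kb k K) f.leadingCoeff) := by
      rw [← map_mul, ← hs, map_pow]
      rfl
    have hs0' : (s : Om K) ≠ 0 := by exact_mod_cast hs0
    have hne : ∀ a : kb k K, tO x - (a : Om K) ≠ 0 := fun a => l3_x_sub x h.tr a
    have hP0 : ∏ a ∈ A', (tO x - (a : Om K)) ≠ 0 := Finset.prod_ne_zero_iff.2 fun a _ => hne a
    refine ⟨A', fun a ha => (hmem a).1 (Finset.mem_sdiff.1 ha).1, fun Z hZ => ?_⟩
    refine f57b_last x w' z (r * (tO y / ((s : Om K) * ∏ a ∈ A', (tO x - (a : Om K))))) A'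
      ?_ hc ?_ Z hZ
    · refine mul_mem hr (div_mem ((Eg k K).algebraMap_mem y) (mul_mem ?_ ?_))
      · exact IntermediateField.subset_adjoin K _ s.2
      · exact prod_mem fun a _ => f57b_mem x a
    · have h5 : ∏ a ∈ A, (tO x - (a : Om K)) = tO y ^ 2 / ((s : Om K) ^ 2 *
          ∏ a ∈ A', (tO x - (a : Om K))) := by
        rw [eq_div_iff (mul_ne_zero (pow_ne_zero 2 hs0') hP0), hy, hs', ← hprod]
        ring
      rw [hzr, h5]
      field_simp
  · exact ⟨A, fun a ha => ⟨hA a ha, fun h0 => hw (h0 ▸ ha)⟩, fun Z hZ =>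
      f57b_last x _ z r A hr hev hzr Z hZ⟩

end SC8
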