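import Pool.Agent.MP_c1dca2_ag.SC8.FD
import Pool.Agent.MP_c1dca2_ag.SEC.M5

/-!
# [SC8-F6] the classes of the section of the point `x = w`

`B : ValuationSubring (Mnr k K)` from `ComesFrom`, `v = B.valuation`. `B` is stable under all `t.toHom τ` (iff), hence so is `{v < 1}` (`g u ∈ B.nonunits ↔ u ∈ B.nonunits`: `u = 0` or `u⁻¹ ∉ B`).
`ι = m5_iota : kb k K →+* Mnr k K` (SEC/M5), `t.toHom σ (ι α) = ι (σ α)` (`m5_split`). `k ⊆ B` (`P.alg`), so `ι α ∈ B` for all `α` (`α` is integral over `k`, `B` is integrally closed) and `v (ι α) = 1` for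
`α ≠ 0`; `v 2 = 1`. `v (x - w) < 1` by `hP` (`z ∈ P.A.nonunits → v z < 1`, from the first property of `B`). Write `w' = ι w`, `a = ι a`, ...; all elements in `M = Mnr k K`.
`W² (x - b) = x - a` (`SqQ`, injectivity of `M ⊆ Om K`). `x - a = (x - w) + (w - a)`, `v (w - a) = 1`, the same for `b`, so `v W = 1`, and `W² (w - b) - (w - a) = (x - w) (1 - W²)` has value `< 1`;
multiply with `w - b`: `v ((W (w - b))² - γ²) < 1`. So `v (W (w - b) - ε γ) < 1` for `ε = 1` or `ε = -1`. Apply `t.toHom σ` (`σ w = w`, `σ b = b`): `v (tW (w - b) - ε ι (σ γ)) < 1`, `tW = t.toHom σ W`.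
`tW = η W`, `η = ± 1` (`sqq_act`, `sqq_sign`), and `σ γ = η' γ`, `η' = ± 1` (`(σ γ)² = σ (γ²) = γ²`). So `v (η ε γ - ε η' γ) < 1`; `v γ = 1`, `v 2 = 1`: `η = η'`, and
`tW γ = η W γ = W (η γ) = W σ γ`.
-/

set_option autoImplicit false

open Polynomial SEC SC5

namespace SC8

variable {k K : Type} [Field k] [CharZero k] [Field K] [Algebra k K]

theorem f6_mem {B : ValuationSubring (Mnr k K)} (hk : ∀ a : k, algebraMap K (Mnr k K) (algebraMap k K a) ∈ B)
    (α : kb k K) : (m5_iota α : Mnr k K) ∈ B := by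
  have h1 : IsIntegral k (α : Om K) := (mem_algebraicClosure_iff').1 α.2
  obtain ⟨P, hP, hPa⟩ := h1
  let φ : k →+* B := ((algebraMap K (Mnr k K)).comp (algebraMap k K)).codRestrict B.toSubring hk
  have h2 : IsIntegral B (m5_iota α : Mnr k K) := by
    refine ⟨P.map φ, hP.map φ, ?_⟩
    rw [eval₂_map]
    have e : (algebraMap B (Mnr k K)).comp φ = (algebraMap K (Mnr k K)).comp (algebraMap k K) := rfl
    rw [e]
    apply (algebraMap (Mnr k K) (Om K)).injective
    rw [hom_eval₂, map_zero]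
    have e2 : (algebraMap (Mnr k K) (Om K)).comp ((algebraMap K (Mnr k K)).comp (algebraMap k K)) = algebraMap k (Om K) := by
      ext a
      exact (IsScalarTower.algebraMap_apply k K (Om K) a).symm
    rw [e2]
    exact hPa
  obtain ⟨b, hb⟩ := IsIntegrallyClosed.isIntegral_iff.1 h2
  rw [← hb]
  exact b.2

theorem f6_val {B : ValuationSubring (Mnr k K)} (hk : ∀ a : k, algebraMap K (Mnr k K) (algebraMap k K a) ∈ B)
    (α : kb k K) (h0 : α ≠ 0) : B.valuation (m5_iota α : Mnr k K) = 1 := by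
  have h1 := (B.valuation_le_one_iff _).2 (f6_mem hk α)
  have h2 := (B.valuation_le_one_iff _).2 (f6_mem hk α⁻¹)
  have h3 : B.valuation (m5_iota α : Mnr k K) * B.valuation (m5_iota α⁻¹ : Mnr k K) = 1 := by
    rw [← map_mul, ← map_mul, mul_inv_cancel₀ h0, map_one, map_one]
  apply le_antisymm h1
  by_contra h
  push Not at h
  have h4 : B.valuation (m5_iota α : Mnr k K) * B.valuation (m5_iota α⁻¹ : Mnr k K) < 1 := mul_lt_one_of_lt_of_le h h2
  exact absurd h3 h4.ne

theorem f6_nonunit {L : Type} [Field L] (B : ValuationSubring L) (z : L) :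
    B.valuation z < 1 ↔ z = 0 ∨ z⁻¹ ∉ B := by
  by_cases hz : z = 0
  · subst hz
    rw [map_zero]
    simp
  · have hv : B.valuation z ≠ 0 := (Valuation.ne_zero_iff _).2 hz
    rw [← B.valuation_le_one_iff, map_inv₀, not_le, one_lt_inv₀ (zero_lt_iff.2 hv)]
    exact ⟨Or.inr, fun h => h.resolve_left hz⟩

theorem comes_sign (x : K) (hx : Transcendental k x) (w : k) (P : SEC.RatPlace k K)
    (hP : x - algebraMap k K w ∈ P.A.nonunits) (t : SEC.Sect k K) (ht : t.ComesFrom P)
    (a b : kb k K) (haw : a ≠ algebraMap k (kb k K) w) (hbw : b ≠ algebraMap k (kb k K) w)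
    (W : Mnr k K) (hW : SqQ x a b W) (γ : kb k K)
    (hγ : γ ^ 2 = (algebraMap k (kb k K) w - a) * (algebraMap k (kb k K) w - b))
    (σ : kb k K ≃ₐ[k] kb k K) (ha : σ a = a) (hb : σ b = b) :
    (t.toHom σ W : Om K) * (γ : Om K) = (W : Om K) * ((σ γ : kb k K) : Om K) := by
  obtain ⟨B, hB1, hB2⟩ := ht
  have hcz : CharZero (kb k K) := charZero_of_injective_algebraMap (algebraMap k (kb k K)).injective
  have hk : ∀ a : k, algebraMap K (Mnr k K) (algebraMap k K a) ∈ B := fun a => (hB1 _).2 (P.alg a)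
  have hιinj : Function.Injective (m5_iota : kb k K →+* Mnr k K) := RingHom.injective _
  set w' : kb k K := algebraMap k (kb k K) w with hw'
  set X : Mnr k K := algebraMap K (Mnr k K) x with hX
  have hιw : (m5_iota w' : Mnr k K) = algebraMap K (Mnr k K) (algebraMap k K w) := by
    apply Subtype.ext
    rw [m5_iota_coe]
    exact IsScalarTower.algebraMap_apply k K (Om K) w
  -- the equation in `M`
  have hWM : W ^ 2 * (X - m5_iota b) = X - m5_iota a := Subtype.ext hW
  -- `v (x - w) < 1`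
  have hvx : B.valuation (X - m5_iota w') < 1 := by
    rw [hιw, hX, ← map_sub, f6_nonunit]
    have h1 : P.A.valuation (x - algebraMap k K w) < 1 := (P.A.mem_nonunits_iff).1 hP
    rw [f6_nonunit] at h1
    rcases h1 with h1 | h1
    · left
      rw [h1, map_zero]
    · right
      rw [← map_inv₀, hB1]
      exact h1
  have hstab : ∀ (τ : kb k K ≃ₐ[k] kb k K) (u : Mnr k K), B.valuation u < 1 → B.valuation (t.toHom τ u) < 1 := by
    intro τ u hu
    rw [f6_nonunit] at hu ⊢
    rcases hu with hu | hu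
    · left
      rw [hu, map_zero]
    · right
      rw [← map_inv₀, hB2]
      exact hu
  have hwa : B.valuation (m5_iota w' - m5_iota a : Mnr k K) = 1 := by
    rw [← map_sub]
    exact f6_val hk _ (sub_ne_zero.2 haw.symm)
  have hwb : B.valuation (m5_iota w' - m5_iota b : Mnr k K) = 1 := by
    rw [← map_sub]
    exact f6_val hk _ (sub_ne_zero.2 hbw.symm)
  have hXa : B.valuation (X - m5_iota a) = 1 := by
    have e : X - m5_iota a = (m5_iota w' - m5_iota a) + (X - m5_iota w') := by ring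
    rw [e, Valuation.map_add_eq_of_lt_left, hwa]
    rw [hwa]
    exact hvx
  have hXb : B.valuation (X - m5_iota b) = 1 := by
    have e : X - m5_iota b = (m5_iota w' - m5_iota b) + (X - m5_iota w') := by ring
    rw [e, Valuation.map_add_eq_of_lt_left, hwb]
    rw [hwb]
    exact hvx
  have hvW2 : B.valuation W ^ 2 = 1 := by
    have h1 := congrArg B.valuation hWM
    rwa [map_mul, map_pow, hXa, hXb, mul_one] at h1
  have hγ' : (m5_iota γ : Mnr k K) ^ 2 = (m5_iota w' - m5_iota a) * (m5_iota w' - m5_iota b) := by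
    rw [← map_pow, hγ, map_mul, map_sub, map_sub]
  have hγ0 : γ ≠ 0 := by
    rintro rfl
    rw [zero_pow two_ne_zero] at hγ
    rcases mul_eq_zero.1 hγ.symm with h1 | h1
    · exact haw (sub_eq_zero.1 h1).symm
    · exact hbw (sub_eq_zero.1 h1).symm
  have hvγ : B.valuation (m5_iota γ : Mnr k K) = 1 := f6_val hk γ hγ0
  have h2ι : (m5_iota (2 : kb k K) : Mnr k K) = 2 := map_ofNat _ 2
  have hv2 : B.valuation (2 : Mnr k K) = 1 := by
    rw [← h2ι]
    exact f6_val hk 2 two_ne_zero
  have hone : B.valuation (1 - W ^ 2) ≤ 1 := by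
    refine (Valuation.map_sub _ _ _).trans (max_le (map_one _).le ?_)
    rw [map_pow, hvW2]
  have hprod : B.valuation ((W * (m5_iota w' - m5_iota b) - m5_iota γ) * (W * (m5_iota w' - m5_iota b) + m5_iota γ)) < 1 := by
    have e : (W * (m5_iota w' - m5_iota b) - m5_iota γ) * (W * (m5_iota w' - m5_iota b) + m5_iota γ) =
        ((X - m5_iota w') * (1 - W ^ 2)) * (m5_iota w' - m5_iota b) := by
      linear_combination (m5_iota w' - m5_iota b) * hWM - hγ'
    rw [e, map_mul, hwb, mul_one, map_mul]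
    exact mul_lt_one_of_lt_of_le hvx hone
  have hcase : B.valuation (W * (m5_iota w' - m5_iota b) - m5_iota γ) < 1 ∨
      B.valuation (W * (m5_iota w' - m5_iota b) + m5_iota γ) < 1 := by
    by_contra hne
    rw [not_or, not_lt, not_lt] at hne
    rw [map_mul] at hprod
    have h1 := mul_le_mul' hne.1 hne.2
    rw [one_mul] at h1
    exact absurd hprod (not_lt.2 h1)
  -- the action of `σ`
  have hσw : σ w' = w' := σ.commutes w
  have hTd : t.toHom σ (m5_iota w' - m5_iota b) = m5_iota w' - m5_iota b := by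
    rw [map_sub, m5_split, m5_split, hσw, hb]
  have hTγ : t.toHom σ (m5_iota γ) = m5_iota (σ γ) := m5_split t σ γ
  have hTW : t.toHom σ W = W ∨ t.toHom σ W = -W := by
    have h1 := sqq_act x t σ a b W hW
    rw [ha, hb] at h1
    exact sqq_sign x hx a b W _ hW h1
  have hσγ : σ γ = γ ∨ σ γ = -γ := by
    have h1 : (σ γ) ^ 2 = γ ^ 2 := by
      rw [← map_pow, hγ, map_mul, map_sub, map_sub, hσw, ha, hb]
    exact sq_eq_sq_iff_eq_or_eq_neg.1 h1
  have hcoe : ∀ u : kb k K, (u : Om K) = ((m5_iota u : Mnr k K) : Om K) := fun u => rfl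
  have hne : ∀ u v : Mnr k K, B.valuation u < 1 → B.valuation v < 1 →
      (u + v = 2 * m5_iota γ ∨ u + v = -(2 * m5_iota γ) ∨ u - v = 2 * m5_iota γ ∨ u - v = -(2 * m5_iota γ)) → False := by
    intro u v hu hv h
    have h1 : B.valuation (2 * m5_iota γ : Mnr k K) = 1 := by rw [map_mul, hv2, hvγ, mul_one]
    have ha := Valuation.map_add_lt B.valuation hu hv
    have hs := Valuation.map_sub_lt B.valuation hu hv
    rcases h with h | h | h | h
    · rw [h, h1] at ha
      exact lt_irrefl _ ha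
    · rw [h, Valuation.map_neg, h1] at ha
      exact lt_irrefl _ ha
    · rw [h, h1] at hs
      exact lt_irrefl _ hs
    · rw [h, Valuation.map_neg, h1] at hs
      exact lt_irrefl _ hs
  rcases hTW with h1 | h1 <;> rcases hσγ with h2 | h2
  · rw [h1, h2]
  · exfalso
    rcases hcase with hc | hc
    · have h3 := hstab σ _ hc
      rw [map_sub, map_mul, hTd, hTγ, h1, h2, map_neg] at h3
      exact hne _ _ h3 hc (Or.inr (Or.inr (Or.inl (by ring))))
    · have h3 := hstab σ _ hc
      rw [map_add, map_mul, hTd, hTγ, h1, h2, map_neg] at h3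
      exact hne _ _ h3 hc (Or.inr (Or.inr (Or.inr (by ring))))
  · exfalso
    rcases hcase with hc | hc
    · have h3 := hstab σ _ hc
      rw [map_sub, map_mul, hTd, hTγ, h1, h2] at h3
      exact hne _ _ h3 hc (Or.inr (Or.inl (by ring)))
    · have h3 := hstab σ _ hc
      rw [map_add, map_mul, hTd, hTγ, h1, h2] at h3
      exact hne _ _ h3 hc (Or.inl (by ring))
  · rw [h1, h2]
    push_cast
    ring

end SC8
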