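import Pool.Agent.MP_c1dca2_ag.SC8.F3
import Pool.Agent.MP_c1dca2_ag.SC8.F4b
import Pool.Agent.MP_c1dca2_ag.SEC.M5

/-!
# [SC8-F7a] the difference of two sections is a coboundary

`w' = algebraMap k (kb k K) w`, `G = kb k K ≃ₐ[k] kb k K`, `X = Rt k K f w`. `Z a`: `exists_sqq` (SC5/L2) for `a.1`, `w'` (both are roots of `f`): `SqQ x a.1 w' (Z a)`, `Z a ≠ 0` (`sqq_ne`).
For `σ : G`, `a : X`: `s σ (Z a)` and `t σ (Z a)` both satisfy `SqQ x (σ a) w' _` (`sqq_act`, `σ w' = w'`), so they are equal up to sign (`sqq_sign`): `s σ (Z a) = ψ σ a * t σ (Z a)`, `ψ σ a = ± 1` (unique: `Z a ≠ 0`, characteristic `0`).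
`hc`: `t τ (Z a) = ε Z (τ a)`, `ε = ± 1` (`sqq_sign`). `s (στ) (Z a) = s σ (ψ τ a * ε Z (τ a)) = ψ τ a * ε * ψ σ (τ a) * t σ (Z (τ a)) = ψ τ a * ψ σ (τ a) * t σ (t τ (Z a))` (`m5_mul`).
`hp`: `z = ∏_{a : X} Z a`, `z² (x - w')^|X| = ∏ (x - a)`, so `z ∈ Eg k K` (`zprod_all`). The set of the `u ∈ Mnr k K` with `s σ u = t σ u` is a subfield containing `K` and (the image of) `kb k K`
(`m5_split` for `s` and `t`), so it contains all `u` with `(u : Om K) ∈ Eg k K`: this is `same_on`. Hence `∏ s σ (Z a) = ∏ t σ (Z a)`, i.e. `∏ ψ σ a = 1`.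
`h2`: `σ a = a`, `σ b = b`, `a ≠ b` (the case `a = b` is trivial). `exists_sqq` for `a, b`: `W`, `SqQ x a b W`; `W * Z b = ± Z a` (`sqq_comp`). `s σ W = t σ W` by `hst`. So
`ψ σ a t σ (Z a) = s σ (Z a) = ± s σ W * s σ (Z b) = ± t σ W * ψ σ b * t σ (Z b) = ψ σ b * t σ (Z a)`.
`cobound` gives `ν` (`rt_odd` for the cardinality).
-/

set_option autoImplicit false

open Polynomial SEC SC5

namespace SC8

variable {k K : Type} [Field k] [CharZero k] [Field K] [Algebra k K]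

theorem same_on (s t : SEC.Sect k K) (σ : kb k K ≃ₐ[k] kb k K) (u : Mnr k K)
    (hu : (u : Om K) ∈ Eg k K) : s.toHom σ u = t.toHom σ u ∧ (s.toHom σ u : Om K) ∈ Eg k K := by
  have hM : Eg k K ≤ Mnr k K := by
    rw [IntermediateField.adjoin_le_iff]
    intro z hz
    exact kb_le z hz
  have key : ∀ z (hz : z ∈ Eg k K), s.toHom σ ⟨z, hM hz⟩ = t.toHom σ ⟨z, hM hz⟩ ∧
      (s.toHom σ ⟨z, hM hz⟩ : Om K) ∈ Eg k K := by
    intro z hz
    induction hz using IntermediateField.adjoin_induction with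
    | mem z hz =>
      have h1 := s.split σ ⟨z, hz⟩ (kb_le z hz)
      have h2 := t.split σ ⟨z, hz⟩ (kb_le z hz)
      refine ⟨Subtype.ext (h1.trans h2.symm), ?_⟩
      have h3 : (s.toHom σ ⟨z, kb_le z hz⟩ : Om K) ∈ Eg k K := by
        rw [h1]
        exact IntermediateField.subset_adjoin K _ (σ ⟨z, hz⟩).2
      exact h3
    | algebraMap r =>
      have h1 : s.toHom σ (algebraMap K (Mnr k K) r) = algebraMap K (Mnr k K) r := AlgEquiv.commutes _ r
      have h2 : t.toHom σ (algebraMap K (Mnr k K) r) = algebraMap K (Mnr k K) r := AlgEquiv.commutes _ r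
      refine ⟨h1.trans h2.symm, ?_⟩
      have h3 : (s.toHom σ (algebraMap K (Mnr k K) r) : Om K) ∈ Eg k K := by
        rw [h1]
        exact (Eg k K).algebraMap_mem r
      exact h3
    | add z z' hz hz' ih ih' =>
      have e : (⟨z + z', hM (add_mem hz hz')⟩ : Mnr k K) = ⟨z, hM hz⟩ + ⟨z', hM hz'⟩ := rfl
      rw [e, map_add, map_add, ih.1, ih'.1]
      refine ⟨rfl, ?_⟩
      rw [← ih.1, ← ih'.1]
      exact add_mem ih.2 ih'.2
    | mul z z' hz hz' ih ih' =>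
      have e : (⟨z * z', hM (mul_mem hz hz')⟩ : Mnr k K) = ⟨z, hM hz⟩ * ⟨z', hM hz'⟩ := rfl
      rw [e, map_mul, map_mul, ih.1, ih'.1]
      refine ⟨rfl, ?_⟩
      rw [← ih.1, ← ih'.1]
      exact mul_mem ih.2 ih'.2
    | inv z hz ih =>
      have e : (⟨z⁻¹, hM (inv_mem hz)⟩ : Mnr k K) = ⟨z, hM hz⟩⁻¹ := rfl
      rw [e, map_inv₀, map_inv₀, ih.1]
      refine ⟨rfl, ?_⟩
      rw [← ih.1]
      exact inv_mem ih.2
  exact key (u : Om K) hu

theorem f7a_uniq {u : Mnr k K} (hu : u ≠ 0) {e e' : ℤˣ}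
    (h : (((e : ℤˣ) : ℤ) : Mnr k K) * u = (((e' : ℤˣ) : ℤ) : Mnr k K) * u) : e = e' := by
  have hcz : CharZero K := charZero_of_injective_algebraMap (algebraMap k K).injective
  have hcz' : CharZero (Mnr k K) := charZero_of_injective_algebraMap (algebraMap K (Mnr k K)).injective
  have h1 := mul_right_cancel₀ hu h
  have h2 : ((e : ℤˣ) : ℤ) = ((e' : ℤˣ) : ℤ) := by exact_mod_cast h1
  exact Units.ext h2

theorem f7a_sign {u v : Mnr k K} (h : u = v ∨ u = -v) : ∃ e : ℤˣ, u = (((e : ℤˣ) : ℤ) : Mnr k K) * v := by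
  rcases h with h | h
  · exact ⟨1, by rw [h]; simp⟩
  · exact ⟨-1, by rw [h]; simp⟩

theorem diff_cobound {f : k[X]} {c w : k} {x y : K} (h : Crv f c w x y)
    [Fintype (Rt k K f w)] (s t : SEC.Sect k K)
    (hst : ∀ a b : kb k K, aeval a f = 0 → aeval b f = 0 → a ≠ b →
      a ≠ algebraMap k (kb k K) w → b ≠ algebraMap k (kb k K) w → ∀ W : Mnr k K, SqQ x a b W →
        ∀ σ : kb k K ≃ₐ[k] kb k K, σ a = a → σ b = b → s.toHom σ W = t.toHom σ W) :
    ∃ (Z : Rt k K f w → Mnr k K) (ν : Rt k K f w → ℤˣ),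
      (∀ a, SqQ x a.1 (algebraMap k (kb k K) w) (Z a)) ∧ ∏ a, ν a = 1 ∧
      ∀ σ a, (s.toHom σ (Z a) : Om K) =
        (((ν (σ • a) * ν a : ℤˣ) : ℤ) : Om K) * (t.toHom σ (Z a) : Om K) := by
  classical
  have hx := h.tr
  set w' : kb k K := algebraMap k (kb k K) w with hw'
  have hroot : aeval w' f = 0 := by
    rw [hw', aeval_algebraMap_apply, coe_aeval_eq_eval, h.root, map_zero]
  have hex : ∀ a : Rt k K f w, ∃ W : Mnr k K, SqQ x a.1 w' W := fun a =>
    exists_sqq f h.sep c h.cne x y h.tr h.eq a.1 w' a.2.1 hroot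
  choose Z hZ using hex
  have hZ0 : ∀ a, Z a ≠ 0 := fun a => sqq_ne x hx _ _ _ (hZ a)
  have hσw : ∀ σ : kb k K ≃ₐ[k] kb k K, σ w' = w' := fun σ => σ.commutes w
  have hact : ∀ (r : SEC.Sect k K) (σ : kb k K ≃ₐ[k] kb k K) (a : Rt k K f w), SqQ x (σ • a).1 w' (r.toHom σ (Z a)) := by
    intro r σ a
    have h1 := sqq_act x r σ a.1 w' (Z a) (hZ a)
    rw [hσw] at h1
    exact h1
  have hψex : ∀ (σ : kb k K ≃ₐ[k] kb k K) (a : Rt k K f w), ∃ e : ℤˣ,
      s.toHom σ (Z a) = (((e : ℤˣ) : ℤ) : Mnr k K) * t.toHom σ (Z a) := fun σ a =>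
    f7a_sign (sqq_sign x hx _ _ _ _ (hact t σ a) (hact s σ a))
  choose ψ hψ using hψex
  have ht0 : ∀ σ a, t.toHom σ (Z a) ≠ 0 := by
    intro σ a h1
    exact hZ0 a ((map_eq_zero (t.toHom σ)).1 h1)
  have hint : ∀ (r : SEC.Sect k K) (σ : kb k K ≃ₐ[k] kb k K) (e : ℤˣ) (u : Mnr k K),
      r.toHom σ ((((e : ℤˣ) : ℤ) : Mnr k K) * u) = (((e : ℤˣ) : ℤ) : Mnr k K) * r.toHom σ u := by
    intro r σ e u
    rw [map_mul, map_intCast]
  -- the cocycle relation
  have hc : ∀ σ τ a, ψ (σ * τ) a = ψ σ (τ • a) * ψ τ a := by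
    intro σ τ a
    obtain ⟨ε, hε⟩ := f7a_sign (sqq_sign x hx _ _ _ _ (hZ (τ • a)) (hact t τ a))
    apply f7a_uniq (ht0 (σ * τ) a)
    rw [← hψ (σ * τ) a, m5_mul, hψ τ a, hε, hint, hint, hψ σ (τ • a), m5_mul, hε, hint]
    push_cast
    ring
  -- the product
  have hp : ∀ σ, ∏ a, ψ σ a = 1 := by
    intro σ
    have hinj : Function.Injective (fun a : Rt k K f w => a.1) := fun a b hab => Subtype.ext hab
    set A : Finset (kb k K) := Finset.univ.image (fun a : Rt k K f w => a.1) with hA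
    have hAm : ∀ a, a ∈ A ↔ aeval a f = 0 ∧ a ≠ algebraMap k (kb k K) w := by
      intro a
      rw [hA, Finset.mem_image]
      constructor
      · rintro ⟨b, -, rfl⟩
        exact b.2
      · intro ha
        exact ⟨⟨a, ha⟩, Finset.mem_univ _, rfl⟩
    have hcard : A.card = Fintype.card (Rt k K f w) := by
      rw [hA, Finset.card_image_of_injective _ hinj, Finset.card_univ]
    have hz : ((∏ a, Z a : Mnr k K) : Om K) ^ 2 *
        (tO x - ((algebraMap k (kb k K) w : kb k K) : Om K)) ^ A.card = ∏ a ∈ A, (tO x - (a : Om K)) := by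
      have e1 : ((∏ a, Z a : Mnr k K) : Om K) = ∏ a, (Z a : Om K) :=
        map_prod (algebraMap (Mnr k K) (Om K)) Z Finset.univ
      rw [hcard, e1, ← Finset.prod_pow, hA, Finset.prod_image (fun a _ b _ hab => hinj hab)]
      have e2 : (tO x - ((algebraMap k (kb k K) w : kb k K) : Om K)) ^ Fintype.card (Rt k K f w) =
          ∏ _a : Rt k K f w, (tO x - ((algebraMap k (kb k K) w : kb k K) : Om K)) := by
        rw [Finset.prod_const, Finset.card_univ]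
      rw [e2, ← Finset.prod_mul_distrib]
      exact Finset.prod_congr rfl fun a _ => hZ a
    have hE := zprod_all h A hAm _ hz
    have h1 := (same_on s t σ (∏ a, Z a) hE).1
    rw [map_prod, map_prod, Finset.prod_congr rfl fun a _ => hψ σ a, Finset.prod_mul_distrib] at h1
    have h2 : (∏ a, t.toHom σ (Z a)) ≠ 0 := Finset.prod_ne_zero_iff.2 fun a _ => ht0 σ a
    apply f7a_uniq h2
    rw [Units.val_one, Int.cast_one, one_mul, ← h1]
    congr 1
    rw [← Units.coeHom_apply, map_prod, Int.cast_prod]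
    rfl
  -- the stabilisers
  have h2 : ∀ σ (a b : Rt k K f w), σ • a = a → σ • b = b → ψ σ a = ψ σ b := by
    intro σ a b ha hb
    by_cases hab : a = b
    · rw [hab]
    have hab' : a.1 ≠ b.1 := fun h1 => hab (Subtype.ext h1)
    obtain ⟨W, hW⟩ := exists_sqq f h.sep c h.cne x y h.tr h.eq a.1 b.1 a.2.1 b.2.1
    have h1 := hst a.1 b.1 a.2.1 b.2.1 hab' a.2.2 b.2.2 W hW σ (congrArg Subtype.val ha) (congrArg Subtype.val hb)
    obtain ⟨ε, hε⟩ := f7a_sign (sqq_comp x hx a.1 b.1 w' W (Z a) (Z b) hW (hZ a) (hZ b))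
    -- `W * Z b = ε * Z a`
    have hεε : (((ε : ℤˣ) : ℤ) : Mnr k K) * (((ε : ℤˣ) : ℤ) : Mnr k K) = 1 := by
      rw [← Int.cast_mul, ← Units.val_mul, Int.units_mul_self, Units.val_one, Int.cast_one]
    have hZa : Z a = (((ε : ℤˣ) : ℤ) : Mnr k K) * (W * Z b) := by
      rw [hε, ← mul_assoc, hεε, one_mul]
    apply f7a_uniq (ht0 σ a)
    rw [← hψ σ a]
    have e1 : s.toHom σ (Z a) = (((ε : ℤˣ) : ℤ) : Mnr k K) * (s.toHom σ W * s.toHom σ (Z b)) := by
      rw [hZa, hint, map_mul]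
    have e2 : t.toHom σ (Z a) = (((ε : ℤˣ) : ℤ) : Mnr k K) * (t.toHom σ W * t.toHom σ (Z b)) := by
      rw [hZa, hint, map_mul]
    rw [e1, e2, h1, hψ σ b]
    ring
  obtain ⟨ν, hν1, hν2⟩ := cobound (rt_odd h) ψ hc hp h2
  refine ⟨Z, ν, hZ, hν1, fun σ a => ?_⟩
  rw [← hν2 σ a]
  have h3 := congrArg (fun u : Mnr k K => (u : Om K)) (hψ σ a)
  simpa using h3

end SC8
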