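import Pool.Agent.MP_c1dca2_ag.SC8.F4a
import Pool.Agent.MP_c1dca2_ag.SC8.F4b
import Pool.Agent.MP_c1dca2_ag.SC8.E0

/-!
# [SC8-F7b] realising signs by an element of the geometric fundamental group

`E = Eg k K` with `Algebra E (Om K)`, Galois (characteristic `0`; see F52). Apply `kummer_real` to `Z a : Om K`, `a : X = Rt k K f w`: `Z a ≠ 0` (`sqq_ne`), `Z a² = (x - a)/(x - w') ∈ E`. `hA`: for `A : Finset X` let
`A' = A.image (·.1)`, `z = ∏_{a ∈ A} Z a`: `z² (x - w')^|A'| = ∏_{a ∈ A'} (x - a)`; if `z ∈ E` then `A' = ∅` or `A'` contains all the roots `≠ w'`, i.e. `A = univ` (`zprod_mem`).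
This gives `γ₀ : Om K ≃ₐ[E] Om K`; restrict scalars to `K`, and restrict to `Mnr k K` (normal over `K`: `E0_normal`, `AlgEquiv.restrictNormalHom`, `restrictNormal_commutes`; `CharZero K` from `k`).
`γ` fixes every `z` with `(z : Om K) ∈ Eg k K`.
-/

set_option autoImplicit false

open Polynomial SEC SC5

namespace SC8

variable {k K : Type} [Field k] [CharZero k] [Field K] [Algebra k K]

theorem exists_gamma {f : k[X]} {c w : k} {x y : K} (h : Crv f c w x y)
    [Fintype (Rt k K f w)] (Z : Rt k K f w → Mnr k K)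
    (hZ : ∀ a, SqQ x a.1 (algebraMap k (kb k K) w) (Z a)) (ν : Rt k K f w → ℤˣ)
    (hν : ∏ a, ν a = 1) :
    ∃ γ : Mnr k K ≃ₐ[K] Mnr k K, (∀ z : Mnr k K, (z : Om K) ∈ Eg k K → γ z = z) ∧
      ∀ a, (γ (Z a) : Om K) = (((ν a : ℤˣ) : ℤ) : Om K) * (Z a : Om K) := by
  classical
  have hx := h.tr
  have hcz : CharZero K := charZero_of_injective_algebraMap (algebraMap k K).injective
  have hczO : CharZero (Om K) := charZero_of_injective_algebraMap (algebraMap K (Om K)).injective
  have hn : Normal K (Mnr k K) := E0_normal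
  have hgal : IsGalois (Eg k K) (Om K) := by
    have hcE : CharZero (Eg k K) := charZero_of_injective_algebraMap (algebraMap K (Eg k K)).injective
    have halg : Algebra.IsAlgebraic (Eg k K) (Om K) := Algebra.IsAlgebraic.tower_top (K := K) (Eg k K)
    have hcl : IsAlgClosure (Eg k K) (Om K) := ⟨inferInstance, halg⟩
    infer_instance
  have hinj : Function.Injective (fun a : Rt k K f w => a.1) := fun a b hab => Subtype.ext hab
  have hxE : tO x ∈ Eg k K := (Eg k K).algebraMap_mem x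
  have hkE : ∀ a : kb k K, (a : Om K) ∈ Eg k K := fun a => IntermediateField.subset_adjoin K _ a.2
  have hZsq : ∀ a, ∃ d : Eg k K, (Z a : Om K) ^ 2 = algebraMap (Eg k K) (Om K) d := by
    intro a
    refine ⟨⟨(tO x - (a.1 : Om K)) / (tO x - ((algebraMap k (kb k K) w : kb k K) : Om K)),
      (Eg k K).div_mem (sub_mem hxE (hkE _)) (sub_mem hxE (hkE _))⟩, ?_⟩
    show (Z a : Om K) ^ 2 = (tO x - (a.1 : Om K)) / (tO x - ((algebraMap k (kb k K) w : kb k K) : Om K))
    rw [eq_div_iff (SC2.f_x_sub x hx _)]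
    exact hZ a
  have hZ0 : ∀ a, (Z a : Om K) ≠ 0 := by
    intro a h0
    exact sqq_ne x hx _ _ _ (hZ a) (Subtype.ext h0)
  have hA : ∀ A : Finset (Rt k K f w), (∃ d : Eg k K, ∏ a ∈ A, (Z a : Om K) = algebraMap (Eg k K) (Om K) d) →
      A = ∅ ∨ A = Finset.univ := by
    rintro A ⟨d, hd⟩
    have hz : (∏ a ∈ A, (Z a : Om K)) ^ 2 * (tO x - ((algebraMap k (kb k K) w : kb k K) : Om K)) ^
        (A.image (fun a : Rt k K f w => a.1)).card =
        ∏ a ∈ A.image (fun a : Rt k K f w => a.1), (tO x - (a : Om K)) := by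
      rw [Finset.card_image_of_injective _ hinj, ← Finset.prod_pow, Finset.prod_image (fun a _ b _ hab => hinj hab),
        ← Finset.prod_const, ← Finset.prod_mul_distrib]
      exact Finset.prod_congr rfl fun a _ => hZ a
    have h1 := zprod_mem h (A.image (fun a : Rt k K f w => a.1)) (fun a ha => by
      obtain ⟨b, -, rfl⟩ := Finset.mem_image.1 ha
      exact b.2) _ hz (by
      rw [hd]
      exact d.2)
    rcases h1 with h1 | h1
    · left
      exact Finset.image_eq_empty.1 h1
    · right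
      ext b
      refine ⟨fun _ => Finset.mem_univ _, fun _ => ?_⟩
      obtain ⟨b', hb', hbb⟩ := Finset.mem_image.1 (h1 b.1 b.2.1 b.2.2)
      rw [← hinj hbb]
      exact hb'
  obtain ⟨γ₀, hγ₀⟩ := kummer_real (E := Eg k K) (Ω := Om K) two_ne_zero (fun a => (Z a : Om K)) hZ0 hZsq hA ν hν
  have hγK : ∀ z : Om K, (γ₀.restrictScalars K) z = γ₀ z := fun _ => rfl
  refine ⟨(γ₀.restrictScalars K).restrictNormal (Mnr k K), fun z hz => ?_, fun a => ?_⟩
  · apply Subtype.ext
    have h1 := AlgEquiv.restrictNormal_commutes (γ₀.restrictScalars K) (Mnr k K) z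
    have h2 : γ₀ (z : Om K) = (z : Om K) := γ₀.commutes (⟨(z : Om K), hz⟩ : Eg k K)
    exact h1.trans h2
  · have h1 := AlgEquiv.restrictNormal_commutes (γ₀.restrictScalars K) (Mnr k K) (Z a)
    exact h1.trans (hγ₀ a)

end SC8
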