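import Pool.Agent.MP_c1dca2_ag.SC8.F7a
import Pool.Agent.MP_c1dca2_ag.SC8.F7b
import Pool.Agent.MP_c1dca2_ag.SC8.F57b

/-!
# [SC8-F7c] sections with the same classes are congruent modulo 2
-/

set_option autoImplicit false

open Polynomial SEC SC5

namespace SC8

variable {k K : Type} [Field k] [CharZero k] [Field K] [Algebra k K]

omit [CharZero k] in
theorem f7c_Eg_le (u : Om K) (hu : u ∈ Eg k K) : u ∈ Mnr k K := by
  have h : Eg k K ≤ Mnr k K := by
    rw [IntermediateField.adjoin_le_iff]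
    intro a ha
    exact kb_le a ha
  exact h hu

theorem f7c_unit (u : ℤˣ) : (((u : ℤ) : Om K)) * ((u : ℤ) : Om K) = 1 := by
  rcases Int.units_eq_one_or u with h | h <;> rw [h] <;> simp

theorem eqMod2_of {f : k[X]} {c w : k} {x y : K} (h : Crv f c w x y) (s t : SEC.Sect k K)
    (hst : ∀ a b : kb k K, aeval a f = 0 → aeval b f = 0 → a ≠ b →
      a ≠ algebraMap k (kb k K) w → b ≠ algebraMap k (kb k K) w → ∀ W : Mnr k K, SqQ x a b W →
        ∀ σ : kb k K ≃ₐ[k] kb k K, σ a = a → σ b = b → s.toHom σ W = t.toHom σ W) :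
    ∃ γ : Mnr k K ≃ₐ[K] Mnr k K, (∀ z : Mnr k K, (z : Om K) ∈ kb k K → γ z = z) ∧
      ∀ τ, ∀ z : Mnr k K, (z : Om K) ^ 2 ∈ Eg k K →
        s.toHom τ z = (γ * t.toHom τ * γ⁻¹) z := by
  classical
  have hfin : Finite (Rt k K f w) := rt_finite h.sep.ne_zero w
  have hft : Fintype (Rt k K f w) := Fintype.ofFinite _
  obtain ⟨Z, ν, hZ, hν, hsZ⟩ := diff_cobound h s t hst
  obtain ⟨γ, hγE, hγZ⟩ := exists_gamma h Z hZ ν hν
  refine ⟨γ, fun z hz => hγE z (IntermediateField.subset_adjoin K _ hz), ?_⟩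
  intro τ z hz
  have hγi : ∀ u : Mnr k K, γ⁻¹ (γ u) = u := fun u => by
    rw [← AlgEquiv.mul_apply, inv_mul_cancel, AlgEquiv.one_apply]
  -- elements of `K k^alg`
  have hE : ∀ u : Mnr k K, (u : Om K) ∈ Eg k K →
      s.toHom τ u = (γ * t.toHom τ * γ⁻¹) u := by
    intro u hu
    obtain ⟨h1, h2⟩ := same_on s t τ u hu
    have h3 : γ⁻¹ u = u := by
      conv_lhs => rw [← hγE u hu]
      exact hγi u
    rw [AlgEquiv.mul_apply, AlgEquiv.mul_apply, h3, ← h1]
    exact (hγE _ h2).symm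
  -- the elements `Z a`
  have hZa : ∀ a : Rt k K f w, s.toHom τ (Z a) = (γ * t.toHom τ * γ⁻¹) (Z a) := by
    intro a
    have hu1 : ∀ u : ℤˣ, ∃ v : Mnr k K, (v : Om K) = ((u : ℤ) : Om K) ∧
        (∀ g : Mnr k K ≃ₐ[K] Mnr k K, g v = v) ∧ v * v = 1 := by
      intro u
      refine ⟨((u : ℤ) : Mnr k K), by push_cast; rfl, fun g => by rw [map_intCast], ?_⟩
      rcases Int.units_eq_one_or u with h | h <;> rw [h] <;> simp
    obtain ⟨v, hv, hvg, hv2⟩ := hu1 (ν a)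
    obtain ⟨v', hv', hvg', hv2'⟩ := hu1 (ν (τ • a))
    have h1 : γ (Z a) = v * Z a := by
      apply Subtype.ext
      rw [hγZ, ← hv]
      rfl
    have h1' : γ (Z (τ • a)) = v' * Z (τ • a) := by
      apply Subtype.ext
      rw [hγZ, ← hv']
      rfl
    have h2 : γ⁻¹ (Z a) = v * Z a := by
      have h3 : γ⁻¹ (γ (v * Z a)) = v * Z a := hγi _
      rw [map_mul γ, hvg γ, h1, ← mul_assoc, hv2, one_mul] at h3
      exact h3
    have h4 : γ (t.toHom τ (Z a)) = v' * t.toHom τ (Z a) := by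
      have h5 : SqQ x (τ • a).1 (algebraMap k (kb k K) w) (t.toHom τ (Z a)) := by
        have h6 := sqq_act x t τ _ _ (Z a) (hZ a)
        rw [τ.commutes] at h6
        exact h6
      rcases sqq_sign x h.tr _ _ (Z (τ • a)) _ (hZ (τ • a)) h5 with h6 | h6
      · rw [h6]
        exact h1'
      · rw [h6, map_neg, h1', mul_neg]
    rw [AlgEquiv.mul_apply, AlgEquiv.mul_apply, h2, map_mul, hvg, map_mul, hvg, h4]
    apply Subtype.ext
    rw [hsZ]
    change _ = (v : Om K) * ((v' : Om K) * (t.toHom τ (Z a) : Om K))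
    rw [hv, hv']
    push_cast
    ring
  obtain ⟨A, hA, hAr⟩ := sqrt_class2 h (z : Om K) z.2 hz
  let Z' : kb k K → Mnr k K := fun a =>
    if ha : aeval a f = 0 ∧ a ≠ algebraMap k (kb k K) w then Z ⟨a, ha⟩ else 0
  have hZ' : ∀ (a : kb k K) (ha : a ∈ A), Z' a = Z ⟨a, hA a ha⟩ := by
    intro a ha
    exact dif_pos (hA a ha)
  obtain ⟨r, hr, hzr⟩ := hAr (fun a => (Z' a : Om K)) (by
    intro a ha
    rw [hZ' a ha]
    exact hZ ⟨a, hA a ha⟩)
  have hz' : z = (⟨r, f7c_Eg_le r hr⟩ : Mnr k K) * ∏ a ∈ A, Z' a := by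
    apply Subtype.ext
    rw [hzr]
    push_cast
    rfl
  rw [hz', map_mul, map_prod, map_mul, map_prod]
  congr 1
  · exact hE _ hr
  · refine Finset.prod_congr rfl fun a ha => ?_
    rw [hZ' a ha]
    exact hZa _

end SC8
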