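import Pool.Agent.MP_c1dca2_ag.SC8.FD

/-!
# [SC8-F8] the rational Weierstrass point

EXISTENCE of a valuation ring `A` of `K` with `k ⊆ A`, `A ≠ ⊤`, `x - w ∈ A.nonunits`: `φ : k[X] → K`, `P ↦ P(x)` injective, `R = Localization.AtPrime (X - C w)`, `IsLocalRing.exists_factor_valuationRing` for `R → K`
(as in `SC2.exists_above`). Let `v = A.valuation`, `F₁` with `f = (X - C w) F₁`, `F₁(w) ≠ 0` (`f` separable). For `P ∈ k[X]`, `P ≠ 0`: `v (P(x)) = t ^ m`, `t = v (x - w)`, `m = rootMultiplicity w P`
(`P = (X - C w)^m P₁`, `P₁(x) - P₁(w) ∈ (x - w) A`, constants `≠ 0` have value `1`). `v(y)² = v(c f(x)) = t`; `v(y) < 1`, `v(y) ≠ 0`.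
Every `z ∈ K` has the form `z R(x) = P(x) + Q(x) y`, `R ≠ 0` in `k[X]` (the set of these `z` is a subfield containing `k`, `x`, `y`; see F51 for the inverse).
RATIONAL: let `z ∈ A`, write so; `v(P(x)) = v(y)^(2m)` (or `0`), `v(Q(x) y) = v(y)^(2n+1)` (or `0`) are different if nonzero, so `v(P(x) + Q(x) y)` is their maximum, and `≤ v(R(x)) = v(y)^(2l)`. Hence `v(Q(x) y) ≤ v(y)^(2l)`, even
`< v(y)^(2l)` (the exponent is odd): `Q(x) y / R(x) ∈ nonunits`; and `v(P(x)) ≤ v(R(x))`: `P = (X - C w)^l P₂`, `R = (X - C w)^l R₂`, `R₂(w) ≠ 0` and `P(x)/R(x) = P₂(x)/R₂(x) ≡ P₂(w)/R₂(w) ∈ k` modulo `nonunits`.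
-/

set_option autoImplicit false

open Polynomial SEC SC5

namespace SC8

variable {k K : Type} [Field k] [CharZero k] [Field K] [Algebra k K]

omit [CharZero k] in
/-- a valuation ring with `x - w` in the maximal ideal -/
theorem f8_exists {x : K} (hx : Transcendental k x) (w : k) : ∃ A : ValuationSubring K,
    (∀ P : k[X], aeval x P ∈ A) ∧ x - algebraMap k K w ∈ A.nonunits := by
  set R : Subring K := (aeval (R := k) x).toRingHom.range with hR
  have hxR : x - algebraMap k K w ∈ R := ⟨X - C w, by
    show aeval x (X - C w) = _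
    rw [map_sub, aeval_X, aeval_C]⟩
  have hinj := transcendental_iff_injective.1 hx
  have hI : Ideal.span {(⟨x - algebraMap k K w, hxR⟩ : R)} ≠ ⊤ := by
    intro h0
    rw [Ideal.span_singleton_eq_top] at h0
    obtain ⟨⟨_, P, rfl⟩, hb⟩ := h0.exists_right_inv
    have h1 : (x - algebraMap k K w) * aeval x P = 1 := congrArg Subtype.val hb
    have h2 : aeval x ((X - C w) * P) = aeval x (1 : k[X]) := by
      rw [map_mul, map_sub, aeval_X, aeval_C, h1, map_one]
    have h3 := congrArg (eval w) (hinj h2)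
    rw [eval_mul, eval_sub, eval_X, eval_C, sub_self, zero_mul, eval_one] at h3
    exact zero_ne_one h3
  obtain ⟨A, hA, hA2⟩ := Ideal.image_subset_nonunits_valuationSubring _ hI
  exact ⟨A, fun P => hA ⟨P, rfl⟩, hA2 ⟨_, Ideal.subset_span rfl, rfl⟩⟩

omit [CharZero k] in
theorem f8_const {A : ValuationSubring K} {x : K} (hA : ∀ P : k[X], aeval x P ∈ A) (a : k)
    (ha : a ≠ 0) : A.valuation (algebraMap k K a) = 1 := by
  have h1 : ∀ b : k, A.valuation (algebraMap k K b) ≤ 1 := by
    intro b
    rw [A.valuation_le_one_iff]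
    have := hA (C b)
    rwa [aeval_C] at this
  apply le_antisymm (h1 a)
  have h2 := h1 a⁻¹
  rw [map_inv₀, map_inv₀] at h2
  have h3 : A.valuation (algebraMap k K a) ≠ 0 :=
    (Valuation.ne_zero_iff _).2 ((_root_.map_ne_zero _).2 ha)
  exact (inv_le_one₀ (zero_lt_iff.2 h3)).1 h2

omit [CharZero k] in
theorem f8_small {A : ValuationSubring K} {x : K} {w : k} (hA : ∀ P : k[X], aeval x P ∈ A)
    (ht : A.valuation (x - algebraMap k K w) < 1) (P : k[X]) (hP : P.eval w = 0) :
    A.valuation (aeval x P) < 1 := by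
  obtain ⟨Q, hQ⟩ := dvd_iff_isRoot.2 hP
  rw [hQ, map_mul, map_mul, map_sub, aeval_X, aeval_C]
  exact mul_lt_one_of_lt_of_le ht ((A.valuation_le_one_iff _).2 (hA Q))

omit [CharZero k] in
theorem f8_unit {A : ValuationSubring K} {x : K} {w : k} (hA : ∀ P : k[X], aeval x P ∈ A)
    (ht : A.valuation (x - algebraMap k K w) < 1) (P : k[X]) (hP : P.eval w ≠ 0) :
    A.valuation (aeval x P) = 1 := by
  have h1 := f8_small hA ht (P - C (P.eval w)) (by rw [eval_sub, eval_C, sub_self])
  have h2 := f8_const hA _ hP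
  have h3 : aeval x P = aeval x (P - C (P.eval w)) + algebraMap k K (P.eval w) := by
    rw [map_sub, aeval_C]
    ring
  rw [h3, Valuation.map_add_eq_of_lt_right _ (by rw [h2]; exact h1), h2]

omit [CharZero k] in
theorem f8_val {A : ValuationSubring K} {x : K} {w : k} (hA : ∀ P : k[X], aeval x P ∈ A)
    (ht : A.valuation (x - algebraMap k K w) < 1) (P : k[X]) (hP : P ≠ 0) :
    A.valuation (aeval x P) = A.valuation (x - algebraMap k K w) ^ rootMultiplicity w P := by
  obtain ⟨Q, hQ, hQw⟩ := exists_eq_pow_rootMultiplicity_mul_and_not_dvd P hP w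
  conv_lhs => rw [hQ]
  rw [map_mul, map_mul, map_pow, map_sub, aeval_X, aeval_C, map_pow,
    f8_unit hA ht Q (fun h0 => hQw (dvd_iff_isRoot.2 h0)), mul_one]

/-- the elements of `K` -/
theorem f8_form {f : k[X]} {c w : k} {x y : K} (h : Crv f c w x y) (z : K) :
    ∃ P Q R : k[X], R ≠ 0 ∧ z * aeval x R = aeval x P + aeval x Q * y := by
  have hinj := transcendental_iff_injective.1 h.tr
  have hne : ∀ R : k[X], R ≠ 0 → aeval x R ≠ 0 := fun R hR h0 =>
    hR (hinj (by rw [h0, map_zero]))
  have hy : y ^ 2 = aeval x (C c * f) := by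
    rw [map_mul, aeval_C, h.eq]
  let T : IntermediateField k K :=
    { carrier := {z | ∃ P Q R : k[X], R ≠ 0 ∧ z * aeval x R = aeval x P + aeval x Q * y}
      mul_mem' := by
        rintro a b ⟨P₁, Q₁, R₁, hR₁, h₁⟩ ⟨P₂, Q₂, R₂, hR₂, h₂⟩
        refine ⟨P₁ * P₂ + Q₁ * Q₂ * (C c * f), P₁ * Q₂ + P₂ * Q₁, R₁ * R₂,
          mul_ne_zero hR₁ hR₂, ?_⟩
        simp only [map_mul, map_add] at hy ⊢
        linear_combination (b * aeval x R₂) * h₁ + (aeval x P₁ + aeval x Q₁ * y) * h₂ +
          aeval x Q₁ * aeval x Q₂ * hy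
      one_mem' := ⟨1, 0, 1, one_ne_zero, by simp⟩
      add_mem' := by
        rintro a b ⟨P₁, Q₁, R₁, hR₁, h₁⟩ ⟨P₂, Q₂, R₂, hR₂, h₂⟩
        refine ⟨P₁ * R₂ + P₂ * R₁, Q₁ * R₂ + Q₂ * R₁, R₁ * R₂, mul_ne_zero hR₁ hR₂, ?_⟩
        simp only [map_mul, map_add]
        linear_combination (aeval x R₂) * h₁ + (aeval x R₁) * h₂
      zero_mem' := ⟨0, 0, 1, one_ne_zero, by simp⟩
      algebraMap_mem' := fun a => ⟨C a, 0, 1, one_ne_zero, by simp⟩
      inv_mem' := by
        rintro a ⟨P, Q, R, hR, h₁⟩
        by_cases ha : a = 0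
        · rw [ha, inv_zero]
          exact ⟨0, 0, 1, one_ne_zero, by simp⟩
        · by_cases hN : P ^ 2 - Q ^ 2 * (C c * f) = 0
          · have h2 : (aeval x P + aeval x Q * y) * (aeval x P - aeval x Q * y) = 0 := by
              have h3 := congrArg (aeval x) hN
              rw [map_sub, map_mul, map_pow, map_pow, ← hy, map_zero] at h3
              linear_combination h3
            have h4 : aeval x P + aeval x Q * y ≠ 0 := by
              rw [← h₁]
              exact mul_ne_zero ha (hne R hR)
            have h5 : aeval x P - aeval x Q * y = 0 := (mul_eq_zero.1 h2).resolve_left h4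
            have h6 : a * aeval x R = 2 * aeval x P := by
              linear_combination h₁ - h5
            have hP : P ≠ 0 := by
              rintro rfl
              rw [map_zero, mul_zero] at h6
              exact mul_ne_zero ha (hne R hR) h6
            refine ⟨R, 0, 2 * P, mul_ne_zero two_ne_zero hP, ?_⟩
            rw [map_mul, map_zero, zero_mul, add_zero,
              show aeval x (2 : k[X]) = (2 : K) from map_ofNat _ 2, ← h6,
              inv_mul_cancel_left₀ ha]
          · refine ⟨R * P, -(R * Q), P ^ 2 - Q ^ 2 * (C c * f), hN, ?_⟩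
            rw [inv_mul_eq_iff_eq_mul₀ ha]
            rw [map_sub, map_mul (aeval x) (Q ^ 2), map_pow, map_pow, ← hy, map_neg, map_mul,
              map_mul]
            linear_combination (-(aeval x P - aeval x Q * y)) * h₁ }
  have hT : T = ⊤ := by
    rw [← top_le_iff, ← h.gen, IntermediateField.adjoin_le_iff]
    rintro b (rfl | hb)
    · exact ⟨X, 0, 1, one_ne_zero, by simp⟩
    · rw [Set.mem_singleton_iff] at hb
      rw [hb]
      exact ⟨0, 1, 1, one_ne_zero, by simp⟩
  have hz : z ∈ T := by
    rw [hT]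
    exact IntermediateField.mem_top
  exact hz

theorem exists_ratPlace {f : k[X]} {c w : k} {x y : K} (h : Crv f c w x y) :
    ∃ P : SEC.RatPlace k K, x - algebraMap k K w ∈ P.A.nonunits := by
  obtain ⟨A, hA, hxw⟩ := f8_exists h.tr w
  have ht : A.valuation (x - algebraMap k K w) < 1 := (A.mem_nonunits_iff).1 hxw
  have hinj := transcendental_iff_injective.1 h.tr
  have hne : ∀ R : k[X], R ≠ 0 → aeval x R ≠ 0 := fun R hR h0 =>
    hR (hinj (by rw [h0, map_zero]))
  have hxw0 : x - algebraMap k K w ≠ 0 := by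
    have := hne (X - C w) (X_sub_C_ne_zero w)
    rwa [map_sub, aeval_X, aeval_C] at this
  have ht0 : A.valuation (x - algebraMap k K w) ≠ 0 := (Valuation.ne_zero_iff _).2 hxw0
  set t := A.valuation (x - algebraMap k K w) with htdef
  set u := A.valuation y with hu
  have hf0 : f ≠ 0 := h.sep.ne_zero
  have hmf : rootMultiplicity w f = 1 := by
    have h1 : rootMultiplicity w f ≤ 1 := rootMultiplicity_le_one_of_separable h.sep w
    have h2 : 0 < rootMultiplicity w f := (rootMultiplicity_pos hf0).2 h.root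
    omega
  have hut : u ^ 2 = t := by
    have h1 := congrArg A.valuation h.eq
    rw [map_pow, map_mul, f8_const hA c h.cne, f8_val hA ht f hf0, hmf, pow_one, one_mul] at h1
    exact h1
  have hu0 : u ≠ 0 := by
    intro h0
    apply ht0
    rw [← hut, h0, zero_pow two_ne_zero]
  have hu1 : u < 1 := by
    by_contra h1
    have h2 : 1 ≤ u ^ 2 := one_le_pow₀ (not_lt.1 h1)
    rw [hut] at h2
    exact absurd ht (not_lt.2 h2)
  have hval : ∀ P : k[X], P ≠ 0 → A.valuation (aeval x P) = u ^ (2 * rootMultiplicity w P) := by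
    intro P hP
    rw [f8_val hA ht P hP, pow_mul, hut]
  refine ⟨⟨A, fun a => ?_, ?_, ?_⟩, hxw⟩
  · have := hA (C a)
    rwa [aeval_C] at this
  · intro h0
    have h1 : (x - algebraMap k K w)⁻¹ ∈ A := by rw [h0]; trivial
    rw [← A.valuation_le_one_iff, map_inv₀, ← htdef] at h1
    exact absurd ((inv_le_one₀ (zero_lt_iff.2 ht0)).1 h1) (not_le.2 ht)
  · intro z hz
    obtain ⟨P, Q, R, hR, hzR⟩ := f8_form h z
    have hRx := hne R hR
    have hvR := hval R hR
    have hu0' : 0 < u := zero_lt_iff.2 hu0
    have hinju : Function.Injective (fun n : ℕ => u ^ n) :=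
      pow_right_injective₀ hu0' hu1.ne
    have hvR0 : A.valuation (aeval x R) ≠ 0 := (Valuation.ne_zero_iff _).2 hRx
    set a := aeval x P / aeval x R with ha
    set b := aeval x Q * y / aeval x R with hb
    have hzab : z = a + b := by
      rw [ha, hb, ← add_div, ← hzR, mul_div_cancel_right₀ _ hRx]
    have hvz : A.valuation z ≤ 1 := (A.valuation_le_one_iff z).2 hz
    have hva : A.valuation a * A.valuation (aeval x R) = A.valuation (aeval x P) := by
      rw [← map_mul, ha, div_mul_cancel₀ _ hRx]
    have hvb : A.valuation b * A.valuation (aeval x R) = A.valuation (aeval x Q) * u := by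
      rw [← map_mul, hb, div_mul_cancel₀ _ hRx, map_mul]
    have hb1 : A.valuation b ≠ 1 := by
      intro h0
      rw [h0, one_mul] at hvb
      have hQ : Q ≠ 0 := by
        rintro rfl
        rw [map_zero, map_zero, zero_mul] at hvb
        exact hvR0 hvb
      rw [hvR, hval Q hQ, ← pow_succ] at hvb
      have := hinju hvb
      omega
    have hab : A.valuation a ≤ 1 ∧ A.valuation b ≤ 1 := by
      by_cases hP : P = 0
      · have ha0 : a = 0 := by rw [ha, hP, map_zero, zero_div]
        rw [hzab, ha0, zero_add] at hvz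
        rw [ha0, map_zero]
        exact ⟨zero_le_one, hvz⟩
      · by_cases hQ : Q = 0
        · have hb0 : b = 0 := by rw [hb, hQ, map_zero, zero_mul, zero_div]
          rw [hzab, hb0, add_zero] at hvz
          rw [hb0, map_zero]
          exact ⟨hvz, zero_le_one⟩
        · have hne2 : A.valuation a ≠ A.valuation b := by
            intro h0
            rw [h0, hvb, hval P hP, hval Q hQ, ← pow_succ] at hva
            have := hinju hva
            omega
          rw [hzab, Valuation.map_add_of_distinct_val _ hne2] at hvz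
          exact ⟨(le_max_left _ _).trans hvz, (le_max_right _ _).trans hvz⟩
    have hblt : A.valuation b < 1 := lt_of_le_of_ne hab.2 hb1
    have hmain : ∃ α : k, A.valuation (a - algebraMap k K α) < 1 := by
      by_cases hP : P = 0
      · refine ⟨0, ?_⟩
        rw [ha, hP, map_zero, zero_div, map_zero, sub_zero, map_zero]
        exact zero_lt_one
      · obtain ⟨P₁, hP₁, -⟩ := exists_eq_pow_rootMultiplicity_mul_and_not_dvd P hP w
        obtain ⟨R₁, hR₁, hR₁w⟩ := exists_eq_pow_rootMultiplicity_mul_and_not_dvd R hR w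
        have hR₁w' : R₁.eval w ≠ 0 := fun h0 => hR₁w (dvd_iff_isRoot.2 h0)
        have hml : rootMultiplicity w R ≤ rootMultiplicity w P := by
          have h1 : A.valuation (aeval x P) ≤ A.valuation (aeval x R) := by
            rw [← hva]
            exact mul_le_of_le_one_left' hab.1
          rw [hval P hP, hvR, pow_le_pow_iff_right_of_lt_one₀ hu0' hu1] at h1
          omega
        set m := rootMultiplicity w P
        set l := rootMultiplicity w R
        have hR₁x : aeval x R₁ ≠ 0 := hne R₁ (fun h0 => hR₁w' (by rw [h0, eval_zero]))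
        have ha2 : a * aeval x R₁ = aeval x ((X - C w) ^ (m - l) * P₁) := by
          have h1 : aeval x P = (x - algebraMap k K w) ^ l *
              aeval x ((X - C w) ^ (m - l) * P₁) := by
            conv_lhs => rw [hP₁, ← Nat.add_sub_cancel' hml, pow_add, mul_assoc, map_mul, map_pow,
              map_sub, aeval_X, aeval_C]
          have h2 : aeval x R = (x - algebraMap k K w) ^ l * aeval x R₁ := by
            conv_lhs => rw [hR₁, map_mul, map_pow, map_sub, aeval_X, aeval_C]
          have h3 : a * aeval x R = aeval x P := by rw [ha, div_mul_cancel₀ _ hRx]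
          rw [h1, h2] at h3
          have h4 : (x - algebraMap k K w) ^ l ≠ 0 := pow_ne_zero _ hxw0
          apply mul_left_cancel₀ h4
          rw [← h3]
          ring
        generalize (X - C w) ^ (m - l) * P₁ = P₂ at ha2
        refine ⟨P₂.eval w / R₁.eval w, ?_⟩
        have h5 := f8_small hA ht (P₂ - C (P₂.eval w / R₁.eval w) * R₁) (by
          rw [eval_sub, eval_mul, eval_C, div_mul_cancel₀ _ hR₁w', sub_self])
        rw [map_sub, map_mul, aeval_C, ← ha2, ← sub_mul, map_mul, f8_unit hA ht R₁ hR₁w',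
          mul_one] at h5
        exact h5
    obtain ⟨α, hα⟩ := hmain
    refine ⟨α, ?_⟩
    rw [A.mem_nonunits_iff, hzab, show a + b - algebraMap k K α = (a - algebraMap k K α) + b by
      ring]
    exact Valuation.map_add_lt _ hα hblt

end SC8
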