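import Pool.Agent.MP_c1dca2_ag.SC8.S

/-!
# [SC8-F9a] reduction of the case of odd degree

`F = X * f.reverse`, `n = f.natDegree` odd, `f(0) ≠ 0`. `natDegree f.reverse = n` (`reverse_natDegree`, `natTrailingDegree = 0`), `F.natDegree = n + 1`. For `x ≠ 0` in a field `K ⊇ k`: `x ^ n * aeval x⁻¹ f.reverse = aeval x f`
(`eval₂_reverse_mul_pow` or similar), so `aeval x⁻¹ F * x ^ (n + 1) = aeval x f`.
`odd_poly`: roots in `k`: `F(a) = 0` iff `a = 0` or (`a ≠ 0` and `f(a⁻¹) = 0`, impossible). Separable: over an algebraic closure `F` has the `n + 1` different roots `0` and `1/r`, `r` a root of `f` (`r ≠ 0`);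
or: `f.reverse` is separable (if `u² ∣ f.reverse` over ... ; e.g. `Separable` iff no common root of the polynomial and its derivative in an algebraic closure / `nodup_roots` with `card roots = natDegree`), coprime to `X` since
`f.reverse.eval 0 = leadingCoeff f ≠ 0` (`Separable.mul`).
`odd_modTwo`: let `K, x, y` be given for `C c * f`; `x ≠ 0`. Put `x' = x⁻¹` (transcendental), `y' = y x'^((n+1)/2)`: `y'² = y² x'^(n+1) = c f(x) x'^(n+1) = c F(x')`. `adjoin k {x', y'} = ⊤` (`x = x'⁻¹`, `y = y' x^((n+1)/2)`). Apply
`h` for `C c * F`: for `s` a rational place `P` with `P.IsWeierstrass (C c * F) x'`. `(C c * F).natDegree = n + 1` is even, so there is `w` with `c F(w) = 0`, hence `w = 0`, `x' ∈ P.A.nonunits`, so `x ∉ P.A`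
(`x * x' = 1`): `P.IsWeierstrass (C c * f) x` (second case; `(C c * f).natDegree = n` is odd). The rest is unchanged.
-/

set_option autoImplicit false

open Polynomial

namespace SC8

theorem f9a_deg {k : Type} [Field k] (f : k[X]) (h0 : f.coeff 0 ≠ 0) :
    f.reverse.natDegree = f.natDegree := by
  rw [reverse_natDegree, natTrailingDegree_eq_zero.2 (Or.inr h0), Nat.sub_zero]

theorem f9a_rr {k : Type} [Field k] (f : k[X]) (h0 : f.coeff 0 ≠ 0) :
    f.reverse.reverse = f := by
  unfold reverse
  have h1 : (reflect f.natDegree f).natDegree = f.natDegree := f9a_deg f h0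
  rw [h1, reflect_reflect]

theorem f9a_map {k Ω : Type} [Field k] [Field Ω] (i : k →+* Ω) (f : k[X]) :
    (f.map i).reverse = f.reverse.map i := by
  unfold reverse
  rw [natDegree_map, reflect_map]

theorem odd_poly {k : Type} [Field k] (f : k[X]) (hsep : f.Separable) (hroot : ∀ a, f.eval a ≠ 0) :
    (X * f.reverse).Separable ∧ (X * f.reverse).natDegree = f.natDegree + 1 ∧
      ∀ a, (X * f.reverse).eval a = 0 ↔ a = 0 := by
  have h0 : f.coeff 0 ≠ 0 := by
    rw [coeff_zero_eq_eval_zero]
    exact hroot 0
  have hf : f ≠ 0 := by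
    rintro rfl
    exact h0 (coeff_zero 0)
  have hr : f.reverse ≠ 0 := fun h => hf (reverse_eq_zero.1 h)
  refine ⟨?_, ?_, ?_⟩
  · rw [← separable_map (algebraMap k (AlgebraicClosure k)), PerfectField.separable_iff_squarefree,
      Polynomial.map_mul, map_X, ← f9a_map]
    set F := f.map (algebraMap k (AlgebraicClosure k)) with hF
    have hFs : Squarefree F := by
      rw [← PerfectField.separable_iff_squarefree, hF, separable_map]
      exact hsep
    have hF0 : F.coeff 0 ≠ 0 := by
      rw [hF, coeff_map]
      exact (_root_.map_ne_zero _).2 h0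
    intro u hu
    obtain ⟨v, hv⟩ := hu
    have h1 : F = u.reverse * u.reverse * v.reverse := by
      rw [← reverse_mul_of_domain, ← reverse_mul_of_domain, ← hv, reverse_X_mul, f9a_rr F hF0]
    have h2 : IsUnit u.reverse := hFs u.reverse ⟨v.reverse, h1⟩
    have h3 := natDegree_eq_zero_of_isUnit h2
    have h4 := natDegree_eq_reverse_natDegree_add_natTrailingDegree u
    have hrF : F.reverse ≠ 0 := by
      intro h
      rw [reverse_eq_zero] at h
      rw [h, coeff_zero] at hF0
      exact hF0 rfl
    have hu0 : u ≠ 0 := by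
      rintro rfl
      rw [zero_mul, zero_mul] at hv
      exact (mul_ne_zero X_ne_zero hrF) hv
    have h5 : u.natTrailingDegree = 0 := by
      by_contra hne
      have h6 : u.coeff 0 = 0 := coeff_eq_zero_of_lt_natTrailingDegree (Nat.pos_of_ne_zero hne)
      obtain ⟨w, hw⟩ := X_dvd_iff.2 h6
      have h7 : F.reverse = X * (w * w * v) := by
        apply mul_left_cancel₀ (X_ne_zero (R := AlgebraicClosure k))
        rw [hv, hw]
        ring
      have h8 : F.reverse.coeff 0 = 0 := by
        rw [h7, coeff_X_mul_zero]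
      rw [coeff_zero_reverse, leadingCoeff_eq_zero] at h8
      rw [h8, coeff_zero] at hF0
      exact hF0 rfl
    rw [h3, h5, zero_add] at h4
    exact isUnit_iff_degree_eq_zero.2 (by
      rw [degree_eq_natDegree hu0, h4]
      rfl)
  · rw [natDegree_X_mul hr, f9a_deg f h0]
  · intro a
    rw [eval_mul, eval_X]
    constructor
    · intro h
      rcases mul_eq_zero.1 h with h1 | h1
      · exact h1
      · by_contra ha
        have hinv : Invertible a⁻¹ := invertibleOfNonzero (inv_ne_zero ha)
        have h2 := eval₂_reverse_eq_zero_iff (RingHom.id k) a⁻¹ f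
        have h3 : (⅟(a⁻¹) : k) = a := by
          rw [invOf_eq_inv, inv_inv]
        rw [h3] at h2
        have h4 : eval₂ (RingHom.id k) a f.reverse = 0 := by
          rw [eval₂_id]
          exact h1
        have h5 := h2.1 h4
        rw [eval₂_id] at h5
        exact hroot _ h5
    · rintro rfl
      rw [zero_mul]

end SC8
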