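import Pool.Agent.MP_c1dca2_ag.SC8.S

/-!
# [SC8-F9b] reduction of the case of odd degree

`F = X * f.reverse`, `n = f.natDegree` odd, `f(0) ≠ 0`. `natDegree f.reverse = n` (`reverse_natDegree`, `natTrailingDegree = 0`), `F.natDegree = n + 1`. For `x ≠ 0` in a field `K ⊇ k`: `x ^ n * aeval x⁻¹ f.reverse = aeval x f`
(`eval₂_reverse_mul_pow` or similar), so `aeval x⁻¹ F * x ^ (n + 1) = aeval x f`.
`odd_poly`: roots in `k`: `F(a) = 0` iff `a = 0` or (`a ≠ 0` and `f(a⁻¹) = 0`, impossible). Separable: over an algebraic closure `F` has the `n + 1` different roots `0` and `1/r`, `r` a root of `f` (`r ≠ 0`);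
or: `f.reverse` is separable (if `u² ∣ f.reverse` over ... ; e.g. `Separable` iff no common root of the polynomial and its derivative in an algebraic closure / `nodup_roots` with `card roots = natDegree`), coprime to `X` since
`f.reverse.eval 0 = leadingCoeff f ≠ 0` (`Separable.mul`).
`odd_modTwo`: let `K, x, y` be given for `C c * f`; `x ≠ 0`. Put `x' = x⁻¹` (transcendental), `y' = y x'^((n+1)/2)`: `y'² = y² x'^(n+1) = c f(x) x'^(n+1) = c F(x')`. `adjoin k {x', y'} = ⊤` (`x = x'⁻¹`, `y = y' x^((n+1)/2)`). Apply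
`h` for `C c * F`: for `s` a rational place `P` with `P.IsWeierstrass (C c * F) x'`. `(C c * F).natDegree = n + 1` is even, so there is `w` with `c F(w) = 0`, hence `w = 0`, `x' ∈ P.A.nonunits`, so `x ∉ P.A`
(`x * x' = 1`): `P.IsWeierstrass (C c * f) x` (second case; `(C c * f).natDegree = n` is odd). The rest is unchanged.
-/

set_option autoImplicit false

open Polynomial

namespace SC8

theorem f9b_rev {k : Type} [Field k] (f : k[X]) (hroot : ∀ a, f.eval a ≠ 0) (a : k) :
    f.reverse.eval a ≠ 0 := by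
  have hf : f ≠ 0 := by
    rintro rfl
    exact hroot 0 eval_zero
  intro h1
  by_cases ha : a = 0
  · rw [ha, ← coeff_zero_eq_eval_zero, coeff_zero_reverse, leadingCoeff_eq_zero] at h1
    exact hf h1
  · have hinv : Invertible a⁻¹ := invertibleOfNonzero (inv_ne_zero ha)
    have h2 := eval₂_reverse_eq_zero_iff (RingHom.id k) a⁻¹ f
    have h3 : (⅟(a⁻¹) : k) = a := by
      rw [invOf_eq_inv, inv_inv]
    rw [h3] at h2
    have h4 : eval₂ (RingHom.id k) a f.reverse = 0 := by
      rw [eval₂_id]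
      exact h1
    have h5 := h2.1 h4
    rw [eval₂_id] at h5
    exact hroot _ h5

theorem odd_modTwo {k : Type} [Field k] (f : k[X]) (hodd : Odd f.natDegree)
    (hroot : ∀ a, f.eval a ≠ 0) (c : k) (hc : c ≠ 0)
    (h : SCJ.ModTwo k (C c * (X * f.reverse))) : SCJ.ModTwo k (C c * f) := by
  have h0 : f.coeff 0 ≠ 0 := by
    rw [coeff_zero_eq_eval_zero]
    exact hroot 0
  have hf : f ≠ 0 := by
    rintro rfl
    exact h0 (coeff_zero 0)
  have hr : f.reverse ≠ 0 := fun h => hf (reverse_eq_zero.1 h)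
  have hrd : f.reverse.natDegree = f.natDegree := by
    rw [reverse_natDegree, natTrailingDegree_eq_zero.2 (Or.inr h0), Nat.sub_zero]
  obtain ⟨j, hj⟩ := hodd
  intro K _ _ x y hx hxy htop s
  have hx0 : x ≠ 0 := by
    rintro rfl
    exact hx isAlgebraic_zero
  have hx' : Transcendental k x⁻¹ := by
    intro hal
    apply hx
    have h1 := hal.inv
    rwa [inv_inv] at h1
  have hkey : aeval x⁻¹ f.reverse * x ^ f.natDegree = aeval x f := by
    have hinv : Invertible x := invertibleOfNonzero hx0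
    have h1 := eval₂_reverse_mul_pow (algebraMap k K) x f
    rw [invOf_eq_inv] at h1
    exact h1
  have hy' : (y * x⁻¹ ^ (j + 1)) ^ 2 = aeval x⁻¹ (C c * (X * f.reverse)) := by
    rw [map_mul, map_mul, aeval_X, aeval_C, mul_pow, hxy, map_mul, aeval_C, ← hkey, hj, ← pow_mul]
    have h2 : (j + 1) * 2 = (2 * j + 1) + 1 := by ring
    rw [h2, pow_succ x⁻¹, inv_pow]
    have h3 : x ^ (2 * j + 1) ≠ 0 := pow_ne_zero _ hx0
    field_simp
  have htop' : IntermediateField.adjoin k {x⁻¹, y * x⁻¹ ^ (j + 1)} = ⊤ := by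
    rw [eq_top_iff, ← htop, IntermediateField.adjoin_le_iff]
    have hm1 : x⁻¹ ∈ IntermediateField.adjoin k {x⁻¹, y * x⁻¹ ^ (j + 1)} :=
      IntermediateField.subset_adjoin _ _ (Set.mem_insert _ _)
    have hm2 : y * x⁻¹ ^ (j + 1) ∈ IntermediateField.adjoin k {x⁻¹, y * x⁻¹ ^ (j + 1)} :=
      IntermediateField.subset_adjoin _ _ (Set.mem_insert_of_mem _ (Set.mem_singleton _))
    have hm3 : x ∈ IntermediateField.adjoin k {x⁻¹, y * x⁻¹ ^ (j + 1)} := by
      have h1 := inv_mem hm1
      rwa [inv_inv] at h1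
    intro z hz
    rcases Set.mem_insert_iff.1 hz with rfl | hz
    · exact hm3
    · rw [Set.mem_singleton_iff.1 hz]
      have h1 := mul_mem hm2 (pow_mem hm3 (j + 1))
      rwa [mul_assoc, ← mul_pow, inv_mul_cancel₀ hx0, one_pow, mul_one] at h1
  obtain ⟨P, hW, h1, h2⟩ := h K x⁻¹ (y * x⁻¹ ^ (j + 1)) hx' hy' htop' s
  refine ⟨P, ?_, h1, h2⟩
  rcases hW with ⟨w, hw, hn⟩ | ⟨hodd', -⟩
  · right
    refine ⟨?_, ?_⟩
    · rw [natDegree_C_mul hc]
      exact ⟨j, hj⟩
    · have hw0 : w = 0 := by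
        rw [eval_mul, eval_C, eval_mul, eval_X] at hw
        rcases mul_eq_zero.1 hw with h3 | h3
        · exact absurd h3 hc
        · rcases mul_eq_zero.1 h3 with h4 | h4
          · exact h4
          · exact absurd h4 (f9b_rev f hroot w)
      rw [hw0, map_zero, sub_zero, ValuationSubring.mem_nonunits_iff] at hn
      intro hxA
      have h3 : P.A.valuation x ≤ 1 := (P.A.valuation_le_one_iff x).2 hxA
      have h4 : P.A.valuation x * P.A.valuation x⁻¹ = 1 := by
        rw [← map_mul, mul_inv_cancel₀ hx0, map_one]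
      have h5 : P.A.valuation x * P.A.valuation x⁻¹ < 1 := by
        refine lt_of_le_of_lt (mul_le_mul' h3 le_rfl) ?_
        rw [one_mul]
        exact hn
      exact absurd h4 h5.ne
  · exfalso
    rw [natDegree_C_mul hc, natDegree_X_mul hr, hrd, hj] at hodd'
    obtain ⟨i, hi⟩ := hodd'
    omega

end SC8
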