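import Pool.Agent.MP_c1dca2_ag.SC5.L2
import Pool.Agent.MP_c1dca2_ag.SC5.L3
import Pool.Agent.MP_c1dca2_ag.SEC.M3
import Pool.Agent.MP_c1dca2_ag.SC8.S

/-!
# [SC8] the section half: definitions
-/

set_option autoImplicit false

open Polynomial SEC

noncomputable section

namespace SC8

/-- The compositum `K k^alg`, as a subfield of `K^alg`. -/
abbrev Eg (k K : Type) [Field k] [Field K] [Algebra k K] : IntermediateField K (Om K) :=
  IntermediateField.adjoin K (kb k K : Set (Om K))

/-- `x` as an element of `K^alg`. -/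
abbrev tO {K : Type} [Field K] (x : K) : Om K := algebraMap K (Om K) x

variable {k K : Type} [Field k] [Field K] [Algebra k K]

/-- `K = k(x, y)`, `y² = c f(x)`, `f` separable of even degree `≥ 4` with the root `w ∈ k`. -/
structure Crv (f : k[X]) (c w : k) (x y : K) : Prop where
  sep : f.Separable
  even : Even f.natDegree
  four : 4 ≤ f.natDegree
  root : f.eval w = 0
  cne : c ≠ 0
  tr : Transcendental k x
  eq : y ^ 2 = algebraMap k K c * aeval x f
  gen : IntermediateField.adjoin k {x, y} = ⊤

/-- The roots of `f` different from `w`. -/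
abbrev Rt (k K : Type) [Field k] [Field K] [Algebra k K] (f : k[X]) (w : k) : Type :=
  {a : kb k K // aeval a f = 0 ∧ a ≠ algebraMap k (kb k K) w}

instance rtAct (k K : Type) [Field k] [Field K] [Algebra k K] (f : k[X]) (w : k) :
    MulAction (kb k K ≃ₐ[k] kb k K) (Rt k K f w) where
  smul σ a := ⟨σ a.1, by rw [aeval_algHom_apply, a.2.1, map_zero], fun h => a.2.2 (σ.injective
    (h.trans (σ.commutes w).symm))⟩
  one_smul _ := Subtype.ext rfl
  mul_smul _ _ _ := Subtype.ext rfl

theorem rt_smul (f : k[X]) (w : k) (σ : kb k K ≃ₐ[k] kb k K) (a : Rt k K f w) :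
    (σ • a).1 = σ a.1 := rfl

theorem rt_finite {f : k[X]} (hf : f ≠ 0) (w : k) : Finite (Rt k K f w) := by
  classical
  refine Set.Finite.to_subtype (s := {a : kb k K | aeval a f = 0 ∧ a ≠ algebraMap k (kb k K) w}) ?_
  refine (f.aroots (kb k K)).toFinset.finite_toSet.subset ?_
  rintro a ⟨ha, -⟩
  rw [Finset.mem_coe, Multiset.mem_toFinset, mem_aroots]
  exact ⟨hf, ha⟩

end SC8
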