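import Pool.Agent.MP_c1dca2_ag.SEC.G
import Pool.Agent.MP_c1dca2_ag.SC5.H0
import Pool.Agent.MP_c1dca2_ag.SC8.E0
import Pool.Agent.MP_c1dca2_ag.SC8.F1
import Pool.Agent.MP_c1dca2_ag.SC8.F2
import Pool.Agent.MP_c1dca2_ag.SC8.F6
import Pool.Agent.MP_c1dca2_ag.SC8.F7c
import Pool.Agent.MP_c1dca2_ag.SC8.F8

/-!
# [SC8-G1] a section which is not congruent to the section of the rational Weierstrass point has
a nontrivial class
-/

set_option autoImplicit false

open Polynomial SEC SC5

noncomputable section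

namespace SC8

/-- the section in terms of the definitions used in the statement -/
def sNew {k K : Type} [Field k] [Field K] [Algebra k K] (s : SEC.Sect k K) : SCJ.Sect k K where
  toHom := s.toHom
  cont := s.cont
  split := fun τ a z hz => by
    have h1 : (a.incl k K : Om K) ∈ Mnr k K := kb_le _ (show kb k K from a).2
    have h2 : z = (⟨a.incl k K, h1⟩ : Mnr k K) := Subtype.ext hz
    rw [h2]
    exact s.split τ a h1

/-- the rational point in terms of the definitions used in the statement -/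
def pNew {k K : Type} [Field k] [Field K] [Algebra k K] (P : SEC.RatPlace k K) :
    SCJ.RatPlace k K where
  A := P.A
  alg := P.alg
  ne_top := P.ne_top
  rat := P.rat

theorem exists_class {k : Type} [Field k] [CharZero k] (f : k[X]) (hsep : f.Separable)
    (heven : Even f.natDegree) (h4 : 4 ≤ f.natDegree) (w : k) (hw : f.eval w = 0) (c : k)
    (hc : c ≠ 0) (hbad : ¬ SCJ.ModTwo k (C c * f)) :
    ∃ D : Dat k (AlgebraicClosure k) f c, ∃ a a' : AlgebraicClosure k, aeval a f = 0 ∧
      aeval a' f = 0 ∧ a ≠ a' ∧ a ≠ algebraMap k (AlgebraicClosure k) w ∧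
      a' ≠ algebraMap k (AlgebraicClosure k) w ∧ ¬ ∃ t ∈ FF k a a',
        D.δ a a' * ((algebraMap k (AlgebraicClosure k) w - a) *
          (algebraMap k (AlgebraicClosure k) w - a')) = t ^ 2 := by
  unfold SCJ.ModTwo at hbad
  push Not at hbad
  obtain ⟨K, _, _, x, y, hx, hxy, hgen, s, hs⟩ := hbad
  have hxy' : y ^ 2 = algebraMap k K c * aeval x f := by
    rw [hxy, map_mul, aeval_C]
  have hC : Crv f c w x y := ⟨hsep, heven, h4, hw, hc, hx, hxy', hgen⟩
  obtain ⟨P, hP⟩ := exists_ratPlace hC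
  obtain ⟨t₀, ht₀⟩ := exists_comesFrom P
  obtain ⟨t, ht, hts⟩ := hs (pNew P) (Or.inl ⟨w, by rw [eval_mul, hw, mul_zero], hP⟩)
    ⟨sNew t₀, ht₀⟩
  obtain ⟨D₀, hD₀⟩ := dat_of_sect8 f hsep heven h4 c hc x y hx hxy' s.toOld
  have hcl : IsAlgClosure k (kb k K) := algebraicClosure.isAlgClosure k (Om K)
  let e : kb k K ≃ₐ[k] AlgebraicClosure k := IsAlgClosure.equiv k _ _
  obtain ⟨D, hD⟩ := dat_transport8 e f c D₀
  refine ⟨D, ?_⟩
  by_contra hcon
  push Not at hcon
  apply hts
  have hst : ∀ a b : kb k K, aeval a f = 0 → aeval b f = 0 → a ≠ b →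
      a ≠ algebraMap k (kb k K) w → b ≠ algebraMap k (kb k K) w → ∀ W : Mnr k K, SqQ x a b W →
        ∀ σ : kb k K ≃ₐ[k] kb k K, σ a = a → σ b = b →
          s.toOld.toHom σ W = t.toOld.toHom σ W := by
    intro a b ha hb hab haw hbw W hW σ hσa hσb
    have hroot : ∀ a : kb k K, aeval a f = 0 → aeval (e a) f = 0 := by
      intro a ha
      have h1 : aeval (e a) f = e (aeval a f) := aeval_algHom_apply e.toAlgHom a f
      rw [h1, ha, map_zero]
    have hne : ∀ a : kb k K, a ≠ algebraMap k (kb k K) w →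
        e a ≠ algebraMap k (AlgebraicClosure k) w := by
      intro a ha h
      apply ha
      apply e.injective
      rw [h, e.commutes]
    obtain ⟨T, hT, hTe⟩ := hcon (e a) (e b) (hroot a ha) (hroot b hb)
      (fun h => hab (e.injective h)) (hne a haw) (hne b hbw)
    rw [hD, e.symm_apply_apply, e.symm_apply_apply] at hTe
    -- square roots
    have hac : IsAlgClosed (kb k K) := SC2.kb_isAlgClosed
    obtain ⟨z, hz⟩ := IsAlgClosed.exists_pow_nat_eq (D₀.δ a b) (n := 2) (by norm_num)
    obtain ⟨γ, hγ⟩ := IsAlgClosed.exists_pow_nat_eq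
      ((algebraMap k (kb k K) w - a) * (algebraMap k (kb k K) w - b)) (n := 2) (by norm_num)
    have h1 := hD₀ a b ha hb hab W hW z hz σ hσa hσb
    have h2 := comes_sign x hx w P hP t.toOld ht a b haw hbw W hW γ hγ σ hσa hσb
    -- `z γ` is fixed by `σ`
    have h3 : (z * γ) ^ 2 = (e.symm T) ^ 2 := by
      have h4 : e ((z * γ) ^ 2) = T ^ 2 := by
        rw [mul_pow, hz, hγ, map_mul, ← hTe]
        congr 1
        rw [map_mul, map_sub, map_sub, e.commutes]
      rw [← map_pow, ← h4, e.symm_apply_apply]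
    have h5 : σ (e.symm T) = e.symm T := by
      let σ' : AlgebraicClosure k ≃ₐ[k] AlgebraicClosure k := (e.symm.trans σ).trans e
      have h6 : ∀ u, σ' u = e (σ (e.symm u)) := fun _ => rfl
      have h7 : σ' T = T := FF_fix (e a) (e b) T hT σ'
        (by rw [h6, e.symm_apply_apply, hσa]) (by rw [h6, e.symm_apply_apply, hσb])
      rw [h6] at h7
      have h8 := congrArg e.symm h7
      rwa [e.symm_apply_apply] at h8
    have h8 : σ (z * γ) = z * γ := by
      rcases sq_eq_sq_iff_eq_or_eq_neg.1 h3 with h | h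
      · rw [h, h5]
      · rw [h, map_neg, h5]
    have hz0 : z ≠ 0 := by
      intro h
      apply D₀.ne a b ha hb hab
      rw [← hz, h]
      simp
    have hγ0 : γ ≠ 0 := by
      intro h
      rw [h] at hγ
      rcases mul_eq_zero.1 (by rw [← hγ]; simp : (algebraMap k (kb k K) w - a) *
        (algebraMap k (kb k K) w - b) = 0) with h' | h'
      · exact haw (sub_eq_zero.1 h').symm
      · exact hbw (sub_eq_zero.1 h').symm
    have hW0 : (W : Om K) ≠ 0 := by
      intro h
      exact sqq_ne x hx a b W hW (Subtype.ext h)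
    apply Subtype.ext
    rw [map_mul] at h8
    have h9 : ((σ z : kb k K) : Om K) * ((σ γ : kb k K) : Om K) = (z : Om K) * (γ : Om K) := by
      exact_mod_cast congrArg (fun u : kb k K => (u : Om K)) h8
    have hz0' : (z : Om K) ≠ 0 := by exact_mod_cast hz0
    have hγ0' : (γ : Om K) ≠ 0 := by exact_mod_cast hγ0
    -- `s σ W * z * (t σ W) * γ = W² z γ`
    have h10 : (s.toOld.toHom σ W : Om K) * (t.toOld.toHom σ W : Om K) = (W : Om K) ^ 2 := by
      apply mul_right_cancel₀ (mul_ne_zero hz0' hγ0')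
      linear_combination (t.toOld.toHom σ W : Om K) * (γ : Om K) * h1 +
        (W : Om K) * ((σ z : kb k K) : Om K) * h2 + (W : Om K) ^ 2 * h9
    have hsq : (t.toOld.toHom σ W : Om K) ^ 2 = (W : Om K) ^ 2 := by
      have hWσ : SqQ x a b (t.toOld.toHom σ W) := by
        have h := sqq_act x t.toOld σ a b W hW
        rwa [hσa, hσb] at h
      rcases sqq_sign x hx a b W _ hW hWσ with h | h
      · rw [h]
      · rw [h]
        push_cast
        ring
    have ht0 : (t.toOld.toHom σ W : Om K) ≠ 0 := by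
      intro h
      rw [h] at hsq
      exact hW0 (pow_eq_zero_iff (two_ne_zero) |>.1 (by rw [← hsq]; simp))
    apply mul_right_cancel₀ ht0
    rw [h10, ← hsq]
    ring
  obtain ⟨γ, hγ1, hγ2⟩ := eqMod2_of hC s.toOld t.toOld hst
  exact ⟨γ, hγ1, hγ2⟩

end SC8
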