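import Pool.Agent.MP_c1dca2_ag.SC5.H8
import Pool.Agent.MP_c1dca2_ag.SC8.H7

/-!
# [SC8-H8] the class `δ(a, b) τ(Π_i) τ'(Π_j)` is even (copy of SC5/H8)
-/

set_option autoImplicit false

open NumberField IsDedekindDomain Polynomial SC2 SC3 SC5

namespace SC8

variable {k C : Type} [Field k] [NumberField k] [Field C] [Algebra k C] [IsAlgClosed C]
  [IsGalois k C] {I : Type} [Fintype I] {L : I → Type} [∀ i, Field (L i)]
  [∀ i, NumberField (L i)] [∀ i, Algebra k (L i)]

theorem kap_even8 {f : k[X]} {θ : ∀ i, L i} (hR : RF k L f θ) (hf : f ≠ 0)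
    {S : Finset (Pr k)} {al : ∀ i, Pr (L i) → 𝓞 (L i)} {Cg : ℕ} (hS : GS8 k C f S al Cg)
    (c : 𝓞 k) (D : Dat k C f (c : k)) (P : Finset (PL L)) (hP : Conf θ S D P)
    {i j : I} (τ : L i →ₐ[k] C) (τ' : L j →ₐ[k] C) (hne : τ (θ i) ≠ τ' (θ j)) :
    ∃ d : FF k (τ (θ i)) (τ' (θ j)), (d : C) = D.δ (τ (θ i)) (τ' (θ j)) *
        τ (PP al P i : L i) * τ' (PP al P j : L j) ∧ d ≠ 0 ∧
      ∀ u : Pr (FF k (τ (θ i)) (τ' (θ j))), bl k u ∉ S → Ev u d := by
  obtain ⟨a, hadef⟩ : ∃ a, a = τ (θ i) := ⟨_, rfl⟩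
  obtain ⟨b, hbdef⟩ : ∃ b, b = τ' (θ j) := ⟨_, rfl⟩
  rw [← hadef, ← hbdef] at hne
  rw [← hadef, ← hbdef]
  have ha : aeval a f = 0 := by rw [hadef]; exact emb_root hR i τ
  have hb : aeval b f = 0 := by rw [hbdef]; exact emb_root hR j τ'
  obtain ⟨τF, hτF⟩ := emb_FF hR i τ a b (Or.inl hadef.symm)
  obtain ⟨τF', hτF'⟩ := emb_FF hR j τ' a b (Or.inr hbdef.symm)
  have hδm : D.δ a b ∈ FF k a b :=
    FF_mem _ _ _ fun σ h1 h2 => D.fix _ _ ha hb hne σ h1 h2
  have hδ0 := D.ne _ _ ha hb hne
  have hal := hS.fam.gen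
  set δF : FF k a b := ⟨D.δ a b, hδm⟩ with hδF
  have hδF0 : δF ≠ 0 := fun h => hδ0 (congrArg Subtype.val h)
  refine ⟨δF * τF (PP al P i : L i) * τF' (PP al P j : L j), ?_, ?_, ?_⟩
  · show D.δ a b * (τF (PP al P i : L i) : C) * (τF' (PP al P j : L j) : C) = _
    rw [hτF, hτF']
  · refine mul_ne_zero (mul_ne_zero hδF0 ?_) ?_
    · rw [Ne, map_eq_zero]
      have := PP_ne hal P i
      exact_mod_cast this
    · rw [Ne, map_eq_zero]
      have := PP_ne hal P j
      exact_mod_cast this
  · intro u hu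
    obtain ⟨V, hVu⟩ := above_val (FF k a b) u
    obtain ⟨A, hA⟩ := exists_isVal (bl k u)
    have hV : Above A V := lies_above hVu hA
    have hgood := hS.good _ hu A hA
    obtain ⟨h2, -, -, hin⟩ := root_facts hgood hV
    obtain ⟨w, hw, hwb⟩ := lies_exists hA hV τ
    obtain ⟨w', hw', hwb'⟩ := lies_exists hA hV τ'
    have e1 : ∀ y, Ev u (τF y) ↔ Ev w y := by
      refine hS.evF a b ha hb i τF u hu w fun x => ?_
      rw [← hw x, ← hτF x]
      exact hVu (τF x)
    have e2 : ∀ y, Ev u (τF' y) ↔ Ev w' y := by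
      refine hS.evF a b ha hb j τF' u hu w' fun x => ?_
      rw [← hw' x, ← hτF' x]
      exact hVu (τF' x)
    have p1 : Ev u (τF (PP al P i : L i)) ↔ (⟨i, w⟩ : PL L) ∉ P := by
      rw [e1]
      exact ev_PP hal P i w (hS.fam.large i w (by rw [hwb]; exact hu))
    have p2 : Ev u (τF' (PP al P j : L j)) ↔ (⟨j, w'⟩ : PL L) ∉ P := by
      rw [e2]
      exact ev_PP hal P j w' (hS.fam.large j w' (by rw [hwb']; exact hu))
    obtain ⟨z, hz⟩ := IsAlgClosed.exists_pow_nat_eq (D.δ a b) (n := 2) (by norm_num)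
    have hzF : z ^ 2 = ((δF : FF k a b) : C) := hz
    by_cases hT : bl k u ∈ TT S (c : k)
    · have hn : ¬ EvA A (c : k) := fun h => hT.2 ((hA.ev _).1 h)
      have m1 := hP.mem _ hT A hA V hV i τ w hw
      have m2 := hP.mem _ hT A hA V hV j τ' w' hw'
      have hodd : (D.ρ V = a ∨ D.ρ V = b) → ¬ Ev u δF := by
        intro hor hev
        obtain ⟨σ, hσ, hσz⟩ := D.odd A V hgood hV a b ha hb hne hn hor z hz
        have h3 : σ z = z := fix_of_ev (FF k a b) hVu h2 δF z hzF hev σ hσ fun x =>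
          FF_fix a b (x : C) x.2 σ (hin σ hσ a ha) (hin σ hσ b hb)
        rw [hσz] at h3
        have h4 : (2 : C) * z = 0 := by linear_combination -h3
        have h5 : (2 : C) ≠ 0 := by
          intro h6
          rw [h6, map_zero] at h2
          exact zero_ne_one h2
        have h6 : z = 0 := (mul_eq_zero.1 h4).resolve_left h5
        apply hδ0
        rw [← hz, h6]
        simp
      by_cases h1 : D.ρ V = a
      · have h3 : D.ρ V ≠ b := fun h => hne (h1.symm.trans h)
        have q1 : ¬ Ev u (τF (PP al P i : L i)) := by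
          rw [p1, not_not, m1, ← hadef]
          exact h1.symm
        have q2 : Ev u (τF' (PP al P j : L j)) := by
          rw [p2, m2, ← hbdef]
          exact fun h => h3 h.symm
        exact (ev_of_not (hodd (Or.inl h1)) q1).mul q2
      · by_cases h3 : D.ρ V = b
        · have q1 : Ev u (τF (PP al P i : L i)) := by
            rw [p1, m1, ← hadef]
            exact fun h => h1 h.symm
          have q2 : ¬ Ev u (τF' (PP al P j : L j)) := by
            rw [p2, not_not, m2, ← hbdef]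
            exact h3.symm
          have h4 := (ev_of_not (hodd (Or.inr h3)) q2).mul q1
          rwa [mul_right_comm] at h4
        · have q0 : Ev u δF := ev_of_fix (FF k a b) hVu h2 δF z hzF fun σ hσ =>
            D.even A V hgood hV a b ha hb hne (fun _ => ⟨h1, h3⟩) z hz σ hσ
          have q1 : Ev u (τF (PP al P i : L i)) := by
            rw [p1, m1, ← hadef]
            exact fun h => h1 h.symm
          have q2 : Ev u (τF' (PP al P j : L j)) := by
            rw [p2, m2, ← hbdef]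
            exact fun h => h3 h.symm
          exact (q0.mul q1).mul q2
    · have hc : EvA A (c : k) := by
        rw [hA.ev]
        by_contra h
        exact hT ⟨hu, h⟩
      have q0 : Ev u δF := ev_of_fix (FF k a b) hVu h2 δF z hzF fun σ hσ =>
        D.even A V hgood hV a b ha hb hne (fun h => absurd hc h) z hz σ hσ
      have q1 : Ev u (τF (PP al P i : L i)) := by
        rw [p1]
        intro h
        apply hT
        rw [hP.tt]
        exact ⟨_, h, hwb⟩
      have q2 : Ev u (τF' (PP al P j : L j)) := by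
        rw [p2]
        intro h
        apply hT
        rw [hP.tt]
        exact ⟨_, h, hwb'⟩
      exact (q0.mul q1).mul q2

end SC8
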