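import Pool.Agent.MP_c1dca2_ag.SC5.J1
import Pool.Agent.MP_c1dca2_ag.SC8.H8

/-!
# [SC8-J1] the relation, key step (copy of SC5/J1)
-/

set_option autoImplicit false

open NumberField IsDedekindDomain Polynomial SC2 SC3 SC5

namespace SC8

variable {k C : Type} [Field k] [NumberField k] [Field C] [Algebra k C] [IsAlgClosed C]
  [IsGalois k C] {I : Type} [Fintype I] {L : I → Type} [∀ i, Field (L i)]
  [∀ i, NumberField (L i)] [∀ i, Algebra k (L i)]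

theorem rel_key8 {f : k[X]} {θ : ∀ i, L i} (hR : RF k L f θ) (hf : f ≠ 0)
    {S : Finset (Pr k)} {al : ∀ i, Pr (L i) → 𝓞 (L i)} {Cg : ℕ} (hS : GS8 k C f S al Cg)
    (c : 𝓞 k) (D : Dat k C f (c : k)) (P : Finset (PL L)) (hP : Conf θ S D P)
    (o q q' : PL L) (ho : o ∈ P) (hq : bl k q.2 = bl k o.2) (hq' : bl k q'.2 = bl k o.2)
    (hqo : q ≠ o) (hqo' : q' ≠ o) (hqq : q ≠ q') (V : ValuationSubring C)
    (τ : L o.1 →ₐ[k] C) (τ₁ : L q.1 →ₐ[k] C) (τ₂ : L q'.1 →ₐ[k] C) (h : Lies τ V o.2)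
    (h₁ : Lies τ₁ V q.2) (h₂ : Lies τ₂ V q'.2) (φ : C ≃ₐ[k] C)
    (hφ : Frob (nv (bl k o.2)) V φ) (e t z γ : C) (he : e ≠ 0)
    (ht : t ∈ FF k (τ₁ (θ q.1)) (τ₂ (θ q'.1)))
    (het : D.δ (τ₁ (θ q.1)) (τ₂ (θ q'.1)) * τ₁ (PP al P q.1 : L q.1) *
      τ₂ (PP al P q'.1 : L q'.1) * e = t ^ 2)
    (hz : z ^ 2 = e) (hγ : γ ^ 2 = (τ (θ o.1) - τ₁ (θ q.1)) * (τ (θ o.1) - τ₂ (θ q'.1))) :
    (φ ^ (Nat.lcm (dg k q.2) (dg k q'.2))) (z * γ) =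
      (((sgn al P q ^ (Nat.lcm (dg k q.2) (dg k q'.2) / dg k q.2) *
        sgn al P q' ^ (Nat.lcm (dg k q.2) (dg k q'.2) / dg k q'.2) : ℤˣ) : ℤ) : C) *
        (z * γ) := by
  obtain ⟨i₁, w₁⟩ := q
  obtain ⟨i₂, w₂⟩ := q'
  simp only at hq hq' τ₁ τ₂ h₁ h₂ ht het hγ ⊢
  obtain ⟨A, hA⟩ := exists_isVal (bl k o.2)
  have hV : Above A V := lies_above h hA
  have hvS : bl k o.2 ∉ S := hP.cfg.out o ho
  have hgood := hS.good _ hvS A hA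
  have hvT : bl k o.2 ∈ TT S (c : k) := by
    rw [hP.tt]
    exact ⟨o, ho, rfl⟩
  have hn : ¬ EvA A (c : k) := fun h => hvT.2 ((hA.ev _).1 h)
  have hρ : τ (θ o.1) = D.ρ V := (hP.mem _ hvT A hA V hV o.1 τ o.2 h).1 ho
  have hqP : (⟨i₁, w₁⟩ : PL L) ∉ P := fun hm => hqo (hP.cfg.inj _ hm o ho hq)
  have hqP' : (⟨i₂, w₂⟩ : PL L) ∉ P := fun hm => hqo' (hP.cfg.inj _ hm o ho hq')
  have hρa : D.ρ V ≠ τ₁ (θ i₁) := fun hm => hqP ((hP.mem _ hvT A hA V hV i₁ τ₁ w₁ h₁).2 hm.symm)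
  have hρb : D.ρ V ≠ τ₂ (θ i₂) := fun hm => hqP' ((hP.mem _ hvT A hA V hV i₂ τ₂ w₂ h₂).2 hm.symm)
  have ha := emb_root hR i₁ τ₁
  have hb := emb_root hR i₂ τ₂
  have hab : τ₁ (θ i₁) ≠ τ₂ (θ i₂) := by
    intro hm
    obtain ⟨h3, h4⟩ := Sigma.mk.inj_iff.1 (emb_inj hR hf _ _ hm)
    subst h3
    have h5 : τ₁ = τ₂ := eq_of_heq h4
    subst h5
    exact hqq (by rw [lies_unique h₁ h₂])
  have hal := hS.fam.gen
  set m := Nat.lcm (dg k w₁) (dg k w₂) with hm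
  have hm0 : 0 < m := Nat.lcm_pos (dg_pos w₁) (dg_pos w₂)
  have hφ₁ : Frob (nv (bl k w₁)) V φ := by rw [hq]; exact hφ
  have hφ₂ : Frob (nv (bl k w₂)) V φ := by rw [hq']; exact hφ
  have hA₁ : IsVal (bl k w₁) A := by rw [hq]; exact hA
  have hA₂ : IsVal (bl k w₂) A := by rw [hq']; exact hA
  have fix₁ : ∀ x, (φ ^ m) (τ₁ x) = τ₁ x := fun x =>
    frob_fix hgood hA₁ h₁ (θ i₁) (hR.root i₁) (hR.gen i₁) φ hφ₁ m (Nat.dvd_lcm_left _ _) x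
  have fix₂ : ∀ x, (φ ^ m) (τ₂ x) = τ₂ x := fun x =>
    frob_fix hgood hA₂ h₂ (θ i₂) (hR.root i₂) (hR.gen i₂) φ hφ₂ m (Nat.dvd_lcm_right _ _) x
  have hstab : ∀ z, (φ ^ m) z ∈ V ↔ z ∈ V := (frob_pow hφ m).stab
  -- primes of odd residue characteristic
  have two₁ : (2 : 𝓞 (L i₁)) ∉ w₁.asIdeal := by
    intro h3
    apply hS.fam.two (bl k w₁) (by rw [hq]; exact hvS)
    rw [mem_bl, map_ofNat]
    exact h3
  have two₂ : (2 : 𝓞 (L i₂)) ∉ w₂.asIdeal := by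
    intro h3
    apply hS.fam.two (bl k w₂) (by rw [hq']; exact hvS)
    rw [mem_bl, map_ofNat]
    exact h3
  have lar₁ : Cg < nv w₁ := hS.fam.large i₁ w₁ (by rw [hq]; exact hvS)
  have lar₂ : Cg < nv w₂ := hS.fam.large i₂ w₂ (by rw [hq']; exact hvS)
  -- square roots
  obtain ⟨zδ, hzδ⟩ := IsAlgClosed.exists_pow_nat_eq (D.δ (τ₁ (θ i₁)) (τ₂ (θ i₂))) (n := 2) (by norm_num)
  obtain ⟨z₁, hz₁⟩ := IsAlgClosed.exists_pow_nat_eq (τ₁ (PP al P i₁ : L i₁)) (n := 2) (by norm_num)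
  obtain ⟨z₂, hz₂⟩ := IsAlgClosed.exists_pow_nat_eq (τ₂ (PP al P i₂ : L i₂)) (n := 2) (by norm_num)
  have hγ' : γ ^ 2 = (D.ρ V - τ₁ (θ i₁)) * (D.ρ V - τ₂ (θ i₂)) := by rw [← hρ]; exact hγ
  have s0 : (φ ^ m) zδ * γ = zδ * (φ ^ m) γ :=
    D.sgn A V hgood hV _ _ ha hb hab hn hρa hρb (φ ^ m) hstab (fix₁ _) (fix₂ _) zδ γ hzδ hγ'
  have s1 := frob_sign h₁ two₁ φ hφ₁ m (Nat.dvd_lcm_left _ _) hm0 fix₁ (PP al P i₁)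
    (PP_notin hal P i₁ w₁ lar₁ hqP) z₁ hz₁
  have s2 := frob_sign h₂ two₂ φ hφ₂ m (Nat.dvd_lcm_right _ _) hm0 fix₂ (PP al P i₂)
    (PP_notin hal P i₂ w₂ lar₂ hqP') z₂ hz₂
  rw [← sg_PP hal P i₁ w₁ lar₁ two₁ hqP] at s1
  rw [← sg_PP hal P i₂ w₂ lar₂ two₂ hqP'] at s2
  -- nonzero
  have hδ0 : zδ ≠ 0 := by
    intro h3
    apply D.ne _ _ ha hb hab
    rw [← hzδ, h3]
    simp
  have hz₁0 : z₁ ≠ 0 := by
    intro h3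
    have h4 : τ₁ (PP al P i₁ : L i₁) = 0 := by rw [← hz₁, h3]; simp
    rw [map_eq_zero] at h4
    exact PP_ne hal P i₁ (by exact_mod_cast h4)
  have hz₂0 : z₂ ≠ 0 := by
    intro h3
    have h4 : τ₂ (PP al P i₂ : L i₂) = 0 := by rw [← hz₂, h3]; simp
    rw [map_eq_zero] at h4
    exact PP_ne hal P i₂ (by exact_mod_cast h4)
  have hψδ0 : (φ ^ m) zδ ≠ 0 := (_root_.map_ne_zero _).2 hδ0
  -- the product
  have hprod : (zδ * z₁ * z₂ * z) ^ 2 = t ^ 2 := by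
    rw [← het, ← hz, ← hzδ, ← hz₁, ← hz₂]
    ring
  have hψt : (φ ^ m) t = t := FF_fix _ _ t ht (φ ^ m) (fix₁ _) (fix₂ _)
  have hψ : (φ ^ m) (zδ * z₁ * z₂ * z) = zδ * z₁ * z₂ * z := by
    rcases sq_eq_sq_iff_eq_or_eq_neg.1 hprod with h3 | h3
    · rw [h3, hψt]
    · rw [h3, map_neg, hψt]
  rw [map_mul, map_mul, map_mul, s1, s2] at hψ
  rw [Units.val_mul, Int.cast_mul]
  set s₁ : C := (((sgn al P ⟨i₁, w₁⟩ ^ (m / dg k w₁) : ℤˣ) : ℤ) : C) with hs₁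
  set s₂ : C := (((sgn al P ⟨i₂, w₂⟩ ^ (m / dg k w₂) : ℤˣ) : ℤ) : C) with hs₂
  have hu : ∀ u : ℤˣ, (((u : ℤ) : C)) ^ 2 = 1 := by
    intro u
    rcases Int.units_eq_one_or u with h3 | h3 <;> rw [h3] <;> simp
  have hs₁2 : s₁ ^ 2 = 1 := hu _
  have hs₂2 : s₂ ^ 2 = 1 := hu _
  have h3 : (φ ^ m) zδ * (s₁ * s₂) * (φ ^ m) z = zδ * z := by
    apply mul_left_cancel₀ (mul_ne_zero hz₁0 hz₂0)
    linear_combination hψ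
  rw [map_mul]
  apply mul_left_cancel₀ (mul_ne_zero hδ0 hψδ0)
  have h4 : (s₁ * s₂) ^ 2 = 1 := by rw [mul_pow, hs₁2, hs₂2, one_mul]
  linear_combination (-(φ ^ m) zδ * (φ ^ m) z) * s0 + (φ ^ m) zδ * γ * (s₁ * s₂) * h3 -
    (φ ^ m) zδ ^ 2 * (φ ^ m) z * γ * h4

end SC8
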