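import Pool.Agent.MP_c1dca2_ag.SC5.J2
import Pool.Agent.MP_c1dca2_ag.SC8.J1

/-!
# [SC8-J2] the interface, for a given large set `S` (copy of SC5/J2)
-/

set_option autoImplicit false

open NumberField IsDedekindDomain Polynomial SC2 SC3 SC5

namespace SC8

section

variable {k C : Type} [Field k] [NumberField k] [Field C] [Algebra k C] [IsAlgClosed C]
  [IsGalois k C] {I : Type} [Fintype I] {L : I → Type} [∀ i, Field (L i)]
  [∀ i, NumberField (L i)] [∀ i, Algebra k (L i)]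

theorem j2_claim8 {f : k[X]} {θ : ∀ i, L i} (hR : RF k L f θ) (hf : f ≠ 0)
    {S : Finset (Pr k)} {al : ∀ i, Pr (L i) → 𝓞 (L i)} {Cg : ℕ} (hS : GS8 k C f S al Cg)
    (c : 𝓞 k) (D : Dat k C f (c : k)) (P : Finset (PL L)) (hP : Conf θ S D P)
    (U : C → C → Finset C) (hU : ∀ a b, (∀ e ∈ U a b, e ≠ 0 ∧ e ∈ FF k a b) ∧
      ∀ d : FF k a b, d ≠ 0 → (∀ u : Pr (FF k a b), bl k u ∉ S → Ev u d) →
        ∃ e ∈ U a b, ∃ t ∈ FF k a b, (d : C) * e = t ^ 2)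
    (a b : C) (ha : aeval a f = 0) (hb : aeval b f = 0) (hab : a ≠ b) :
    ∃ e ∈ U a b, ∀ (i j : I) (τ : L i →ₐ[k] C) (τ' : L j →ₐ[k] C), τ (θ i) = a → τ' (θ j) = b →
      ∃ t ∈ FF k a b, D.δ a b * τ (PP al P i : L i) * τ' (PP al P j : L j) * e = t ^ 2 := by
  obtain ⟨i, τ, rfl⟩ := emb_surj hR hf a ha
  obtain ⟨j, τ', rfl⟩ := emb_surj hR hf b hb
  obtain ⟨d, hd, hd0, hev⟩ := kap_even8 hR hf hS c D P hP τ τ' hab
  obtain ⟨e, heU, t, ht, hdt⟩ := (hU _ _).2 d hd0 hev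
  refine ⟨e, heU, fun i₁ j₁ τ₁ τ₁' h1 h2 => ⟨t, ht, ?_⟩⟩
  obtain ⟨h3, h4⟩ := Sigma.mk.inj_iff.1 (emb_inj hR hf τ₁ τ h1)
  obtain ⟨h5, h6⟩ := Sigma.mk.inj_iff.1 (emb_inj hR hf τ₁' τ' h2)
  subst h3
  subst h5
  have h7 : τ₁ = τ := eq_of_heq h4
  have h8 : τ₁' = τ' := eq_of_heq h6
  rw [h7, h8, ← hdt, hd]

end

theorem interface8 {k C : Type} [Field k] [NumberField k] [Field C] [Algebra k C]
    [IsAlgClosed C] [IsGalois k C] {I : Type} [Fintype I] {L : I → Type} [∀ i, Field (L i)]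
    [∀ i, NumberField (L i)] [∀ i, Algebra k (L i)] {f : k[X]} {θ : ∀ i, L i}
    (hR : RF k L f θ) (hf : f ≠ 0) {S : Finset (Pr k)} {al : ∀ i, Pr (L i) → 𝓞 (L i)} {Cg : ℕ}
    (hS : GS8 k C f S al Cg) :
    ∃ (κ : Type) (_ : Finite κ) (E : κ → PL L → PL L → PL L → ℤˣ), ∀ c : 𝓞 k, c ≠ 0 →
      ∀ D : Dat k C f (c : k), ∃ (x : κ) (P : Finset (PL L)), Conf θ S D P ∧
        Cf8 S al (E x) (c : k) P := by
  classical
  have hC0 : CharZero C := charZero_of_injective_algebraMap (algebraMap k C).injective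
  obtain ⟨U, hU⟩ := sel (k := k) (C := C) S
  set R : Finset C := (f.aroots C).toFinset with hRd
  have hRm : ∀ a, a ∈ R ↔ aeval a f = 0 := by
    intro a
    rw [hRd, Multiset.mem_toFinset, mem_aroots]
    exact ⟨fun h => h.2, fun h => ⟨hf, h⟩⟩
  refine ⟨(p : ↥(R ×ˢ R)) → ↥(insert 1 (U p.1.1 p.1.2)), inferInstance,
    fun x o => EE (k := k) θ (j2u R U x) o, ?_⟩
  intro c hc D
  obtain ⟨P, hP⟩ := conf_exists8 hR hf hS c hc D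
  have key := fun a b ha hb hab => j2_claim8 hR hf hS c D P hP U hU a b ha hb hab
  choose e heU het using key
  have hx0 : ∀ (p : ↥(R ×ˢ R)), ∃ y : ↥(insert 1 (U p.1.1 p.1.2)), ∀ (ha : aeval p.1.1 f = 0)
      (hb : aeval p.1.2 f = 0) (hab : p.1.1 ≠ p.1.2), (y : C) = e p.1.1 p.1.2 ha hb hab := by
    intro p
    by_cases hab : p.1.1 ≠ p.1.2
    · have hp := Finset.mem_product.1 p.2
      exact ⟨⟨e p.1.1 p.1.2 ((hRm _).1 hp.1) ((hRm _).1 hp.2) hab,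
        Finset.mem_insert_of_mem (heU _ _ _ _ _)⟩, fun _ _ _ => rfl⟩
    · exact ⟨⟨1, Finset.mem_insert_self _ _⟩, fun _ _ h => absurd h hab⟩
  choose x hx using hx0
  refine ⟨x, P, hP, hP.cfg, hP.tt, fun o ho => ?_⟩
  have hux : ∀ (a b : C) (ha : aeval a f = 0) (hb : aeval b f = 0) (hab : a ≠ b),
      j2u R U x a b = e a b ha hb hab := by
    intro a b ha hb hab
    have hm : (a, b) ∈ R ×ˢ R := Finset.mem_product.2 ⟨(hRm a).2 ha, (hRm b).2 hb⟩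
    unfold j2u
    rw [dif_pos hm]
    exact hx ⟨(a, b), hm⟩ ha hb hab
  intro q q' hq hq' hqo hqo' hqq
  set s : ℤˣ := sgn al P q ^ (Nat.lcm (dg k q.2) (dg k q'.2) / dg k q.2) *
    sgn al P q' ^ (Nat.lcm (dg k q.2) (dg k q'.2) / dg k q'.2) with hs
  -- the key relation for all data
  have hall : ∀ (V : ValuationSubring C) (τ : L o.1 →ₐ[k] C) (τ₁ : L q.1 →ₐ[k] C)
      (τ₂ : L q'.1 →ₐ[k] C) (φ : C ≃ₐ[k] C) (z γ : C), Lies τ V o.2 → Lies τ₁ V q.2 →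
        Lies τ₂ V q'.2 → Frob (nv (bl k o.2)) V φ →
        z ^ 2 = j2u R U x (τ₁ (θ q.1)) (τ₂ (θ q'.1)) →
        γ ^ 2 = (τ (θ o.1) - τ₁ (θ q.1)) * (τ (θ o.1) - τ₂ (θ q'.1)) →
        (φ ^ (Nat.lcm (dg k q.2) (dg k q'.2))) (z * γ) = ((s : ℤ) : C) * (z * γ) ∧
          z * γ ≠ 0 := by
    intro V τ τ₁ τ₂ φ z γ h h₁ h₂ hφ hz hγ
    have ha := emb_root hR q.1 τ₁
    have hb := emb_root hR q'.1 τ₂
    have hab := j2_ne hR hf q q' τ₁ τ₂ h₁ h₂ hqq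
    rw [hux _ _ ha hb hab] at hz
    obtain ⟨t, ht, hdt⟩ := het _ _ ha hb hab q.1 q'.1 τ₁ τ₂ rfl rfl
    have he0 : e _ _ ha hb hab ≠ 0 := ((hU _ _).1 _ (heU _ _ ha hb hab)).1
    refine ⟨rel_key8 hR hf hS c D P hP o q q' ho hq hq' hqo hqo' hqq V τ τ₁ τ₂ h h₁ h₂ φ hφ _ t z γ
      he0 ht hdt hz hγ, mul_ne_zero ?_ ?_⟩
    · intro h0
      rw [h0, zero_pow two_ne_zero] at hz
      exact he0 hz.symm
    · intro h0
      rw [h0, zero_pow two_ne_zero] at hγ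
      rcases mul_eq_zero.1 hγ.symm with h3 | h3
      · exact j2_ne hR hf q o τ₁ τ h₁ h hqo (sub_eq_zero.1 h3).symm
      · exact j2_ne hR hf q' o τ₂ τ h₂ h hqo' (sub_eq_zero.1 h3).symm
  rcases Int.units_eq_one_or s with h1 | h1
  · rw [h1]
    symm
    apply if_pos
    obtain ⟨A, hA⟩ := exists_isVal (bl k o.2)
    obtain ⟨V, hV⟩ := SC2.exists_above (C := C) A
    obtain ⟨τ, hτ⟩ := emb_exists hV o.2 hA
    obtain ⟨τ₁, hτ₁⟩ := emb_exists hV q.2 (by rw [hq]; exact hA)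
    obtain ⟨τ₂, hτ₂⟩ := emb_exists hV q'.2 (by rw [hq']; exact hA)
    have hfin := hA.fin
    obtain ⟨φ, hφ⟩ := SC2.exists_frob hV
    rw [hA.card] at hφ
    obtain ⟨z, hz⟩ := IsAlgClosed.exists_pow_nat_eq (j2u R U x (τ₁ (θ q.1)) (τ₂ (θ q'.1))) two_pos
    obtain ⟨γ, hγ⟩ := IsAlgClosed.exists_pow_nat_eq
      ((τ (θ o.1) - τ₁ (θ q.1)) * (τ (θ o.1) - τ₂ (θ q'.1))) two_pos
    refine ⟨V, τ, τ₁, τ₂, φ, z, γ, hτ, hτ₁, hτ₂, hφ, hz, hγ, ?_⟩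
    rw [(hall V τ τ₁ τ₂ φ z γ hτ hτ₁ hτ₂ hφ hz hγ).1, h1]
    simp
  · rw [h1]
    symm
    apply if_neg
    rintro ⟨V, τ, τ₁, τ₂, φ, z, γ, hτ, hτ₁, hτ₂, hφ, hz, hγ, hfin⟩
    obtain ⟨h2, h3⟩ := hall V τ τ₁ τ₂ φ z γ hτ hτ₁ hτ₂ hφ hz hγ
    rw [hfin, h1] at h2
    apply h3
    have h4 : (2 : C) * (z * γ) = 0 := by
      have h5 : z * γ = -(z * γ) := by
        simpa using h2
      linear_combination h5
    rcases mul_eq_zero.1 h4 with h5 | h5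
    · exact absurd h5 two_ne_zero
    · exact h5

end SC8
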