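import Pool.Agent.MP_c1dca2_ag.SC5.J3
import Pool.Agent.MP_c1dca2_ag.SC8.HD

/-!
# [SC8-J3] a large set `S` exists (copy of SC5/J3)
-/

set_option autoImplicit false

open NumberField IsDedekindDomain Polynomial SC2 SC3 SC5

namespace SC8

theorem gs8_exists {k C : Type} [Field k] [NumberField k] [Field C] [Algebra k C]
    [IsAlgClosed C] [IsGalois k C] {I : Type} [Fintype I] {L : I → Type} [∀ i, Field (L i)]
    [∀ i, NumberField (L i)] [∀ i, Algebra k (L i)] {f : k[X]} {θ : ∀ i, L i}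
    (hR : RF k L f θ) (hsep : f.Separable) :
    ∃ (S : Finset (Pr k)) (al : ∀ i, Pr (L i) → 𝓞 (L i)) (Cg : ℕ), GS8 k C f S al Cg := by
  classical
  choose al Cf hal using fun i => exists_gen (L i)
  choose Su hSu using fun i => unram k (L i)
  have hev : ∀ (a b : C) (i : I) (τ : L i →ₐ[k] FF k a b), ∃ S : Finset (Pr k),
      ∀ u : Pr (FF k a b), bl k u ∉ S → ∀ w : Pr (L i),
        (∀ x, w.valuation (L i) x ≤ 1 ↔ u.valuation (FF k a b) (τ x) ≤ 1) →
          ∀ y, Ev u (τ y) ↔ Ev w y := fun a b i τ => j3_ev τ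
  choose Se hSe using hev
  set Cg := Finset.univ.sup Cf with hCg
  have hle : ∀ i, Cf i ≤ Cg := fun i => Finset.le_sup (Finset.mem_univ i)
  set R : Set C := {a | aeval a f = 0} with hRd
  have hf0 : f ≠ 0 := hsep.ne_zero
  have hRfin : R.Finite := by
    refine (f.aroots C).toFinset.finite_toSet.subset ?_
    intro a ha
    rw [Finset.mem_coe, Multiset.mem_toFinset, mem_aroots]
    exact ⟨hf0, ha⟩
  set B : Set (Pr k) := {v : Pr k | ∃ A, IsVal v A ∧ ¬ GoodAt A f} ∪ {v : Pr k | (2 : 𝓞 k) ∈ v.asIdeal} ∪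
    (⋃ i, (Su i : Set (Pr k))) ∪ (⋃ i, (bl k) '' {w : Pr (L i) | nv w ≤ Cg}) ∪
    (⋃ a ∈ R, ⋃ b ∈ R, ⋃ i, ⋃ τ : L i →ₐ[k] FF k a b, (Se a b i τ : Set (Pr k))) with hB
  have hBfin : B.Finite := by
    refine Set.Finite.union (Set.Finite.union (Set.Finite.union (Set.Finite.union
      (good_places f hsep) (finite_mem 2 two_ne_zero)) ?_) ?_) ?_
    · exact Set.finite_iUnion fun i => (Su i).finite_toSet
    · exact Set.finite_iUnion fun i => (finite_nv (L i) Cg).image _
    · refine hRfin.biUnion fun a _ => hRfin.biUnion fun b _ => Set.finite_iUnion fun i => ?_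
      have : Finite (L i →ₐ[k] FF k a b) := inferInstance
      exact Set.finite_iUnion fun τ => (Se a b i τ).finite_toSet
  refine ⟨hBfin.toFinset, al, Cg, ⟨⟨?_, ?_, ?_, ?_⟩, ?_, ?_⟩⟩
  · intro i v hv T hT
    refine (hSu i v fun h => hv ?_).1 T hT
    rw [Set.Finite.mem_toFinset]
    exact Or.inl (Or.inl (Or.inr (Set.mem_iUnion.2 ⟨i, h⟩)))
  · intro v hv h
    apply hv
    rw [Set.Finite.mem_toFinset]
    exact Or.inl (Or.inl (Or.inl (Or.inr h)))
  · intro i
    refine ⟨(hal i).ne, (hal i).mem, (hal i).co, fun w w' hw => ?_, fun w hw => ?_⟩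
    · rcases (hal i).oth w w' hw with h | h
      · exact Or.inl h
      · exact Or.inr (h.trans (hle i))
    · exact (hal i).one w ((hle i).trans_lt hw)
  · intro i w hw
    by_contra hcon
    apply hw
    rw [Set.Finite.mem_toFinset]
    exact Or.inl (Or.inr (Set.mem_iUnion.2 ⟨i, w, not_lt.1 hcon, rfl⟩))
  · intro v hv A hA
    by_contra hcon
    apply hv
    rw [Set.Finite.mem_toFinset]
    exact Or.inl (Or.inl (Or.inl (Or.inl ⟨A, hA, hcon⟩)))
  · intro a b ha hb i τ u hu w hw y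
    refine hSe a b i τ u (fun h => hu ?_) w hw y
    rw [Set.Finite.mem_toFinset]
    refine Or.inr ?_
    simp only [Set.mem_iUnion]
    exact ⟨a, ha, b, hb, i, τ, h⟩

end SC8
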