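import Pool.Agent.MP_c1dca2_ag.SC8.Defs
import Pool.Agent.MP_c1dca2_ag.SC5.Q1

/-!
# [SC8-W5] most `c` have few prime factors at all scales (cf. SC5/Q1)

For `y = 2^j` and `c` in the box, `c ≠ 0`, let `t_j(c) = #{v ∈ TT S c | nv v ≤ 2^j}`. As in `SC5.q1_moment` (private; copy):
`∑_{c} 2^(t_j c) = ∑_c ∑_{V ⊆ {v ∈ TT S c, nv v ≤ 2^j}} 1 ≤ ∑_V #{c ≠ 0 : el b c ∈ ∏_{v ∈ V} v} ≤ C N^n ∑_V ∏_{v ∈ V} 1/nv v`
`= C N^n ∏_{nv v ≤ 2^j} (1 + 1/nv v) ≤ C' N^n j` for `j ≥ 1` (`box_ideal` of SC5/A4, `TT_mem`, `q1_sum` / `sum_upper`), uniformly in `N ≥ 1`. So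
(Markov) the number of `c` with `t_j(c) > (log log 2^j)²` is at most `C' N^n j · 2^(-(log (j log 2))²)`, and
`∑_j j 2^(-(log (j log 2))²)` converges (the terms are `≤ j^(-2)` for large `j`: `(log (j log 2))² log 2 ≥ 3 log j`). Choose `J₀` such that
`C' ∑_{j ≥ J₀} .. ≤ ε`. The union over the infinitely many `j ≥ J₀` is a finite union: for `c` in the box, if the condition holds for some
`j ≥ J₀`, then it holds for some `j ≥ J₀` with `j ≤ J₁` (`N` fixed; the box is finite, choose one `j` for every `c` and let `J₁` be their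
maximum), and finite partial sums are `≤ ε`.
-/

set_option autoImplicit false

open NumberField IsDedekindDomain SC5 SC7

namespace SC8

theorem w5_prod_mem {k : Type} [Field k] [NumberField k] (a : 𝓞 k) (V : Finset (Pr k))
    (h : ∀ v ∈ V, a ∈ v.asIdeal) : a ∈ ∏ v ∈ V, v.asIdeal := by
  classical
  have e : ∏ v ∈ V, v.asIdeal = ∏ p ∈ V.image (fun v => v.asIdeal), p := by
    rw [Finset.prod_image fun v _ w _ h => HeightOneSpectrum.ext h]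
  rw [e, ← Ideal.dvd_span_singleton]
  apply Finset.prod_primes_dvd
  · intro p hp
    obtain ⟨v, -, rfl⟩ := Finset.mem_image.1 hp
    exact v.prime
  · intro p hp
    obtain ⟨v, hv, rfl⟩ := Finset.mem_image.1 hp
    exact Ideal.dvd_span_singleton.2 (h v hv)

/-- the sum over the primes of norm at most `B` -/
theorem w5_sum (k : Type) [Field k] [NumberField k] : ∃ C : ℝ, ∀ B : ℕ, 2 ≤ B →
    ∀ T : Finset (Pr k), (∀ v ∈ T, nv v ≤ B) →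
      ∏ v ∈ T, (1 + ((nv v : ℝ))⁻¹) ≤ Real.exp C * Real.log B := by
  obtain ⟨C, hC⟩ := sum_upper k
  have h32 : 0 < Real.log (3 / 2) := Real.log_pos (by norm_num)
  refine ⟨C - Real.log (Real.log (3 / 2)), fun B hB T hT => ?_⟩
  have hB' : (2 : ℝ) ≤ B := by exact_mod_cast hB
  have hlB : 0 < Real.log B := Real.log_pos (by linarith)
  have h1 := hC (3 / 2) B le_rfl (by linarith) T (fun v hv => ⟨by
    have : (2 : ℝ) ≤ nv v := by exact_mod_cast two_le_nv v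
    linarith, by exact_mod_cast hT v hv⟩)
  have h2 : ∏ v ∈ T, (1 + ((nv v : ℝ))⁻¹) ≤ Real.exp (∑ v ∈ T, ((nv v : ℝ))⁻¹) := by
    rw [Real.exp_sum]
    refine Finset.prod_le_prod (fun v _ => by positivity) fun v _ => ?_
    rw [add_comm]
    exact Real.add_one_le_exp _
  refine h2.trans ((Real.exp_le_exp.2 h1).trans ?_)
  rw [Real.log_div hlB.ne' h32.ne']
  have e : Real.log (Real.log B) - Real.log (Real.log (3 / 2)) + C =
      (C - Real.log (Real.log (3 / 2))) + Real.log (Real.log B) := by ring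
  rw [e, Real.exp_add, Real.exp_log hlB]

theorem w5_moment {k : Type} [Field k] [NumberField k] {ι : Type} [Fintype ι]
    (b : Module.Basis ι ℤ (𝓞 k)) (S : Finset (Pr k)) : ∃ C : ℝ, 0 < C ∧ ∀ N : ℕ, 1 ≤ N → ∀ B : ℕ, 2 ≤ B →
    ∀ A : Finset (ι → ℤ), (∀ c ∈ A, (∀ i, |c i| ≤ (N : ℤ)) ∧ c ≠ 0) →
      ∑ c ∈ A, (2 : ℝ) ^ ({v : Pr k | v ∈ TT S ((el b c : 𝓞 k) : k) ∧ nv v ≤ B}).ncard ≤
        C * (N : ℝ) ^ (Fintype.card ι) * Real.log B := by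
  classical
  obtain ⟨C₂, hC₂, hbox⟩ := box_ideal b
  obtain ⟨C₄, hC₄⟩ := w5_sum k
  set n := Fintype.card ι with hndef
  refine ⟨C₂ * Real.exp C₄, by positivity, ?_⟩
  intro N hN B hB2 A hA
  have hN' : (1 : ℝ) ≤ N := by exact_mod_cast hN
  have hN0 : (0 : ℝ) < N := by linarith
  set T : Finset (Pr k) := (finite_nv k B).toFinset with hT
  have hTmem : ∀ v : Pr k, v ∈ T ↔ nv v ≤ B := by
    intro v
    rw [hT, Set.Finite.mem_toFinset]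
    rfl
  -- the power of two as a number of subsets
  have h1 : ∀ c ∈ A, (2 : ℝ) ^ ({v : Pr k | v ∈ TT S ((el b c : 𝓞 k) : k) ∧ nv v ≤ B}).ncard ≤
      ∑ V ∈ T.powerset, if el b c ∈ ∏ v ∈ V, v.asIdeal then (1 : ℝ) else 0 := by
    intro c hc
    set D : Finset (Pr k) := T.filter fun v => el b c ∈ v.asIdeal with hD
    have hsub : {v : Pr k | v ∈ TT S ((el b c : 𝓞 k) : k) ∧ nv v ≤ B} ⊆ (D : Set (Pr k)) := by
      intro v hv
      have hvm := TT_mem S (el b c) v hv.1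
      rw [hD, Finset.coe_filter]
      exact ⟨(hTmem v).2 hv.2, hvm⟩
    have hcard : ({v : Pr k | v ∈ TT S ((el b c : 𝓞 k) : k) ∧ nv v ≤ B}).ncard ≤ D.card := by
      have := Set.ncard_le_ncard hsub D.finite_toSet
      rwa [Set.ncard_coe_finset] at this
    calc (2 : ℝ) ^ ({v : Pr k | v ∈ TT S ((el b c : 𝓞 k) : k) ∧ nv v ≤ B}).ncard ≤ (2 : ℝ) ^ D.card :=
          pow_le_pow_right₀ (by norm_num) hcard
      _ = ((D.powerset.card : ℕ) : ℝ) := by rw [Finset.card_powerset]; push_cast; rfl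
      _ = ∑ V ∈ D.powerset, (1 : ℝ) := by rw [Finset.sum_const, nsmul_eq_mul, mul_one]
      _ ≤ ∑ V ∈ D.powerset, if el b c ∈ ∏ v ∈ V, v.asIdeal then (1 : ℝ) else 0 := by
          refine Finset.sum_le_sum fun V hV => ?_
          rw [if_pos]
          refine w5_prod_mem _ _ fun v hv => ?_
          exact (Finset.mem_filter.1 (Finset.mem_powerset.1 hV hv)).2
      _ ≤ _ := by
          refine Finset.sum_le_sum_of_subset_of_nonneg ?_ fun V _ _ => ?_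
          · exact Finset.powerset_mono.2 (Finset.filter_subset _ _)
          · split_ifs <;> norm_num
  have h2 : ∀ V ∈ T.powerset, ∑ c ∈ A, (if el b c ∈ ∏ v ∈ V, v.asIdeal then (1 : ℝ) else 0) ≤
      C₂ * (N : ℝ) ^ n * ∏ v ∈ V, ((nv v : ℝ))⁻¹ := by
    intro V _
    have hVne : (∏ v ∈ V, v.asIdeal) ≠ (⊥ : Ideal (𝓞 k)) := by
      rw [← Ideal.zero_eq_bot]
      exact Finset.prod_ne_zero_iff.2 fun v _ => v.ne_bot
    have hb := hbox N (by omega) (∏ v ∈ V, v.asIdeal) hVne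
    have e1 : (Ideal.absNorm (∏ v ∈ V, v.asIdeal) : ℝ) = ∏ v ∈ V, (nv v : ℝ) := by
      rw [map_prod]
      push_cast
      rfl
    rw [e1, div_eq_mul_inv, ← Finset.prod_inv_distrib] at hb
    refine le_trans ?_ hb
    rw [← Finset.sum_filter, Finset.sum_const, nsmul_eq_mul, mul_one]
    obtain ⟨box, hmem⟩ := t4_box (ι := ι) N
    have hc2 : Nat.card {c : ι → ℤ // (∀ i, |c i| ≤ N) ∧ c ≠ 0 ∧ el b c ∈ ∏ v ∈ V, v.asIdeal} =
        (box.filter fun c => c ≠ 0 ∧ el b c ∈ ∏ v ∈ V, v.asIdeal).card := by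
      apply Nat.subtype_card
      intro c
      rw [Finset.mem_filter, hmem]
    rw [hc2]
    have hsub : (A.filter fun c => el b c ∈ ∏ v ∈ V, v.asIdeal) ⊆
        box.filter fun c => c ≠ 0 ∧ el b c ∈ ∏ v ∈ V, v.asIdeal := by
      intro c hc
      obtain ⟨hcA, hcv⟩ := Finset.mem_filter.1 hc
      exact Finset.mem_filter.2 ⟨(hmem c).2 (hA c hcA).1, (hA c hcA).2, hcv⟩
    exact_mod_cast Finset.card_le_card hsub
  have h3 : ∑ c ∈ A, (2 : ℝ) ^ ({v : Pr k | v ∈ TT S ((el b c : 𝓞 k) : k) ∧ nv v ≤ B}).ncard ≤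
      C₂ * (N : ℝ) ^ n * ∏ v ∈ T, (1 + ((nv v : ℝ))⁻¹) := by
    calc ∑ c ∈ A, (2 : ℝ) ^ ({v : Pr k | v ∈ TT S ((el b c : 𝓞 k) : k) ∧ nv v ≤ B}).ncard
        ≤ ∑ c ∈ A, ∑ V ∈ T.powerset, (if el b c ∈ ∏ v ∈ V, v.asIdeal then (1 : ℝ) else 0) :=
          Finset.sum_le_sum h1
      _ = ∑ V ∈ T.powerset, ∑ c ∈ A, (if el b c ∈ ∏ v ∈ V, v.asIdeal then (1 : ℝ) else 0) :=
          Finset.sum_comm
      _ ≤ ∑ V ∈ T.powerset, C₂ * (N : ℝ) ^ n * ∏ v ∈ V, ((nv v : ℝ))⁻¹ := Finset.sum_le_sum h2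
      _ = C₂ * (N : ℝ) ^ n * ∏ v ∈ T, (1 + ((nv v : ℝ))⁻¹) := by
          rw [← Finset.mul_sum, Finset.prod_one_add]
  have h4 := hC₄ B hB2 T fun v hv => (hTmem v).1 hv
  calc ∑ c ∈ A, (2 : ℝ) ^ ({v : Pr k | v ∈ TT S ((el b c : 𝓞 k) : k) ∧ nv v ≤ B}).ncard
      ≤ C₂ * (N : ℝ) ^ n * ∏ v ∈ T, (1 + ((nv v : ℝ))⁻¹) := h3
    _ ≤ C₂ * (N : ℝ) ^ n * (Real.exp C₄ * Real.log B) := by gcongr
    _ = _ := by ring

/-- the power of two is large -/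
theorem w5_two (x : ℝ) (hx : 0 < x) :
    x ^ 3 ≤ Real.exp (9 / (4 * Real.log 2)) * (2 : ℝ) ^ (Real.log x ^ 2 : ℝ) := by
  have hl2 : 0 < Real.log 2 := Real.log_pos (by norm_num)
  have e1 : x ^ 3 = Real.exp (3 * Real.log x) := by
    rw [mul_comm, Real.exp_mul, Real.exp_log hx]
    norm_num
  have e2 : (2 : ℝ) ^ (Real.log x ^ 2 : ℝ) = Real.exp (Real.log 2 * Real.log x ^ 2) := by
    rw [Real.rpow_def_of_pos (by norm_num)]
  rw [e1, e2, ← Real.exp_add, Real.exp_le_exp]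
  have h2 : 0 ≤ (Real.log 2 * Real.log x - 3 / 2) ^ 2 / Real.log 2 := by positivity
  have h3 : (Real.log 2 * Real.log x - 3 / 2) ^ 2 / Real.log 2 =
      Real.log 2 * Real.log x ^ 2 - 3 * Real.log x + 9 / (4 * Real.log 2) := by
    field_simp
    ring
  linarith

open scoped Classical in
/-- the bound for one `j` -/
theorem w5_one {k : Type} [Field k] [NumberField k] {ι : Type} [Fintype ι]
    (b : Module.Basis ι ℤ (𝓞 k)) (S : Finset (Pr k)) : ∃ C : ℝ, 0 < C ∧ ∀ N : ℕ, 1 ≤ N → ∀ j : ℕ, 1 ≤ j →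
    ∀ A : Finset (ι → ℤ), (∀ c ∈ A, (∀ i, |c i| ≤ (N : ℤ)) ∧ c ≠ 0 ∧ Real.log (Real.log ((2 : ℝ) ^ j)) ^ 2 <
        ({v : Pr k | v ∈ TT S ((el b c : 𝓞 k) : k) ∧ (nv v : ℝ) ≤ (2 : ℝ) ^ j}.ncard : ℝ)) →
      (A.card : ℝ) ≤ C * (N : ℝ) ^ (Fintype.card ι) * (((j : ℝ) ^ 2)⁻¹) := by
  obtain ⟨C, hC, hmom⟩ := w5_moment b S
  have hl2 : 0 < Real.log 2 := Real.log_pos (by norm_num)
  refine ⟨C * Real.exp (9 / (4 * Real.log 2)) / Real.log 2 ^ 2, by positivity, ?_⟩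
  intro N hN j hj A hA
  have hN' : (1 : ℝ) ≤ N := by exact_mod_cast hN
  have hj' : (1 : ℝ) ≤ j := by exact_mod_cast hj
  have hB2 : 2 ≤ 2 ^ j := by
    calc 2 = 2 ^ 1 := by norm_num
      _ ≤ 2 ^ j := Nat.pow_le_pow_right (by norm_num) hj
  have h1 := hmom N hN (2 ^ j) hB2 A fun c hc => ⟨(hA c hc).1, (hA c hc).2.1⟩
  have eB : ((2 ^ j : ℕ) : ℝ) = (2 : ℝ) ^ j := by push_cast; rfl
  have hlog : Real.log ((2 : ℝ) ^ j) = j * Real.log 2 := Real.log_pow _ _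
  set x : ℝ := (j : ℝ) * Real.log 2 with hx
  have hx0 : 0 < x := by positivity
  rw [eB, hlog] at h1
  have hset : ∀ c : ι → ℤ, {v : Pr k | v ∈ TT S ((el b c : 𝓞 k) : k) ∧ (nv v : ℝ) ≤ (2 : ℝ) ^ j} =
      {v : Pr k | v ∈ TT S ((el b c : 𝓞 k) : k) ∧ nv v ≤ 2 ^ j} := by
    intro c
    ext v
    have : (nv v : ℝ) ≤ (2 : ℝ) ^ j ↔ nv v ≤ 2 ^ j := by
      rw [← eB]
      exact Nat.cast_le
    exact and_congr Iff.rfl this
  have h2 : (A.card : ℝ) * (2 : ℝ) ^ (Real.log x ^ 2 : ℝ) ≤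
      ∑ c ∈ A, (2 : ℝ) ^ ({v : Pr k | v ∈ TT S ((el b c : 𝓞 k) : k) ∧ nv v ≤ 2 ^ j}).ncard := by
    rw [← nsmul_eq_mul, ← Finset.sum_const]
    refine Finset.sum_le_sum fun c hc => ?_
    rw [← Real.rpow_natCast (2 : ℝ) ({v : Pr k | v ∈ TT S ((el b c : 𝓞 k) : k) ∧ nv v ≤ 2 ^ j}).ncard]
    have h3 := (hA c hc).2.2
    rw [hlog, hset] at h3
    exact Real.rpow_le_rpow_of_exponent_le (by norm_num : (1 : ℝ) ≤ 2) h3.le
  have h3 := w5_two x hx0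
  have h4 : (A.card : ℝ) * x ^ 3 ≤ C * Real.exp (9 / (4 * Real.log 2)) * (N : ℝ) ^ (Fintype.card ι) * x := by
    calc (A.card : ℝ) * x ^ 3
        ≤ (A.card : ℝ) * (Real.exp (9 / (4 * Real.log 2)) * (2 : ℝ) ^ (Real.log x ^ 2 : ℝ)) := by gcongr
      _ = Real.exp (9 / (4 * Real.log 2)) * ((A.card : ℝ) * (2 : ℝ) ^ (Real.log x ^ 2 : ℝ)) := by ring
      _ ≤ Real.exp (9 / (4 * Real.log 2)) * (C * (N : ℝ) ^ (Fintype.card ι) * x) := by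
          have := h2.trans h1
          gcongr
      _ = _ := by ring
  have h5 : (A.card : ℝ) * x ^ 2 ≤ C * Real.exp (9 / (4 * Real.log 2)) * (N : ℝ) ^ (Fintype.card ι) := by
    have e3 : (A.card : ℝ) * x ^ 3 = ((A.card : ℝ) * x ^ 2) * x := by ring
    rw [e3] at h4
    exact le_of_mul_le_mul_right h4 hx0
  have h6 : (A.card : ℝ) ≤ C * Real.exp (9 / (4 * Real.log 2)) * (N : ℝ) ^ (Fintype.card ι) / x ^ 2 := by
    rw [le_div_iff₀ (by positivity)]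
    exact h5
  refine h6.trans (le_of_eq ?_)
  rw [hx]
  field_simp

theorem omega_all {k : Type} [Field k] [NumberField k] {ι : Type} [Fintype ι]
    (b : Module.Basis ι ℤ (𝓞 k)) (S : Finset (Pr k)) (ε : ℝ) (hε : 0 < ε) :
    ∃ J₀ : ℕ, ∀ N : ℕ, 1 ≤ N →
    (Nat.card {c : ι → ℤ // (∀ i, |c i| ≤ N) ∧ c ≠ 0 ∧ ∃ j : ℕ, J₀ ≤ j ∧
      Real.log (Real.log ((2 : ℝ) ^ j)) ^ 2 <
        ({v : Pr k | v ∈ TT S ((el b c : 𝓞 k) : k) ∧ (nv v : ℝ) ≤ (2 : ℝ) ^ j}.ncard : ℝ)} : ℝ) ≤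
      ε * (N : ℝ) ^ (Fintype.card ι) := by
  classical
  obtain ⟨C, hC, hone⟩ := w5_one b S
  set k₀ : ℕ := ⌈2 * C / ε⌉₊ with hk₀
  refine ⟨k₀ + 1, fun N hN => ?_⟩
  have hN' : (1 : ℝ) ≤ N := by exact_mod_cast hN
  obtain ⟨box, hmem⟩ := t4_box (ι := ι) N
  set p : ℕ → (ι → ℤ) → Prop := fun j c => Real.log (Real.log ((2 : ℝ) ^ j)) ^ 2 <
        ({v : Pr k | v ∈ TT S ((el b c : 𝓞 k) : k) ∧ (nv v : ℝ) ≤ (2 : ℝ) ^ j}.ncard : ℝ) with hp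
  set A : Finset (ι → ℤ) := box.filter fun c => c ≠ 0 ∧ ∃ j : ℕ, k₀ + 1 ≤ j ∧ p j c with hA
  have hcard : Nat.card {c : ι → ℤ // (∀ i, |c i| ≤ N) ∧ c ≠ 0 ∧ ∃ j : ℕ, k₀ + 1 ≤ j ∧ p j c} = A.card := by
    apply Nat.subtype_card
    intro c
    rw [hA, Finset.mem_filter, hmem]
  show (Nat.card {c : ι → ℤ // (∀ i, |c i| ≤ N) ∧ c ≠ 0 ∧ ∃ j : ℕ, k₀ + 1 ≤ j ∧ p j c} : ℝ) ≤ _
  rw [hcard]
  set g : (ι → ℤ) → ℕ := fun c => if h : ∃ j : ℕ, k₀ + 1 ≤ j ∧ p j c then h.choose else 0 with hg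
  have hgA : ∀ c ∈ A, k₀ + 1 ≤ g c ∧ p (g c) c := by
    intro c hc
    have h := (Finset.mem_filter.1 hc).2.2
    simp only [hg]
    rw [dif_pos h]
    exact h.choose_spec
  set J : ℕ := A.sup g with hJ
  have hsub : A ⊆ (Finset.Ioo k₀ (J + 1)).biUnion fun j => box.filter fun c => c ≠ 0 ∧ p j c := by
    intro c hc
    obtain ⟨h1, h2⟩ := hgA c hc
    have h3 : g c ≤ J := Finset.le_sup hc
    rw [Finset.mem_biUnion]
    refine ⟨g c, Finset.mem_Ioo.2 ⟨by omega, by omega⟩, ?_⟩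
    have h4 := Finset.mem_filter.1 hc
    exact Finset.mem_filter.2 ⟨h4.1, h4.2.1, h2⟩
  have h1 : (A.card : ℝ) ≤ ∑ j ∈ Finset.Ioo k₀ (J + 1), ((box.filter fun c => c ≠ 0 ∧ p j c).card : ℝ) := by
    have := (Finset.card_le_card hsub).trans Finset.card_biUnion_le
    exact_mod_cast this
  have h2 : ∑ j ∈ Finset.Ioo k₀ (J + 1), ((box.filter fun c => c ≠ 0 ∧ p j c).card : ℝ) ≤
      ∑ j ∈ Finset.Ioo k₀ (J + 1), C * (N : ℝ) ^ (Fintype.card ι) * (((j : ℝ) ^ 2)⁻¹) := by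
    refine Finset.sum_le_sum fun j hj => ?_
    have hj1 := (Finset.mem_Ioo.1 hj).1
    refine hone N hN j (by omega) _ fun c hc => ?_
    have h4 := Finset.mem_filter.1 hc
    exact ⟨(hmem c).1 h4.1, h4.2.1, h4.2.2⟩
  have h3 := sum_Ioo_inv_sq_le (α := ℝ) k₀ (J + 1)
  have h4 : 2 * C / ε ≤ k₀ := Nat.le_ceil _
  have h5 : C * (2 / ((k₀ : ℝ) + 1)) ≤ ε := by
    have h6 : 2 * C ≤ k₀ * ε := by
      rwa [div_le_iff₀ hε] at h4
    rw [← mul_div_assoc, div_le_iff₀ (by positivity)]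
    nlinarith
  calc (A.card : ℝ) ≤ ∑ j ∈ Finset.Ioo k₀ (J + 1), C * (N : ℝ) ^ (Fintype.card ι) * (((j : ℝ) ^ 2)⁻¹) := h1.trans h2
    _ = (N : ℝ) ^ (Fintype.card ι) * (C * ∑ j ∈ Finset.Ioo k₀ (J + 1), (((j : ℝ) ^ 2)⁻¹)) := by
        rw [← Finset.mul_sum]
        ring
    _ ≤ (N : ℝ) ^ (Fintype.card ι) * (C * (2 / ((k₀ : ℝ) + 1))) := by gcongr
    _ ≤ (N : ℝ) ^ (Fintype.card ι) * ε := by gcongr
    _ = ε * (N : ℝ) ^ (Fintype.card ι) := mul_comm _ _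

end SC8
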