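import Pool.Agent.MP_c1dca2_ag.SC8.W4b
import Pool.Agent.MP_c1dca2_ag.SC8.W5

/-!
# [SC8-W6] Part II: configurations with a moderately large element of index `≠ W`

`δ, A, Y₀, N₁` from `scale_count` with `2 * K`, `J₀` from `omega_all` with `ε/2`. Choose `J₁ ≥ J₀`, `J₁ ≥ 1` with `2^J₁ ≥ Y₀` and
`A ∑_{j = J₁}^{J} (j log 2)^(-1-δ) ≤ ε/2` for all `J` (summable: `Real.summable_nat_rpow`), `B = 2^J₁`. For `c` as in the statement, with `(x, P)`,
let `m > B` be the maximum of `nv o.2`, `o ∈ P`, `o.1 ≠ W`, and `j` with `2^(j-1) < m ≤ 2^j`, so `j > J₁`, `y = 2^j`: `y/2 < m ≤ y`,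
`log y ≤ log 2 + log m ≤ log 2 + (log N)^(1 - 1/K) ≤ (log N)^(1 - 1/(2K))` for `N ≥ N₂`. `(P.filter (nv ≤ y)).card` is the `ncard` in `omega_all`
(`Cf8.tt`, `Cfg.inj`, `nv (bl k o.2) = nv o.2`). If it is `> (log log y)²`: `c` is counted by `omega_all`. Otherwise by `scale_count` for
this `j`. The `j` are at most `(log N)/(log 2)`: finitely many; sum up.
-/

set_option autoImplicit false

open NumberField IsDedekindDomain SC5 SC7

namespace SC8

theorem w6_card {ι : Type} [Fintype ι] [DecidableEq ι] (N : ℕ) (p : (ι → ℤ) → Prop)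
    [DecidablePred p] :
    Nat.card {c : ι → ℤ // (∀ i, |c i| ≤ N) ∧ p c} =
      ((Fintype.piFinset (fun _ : ι => Finset.Icc (-(N : ℤ)) N)).filter p).card := by
  apply Nat.subtype_card
  intro c
  rw [Finset.mem_filter, Fintype.mem_piFinset]
  refine and_congr_left fun _ => ?_
  refine forall_congr' fun i => ?_
  rw [Finset.mem_Icc, abs_le]

/-- the tails of the series -/
theorem w6_tail {A δ ε : ℝ} (hδ : 0 < δ) (hε : 0 < ε) : ∃ J : ℕ,
    ∀ t : Finset ℕ, (∀ j ∈ t, J < j) →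
      ∑ j ∈ t, A * ((j : ℝ) * Real.log 2) ^ (-1 - δ) ≤ ε := by
  have hs : Summable fun j : ℕ => A * ((j : ℝ) * Real.log 2) ^ (-1 - δ) := by
    have h1 : Summable fun j : ℕ => (j : ℝ) ^ (-1 - δ) := Real.summable_nat_rpow.2 (by linarith)
    have h2 := h1.mul_left (A * Real.log 2 ^ (-1 - δ))
    refine h2.congr fun j => ?_
    rw [Real.mul_rpow (Nat.cast_nonneg j) (Real.log_nonneg (by norm_num))]
    ring
  obtain ⟨s, hs⟩ := summable_iff_vanishing_norm.1 hs ε hε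
  refine ⟨s.sup id, fun t ht => ?_⟩
  have h1 : Disjoint t s := by
    rw [Finset.disjoint_left]
    intro j hj hjs
    have h2 : j ≤ s.sup id := Finset.le_sup (f := id) hjs
    have := ht j hj
    omega
  exact (le_abs_self _).trans (hs t h1).le

/-- the choice of the scale -/
theorem w6_scale (K : ℕ) (hK : 2 ≤ K) : ∃ N₂ : ℕ, 2 ≤ N₂ ∧ ∀ N : ℕ, N₂ ≤ N →
    Real.log 2 + Real.log N ^ (1 - 1 / (K : ℝ)) ≤ Real.log N ^ (1 - 1 / ((2 * K : ℕ) : ℝ)) := by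
  refine ⟨max 2 ⌈Real.exp ((2 : ℝ) ^ (2 * K))⌉₊, le_max_left _ _, fun N hN => ?_⟩
  have hK0 : (2 : ℝ) ≤ K := by exact_mod_cast hK
  have h1 : Real.exp ((2 : ℝ) ^ (2 * K)) ≤ N :=
    (Nat.le_ceil _).trans (by exact_mod_cast (le_max_right _ _).trans hN)
  have hN0 : (0 : ℝ) < N := (Real.exp_pos _).trans_le h1
  have h2 : (2 : ℝ) ^ (2 * K) ≤ Real.log N := by
    rwa [Real.le_log_iff_exp_le hN0]
  set X := Real.log N with hX
  have hX1 : 1 ≤ X := (one_le_pow₀ (by norm_num)).trans h2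
  have hX0 : 0 < X := by linarith
  have e1 : X ^ (1 - 1 / ((2 * K : ℕ) : ℝ)) = X ^ (1 - 1 / (K : ℝ)) * X ^ (1 / ((2 * K : ℕ) : ℝ)) := by
    rw [← Real.rpow_add hX0]
    congr 1
    push_cast
    field_simp
    ring
  have e2 : 2 ≤ X ^ (1 / ((2 * K : ℕ) : ℝ)) := by
    have h3 : ((2 : ℝ) ^ (2 * K)) ^ (1 / ((2 * K : ℕ) : ℝ)) ≤ X ^ (1 / ((2 * K : ℕ) : ℝ)) :=
      Real.rpow_le_rpow (by positivity) h2 (by positivity)
    rwa [← Real.rpow_natCast, ← Real.rpow_mul (by norm_num), mul_one_div_cancel, Real.rpow_one] at h3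
    have : 0 < 2 * K := by omega
    exact_mod_cast this.ne'
  have e3 : 1 ≤ X ^ (1 - 1 / (K : ℝ)) := by
    apply Real.one_le_rpow hX1
    have : 1 / (K : ℝ) ≤ 1 := by
      rw [div_le_one (by linarith)]
      linarith
    linarith
  have e4 : Real.log 2 ≤ 1 := by linarith [Real.log_two_lt_d9]
  rw [e1]
  nlinarith

theorem partII {k : Type} [Field k] [NumberField k] {I : Type} [Fintype I] {L : I → Type}
    [∀ i, Field (L i)] [∀ i, NumberField (L i)] [∀ i, Algebra k (L i)] (M : Type) [Field M]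
    [NumberField M] [Algebra k M] [IsGalois k M] [∀ i, Algebra (L i) M]
    [∀ i, IsScalarTower k (L i) M] {S : Finset (Pr k)}
    {al : ∀ i, Pr (L i) → 𝓞 (L i)} {Cg : ℕ} (hF : Fam8 k L S al Cg) (W : I)
    (hdeg : Deg8 k L W) {κ : Type} [Finite κ] (E : κ → PL L → PL L → PL L → ℤˣ)
    {ι : Type} [Fintype ι] (b : Module.Basis ι ℤ (𝓞 k)) (K : ℕ) (hK : 2 ≤ K) (ε : ℝ)
    (hε : 0 < ε) :
    ∃ B N₀ : ℕ, ∀ N : ℕ, N₀ ≤ N →
      (Nat.card {c : ι → ℤ // (∀ i, |c i| ≤ N) ∧ c ≠ 0 ∧ ∃ (x : κ) (P : Finset (PL L)),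
        Cf8 S al (E x) ((el b c : 𝓞 k) : k) P ∧
        (∀ o ∈ P, o.1 ≠ W → Real.log (nv o.2) ≤ Real.log N ^ (1 - 1 / (K : ℝ))) ∧
        ∃ o ∈ P, o.1 ≠ W ∧ B < nv o.2} : ℝ) ≤ ε * (N : ℝ) ^ (Fintype.card ι) := by
  classical
  obtain ⟨δ, A, Y₀, N₁, hδ, hA, hY₀, hsc⟩ := scale_count M hF W hdeg E b (2 * K) (by omega)
  obtain ⟨J₀, hom⟩ := omega_all b S (ε / 2) (by linarith)
  obtain ⟨Jt, hJt⟩ := w6_tail (A := A) hδ (show 0 < ε / 2 by linarith)
  obtain ⟨N₂, hN₂, hsca⟩ := w6_scale K hK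
  obtain ⟨J₂, hJ₂⟩ := pow_unbounded_of_one_lt Y₀ (show (1 : ℝ) < 2 by norm_num)
  set J₁ : ℕ := max (max J₀ Jt) (max J₂ 1) with hJ₁
  have hJ₁1 : 1 ≤ J₁ := (le_max_right _ _).trans (le_max_right _ _)
  refine ⟨2 ^ J₁, max N₁ N₂, fun N hN => ?_⟩
  have hNN₁ : N₁ ≤ N := (le_max_left _ _).trans hN
  have hNN₂ : N₂ ≤ N := (le_max_right _ _).trans hN
  have hlog2 : 0 < Real.log 2 := Real.log_pos (by norm_num)
  set n := Fintype.card ι with hn
  set box := Fintype.piFinset (fun _ : ι => Finset.Icc (-(N : ℤ)) N) with hbox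
  set X₂ := Real.log N ^ (1 - 1 / ((2 * K : ℕ) : ℝ)) with hX₂
  -- the sets
  set p₀ : (ι → ℤ) → Prop := fun c => c ≠ 0 ∧ ∃ j : ℕ, J₀ ≤ j ∧
      Real.log (Real.log ((2 : ℝ) ^ j)) ^ 2 <
        ({v : Pr k | v ∈ TT S ((el b c : 𝓞 k) : k) ∧ (nv v : ℝ) ≤ (2 : ℝ) ^ j}.ncard : ℝ) with hp₀
  set pj : ℕ → (ι → ℤ) → Prop := fun j c => c ≠ 0 ∧ ∃ (x : κ) (P : Finset (PL L)),
        Cf8 S al (E x) ((el b c : 𝓞 k) : k) P ∧
        ((P.filter (fun o => (nv o.2 : ℝ) ≤ (2 : ℝ) ^ j)).card : ℝ) ≤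
          Real.log (Real.log ((2 : ℝ) ^ j)) ^ 2 ∧
        (∀ o ∈ P, o.1 ≠ W → (nv o.2 : ℝ) ≤ (2 : ℝ) ^ j) ∧
        ∃ o ∈ P, o.1 ≠ W ∧ (2 : ℝ) ^ j / 2 < nv o.2 with hpj
  set T : Finset ℕ := (Finset.Icc (J₁ + 1) ⌊X₂ / Real.log 2⌋₊) with hT
  have hsub : box.filter (fun c => c ≠ 0 ∧ ∃ (x : κ) (P : Finset (PL L)),
        Cf8 S al (E x) ((el b c : 𝓞 k) : k) P ∧
        (∀ o ∈ P, o.1 ≠ W → Real.log (nv o.2) ≤ Real.log N ^ (1 - 1 / (K : ℝ))) ∧
        ∃ o ∈ P, o.1 ≠ W ∧ 2 ^ J₁ < nv o.2) ⊆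
      box.filter p₀ ∪ T.biUnion fun j => box.filter (pj j) := by
    intro c hc
    rw [Finset.mem_filter] at hc
    obtain ⟨hcb, hc0, x, P, hP, hPs, o₁, ho₁, ho₁W, ho₁B⟩ := hc
    rw [Finset.mem_union, Finset.mem_filter, Finset.mem_biUnion]
    obtain ⟨o, ho, hmax⟩ := Finset.exists_max_image (P.filter (fun o => o.1 ≠ W))
      (fun o => nv o.2) ⟨o₁, Finset.mem_filter.2 ⟨ho₁, ho₁W⟩⟩
    rw [Finset.mem_filter] at ho
    have hoB : 2 ^ J₁ < nv o.2 := ho₁B.trans_le (hmax o₁ (Finset.mem_filter.2 ⟨ho₁, ho₁W⟩))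
    set m := nv o.2 with hm
    have hm2 : 2 ≤ m := two_le_nv o.2
    set j := Nat.clog 2 m with hj
    have hjJ : J₁ < j := (Nat.lt_clog_iff_pow_lt (by norm_num)).2 hoB
    have hmj : m ≤ 2 ^ j := Nat.le_pow_clog (by norm_num) m
    have hmj' : 2 ^ (j - 1) < m := Nat.pow_pred_clog_lt_self (by norm_num) (by omega)
    have hmjR : (m : ℝ) ≤ (2 : ℝ) ^ j := by exact_mod_cast hmj
    have hmjR' : (2 : ℝ) ^ j / 2 < m := by
      have h1 : (2 : ℝ) ^ j = 2 ^ (j - 1) * 2 := by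
        rw [← pow_succ]
        congr 1
        omega
      rw [h1, mul_div_cancel_right₀ _ (by norm_num)]
      exact_mod_cast hmj'
    have hm0 : (0 : ℝ) < m := by
      have : (2 : ℝ) ≤ m := by exact_mod_cast hm2
      linarith
    have hjlog : (j : ℝ) * Real.log 2 ≤ X₂ := by
      have h1 : Real.log ((2 : ℝ) ^ j / 2) ≤ Real.log m :=
        Real.log_le_log (by positivity) hmjR'.le
      rw [Real.log_div (by positivity) (by norm_num), Real.log_pow] at h1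
      have h2 := hPs o ho.1 ho.2
      have h3 := hsca N hNN₂
      linarith
    by_cases hcase : ((P.filter (fun o => (nv o.2 : ℝ) ≤ (2 : ℝ) ^ j)).card : ℝ) ≤
        Real.log (Real.log ((2 : ℝ) ^ j)) ^ 2
    · right
      refine ⟨j, ?_, ?_⟩
      · rw [hT, Finset.mem_Icc]
        refine ⟨hjJ, ?_⟩
        apply Nat.le_floor
        rw [le_div_iff₀ hlog2]
        exact hjlog
      · rw [Finset.mem_filter]
        refine ⟨hcb, hc0, x, P, hP, hcase, ?_, o, ho.1, ho.2, hmjR'⟩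
        intro o' ho' hW'
        have h1 : nv o'.2 ≤ m := hmax o' (Finset.mem_filter.2 ⟨ho', hW'⟩)
        have h2 : (nv o'.2 : ℝ) ≤ m := by exact_mod_cast h1
        exact h2.trans hmjR
    · left
      refine ⟨hcb, hc0, j, ?_, ?_⟩
      · have : J₀ ≤ J₁ := (le_max_left _ _).trans (le_max_left _ _)
        omega
      · rw [not_le] at hcase
        refine hcase.trans_le ?_
        have hinj : Set.InjOn (fun o : PL L => bl k o.2)
            ((P.filter (fun o => (nv o.2 : ℝ) ≤ (2 : ℝ) ^ j) : Finset (PL L)) : Set (PL L)) := by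
          intro o₂ h₂ o₃ h₃ h
          rw [Finset.mem_coe, Finset.mem_filter] at h₂ h₃
          exact hP.cfg.inj o₂ h₂.1 o₃ h₃.1 h
        rw [← Finset.card_image_of_injOn hinj, ← Set.ncard_coe_finset]
        have hfin : {v : Pr k | v ∈ TT S ((el b c : 𝓞 k) : k) ∧ (nv v : ℝ) ≤ (2 : ℝ) ^ j}.Finite := by
          refine (Set.Finite.image (fun o : PL L => bl k o.2) P.finite_toSet).subset ?_
          intro v hv
          rw [← hP.tt]
          exact hv.1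
        have hle := Set.ncard_le_ncard (s := ((P.filter (fun o => (nv o.2 : ℝ) ≤ (2 : ℝ) ^ j)).image
          (fun o : PL L => bl k o.2) : Finset (Pr k))) (t := {v : Pr k | v ∈ TT S ((el b c : 𝓞 k) : k) ∧
            (nv v : ℝ) ≤ (2 : ℝ) ^ j}) (by
          intro v hv
          rw [Finset.mem_coe, Finset.mem_image] at hv
          obtain ⟨o₂, h₂, rfl⟩ := hv
          rw [Finset.mem_filter] at h₂
          refine ⟨?_, ?_⟩
          · rw [hP.tt]
            exact ⟨o₂, h₂.1, rfl⟩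
          · have h3 : (nv (bl k o₂.2) : ℝ) ≤ nv o₂.2 := by exact_mod_cast nv_bl_le o₂.2
            exact h3.trans h₂.2) hfin
        exact_mod_cast hle
  have hN1 : 1 ≤ N := by omega
  have hNn : (0 : ℝ) ≤ (N : ℝ) ^ n := by positivity
  have h0 := hom N hN1
  have hjb : ∀ j ∈ T, (((box.filter (pj j)).card : ℕ) : ℝ) ≤
      A * ((j : ℝ) * Real.log 2) ^ (-1 - δ) * (N : ℝ) ^ n := by
    intro j hj
    rw [hT, Finset.mem_Icc] at hj
    have h1 : Y₀ ≤ (2 : ℝ) ^ j := by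
      have h2 : J₂ ≤ J₁ := (le_max_left _ _).trans (le_max_right _ _)
      exact hJ₂.le.trans (pow_le_pow_right₀ (by norm_num) (by omega))
    have h2 : Real.log ((2 : ℝ) ^ j) ≤ Real.log N ^ (1 - 1 / ((2 * K : ℕ) : ℝ)) := by
      rw [Real.log_pow, ← hX₂]
      have h3 : (0 : ℝ) ≤ X₂ / Real.log 2 := by
        have : 0 ≤ Real.log N := Real.log_nonneg (by exact_mod_cast hN1)
        positivity
      have h4 : (j : ℝ) ≤ X₂ / Real.log 2 := (Nat.cast_le.2 hj.2).trans (Nat.floor_le h3)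
      rwa [le_div_iff₀ hlog2] at h4
    have h3 := hsc N hNN₁ ((2 : ℝ) ^ j) h1 h2
    rw [w6_card N (pj j)] at h3
    calc (((box.filter (pj j)).card : ℕ) : ℝ) ≤ A * (N : ℝ) ^ n * Real.log ((2 : ℝ) ^ j) ^ (-1 - δ) := h3
      _ = _ := by
        rw [Real.log_pow]
        ring
  rw [w6_card N p₀] at h0
  rw [w6_card N]
  have hcard : ((box.filter (fun c => c ≠ 0 ∧ ∃ (x : κ) (P : Finset (PL L)),
        Cf8 S al (E x) ((el b c : 𝓞 k) : k) P ∧
        (∀ o ∈ P, o.1 ≠ W → Real.log (nv o.2) ≤ Real.log N ^ (1 - 1 / (K : ℝ))) ∧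
        ∃ o ∈ P, o.1 ≠ W ∧ 2 ^ J₁ < nv o.2)).card : ℝ) ≤
      ((box.filter p₀).card : ℝ) + ∑ j ∈ T, ((box.filter (pj j)).card : ℝ) := by
    have h1 := (Finset.card_le_card hsub).trans ((Finset.card_union_le _ _).trans
      (Nat.add_le_add_left Finset.card_biUnion_le _))
    exact_mod_cast h1
  refine hcard.trans ?_
  have hsumT : ∑ j ∈ T, ((box.filter (pj j)).card : ℝ) ≤ ε / 2 * (N : ℝ) ^ n := by
    calc ∑ j ∈ T, ((box.filter (pj j)).card : ℝ)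
        ≤ ∑ j ∈ T, A * ((j : ℝ) * Real.log 2) ^ (-1 - δ) * (N : ℝ) ^ n := Finset.sum_le_sum hjb
      _ = (∑ j ∈ T, A * ((j : ℝ) * Real.log 2) ^ (-1 - δ)) * (N : ℝ) ^ n := by
          rw [Finset.sum_mul]
      _ ≤ ε / 2 * (N : ℝ) ^ n := by
          refine mul_le_mul_of_nonneg_right (hJt T fun j hj => ?_) hNn
          rw [hT, Finset.mem_Icc] at hj
          have : Jt ≤ J₁ := (le_max_right _ _).trans (le_max_left _ _)
          omega
  linarith

end SC8
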