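import Pool.Agent.MP_c1dca2_ag.SC5.F
import Pool.Agent.MP_c1dca2_ag.SC8.G1
import Pool.Agent.MP_c1dca2_ag.SC8.J2
import Pool.Agent.MP_c1dca2_ag.SC8.J3
import Pool.Agent.MP_c1dca2_ag.SC8.J4
import Pool.Agent.MP_c1dca2_ag.SC8.C7
import Pool.Agent.MP_c1dca2_ag.SC8.W6
import Pool.Agent.MP_c1dca2_ag.SC8.D5
import Pool.Agent.MP_c1dca2_ag.SC8.F9a
import Pool.Agent.MP_c1dca2_ag.SC8.F9b

/-!
# [SC8-G2] assembly
-/

set_option autoImplicit false

open NumberField IsDedekindDomain Polynomial Filter Topology SC2 SC3 SC5 SC7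

namespace SC8

theorem g2_box {ι : Type} [Fintype ι] (N : ℕ) (p : (ι → ℤ) → Prop) :
    {c : ι → ℤ | (∀ i, |c i| ≤ (N : ℤ)) ∧ p c}.Finite := by
  classical
  refine (Fintype.piFinset fun _ : ι => Finset.Icc (-(N : ℤ)) N).finite_toSet.subset ?_
  intro c hc
  rw [Finset.mem_coe, Fintype.mem_piFinset]
  intro i
  rw [Finset.mem_Icc]
  exact abs_le.1 (hc.1 i)

theorem g2_card {ι : Type} [Fintype ι] (N : ℕ) (p p₁ p₂ p₃ : (ι → ℤ) → Prop)
    (h : ∀ c : ι → ℤ, (∀ i, |c i| ≤ (N : ℤ)) → p c → c = 0 ∨ p₁ c ∨ p₂ c ∨ p₃ c) :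
    (Nat.card {c : ι → ℤ // (∀ i, |c i| ≤ (N : ℤ)) ∧ p c} : ℝ) ≤
      1 + Nat.card {c : ι → ℤ // (∀ i, |c i| ≤ (N : ℤ)) ∧ p₁ c} +
        Nat.card {c : ι → ℤ // (∀ i, |c i| ≤ (N : ℤ)) ∧ p₂ c} +
        Nat.card {c : ι → ℤ // (∀ i, |c i| ≤ (N : ℤ)) ∧ p₃ c} := by
  have h1 : ({c : ι → ℤ | (∀ i, |c i| ≤ (N : ℤ)) ∧ p c}).ncard ≤
      ((({0} ∪ {c : ι → ℤ | (∀ i, |c i| ≤ (N : ℤ)) ∧ p₁ c}) ∪
        {c : ι → ℤ | (∀ i, |c i| ≤ (N : ℤ)) ∧ p₂ c}) ∪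
          {c : ι → ℤ | (∀ i, |c i| ≤ (N : ℤ)) ∧ p₃ c}).ncard := by
    refine Set.ncard_le_ncard ?_ ((((Set.finite_singleton _).union (g2_box N p₁)).union
      (g2_box N p₂)).union (g2_box N p₃))
    rintro c ⟨hc1, hc2⟩
    rcases h c hc1 hc2 with h0 | h0 | h0 | h0
    · exact Or.inl (Or.inl (Or.inl h0))
    · exact Or.inl (Or.inl (Or.inr ⟨hc1, h0⟩))
    · exact Or.inl (Or.inr ⟨hc1, h0⟩)
    · exact Or.inr ⟨hc1, h0⟩
  have h2 := Set.ncard_union_le (({0} ∪ {c : ι → ℤ | (∀ i, |c i| ≤ (N : ℤ)) ∧ p₁ c}) ∪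
        {c : ι → ℤ | (∀ i, |c i| ≤ (N : ℤ)) ∧ p₂ c})
          {c : ι → ℤ | (∀ i, |c i| ≤ (N : ℤ)) ∧ p₃ c}
  have h3 := Set.ncard_union_le ({0} ∪ {c : ι → ℤ | (∀ i, |c i| ≤ (N : ℤ)) ∧ p₁ c})
        {c : ι → ℤ | (∀ i, |c i| ≤ (N : ℤ)) ∧ p₂ c}
  have h4 := Set.ncard_union_le ({0} : Set (ι → ℤ)) {c : ι → ℤ | (∀ i, |c i| ≤ (N : ℤ)) ∧ p₁ c}
  rw [Set.ncard_singleton] at h4
  have h5 : ({c : ι → ℤ | (∀ i, |c i| ≤ (N : ℤ)) ∧ p c}).ncard ≤
      1 + ({c : ι → ℤ | (∀ i, |c i| ≤ (N : ℤ)) ∧ p₁ c}).ncard +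
        ({c : ι → ℤ | (∀ i, |c i| ≤ (N : ℤ)) ∧ p₂ c}).ncard +
        ({c : ι → ℤ | (∀ i, |c i| ≤ (N : ℤ)) ∧ p₃ c}).ncard := by omega
  exact_mod_cast h5

theorem even_case {k : Type} [Field k] [NumberField k] (f : k[X]) (hsep : f.Separable)
    (heven : Even f.natDegree) (h6 : 6 ≤ f.natDegree) (w : k)
    (hroot : ∀ a : k, f.eval a = 0 ↔ a = w) {ι : Type} [Fintype ι]
    (b : Module.Basis ι ℤ (𝓞 k)) :
    Tendsto (fun N : ℕ => (Nat.card {c : ι → ℤ // (∀ i, |c i| ≤ N) ∧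
      ¬ SCJ.ModTwo k (C ((∑ i, c i • b i : 𝓞 k) : k) * f)} : ℝ) /
        (2 * N + 1) ^ (Fintype.card ι)) atTop (𝓝 0) := by
  classical
  obtain ⟨I, hI, L, θ, W, hR, hW1, hθ, h2, hsum⟩ := rf8_exists f hsep w hroot
  have hfin : Module.Finite k f.SplittingField := inferInstance
  have hnf : NumberField f.SplittingField := NumberField.of_module_finite k _
  have hgal : IsGalois k f.SplittingField := by
    have : Algebra.IsSeparable k f.SplittingField := inferInstance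
    have : Normal k f.SplittingField := inferInstance
    exact ⟨⟩
  have hLn : ∀ i, NumberField (L i) := fun i => SC4.nf (L i)
  have hf0 : f ≠ 0 := hsep.ne_zero
  have hdeg : Deg8 k (fun i => L i) W :=
    ⟨hW1, h2, by rw [hsum]; exact heven, by rw [hsum]; exact h6⟩
  obtain ⟨S, al, Cg, hS⟩ := gs8_exists (C := AlgebraicClosure k) (L := fun i => L i) hR hsep
  obtain ⟨κ, hκ, E, hE⟩ := interface8 hR hf0 hS
  obtain ⟨K, hK, htop⟩ := count_top (M := f.SplittingField) hS.fam W hdeg E b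
  have hn : 0 < Fintype.card ι := by
    rw [Fintype.card_pos_iff]
    by_contra hcon
    rw [not_nonempty_iff] at hcon
    have h1 : Subsingleton (𝓞 k) := b.repr.toEquiv.subsingleton
    exact one_ne_zero (Subsingleton.elim (1 : 𝓞 k) 0)
  have h1N : Tendsto (fun N : ℕ => (1 : ℝ) / (2 * N + 1) ^ (Fintype.card ι)) atTop (𝓝 0) := by
    have h1 : Tendsto (fun N : ℕ => ((2 * (N : ℝ) + 1) ^ (Fintype.card ι))) atTop atTop := by
      refine (tendsto_pow_atTop hn.ne').comp ?_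
      exact tendsto_atTop_add_const_right _ _
        (tendsto_natCast_atTop_atTop.const_mul_atTop (by norm_num))
    have h2 := h1.inv_tendsto_atTop
    refine h2.congr fun N => ?_
    rw [Pi.inv_apply, one_div]
  rw [Metric.tendsto_atTop]
  intro ε hε
  obtain ⟨B, N₁, hII⟩ := partII (M := f.SplittingField) hS.fam W hdeg E b K hK (ε / 2)
    (by positivity)
  have hIII := partIII hR hf0 hS W w hθ b B
  have hsum3 := (h1N.add htop).add hIII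
  rw [add_zero, add_zero] at hsum3
  rw [Metric.tendsto_atTop] at hsum3
  obtain ⟨N₂, hN₂⟩ := hsum3 (ε / 2) (by positivity)
  refine ⟨max N₁ N₂, fun N hN => ?_⟩
  have hII' := hII N (le_trans (le_max_left _ _) hN)
  have hN₂' := hN₂ N (le_trans (le_max_right _ _) hN)
  rw [Real.dist_0_eq_abs] at hN₂' ⊢
  have hD : (0 : ℝ) < (2 * N + 1) ^ (Fintype.card ι) := by positivity
  have hcard := g2_card (ι := ι) N
    (fun c => ¬ SCJ.ModTwo k (C ((∑ i, c i • b i : 𝓞 k) : k) * f))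
    (fun c => c ≠ 0 ∧ ∃ (x : κ) (P : Finset (PL fun i => ↥(L i))),
      Cf8 S al (E x) ((el b c : 𝓞 k) : k) P ∧
        ∃ o ∈ P, o.1 ≠ W ∧ Real.log N ^ (1 - 1 / (K : ℝ)) < Real.log (nv o.2))
    (fun c => c ≠ 0 ∧ ∃ (x : κ) (P : Finset (PL fun i => ↥(L i))),
        Cf8 S al (E x) ((el b c : 𝓞 k) : k) P ∧
        (∀ o ∈ P, o.1 ≠ W → Real.log (nv o.2) ≤ Real.log N ^ (1 - 1 / (K : ℝ))) ∧
        ∃ o ∈ P, o.1 ≠ W ∧ B < nv o.2)
    (fun c => c ≠ 0 ∧ ∃ D : Dat k (AlgebraicClosure k) f ((el b c : 𝓞 k) : k),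
        (∃ a a' : AlgebraicClosure k, aeval a f = 0 ∧ aeval a' f = 0 ∧ a ≠ a' ∧
          a ≠ algebraMap k _ w ∧ a' ≠ algebraMap k _ w ∧ ¬ ∃ t ∈ FF k a a',
            D.δ a a' * ((algebraMap k _ w - a) * (algebraMap k _ w - a')) = t ^ 2) ∧
        ∃ P : Finset (PL fun i => ↥(L i)), Conf θ S D P ∧ ∀ o ∈ P, o.1 ≠ W → nv o.2 ≤ B)
    (by
      intro c _ hbad
      by_cases h0 : c = 0
      · exact Or.inl h0
      right
      have hel : (el b c : 𝓞 k) ≠ 0 := by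
        intro h
        apply h0
        have h3 := (Fintype.linearIndependent_iff.1 b.linearIndependent) c h
        funext i
        exact h3 i
      have hel' : ((el b c : 𝓞 k) : k) ≠ 0 := fun h => hel (RingOfIntegers.ext h)
      obtain ⟨D, hD⟩ := exists_class f hsep heven (by omega) w ((hroot w).2 rfl)
        ((el b c : 𝓞 k) : k) hel' hbad
      obtain ⟨x, P, hP, hPx⟩ := hE (el b c) hel D
      by_cases h3 : ∃ o ∈ P, o.1 ≠ W ∧ Real.log N ^ (1 - 1 / (K : ℝ)) < Real.log (nv o.2)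
      · exact Or.inl ⟨h0, x, P, hPx, h3⟩
      · right
        push Not at h3
        by_cases h4 : ∃ o ∈ P, o.1 ≠ W ∧ B < nv o.2
        · exact Or.inl ⟨h0, x, P, hPx, h3, h4⟩
        · push Not at h4
          exact Or.inr ⟨h0, D, hD, P, hP, h4⟩)
  have hII'' : (Nat.card {c : ι → ℤ // (∀ i, |c i| ≤ N) ∧ c ≠ 0 ∧
      ∃ (x : κ) (P : Finset (PL fun i => ↥(L i))),
        Cf8 S al (E x) ((el b c : 𝓞 k) : k) P ∧
        (∀ o ∈ P, o.1 ≠ W → Real.log (nv o.2) ≤ Real.log N ^ (1 - 1 / (K : ℝ))) ∧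
        ∃ o ∈ P, o.1 ≠ W ∧ B < nv o.2} : ℝ) / (2 * N + 1) ^ (Fintype.card ι) ≤ ε / 2 := by
    rw [div_le_iff₀ hD]
    refine hII'.trans ?_
    refine mul_le_mul_of_nonneg_left ?_ (by positivity)
    refine pow_le_pow_left₀ (by positivity) ?_ _
    have : (0 : ℝ) ≤ N := by positivity
    linarith
  have hmain := div_le_div_of_nonneg_right hcard hD.le
  rw [add_div, add_div, add_div] at hmain
  rw [abs_of_nonneg (by positivity)]
  have hN₂'' := (le_abs_self _).trans_lt hN₂'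
  linarith

end SC8
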