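import Pool.Agent.MP_c1dca2_ag.SC8.G2

/-!
# [SC8-G3] the final theorem
-/

set_option autoImplicit false

open NumberField IsDedekindDomain Polynomial Filter Topology SC5

namespace SC8

theorem modTwo_of_noSection {k : Type} [Field k] (F : k[X]) (h : SCJ.NoSection k F) :
    SCJ.ModTwo k F := by
  intro K _ _ x y hx hxy _ s
  exact ((h K x y hx hxy).2.1.false s).elim

theorem g3_mono {ι : Type} [Fintype ι] (p q : (ι → ℤ) → Prop)
    (h : ∀ c : ι → ℤ, p c → c = 0 ∨ q c) (hn : 0 < Fintype.card ι)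
    (hq : Tendsto (fun N : ℕ => (Nat.card {c : ι → ℤ // (∀ i, |c i| ≤ (N : ℤ)) ∧ q c} : ℝ) /
      (2 * N + 1) ^ (Fintype.card ι)) atTop (𝓝 0)) :
    Tendsto (fun N : ℕ => (Nat.card {c : ι → ℤ // (∀ i, |c i| ≤ (N : ℤ)) ∧ p c} : ℝ) /
      (2 * N + 1) ^ (Fintype.card ι)) atTop (𝓝 0) := by
  have h1N : Tendsto (fun N : ℕ => (1 : ℝ) / (2 * N + 1) ^ (Fintype.card ι)) atTop (𝓝 0) := by
    have h1 : Tendsto (fun N : ℕ => ((2 * (N : ℝ) + 1) ^ (Fintype.card ι))) atTop atTop := by
      refine (tendsto_pow_atTop hn.ne').comp ?_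
      exact tendsto_atTop_add_const_right _ _
        (tendsto_natCast_atTop_atTop.const_mul_atTop (by norm_num))
    have h2 := h1.inv_tendsto_atTop
    refine h2.congr fun N => ?_
    rw [Pi.inv_apply, one_div]
  have hsum := h1N.add hq
  rw [add_zero] at hsum
  refine squeeze_zero (fun N => by positivity) (fun N => ?_) hsum
  have hD : (0 : ℝ) < (2 * N + 1) ^ (Fintype.card ι) := by positivity
  rw [← add_div]
  refine div_le_div_of_nonneg_right ?_ hD.le
  have h1 : ({c : ι → ℤ | (∀ i, |c i| ≤ (N : ℤ)) ∧ p c}).ncard ≤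
      ({0} ∪ {c : ι → ℤ | (∀ i, |c i| ≤ (N : ℤ)) ∧ q c}).ncard := by
    refine Set.ncard_le_ncard ?_ ((Set.finite_singleton _).union (g2_box N q))
    rintro c ⟨hc1, hc2⟩
    rcases h c hc2 with h0 | h0
    · exact Or.inl h0
    · exact Or.inr ⟨hc1, h0⟩
  have h4 := Set.ncard_union_le ({0} : Set (ι → ℤ)) {c : ι → ℤ | (∀ i, |c i| ≤ (N : ℤ)) ∧ q c}
  rw [Set.ncard_singleton] at h4
  have h5 := h1.trans h4
  exact_mod_cast h5

theorem g3_rate {ι : Type} [Fintype ι] (p : (ι → ℤ) → Prop) (δ A : ℝ) (hδ : 0 < δ)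
    (h : ∀ N : ℕ, 2 ≤ N → (Nat.card {c : ι → ℤ // (∀ i, |c i| ≤ (N : ℤ)) ∧ p c} : ℝ) ≤
      A * (N : ℝ) ^ (Fintype.card ι) / Real.log N ^ δ) :
    Tendsto (fun N : ℕ => (Nat.card {c : ι → ℤ // (∀ i, |c i| ≤ (N : ℤ)) ∧ p c} : ℝ) /
      (2 * N + 1) ^ (Fintype.card ι)) atTop (𝓝 0) := by
  have h1 : Tendsto (fun N : ℕ => |A| * (Real.log N ^ δ)⁻¹) atTop (𝓝 0) := by
    have h2 : Tendsto (fun N : ℕ => Real.log (N : ℝ) ^ δ) atTop atTop :=
      (tendsto_rpow_atTop hδ).comp (Real.tendsto_log_atTop.comp tendsto_natCast_atTop_atTop)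
    simpa using h2.inv_tendsto_atTop.const_mul |A|
  refine squeeze_zero' (Eventually.of_forall fun N => by positivity) ?_ h1
  filter_upwards [eventually_ge_atTop 2] with N hN
  have hD : (0 : ℝ) < (2 * N + 1) ^ (Fintype.card ι) := by positivity
  rw [div_le_iff₀ hD]
  refine (h N hN).trans ?_
  have hlog : 0 < Real.log N := Real.log_pos (by exact_mod_cast hN)
  have h3 : (0 : ℝ) < Real.log N ^ δ := Real.rpow_pos_of_pos hlog _
  have h4 : (N : ℝ) ^ (Fintype.card ι) ≤ (2 * N + 1) ^ (Fintype.card ι) := by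
    refine pow_le_pow_left₀ (by positivity) ?_ _
    have : (0 : ℝ) ≤ N := by positivity
    linarith
  rw [div_eq_mul_inv, mul_right_comm]
  calc A * (Real.log N ^ δ)⁻¹ * (N : ℝ) ^ (Fintype.card ι)
      ≤ |A| * (Real.log N ^ δ)⁻¹ * (N : ℝ) ^ (Fintype.card ι) := by
        refine mul_le_mul_of_nonneg_right ?_ (by positivity)
        exact mul_le_mul_of_nonneg_right (le_abs_self A) (by positivity)
    _ ≤ |A| * (Real.log N ^ δ)⁻¹ * (2 * N + 1) ^ (Fintype.card ι) :=
        mul_le_mul_of_nonneg_left h4 (by positivity)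

theorem main {k : Type} [Field k] [NumberField k] (f : k[X]) (hsep : f.Separable)
    (h5 : 5 ≤ f.natDegree) (hr : f.roots.card + f.natDegree % 2 ≤ 1) {ι : Type} [Fintype ι]
    (b : Module.Basis ι ℤ (𝓞 k)) :
    Tendsto (fun N : ℕ => (Nat.card {c : ι → ℤ // (∀ i, |c i| ≤ N) ∧
      ¬ SCJ.ModTwo k (C ((∑ i, c i • b i : 𝓞 k) : k) * f)} : ℝ) /
        (2 * N + 1) ^ (Fintype.card ι)) atTop (𝓝 0) := by
  classical
  have hf0 : f ≠ 0 := hsep.ne_zero
  have hn : 0 < Fintype.card ι := by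
    rw [Fintype.card_pos_iff]
    by_contra hcon
    rw [not_nonempty_iff] at hcon
    have h1 : Subsingleton (𝓞 k) := b.repr.toEquiv.subsingleton
    exact one_ne_zero (Subsingleton.elim (1 : 𝓞 k) 0)
  rcases Nat.even_or_odd f.natDegree with heven | hodd
  · have h0 : f.natDegree % 2 = 0 := Nat.even_iff.1 heven
    rcases Nat.eq_zero_or_pos f.roots.card with hc | hc
    · have hroot : ∀ a : k, f.eval a ≠ 0 := by
        intro a ha
        have h1 : a ∈ f.roots := (mem_roots hf0).2 ha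
        rw [Multiset.card_eq_zero.1 hc] at h1
        exact absurd h1 (Multiset.notMem_zero a)
      obtain ⟨δ, A, hδ, hA⟩ := SC5.main f hsep heven (by omega) hroot b
      refine g3_mono _ _ (fun c hc => Or.inr ?_) hn (g3_rate
        (fun c : ι → ℤ => ¬ SCJ.NoSection k (C ((∑ i, c i • b i : 𝓞 k) : k) * f)) δ A hδ hA)
      exact fun h => hc (modTwo_of_noSection _ h)
    · have hc1 : f.roots.card = 1 := by omega
      obtain ⟨w, hw⟩ := Multiset.card_eq_one.1 hc1
      refine even_case f hsep heven (by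
        obtain ⟨m, hm⟩ := heven
        omega) w (fun a => ?_) b
      have h1 : a ∈ f.roots ↔ a = w := by rw [hw, Multiset.mem_singleton]
      rw [← h1, mem_roots hf0]
      rfl
  · have h0 : f.natDegree % 2 = 1 := Nat.odd_iff.1 hodd
    have hc : f.roots.card = 0 := by omega
    have hroot : ∀ a : k, f.eval a ≠ 0 := by
      intro a ha
      have h1 : a ∈ f.roots := (mem_roots hf0).2 ha
      rw [Multiset.card_eq_zero.1 hc] at h1
      exact absurd h1 (Multiset.notMem_zero a)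
    obtain ⟨h1, h2, h3⟩ := odd_poly f hsep hroot
    have h4 := even_case (X * f.reverse) h1 (by rw [h2]; exact hodd.add_one) (by omega) 0 h3 b
    refine g3_mono _ _ (fun c hc => ?_) hn h4
    by_cases h0 : c = 0
    · exact Or.inl h0
    · right
      intro h
      apply hc
      refine odd_modTwo f hodd hroot _ ?_ h
      intro h6
      apply h0
      have h7 : (∑ i, c i • b i : 𝓞 k) = 0 := RingOfIntegers.ext h6
      have h8 := (Fintype.linearIndependent_iff.1 b.linearIndependent) c h7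
      funext i
      exact h8 i

end SC8
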