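import Pool.Agent.MP_c1dca2_ag.SC8.S

/-!
# Sections modulo 2 (MP_c1dca2_ag): statement-level definitions, II
-/

set_option autoImplicit false

open Polynomial

namespace SCJ

/-- The curve `y² = F(x)` has no rational Weierstrass point. -/
def NoRatW {k : Type} [Field k] (F : k[X]) : Prop := Even F.natDegree ∧ ∀ a : k, F.eval a ≠ 0

/-- Every section for the curve `y² = F(x)` is congruent modulo `2` to the sections of some rational
Weierstrass point; and if there is no such point, then there is no section for the curve and for the
curves over it (no rational point, and the section conjecture holds for them). -/
def SectModTwo (k : Type) [Field k] (F : k[X]) : Prop :=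
  ModTwo k F ∧ (NoRatW F → NoSection k F)

end SCJ
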