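import Pool.Agent.MP_c1dca2_ag.SC8.G3
import Pool.Agent.MP_c1dca2_ag.SC8.S2

/-!
# [SC8-G4] the final theorem, with a rate if there is no rational Weierstrass point
-/

set_option autoImplicit false

open NumberField IsDedekindDomain Polynomial Filter Topology SC5

namespace SC8

theorem noRatW_mul {k : Type} [Field k] (f : k[X]) (c : k) (hc : c ≠ 0) :
    SCJ.NoRatW (C c * f) ↔ SCJ.NoRatW f := by
  unfold SCJ.NoRatW
  rw [natDegree_C_mul hc]
  refine and_congr_right fun _ => forall_congr' fun a => ?_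
  rw [eval_mul, eval_C]
  exact ⟨fun h h0 => h (by rw [h0, mul_zero]), fun h => mul_ne_zero hc h⟩

theorem main' {k : Type} [Field k] [NumberField k] (f : k[X]) (hsep : f.Separable)
    (h5 : 5 ≤ f.natDegree) (hr : f.roots.card + f.natDegree % 2 ≤ 1) {ι : Type} [Fintype ι]
    (b : Module.Basis ι ℤ (𝓞 k)) :
    ∃ ε : ℕ → ℝ, Tendsto ε atTop (𝓝 0) ∧
      (SCJ.NoRatW f → ∃ δ A : ℝ, 0 < δ ∧ ∀ N : ℕ, 2 ≤ N → ε N ≤ A / Real.log N ^ δ) ∧
      ∀ N : ℕ, (Nat.card {c : ι → ℤ // (∀ i, |c i| ≤ N) ∧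
        ¬ SCJ.SectModTwo k (C ((∑ i, c i • b i : 𝓞 k) : k) * f)} : ℝ) ≤
          ε N * (2 * N + 1) ^ (Fintype.card ι) := by
  classical
  have hf0 : f ≠ 0 := hsep.ne_zero
  have hn : 0 < Fintype.card ι := by
    rw [Fintype.card_pos_iff]
    by_contra hcon
    rw [not_nonempty_iff] at hcon
    have h1 : Subsingleton (𝓞 k) := b.repr.toEquiv.subsingleton
    exact one_ne_zero (Subsingleton.elim (1 : 𝓞 k) 0)
  refine ⟨fun N => (Nat.card {c : ι → ℤ // (∀ i, |c i| ≤ N) ∧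
        ¬ SCJ.SectModTwo k (C ((∑ i, c i • b i : 𝓞 k) : k) * f)} : ℝ) /
          (2 * N + 1) ^ (Fintype.card ι), ?_, ?_, ?_⟩
  · by_cases hW : SCJ.NoRatW f
    · obtain ⟨δ, A, hδ, hA⟩ := SC5.main f hsep hW.1 (by omega) hW.2 b
      refine g3_mono _ _ (fun c hc => Or.inr ?_) hn (g3_rate
        (fun c : ι → ℤ => ¬ SCJ.NoSection k (C ((∑ i, c i • b i : 𝓞 k) : k) * f)) δ A hδ hA)
      exact fun h => hc ⟨modTwo_of_noSection _ h, fun _ => h⟩
    · refine g3_mono _ (fun c : ι → ℤ => ¬ SCJ.ModTwo k (C ((∑ i, c i • b i : 𝓞 k) : k) * f))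
        (fun c hc => ?_) hn (main f hsep h5 hr b)
      by_cases h0 : c = 0
      · exact Or.inl h0
      · right
        intro h
        apply hc
        refine ⟨h, fun h1 => absurd ((noRatW_mul f _ ?_).1 h1) hW⟩
        intro h6
        apply h0
        have h7 : (∑ i, c i • b i : 𝓞 k) = 0 := RingOfIntegers.ext h6
        have h8 := (Fintype.linearIndependent_iff.1 b.linearIndependent) c h7
        funext i
        exact h8 i
  · intro hW
    obtain ⟨δ, A, hδ, hA⟩ := SC5.main f hsep hW.1 (by omega) hW.2 b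
    refine ⟨δ, |A|, hδ, fun N hN => ?_⟩
    have hD : (0 : ℝ) < (2 * N + 1) ^ (Fintype.card ι) := by positivity
    have hlog : 0 < Real.log N := Real.log_pos (by exact_mod_cast hN)
    have h3 : (0 : ℝ) < Real.log N ^ δ := Real.rpow_pos_of_pos hlog _
    rw [div_le_iff₀ hD]
    have h1 : (Nat.card {c : ι → ℤ // (∀ i, |c i| ≤ (N : ℤ)) ∧
        ¬ SCJ.SectModTwo k (C ((∑ i, c i • b i : 𝓞 k) : k) * f)}) ≤
        Nat.card {c : ι → ℤ // (∀ i, |c i| ≤ (N : ℤ)) ∧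
        ¬ SCJ.NoSection k (C ((∑ i, c i • b i : 𝓞 k) : k) * f)} := by
      refine Set.ncard_le_ncard (s := {c : ι → ℤ | (∀ i, |c i| ≤ (N : ℤ)) ∧
        ¬ SCJ.SectModTwo k (C ((∑ i, c i • b i : 𝓞 k) : k) * f)})
        (t := {c : ι → ℤ | (∀ i, |c i| ≤ (N : ℤ)) ∧
        ¬ SCJ.NoSection k (C ((∑ i, c i • b i : 𝓞 k) : k) * f)}) ?_ (g2_box N _)
      rintro c ⟨hc1, hc2⟩
      exact ⟨hc1, fun h => hc2 ⟨modTwo_of_noSection _ h, fun _ => h⟩⟩
    have h2 : ((Nat.card {c : ι → ℤ // (∀ i, |c i| ≤ (N : ℤ)) ∧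
        ¬ SCJ.SectModTwo k (C ((∑ i, c i • b i : 𝓞 k) : k) * f)} : ℕ) : ℝ) ≤
        (Nat.card {c : ι → ℤ // (∀ i, |c i| ≤ (N : ℤ)) ∧
        ¬ SCJ.NoSection k (C ((∑ i, c i • b i : 𝓞 k) : k) * f)} : ℕ) := Nat.cast_le.2 h1
    refine h2.trans ((hA N hN).trans ?_)
    have h4 : (N : ℝ) ^ (Fintype.card ι) ≤ (2 * N + 1) ^ (Fintype.card ι) := by
      refine pow_le_pow_left₀ (by positivity) ?_ _
      have : (0 : ℝ) ≤ N := by positivity
      linarith
    calc A * (N : ℝ) ^ (Fintype.card ι) / Real.log N ^ δ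
        ≤ |A| * (2 * N + 1) ^ (Fintype.card ι) / Real.log N ^ δ := by
          refine div_le_div_of_nonneg_right ?_ h3.le
          exact (mul_le_mul_of_nonneg_right (le_abs_self A) (by positivity)).trans
            (mul_le_mul_of_nonneg_left h4 (abs_nonneg A))
      _ = |A| / Real.log N ^ δ * (2 * N + 1) ^ (Fintype.card ι) := by ring
  · intro N
    have hD : (0 : ℝ) < (2 * N + 1) ^ (Fintype.card ι) := by positivity
    rw [div_mul_cancel₀ _ hD.ne']

end SC8
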