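import Pool.Agent.MP_c1dca2_ag.SC8.Defs
import Pool.Agent.MP_c1dca2_ag.SC7.U2

/-!
# [SC8-M1] the mass of the relation at a prime (copy of SC7/U2)

Copy SC7/U2.lean (`mass_le`, `mass_split`; its general lemmas `sum_eq`, `beta3_congr`, `le_two_pow`, ... can be used from there) with
`Deg8` in place of `Deg3`. Let `F = card T`, `m = card (up k J o)` (`o ∈ T`; `T ⊆ up k J o`). If not all primes of odd degree above `v`
have their index in `J`: `F / 2^(m-1) ≤ F / 2^(F-1) ≤ 1`. Otherwise `beta3 = 1 / 2^(m-2)`: `m ≥ F + 1`: `F / 2^(F-1) ≤ 1`; `m = F`: all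
primes above `v` with index in `J` have degree `1` and `F = nJ k L J` (`hun`). `F ≥ 4`: `F / 2^(F-2) ≤ 1`. `F = 1, 3`: the sum of the
degrees of the `L i`, `i ∉ J`, is odd (`hdeg.even`), so some `L i`, `i ∉ J`, has odd degree and a prime of odd degree above `v`
(`exists_odd_of_odd`): contradiction. `F = 2`: `J` does not contain `W` (otherwise `nJ ≥ 3`, or `J = {W}` and `nJ = 1`: `two_le`, `one`), so
the prime of `L W` above `v` (degree 1, odd) has its index outside `J`: contradiction.
`mass_split8`: `v` totally split: all primes have degree `1`, `m = nJ ≥ 3`, `F ≤ m`. `J = univ`: `m / 2^(m-2)`, `m ≥ 6`. `J ≠ univ`: some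
prime of odd degree has index outside `J`: `m / 2^(m-1) ≤ 3/4`.
-/

set_option autoImplicit false

open NumberField IsDedekindDomain SC5 SC7

namespace SC8

theorem mass_le8 {k : Type} [Field k] [NumberField k] {I : Type} [Fintype I] {L : I → Type}
    [∀ i, Field (L i)] [∀ i, NumberField (L i)] [∀ i, Algebra k (L i)] (S : Finset (Pr k)) (W : I)
    (hdeg : Deg8 k L W)
    (hun : ∀ i, ∀ v, v ∉ S → ∀ T : Finset (Pr (L i)), (∀ w, w ∈ T ↔ bl k w = v) →
      ∑ w ∈ T, dg k w = Module.finrank k (L i))
    (J : Finset I) (v : Pr k) (hv : v ∉ S) (T : Finset (PL L))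
    (hT : ∀ o ∈ T, o.1 ∈ J ∧ dg k o.2 = 1 ∧ bl k o.2 = v) :
    ∑ o ∈ T, beta3 k J o ≤ 1 := by

  classical
  rcases T.eq_empty_or_nonempty with rfl | ⟨o, ho⟩
  · rw [Finset.sum_empty]
    exact zero_le_one
  rw [sum_eq J v T hT o ho]
  obtain ⟨hoJ, hod, hov⟩ := hT o ho
  have hsub : T ⊆ up k J o := by
    intro q hq
    obtain ⟨h1, h2, h3⟩ := hT q hq
    exact (mem_up J o q).2 ⟨h1, h3.trans hov.symm⟩
  have hF1 : 1 ≤ T.card := Finset.card_pos.2 ⟨o, ho⟩
  have hFm : T.card ≤ (up k J o).card := Finset.card_le_card hsub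
  have hb := le_two_pow T.card hF1
  unfold beta3
  by_cases hs : ∀ q : PL L, bl k q.2 = bl k o.2 → Odd (dg k q.2) → q.1 ∈ J
  · rw [if_pos hs]
    rcases Nat.lt_or_ge T.card (up k J o).card with hlt | hge
    · rw [mul_one_div, div_le_one (by positivity)]
      exact hb.trans (two_pow_mono (by omega))
    · have hTe : T = up k J o := Finset.eq_of_subset_of_card_le hsub hge
      have hcard : (up k J o).card = T.card := by rw [← hTe]
      have hsumd : T.card = ∑ i ∈ J, Module.finrank k (L i) := by
        have h1 : T.card = ∑ q ∈ up k J o, dg k q.2 := by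
          rw [← hTe, Finset.card_eq_sum_ones]
          refine Finset.sum_congr rfl fun q hq => ?_
          exact ((hT q hq).2.1).symm
        rw [h1]
        refine (sum_up J o (fun q => dg k q.2)).trans ?_
        refine Finset.sum_congr rfl fun i _ => ?_
        rw [hov]
        exact hun i v hv _ (fun w => by rw [Set.Finite.mem_toFinset]; rfl)
      rw [hcard]
      by_cases h4 : 4 ≤ T.card
      · rw [mul_one_div, div_le_one (by positivity)]
        exact le_two_pow' T.card h4
      · exfalso
        have hodd : ∀ s, Odd (Module.finrank k (L s)) → s ∈ J := by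
          intro s hsodd
          obtain ⟨w, hwv, hwodd⟩ := exists_odd_of_odd S hun v hv s hsodd
          exact hs ⟨s, w⟩ (hwv.trans hov.symm) hwodd
        have hWJ : W ∈ J := hodd W (by rw [hdeg.one]; exact odd_one)
        have h8 := Finset.sum_erase_add J (fun i => Module.finrank k (L i)) hWJ
        rw [hdeg.one] at h8
        -- the sum over the other elements of `J`
        have h9 : J.erase W = ∅ ∨ 2 ≤ ∑ i ∈ J.erase W, Module.finrank k (L i) := by
          rcases (J.erase W).eq_empty_or_nonempty with h | ⟨i, hi⟩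
          · exact Or.inl h
          · right
            refine (hdeg.two_le i (Finset.ne_of_mem_erase hi)).trans ?_
            exact Finset.single_le_sum (f := fun i => Module.finrank k (L i)) (fun _ _ => Nat.zero_le _) hi
        -- the total sum is even and every odd degree is in `J`
        have h10 : Even (∑ i ∈ Finset.univ \ J, Module.finrank k (L i)) := by
          refine Finset.even_sum _ fun i hi => ?_
          rw [Finset.mem_sdiff] at hi
          exact Nat.not_odd_iff_even.1 fun h => hi.2 (hodd i h)
        have h11 := Finset.sum_sdiff (f := fun i => Module.finrank k (L i)) (Finset.subset_univ J)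
        have h12 := hdeg.even
        rw [← h11] at h12
        obtain ⟨x, hx⟩ := h10
        obtain ⟨y, hy⟩ := h12
        rcases h9 with h9 | h9
        · rw [h9, Finset.sum_empty] at h8
          omega
        · omega
  · rw [if_neg hs, mul_one_div, div_le_one (by positivity)]
    exact hb.trans (two_pow_mono (by omega))

theorem mass_split8 {k : Type} [Field k] [NumberField k] {I : Type} [Fintype I] {L : I → Type}
    [∀ i, Field (L i)] [∀ i, NumberField (L i)] [∀ i, Algebra k (L i)] (S : Finset (Pr k)) (W : I)
    (hdeg : Deg8 k L W)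
    (hun : ∀ i, ∀ v, v ∉ S → ∀ T : Finset (Pr (L i)), (∀ w, w ∈ T ↔ bl k w = v) →
      ∑ w ∈ T, dg k w = Module.finrank k (L i))
    (J : Finset I) (hJ : 3 ≤ nJ k L J) (v : Pr k) (hv : v ∉ S) (hs : Spl k L v) (T : Finset (PL L))
    (hT : ∀ o ∈ T, o.1 ∈ J ∧ dg k o.2 = 1 ∧ bl k o.2 = v) :
    ∑ o ∈ T, beta3 k J o ≤ 3 / 4 := by

  classical
  rcases T.eq_empty_or_nonempty with rfl | ⟨o, ho⟩
  · rw [Finset.sum_empty]
    norm_num
  rw [sum_eq J v T hT o ho]
  obtain ⟨hoJ, hod, hov⟩ := hT o ho
  have hsub : T ⊆ up k J o := by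
    intro q hq
    obtain ⟨h1, h2, h3⟩ := hT q hq
    exact (mem_up J o q).2 ⟨h1, h3.trans hov.symm⟩
  have hFm : T.card ≤ (up k J o).card := Finset.card_le_card hsub
  have hoS : bl k o.2 ∉ S := by rw [hov]; exact hv
  have hm : (up k J o).card = nJ k L J := card_up S hun o hoS (by rw [hov]; exact hs) J
  have h3m : 3 ≤ (up k J o).card := by rw [hm]; exact hJ
  have hFm' : (T.card : ℝ) ≤ (up k J o).card := by exact_mod_cast hFm
  refine (mul_le_mul_of_nonneg_right hFm' (beta3_nonneg J o)).trans ?_
  unfold beta3
  by_cases hss : ∀ q : PL L, bl k q.2 = bl k o.2 → Odd (dg k q.2) → q.1 ∈ J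
  · rw [if_pos hss]
    have hJu : J = Finset.univ := by
      rw [Finset.eq_univ_iff_forall]
      intro i
      have hT' := hun i v hv (finite_bl (L := L i) v).toFinset (fun w => by
        rw [Set.Finite.mem_toFinset]
        rfl)
      have hne : (finite_bl (L := L i) v).toFinset.Nonempty := by
        rw [Finset.nonempty_iff_ne_empty]
        intro h0
        rw [h0, Finset.sum_empty] at hT'
        by_cases hiW : i = W
        · subst hiW
          have := hdeg.one
          omega
        · have := hdeg.two_le i hiW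
          omega
      obtain ⟨w, hw⟩ := hne
      rw [Set.Finite.mem_toFinset] at hw
      have hw1 : dg k w = 1 := hs i w hw
      have hw2 : Odd (dg k w) := by rw [hw1]; exact odd_one
      have hw3 : bl k w = v := hw
      exact hss ⟨i, w⟩ (hw3.trans hov.symm) hw2
    have h6 : 6 ≤ (up k J o).card := by
      rw [hm, hJu]
      exact hdeg.six_le
    rw [mul_one_div, div_le_iff₀ (by positivity)]
    exact le_three_quarters' _ h6
  · rw [if_neg hss, mul_one_div, div_le_iff₀ (by positivity)]
    exact le_three_quarters _ h3m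

end SC8
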