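import Pool.Agent.MP_c1dca2_ag.SC8.Defs
import Pool.Agent.MP_c1dca2_ag.SC7.U2

/-!
# [SC8-M2] the mass of an index of degree 2

`beta3 k {t} o`, `o = (t, w)` of degree `1`, `finrank k (L t) = 2`: the degrees of the primes of `L t` above `v = bl k w` sum to `2`
(`hun`, with `T = (finite_bl v).toFinset`), one of them is `1`, so `up k {t} o` has exactly two elements. The prime of `L W` above `v`
(`exists_bl`) has degree `1` (`hun`, `hdeg.one`, `dg_pos`), which is odd, and its index `W ≠ t` is not in `{t}`. So the condition in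
`beta3` fails and `beta3 = 1 / 2 ^ (2 - 1)`. `beta3_le_one`: unfold, `1 / 2 ^ n ≤ 1`.
-/

set_option autoImplicit false

open NumberField IsDedekindDomain SC5 SC7

namespace SC8

theorem beta3_le_one {k : Type} [Field k] [NumberField k] {I : Type} {L : I → Type}
    [∀ i, Field (L i)] [∀ i, NumberField (L i)] [∀ i, Algebra k (L i)] (J : Finset I) (o : PL L) :
    beta3 k J o ≤ 1 := by
  have h : ∀ n : ℕ, (1 : ℝ) / 2 ^ n ≤ 1 := fun n => by
    rw [div_le_one (by positivity)]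
    exact one_le_pow₀ (by norm_num)
  unfold beta3
  split_ifs
  · exact h _
  · exact h _

theorem beta3_quad {k : Type} [Field k] [NumberField k] {I : Type} [Fintype I] {L : I → Type}
    [∀ i, Field (L i)] [∀ i, NumberField (L i)] [∀ i, Algebra k (L i)] (S : Finset (Pr k)) (W : I)
    (hdeg : Deg8 k L W)
    (hun : ∀ i, ∀ v, v ∉ S → ∀ T : Finset (Pr (L i)), (∀ w, w ∈ T ↔ bl k w = v) →
      ∑ w ∈ T, dg k w = Module.finrank k (L i))
    (t : I) (ht : Module.finrank k (L t) = 2) (o : PL L) (ho : o.1 = t) (hd : dg k o.2 = 1)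
    (hoS : bl k o.2 ∉ S) : beta3 k {t} o ≤ 1 / 2 := by
  classical
  obtain ⟨i, w⟩ := o
  simp only at ho hd hoS
  subst ho
  have hWi : W ≠ i := by
    rintro rfl
    have := hdeg.one
    omega
  have hno : ¬ ∀ q : PL L, bl k q.2 = bl k w → Odd (dg k q.2) → q.1 ∈ ({i} : Finset I) := by
    intro hs
    obtain ⟨w', hw1, hw2⟩ := exists_odd_of_odd S hun (bl k w) hoS W (by rw [hdeg.one]; exact odd_one)
    have h1 := hs ⟨W, w'⟩ hw1 hw2
    exact hWi (Finset.mem_singleton.1 h1)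
  have hmem : (⟨i, w⟩ : PL L) ∈ up k {i} (⟨i, w⟩ : PL L) :=
    (mem_up {i} ⟨i, w⟩ ⟨i, w⟩).2 ⟨Finset.mem_singleton_self _, rfl⟩
  have hsum : ∑ q ∈ up k {i} (⟨i, w⟩ : PL L), dg k q.2 = 2 := by
    refine (sum_up {i} (⟨i, w⟩ : PL L) (fun q => dg k q.2)).trans ?_
    rw [Finset.sum_singleton, ← ht]
    exact hun i (bl k w) hoS _ (fun w => by rw [Set.Finite.mem_toFinset]; rfl)
  have hcard : 2 ≤ (up k {i} (⟨i, w⟩ : PL L)).card := by
    by_contra hcon
    push Not at hcon
    have h1 : 1 ≤ (up k {i} (⟨i, w⟩ : PL L)).card := Finset.card_pos.2 ⟨_, hmem⟩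
    obtain ⟨q, hq⟩ := Finset.card_eq_one.1 (by omega : (up k {i} (⟨i, w⟩ : PL L)).card = 1)
    rw [hq] at hmem
    have hmem' : (⟨i, w⟩ : PL L) = q := Finset.mem_singleton.1 hmem
    rw [hq, Finset.sum_singleton, ← hmem'] at hsum
    have hsum' : dg k w = 2 := hsum
    omega
  unfold beta3
  rw [if_neg hno]
  apply one_div_le_one_div_of_le (by norm_num)
  calc (2 : ℝ) = 2 ^ 1 := by norm_num
    _ ≤ 2 ^ ((up k {i} (⟨i, w⟩ : PL L)).card - 1) := pow_le_pow_right₀ (by norm_num) (by omega)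

end SC8
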