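import Pool.Agent.MP_c1dca2_ag.SC8.M1
import Pool.Agent.MP_c1dca2_ag.SC8.M2
import Pool.Agent.MP_c1dca2_ag.SC5.A8

/-!
# [SC8-M3] the average mass is smaller than 1 (cf. SC7/U4, SC5/A9)

`d, C₁` from `split_lower L M S`, `C₂ ≥ 0` from `sum_upper k`, `C₃ ≥ 0` from `sum_upper (L t)` (maximum over `t`), `η = d / 4` (`≤ 1/2`).
Case `3 ≤ nJ k L J`: let `V` = the finset `T.image (fun o => bl k o.2)`, `V₁` the set of totally split primes from `split_lower`
(`z < nv v ≤ z'`, not in `S`). `nv o.2 = nv (bl k o.2)` for `dg = 1` (`nv_eq`). Over `v ∈ V` group: the sum is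
`∑_{v ∈ V} (nv v)⁻¹ m v`, `m v = ∑_{o ∈ T, bl o = v} beta3 k J o`, `0 ≤ m v ≤ 1` and `m v ≤ 3/4` if `v ∈ V₁` (`mass_le8`, `mass_split8`; `SC7.beta3_nonneg`). So it is at most
`∑_{v ∈ V ∪ V₁} (nv v)⁻¹ - 1/4 ∑_{v ∈ V₁} (nv v)⁻¹ ≤ l + C₂ - (d l - C₁)/4`, `l = log (log z' / log z) ≥ 0`. (`SC7.u4_sum` is private; copy it.)
Case `nJ k L J ≤ 2`: `J` contains some `t ≠ W` with `finrank ≥ 2`; every other element of `J` would give `nJ ≥ 3` (`finrank ≥ 1`:
`Module.finrank_pos`). So `J = {t}`, `finrank k (L t) = 2`. The terms are at most `(1/2) (nv o.2)⁻¹` (`beta3_quad`), all `o` have index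
`t`: the sum over the primes of `L t` is at most `(l + C₃)/2 ≤ (1 - η) l + C₃` (`o ↦ o.2`; SC5/B4 `b4slot_sum` or `J_sum`-like).
-/

set_option autoImplicit false

open NumberField IsDedekindDomain SC5 SC7

namespace SC8

private theorem m3_sum {X : Type} [DecidableEq X] (W V : Finset X) (hV : V ⊆ W) (x m : X → ℝ)
    (hx : ∀ v ∈ W, 0 ≤ x v) (hm : ∀ v ∈ W, m v ≤ 1) (θ : ℝ) (hθ : ∀ v ∈ V, m v ≤ 1 - θ) :
    ∑ v ∈ W, x v * m v ≤ ∑ v ∈ W, x v - θ * ∑ v ∈ V, x v := by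
  rw [← Finset.sum_sdiff hV, ← Finset.sum_sdiff (f := x) hV]
  have h1 : ∑ v ∈ W \ V, x v * m v ≤ ∑ v ∈ W \ V, x v := by
    refine Finset.sum_le_sum fun v hv => ?_
    have h := (Finset.mem_sdiff.1 hv).1
    exact mul_le_of_le_one_right (hx v h) (hm v h)
  have h2 : ∑ v ∈ V, x v * m v ≤ ∑ v ∈ V, x v * (1 - θ) := by
    refine Finset.sum_le_sum fun v hv => ?_
    exact mul_le_mul_of_nonneg_left (hθ v hv) (hx v (hV hv))
  rw [← Finset.sum_mul] at h2
  linarith

private def m3inc {I : Type} {L : I → Type} [∀ i, Field (L i)] [∀ i, NumberField (L i)] (t : I)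
    (w : Pr (L t)) : PL L := ⟨t, w⟩

private theorem m3inc_inj {I : Type} {L : I → Type} [∀ i, Field (L i)] [∀ i, NumberField (L i)] (t : I) :
    Function.Injective (m3inc (L := L) t) := by
  intro a b hab
  exact eq_of_heq (Sigma.mk.inj hab).2

private theorem m3inc_eta {I : Type} {L : I → Type} [∀ i, Field (L i)] [∀ i, NumberField (L i)] (t : I)
    (o : PL L) (ho : o.1 = t) : ∃ w, o = m3inc t w := by
  obtain ⟨i, w⟩ := o
  have h1 : i = t := ho
  subst h1
  exact ⟨w, rfl⟩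

/-- the primes of one field -/
private theorem m3_slot {I : Type} {L : I → Type} [∀ i, Field (L i)] [∀ i, NumberField (L i)] (t : I)
    (T : Finset (PL L)) (hT : ∀ o ∈ T, o.1 = t) :
    ∃ T' : Finset (Pr (L t)), (∀ w, w ∈ T' ↔ m3inc t w ∈ T) ∧
      ∑ o ∈ T, ((nv o.2 : ℝ))⁻¹ = ∑ w ∈ T', ((nv w : ℝ))⁻¹ := by
  classical
  refine ⟨T.preimage (m3inc t) (m3inc_inj t).injOn, fun w => Finset.mem_preimage, ?_⟩
  have h := Finset.sum_preimage (m3inc t) T (m3inc_inj t).injOn (fun o : PL L => ((nv o.2 : ℝ))⁻¹) (by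
    intro x hx hxn
    exfalso
    obtain ⟨w, rfl⟩ := m3inc_eta t x (hT x hx)
    exact hxn ⟨w, rfl⟩)
  exact h.symm

theorem beta3_sum8 {k : Type} [Field k] [NumberField k] {I : Type} [Fintype I] (L : I → Type)
    [∀ i, Field (L i)] [∀ i, NumberField (L i)] [∀ i, Algebra k (L i)] (M : Type) [Field M]
    [NumberField M] [Algebra k M] [IsGalois k M] [∀ i, Algebra (L i) M]
    [∀ i, IsScalarTower k (L i) M] (S : Finset (Pr k)) (W : I) (hdeg : Deg8 k L W)
    (hun : ∀ i, ∀ v, v ∉ S → ∀ T : Finset (Pr (L i)), (∀ w, w ∈ T ↔ bl k w = v) →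
      ∑ w ∈ T, dg k w = Module.finrank k (L i)) :
    ∃ η C : ℝ, 0 < η ∧ η ≤ 1 ∧ ∀ J : Finset I, (∃ t ∈ J, t ≠ W) → ∀ z z' : ℝ, 3 / 2 ≤ z → z ≤ z' →
      ∀ T : Finset (PL L), (∀ o ∈ T, o.1 ∈ J ∧ dg k o.2 = 1 ∧ bl k o.2 ∉ S ∧ z < nv o.2 ∧
        (nv o.2 : ℝ) ≤ z') →
      ∑ o ∈ T, beta3 k J o / nv o.2 ≤ (1 - η) * Real.log (Real.log z' / Real.log z) + C := by
  classical
  obtain ⟨d, C₁, hd, hd1, hlow⟩ := split_lower (k := k) L M S
  obtain ⟨C₂, hC₂⟩ := sum_upper k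
  have hex : ∀ t : I, ∃ C : ℝ, ∀ z z' : ℝ, 3 / 2 ≤ z → z ≤ z' →
    ∀ T : Finset (Pr (L t)), (∀ v ∈ T, z < nv v ∧ (nv v : ℝ) ≤ z') →
      ∑ v ∈ T, ((nv v : ℝ))⁻¹ ≤ Real.log (Real.log z' / Real.log z) + C := fun t => sum_upper (L t)
  choose C₃ hC₃ using hex
  refine ⟨d / 4, |C₁| + |C₂| + ∑ t, |C₃ t|, by positivity, by linarith, ?_⟩
  intro J hJ z z' hz hzz T hT
  set l := Real.log (Real.log z' / Real.log z) with hl
  have hl0 : 0 ≤ l := by
    have h1 : 0 < Real.log z := Real.log_pos (by linarith)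
    apply Real.log_nonneg
    rw [le_div_iff₀ h1, one_mul]
    exact Real.log_le_log (by linarith) hzz
  have hnvo : ∀ o ∈ T, nv (bl k o.2) = nv o.2 := by
    intro o ho
    have h1 := nv_eq (k := k) o.2
    rw [(hT o ho).2.1, pow_one] at h1
    exact h1.symm
  have hC1 := abs_nonneg C₁
  have hC2 := abs_nonneg C₂
  have hCs : 0 ≤ ∑ t, |C₃ t| := Finset.sum_nonneg fun t _ => abs_nonneg _
  obtain ⟨t, ht, htW⟩ := hJ
  rcases Nat.lt_or_ge (nJ k L J) 3 with hn | hn
  · -- one quadratic field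
    have hJt : J = {t} := by
      by_contra hne
      obtain ⟨s, hs, hst⟩ : ∃ s ∈ J, s ≠ t := by
        by_contra hcon
        push Not at hcon
        exact hne (Finset.eq_singleton_iff_unique_mem.2 ⟨ht, hcon⟩)
      have h1 : ∑ i ∈ ({t, s} : Finset I), Module.finrank k (L i) ≤ nJ k L J := by
        unfold nJ
        refine Finset.sum_le_sum_of_subset ?_
        intro i hi
        rw [Finset.mem_insert, Finset.mem_singleton] at hi
        rcases hi with rfl | rfl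
        · exact ht
        · exact hs
      rw [Finset.sum_pair hst.symm] at h1
      have h2 := hdeg.two_le t htW
      have h3 : 0 < Module.finrank k (L s) := by
        by_cases hsW : s = W
        · rw [hsW, hdeg.one]
          exact one_pos
        · have := hdeg.two_le s hsW
          omega
      omega
    have hft : Module.finrank k (L t) = 2 := by
      have h1 : nJ k L J = Module.finrank k (L t) := by
        rw [hJt]
        unfold nJ
        rw [Finset.sum_singleton]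
      have h2 := hdeg.two_le t htW
      omega
    have hTt : ∀ o ∈ T, o.1 = t := by
      intro o ho
      have h1 := (hT o ho).1
      rw [hJt, Finset.mem_singleton] at h1
      exact h1
    obtain ⟨T', hT', hsum⟩ := m3_slot t T hTt
    have h1 : ∑ o ∈ T, beta3 k J o / nv o.2 ≤ 1 / 2 * ∑ o ∈ T, ((nv o.2 : ℝ))⁻¹ := by
      rw [Finset.mul_sum]
      refine Finset.sum_le_sum fun o ho => ?_
      obtain ⟨-, h3, h4, -⟩ := hT o ho
      rw [hJt, div_eq_mul_inv]
      exact mul_le_mul_of_nonneg_right (beta3_quad S W hdeg hun t hft o (hTt o ho) h3 h4) (by positivity)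
    have h2 := hC₃ t z z' hz hzz T' (fun w hw => by
      obtain ⟨-, -, -, h5, h6⟩ := hT _ ((hT' w).1 hw)
      exact ⟨h5, h6⟩)
    rw [hsum] at h1
    have h3 : |C₃ t| ≤ ∑ t, |C₃ t| :=
      Finset.single_le_sum (f := fun t => |C₃ t|) (fun _ _ => abs_nonneg _) (Finset.mem_univ t)
    have h4 := le_abs_self (C₃ t)
    have h5 := abs_nonneg (C₃ t)
    have h6 : d / 4 * l ≤ 1 / 2 * l := mul_le_mul_of_nonneg_right (by linarith) hl0
    nlinarith
  · obtain ⟨V, hV, hVs⟩ := hlow z z' hz hzz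
    set Q : Finset (Pr k) := T.image (fun o => bl k o.2) ∪ V with hQ
    have hVQ : V ⊆ Q := Finset.subset_union_right
    have hmaps : ∀ o ∈ T, bl k o.2 ∈ Q := fun o ho =>
      Finset.mem_union_left _ (Finset.mem_image_of_mem (fun o : PL L => bl k o.2) ho)
    have hQp : ∀ v ∈ Q, v ∉ S ∧ z < nv v ∧ (nv v : ℝ) ≤ z' := by
      intro v hv
      rcases Finset.mem_union.1 hv with hv | hv
      · obtain ⟨o, ho, rfl⟩ := Finset.mem_image.1 hv
        obtain ⟨-, -, h3, h4, h5⟩ := hT o ho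
        refine ⟨h3, ?_, ?_⟩
        · rw [hnvo o ho]
          exact h4
        · rw [hnvo o ho]
          exact h5
      · obtain ⟨h1, -, h3, h4⟩ := hV v hv
        exact ⟨h1, h3, h4⟩
    set m : Pr k → ℝ := fun v => ∑ o ∈ T with bl k o.2 = v, beta3 k J o with hm
    have hsum : ∑ o ∈ T, beta3 k J o / nv o.2 = ∑ v ∈ Q, ((nv v : ℝ))⁻¹ * m v := by
      rw [← Finset.sum_fiberwise_of_maps_to hmaps]
      refine Finset.sum_congr rfl fun v _ => ?_
      rw [hm]
      simp only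
      rw [Finset.mul_sum]
      refine Finset.sum_congr rfl fun o ho => ?_
      obtain ⟨h1, h2⟩ := Finset.mem_filter.1 ho
      rw [← h2, hnvo o h1, div_eq_mul_inv, mul_comm]
    have hTv : ∀ v, ∀ o ∈ T.filter (fun o => bl k o.2 = v),
        o.1 ∈ J ∧ dg k o.2 = 1 ∧ bl k o.2 = v := by
      intro v o ho
      obtain ⟨h1, h2⟩ := Finset.mem_filter.1 ho
      obtain ⟨h3, h4, -⟩ := hT o h1
      exact ⟨h3, h4, h2⟩
    have hm1 : ∀ v ∈ Q, m v ≤ 1 := by
      intro v hv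
      exact mass_le8 S W hdeg hun J v (hQp v hv).1 _ (hTv v)
    have hx : ∀ v ∈ Q, (0 : ℝ) ≤ ((nv v : ℝ))⁻¹ := fun v _ => by positivity
    have h0 : ∀ v ∈ V, m v ≤ 1 - 1 / 4 := by
      intro v hv
      have := mass_split8 S W hdeg hun J hn v (hV v hv).1 (hV v hv).2.1 _ (hTv v)
      rw [hm]
      simp only
      linarith
    have h1 := m3_sum Q V hVQ _ m hx hm1 (1 / 4) h0
    rw [hsum]
    have h2 := hC₂ z z' hz hzz Q (fun v hv => (hQp v hv).2)
    have h3 := le_abs_self C₁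
    have h4 := le_abs_self C₂
    refine h1.trans ?_
    rw [← hl] at h2
    linarith

end SC8
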