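import Pool.Agent.MP_c1dca2_ag.SC8.Defs
import Pool.Agent.MP_c1dca2_ag.SC5.H6
import Pool.Agent.MP_c1dca2_ag.SC5.H1

/-!
# [SC8-P1] local squares

`ν = v.valuation K`. All elements are in `K`, `𝓞 K ⊆ {ν ≤ 1}`, `ν d < 1 ↔ d ∈ v` for `d : 𝓞 K` (`HeightOneSpectrum.valuation_lt_one_iff_mem`),
`ν d = 1` for `d ∉ v` (`h6_val_one`).
`psi_eq_sg`: let `ν D = 1`, `D a = t²` (so `t ≠ 0`, `ν a = ν t ^ 2`).
(⇒) If `D` is a square modulo `v`: `D - d² ∈ v`, `d : 𝓞 K`, `d ∉ v` (otherwise `D ∈ v`). Take `τ = t / d`: `a - τ² = t² (d² - D) / (D d²)`,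
`ν (a - τ²) = ν t ^ 2 · ν (d² - D) < ν t ^ 2 = ν a`. So both signs are `1`.
(⇐) If `ν (a - τ²) < ν a`: then `ν (τ²) = ν a` (`Valuation.map_sub...`), `τ ≠ 0`, `u = t / τ`: `ν u ^ 2 = ν t ^ 2 / ν τ ^ 2 = 1`, so `ν u = 1`, and
`D - u² = t² (τ² - a) / (a τ²)` has `ν < 1`. Write `u = n / d` with `n d : 𝓞 K`, `d ∉ v` (`SC5.h1_frac`: `x * d = n`). Then
`D d² - n² ∈ v`; `d` is invertible modulo `v`, so `D` is a square modulo `v`.
`psi_congr`: `ν (a - a') < ν a` implies `ν a' = ν a` and for `t`: `ν (a - t²) < ν a → ν (a' - t²) ≤ max (ν (a' - a)) (ν (a - t²)) < ν a'`, and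
symmetrically. `psi_sq`: `t ↦ t s`.
-/

set_option autoImplicit false

open NumberField IsDedekindDomain SC5 SC7

namespace SC8

/-- the square classes modulo elements of smaller value -/
theorem P1_iff {K : Type} [Field K] [NumberField K] (v : Pr K) (D : 𝓞 K)
    (hD : D ∉ v.asIdeal) (a t : K) (ha : a ≠ 0) (h : (D : K) * a = t ^ 2) :
    IsSquare (Ideal.Quotient.mk v.asIdeal D) ↔
      ∃ τ : K, v.valuation K (a - τ ^ 2) < v.valuation K a := by
  have hD1 : v.valuation K (D : K) = 1 := h6_val_one v D hD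
  have hD0 : (D : K) ≠ 0 := by
    intro h0
    rw [h0, map_zero] at hD1
    exact zero_ne_one hD1
  have ht : t ≠ 0 := by
    rintro rfl
    rw [zero_pow two_ne_zero] at h
    exact (mul_ne_zero hD0 ha) h
  have hat : v.valuation K a = v.valuation K t ^ 2 := by
    rw [← map_pow, ← h, map_mul, hD1, one_mul]
  have hva : v.valuation K a ≠ 0 := (Valuation.ne_zero_iff _).2 ha
  have hvt : v.valuation K t ≠ 0 := (Valuation.ne_zero_iff _).2 ht
  constructor
  · rintro ⟨y, hy⟩
    obtain ⟨d, rfl⟩ := Ideal.Quotient.mk_surjective y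
    rw [← map_mul, Ideal.Quotient.eq] at hy
    have hd : d ∉ v.asIdeal := by
      intro hd
      refine hD ?_
      have := v.asIdeal.add_mem hy (v.asIdeal.mul_mem_left d hd)
      rwa [sub_add_cancel] at this
    have hd1 : v.valuation K (d : K) = 1 := h6_val_one v d hd
    have hd0 : (d : K) ≠ 0 := by
      intro h0
      rw [h0, map_zero] at hd1
      exact zero_ne_one hd1
    have hlt : v.valuation K ((D - d * d : 𝓞 K) : K) < 1 := (v.valuation_lt_one_iff_mem _).2 hy
    refine ⟨t / d, ?_⟩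
    have e : a - (t / d) ^ 2 = -(t ^ 2 * ((D - d * d : 𝓞 K) : K) / ((D : K) * (d : K) ^ 2)) := by
      have ea : a = t ^ 2 / D := by rw [← h]; field_simp
      push_cast
      rw [ea]
      field_simp
      ring
    rw [e, Valuation.map_neg, map_div₀, map_mul, map_mul, map_pow, map_pow, hD1, hd1, one_pow,
      one_mul, div_one, hat]
    exact mul_lt_of_lt_one_right (pow_pos (zero_lt_iff.2 hvt) 2) hlt
  · rintro ⟨τ, hτ⟩
    have hτ2 : v.valuation K τ ^ 2 = v.valuation K a := by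
      rw [← map_pow]
      have e : τ ^ 2 = a - (a - τ ^ 2) := by ring
      rw [e]
      exact Valuation.map_sub_eq_of_lt_left _ hτ
    have hτ0 : τ ≠ 0 := by
      rintro rfl
      rw [map_zero, zero_pow two_ne_zero] at hτ2
      exact hva hτ2.symm
    have hvτ : v.valuation K τ ≠ 0 := (Valuation.ne_zero_iff _).2 hτ0
    have hu : v.valuation K (t / τ) ≤ 1 := by
      have h1 : v.valuation K (t / τ) ^ 2 = 1 := by
        rw [map_div₀, div_pow, hτ2, hat]
        exact div_self (pow_ne_zero 2 hvt)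
      exact ((pow_eq_one_iff_of_nonneg zero_le two_ne_zero).1 h1).le
    obtain ⟨n, d, hd, hnd⟩ := h1_frac v hu
    have hd1 : v.valuation K (d : K) = 1 := h6_val_one v d hd
    have hmem : D * d ^ 2 - n ^ 2 ∈ v.asIdeal := by
      refine (v.valuation_lt_one_iff_mem (K := K) _).1 ?_
      have e : ((D * d ^ 2 - n ^ 2 : 𝓞 K) : K) = (d : K) ^ 2 * (t ^ 2 * (τ ^ 2 - a) / (a * τ ^ 2)) := by
        have e1 : ((D * d ^ 2 - n ^ 2 : 𝓞 K) : K) = (D : K) * (d : K) ^ 2 - (n : K) ^ 2 := by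
          push_cast
          rfl
        have eD : (D : K) = t ^ 2 / a := by rw [← h]; field_simp
        rw [e1, ← hnd, eD]
        field_simp
      change v.valuation K ((D * d ^ 2 - n ^ 2 : 𝓞 K) : K) < 1
      rw [e, map_mul, map_pow, hd1, one_pow, one_mul, map_div₀, map_mul, map_mul, map_pow, map_pow, hτ2,
        ← hat, Valuation.map_sub_swap]
      rw [mul_div_mul_left _ _ hva]
      exact (div_lt_one₀ (zero_lt_iff.2 hva)).2 hτ
    obtain ⟨y, i, hi, hyi⟩ := v.isMaximal.exists_inv hd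
    refine ⟨Ideal.Quotient.mk v.asIdeal (n * y), ?_⟩
    rw [← map_mul, Ideal.Quotient.eq]
    have e : D - n * y * (n * y) = i * (D * (1 + y * d)) + y ^ 2 * (D * d ^ 2 - n ^ 2) := by
      linear_combination (D * (1 + y * d)) * (-hyi)
    rw [e]
    exact v.asIdeal.add_mem (v.asIdeal.mul_mem_right _ hi) (v.asIdeal.mul_mem_left _ hmem)

theorem psi_eq_sg {K : Type} [Field K] [NumberField K] (v : Pr K) (D : 𝓞 K)
    (hD : D ∉ v.asIdeal) (a t : K) (ha : a ≠ 0) (h : (D : K) * a = t ^ 2) :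
    sg v D = psi v a := by
  have key := P1_iff v D hD a t ha h
  unfold sg psi
  by_cases hs : IsSquare (Ideal.Quotient.mk v.asIdeal D)
  · rw [if_pos hs, if_pos (key.1 hs)]
  · rw [if_neg hs, if_neg (fun h1 => hs (key.2 h1))]

theorem P1_imp {K : Type} [Field K] [NumberField K] (v : Pr K) (a a' : K)
    (h : v.valuation K (a - a') < v.valuation K a) :
    v.valuation K (a' - a) < v.valuation K a' ∧
    ((∃ t : K, v.valuation K (a - t ^ 2) < v.valuation K a) →
      ∃ t : K, v.valuation K (a' - t ^ 2) < v.valuation K a') := by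
  have h1 : v.valuation K a' = v.valuation K a := by
    have e : a' = a - (a - a') := by ring
    rw [e]
    exact Valuation.map_sub_eq_of_lt_left _ h
  have h2 : v.valuation K (a' - a) < v.valuation K a' := by
    rw [h1, Valuation.map_sub_swap]
    exact h
  refine ⟨h2, ?_⟩
  rintro ⟨t, ht⟩
  refine ⟨t, ?_⟩
  have e : a' - t ^ 2 = (a' - a) + (a - t ^ 2) := by ring
  rw [e]
  exact Valuation.map_add_lt _ h2 (by rwa [h1])

theorem psi_congr {K : Type} [Field K] [NumberField K] (v : Pr K) (a a' : K)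
    (h : v.valuation K (a - a') < v.valuation K a) : psi v a = psi v a' := by
  obtain ⟨h1, h2⟩ := P1_imp v a a' h
  obtain ⟨_, h3⟩ := P1_imp v a' a h1
  unfold psi
  by_cases hs : ∃ t : K, v.valuation K (a - t ^ 2) < v.valuation K a
  · rw [if_pos hs, if_pos (h2 hs)]
  · rw [if_neg hs, if_neg (fun h4 => hs (h3 h4))]

theorem psi_sq {K : Type} [Field K] [NumberField K] (v : Pr K) (a s : K) (hs : s ≠ 0) :
    psi v (a * s ^ 2) = psi v a := by
  have hvs : v.valuation K s ≠ 0 := (Valuation.ne_zero_iff _).2 hs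
  have key : (∃ t : K, v.valuation K (a * s ^ 2 - t ^ 2) < v.valuation K (a * s ^ 2)) ↔
      ∃ t : K, v.valuation K (a - t ^ 2) < v.valuation K a := by
    have hp : 0 < v.valuation K s ^ 2 := pow_pos (zero_lt_iff.2 hvs) 2
    constructor
    · rintro ⟨t, ht⟩
      refine ⟨t / s, ?_⟩
      have e : a * s ^ 2 - t ^ 2 = (a - (t / s) ^ 2) * s ^ 2 := by
        field_simp
      rw [e, map_mul, map_mul, map_pow] at ht
      exact lt_of_mul_lt_mul_right' ht
    · rintro ⟨t, ht⟩
      refine ⟨t * s, ?_⟩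
      have e : a * s ^ 2 - (t * s) ^ 2 = (a - t ^ 2) * s ^ 2 := by ring
      rw [e, map_mul, map_mul, map_pow]
      exact mul_lt_mul_of_pos_right ht hp
  unfold psi
  by_cases h : ∃ t : K, v.valuation K (a - t ^ 2) < v.valuation K a
  · rw [if_pos h, if_pos (key.2 h)]
  · rw [if_neg h, if_neg (fun h4 => h (key.1 h4))]

end SC8
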