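import Pool.Agent.MP_c1dca2_ag.SC8.Defs

/-!
# [SC8-P2] mean values modulo `v³`, I

Let `q = nv v`, `R = 𝓞 K`, `V = v.asIdeal`. `#(R / V³) = q³`, `#(V / V³) = q²`, `#(V² / V³) = q`, `#(V³ / V³) = 1` (`Ideal.absNorm` is
multiplicative: `#(R / V^j) = q^j`; the image of `V^j` in `R / V³` is the kernel of `R / V³ → R / V^j`, so it has `q³ / q^j` elements).
In all cases the function is periodic because its conditions only depend on the class modulo `V³` (`V³ ⊆ V² ⊆ V`), and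
`Quotient.out y` is a representative of `y`. The sum of the values is the number of classes satisfying the condition:
`mn_ev`: `q² - q`; `mn_odd`: `q² - q + 1` (the classes in `V \ V²`, and `0`; disjoint).
`(q² - q)/q³ = 1/q - 1/q²`; `(q² - q + 1)/q³ = (1/q)(1 - 1/q + 1/q²) ≤ (1/q)(1 - 1/q + 2/q²)`.
`cardV` is used in P3, too.
-/

set_option autoImplicit false

open NumberField IsDedekindDomain SC5 SC7

namespace SC8

theorem P2_ne {K : Type} [Field K] [NumberField K] (v : Pr K) (j : ℕ) : v.asIdeal ^ j ≠ ⊥ :=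
  pow_ne_zero j v.ne_bot

theorem P2_fin {K : Type} [Field K] [NumberField K] (v : Pr K) (j : ℕ) :
    Finite (𝓞 K ⧸ (v.asIdeal ^ j)) :=
  Ideal.finiteQuotientOfFreeOfNeBot _ (P2_ne v j)

theorem P2_card {K : Type} [Field K] [NumberField K] (v : Pr K) (j : ℕ) :
    Nat.card (𝓞 K ⧸ (v.asIdeal ^ j)) = nv v ^ j := by
  have h : Ideal.absNorm (v.asIdeal ^ j) = nv v ^ j := by rw [map_pow, nv]
  rw [← h, Ideal.absNorm_apply, Submodule.cardQuot_apply]

theorem P2_pos {K : Type} [Field K] [NumberField K] (v : Pr K) : 0 < nv v := by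
  have h := P2_card v 1
  have := P2_fin v 1
  rw [pow_one (nv v)] at h
  rw [← h]
  exact Nat.card_pos

theorem P2_mem {K : Type} [Field K] [NumberField K] (v : Pr K) (j : ℕ) (hj : j ≤ 3)
    (y : 𝓞 K ⧸ (v.asIdeal ^ 3)) :
    Quotient.out y ∈ v.asIdeal ^ j ↔ y ∈ (v.asIdeal ^ j).map (Ideal.Quotient.mk (v.asIdeal ^ 3)) := by
  have hy : Ideal.Quotient.mk (v.asIdeal ^ 3) (Quotient.out y) = y := Ideal.Quotient.mk_out y
  constructor
  · intro h
    rw [← hy]
    exact Ideal.mem_map_of_mem _ h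
  · intro h
    obtain ⟨a, ha, hay⟩ := (Ideal.mem_map_iff_of_surjective _ Ideal.Quotient.mk_surjective).1 h
    rw [← hy, Ideal.Quotient.eq] at hay
    have h3 : a - Quotient.out y ∈ v.asIdeal ^ j := Ideal.pow_le_pow_right hj hay
    have := (v.asIdeal ^ j).sub_mem ha h3
    rwa [sub_sub_cancel] at this

theorem cardV {K : Type} [Field K] [NumberField K] (v : Pr K) (j : ℕ) (hj : j ≤ 3) :
    Nat.card {y : 𝓞 K ⧸ (v.asIdeal ^ 3) // Quotient.out y ∈ v.asIdeal ^ j} = nv v ^ (3 - j) := by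
  have h1 : Nat.card {y : 𝓞 K ⧸ (v.asIdeal ^ 3) // Quotient.out y ∈ v.asIdeal ^ j} =
      Nat.card ((v.asIdeal ^ j).map (Ideal.Quotient.mk (v.asIdeal ^ 3))) :=
    Nat.card_congr (Equiv.subtypeEquivRight (P2_mem v j hj))
  have h2 := Submodule.card_eq_card_quotient_mul_card
    ((v.asIdeal ^ j).map (Ideal.Quotient.mk (v.asIdeal ^ 3)))
  have h3 : Nat.card ((𝓞 K ⧸ (v.asIdeal ^ 3)) ⧸ (v.asIdeal ^ j).map (Ideal.Quotient.mk (v.asIdeal ^ 3))) =
      nv v ^ j := by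
    rw [← P2_card v j]
    exact Nat.card_congr (DoubleQuot.quotQuotEquivQuotOfLE (Ideal.pow_le_pow_right hj)).toEquiv
  rw [P2_card] at h2
  rw [h1]
  have hp := P2_pos v
  have h4 : nv v ^ 3 = nv v ^ j * nv v ^ (3 - j) := by
    rw [← pow_add]
    congr 1
    omega
  have hpj : 0 < nv v ^ j := pow_pos hp j
  have h5 : nv v ^ j * nv v ^ (3 - j) =
      nv v ^ j * Nat.card ((v.asIdeal ^ j).map (Ideal.Quotient.mk (v.asIdeal ^ 3))) := by
    rw [← h4, h2]
    rw [show Nat.card (_ ⧸ Ideal.map (Ideal.Quotient.mk (v.asIdeal ^ 3)) (v.asIdeal ^ j)) = nv v ^ j from h3, mul_comm]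
  exact (Nat.eq_of_mul_eq_mul_left hpj h5).symm

theorem mn_nonneg {K : Type} [Field K] [NumberField K] (v : Pr K) (G : 𝓞 K → ℝ)
    (hG : ∀ a, 0 ≤ G a) : 0 ≤ mn v G := by
  exact div_nonneg (finsum_nonneg fun y => hG _) (by positivity)

open scoped Classical in
theorem P2_sum {K : Type} [Field K] [NumberField K] (v : Pr K) (j : ℕ) (hj : j ≤ 3)
    [Fintype (𝓞 K ⧸ (v.asIdeal ^ 3))] :
    ∑ y : 𝓞 K ⧸ (v.asIdeal ^ 3), (if Quotient.out y ∈ v.asIdeal ^ j then (1 : ℝ) else 0) =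
      (nv v : ℝ) ^ (3 - j) := by
  have h := cardV v j hj
  rw [Nat.card_eq_fintype_card, Fintype.card_subtype] at h
  rw [Finset.sum_boole, h]
  push_cast
  rfl

theorem P2_le {K : Type} [Field K] [NumberField K] (v : Pr K) {j : ℕ} (hj : j ≤ 3) {a a' : 𝓞 K}
    (h : a - a' ∈ v.asIdeal ^ 3) : a ∈ v.asIdeal ^ j ↔ a' ∈ v.asIdeal ^ j := by
  have h3 : a - a' ∈ v.asIdeal ^ j := Ideal.pow_le_pow_right hj h
  constructor
  · intro ha
    have := (v.asIdeal ^ j).sub_mem ha h3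
    rwa [sub_sub_cancel] at this
  · intro ha
    have := (v.asIdeal ^ j).add_mem h3 ha
    rwa [sub_add_cancel] at this

open scoped Classical in
theorem mn_ev {K : Type} [Field K] [NumberField K] (v : Pr K) :
    Per v (fun c : 𝓞 K => if c ∈ v.asIdeal ∧ c ∉ v.asIdeal ^ 2 then (1 : ℝ) else 0) ∧
    mn v (fun c : 𝓞 K => if c ∈ v.asIdeal ∧ c ∉ v.asIdeal ^ 2 then (1 : ℝ) else 0) =
      ((nv v : ℝ))⁻¹ - ((nv v : ℝ) ^ 2)⁻¹ := by
  have hq : (0 : ℝ) < nv v := by exact_mod_cast P2_pos v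
  have := P2_fin v 3
  let _ : Fintype (𝓞 K ⧸ (v.asIdeal ^ 3)) := Fintype.ofFinite _
  constructor
  · intro a a' h
    have h1 := P2_le v (j := 1) (by norm_num) h
    have h2 := P2_le v (j := 2) (by norm_num) h
    rw [pow_one] at h1
    simp only [h1, h2]
  · unfold mn
    rw [finsum_eq_sum_of_fintype]
    have e : ∀ y : 𝓞 K ⧸ (v.asIdeal ^ 3),
        (if Quotient.out y ∈ v.asIdeal ∧ Quotient.out y ∉ v.asIdeal ^ 2 then (1 : ℝ) else 0) =
        (if Quotient.out y ∈ v.asIdeal ^ 1 then (1 : ℝ) else 0) -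
        (if Quotient.out y ∈ v.asIdeal ^ 2 then (1 : ℝ) else 0) := by
      intro y
      have h12 : Quotient.out y ∈ v.asIdeal ^ 2 → Quotient.out y ∈ v.asIdeal := fun h =>
        Ideal.pow_le_self two_ne_zero h
      rw [pow_one]
      by_cases h1 : Quotient.out y ∈ v.asIdeal
      · by_cases h2 : Quotient.out y ∈ v.asIdeal ^ 2
        · simp [h1, h2]
        · simp [h1, h2]
      · have h2 : ¬ Quotient.out y ∈ v.asIdeal ^ 2 := fun h => h1 (h12 h)
        simp [h1, h2]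
    rw [Finset.sum_congr rfl (fun y _ => e y), Finset.sum_sub_distrib, P2_sum v 1 (by norm_num),
      P2_sum v 2 (by norm_num)]
    norm_num
    field_simp

open scoped Classical in
theorem mn_odd {K : Type} [Field K] [NumberField K] (v : Pr K) :
    Per v (fun c : 𝓞 K => if (c ∈ v.asIdeal ∧ c ∉ v.asIdeal ^ 2) ∨ c ∈ v.asIdeal ^ 3 then
      (1 : ℝ) else 0) ∧
    mn v (fun c : 𝓞 K => if (c ∈ v.asIdeal ∧ c ∉ v.asIdeal ^ 2) ∨ c ∈ v.asIdeal ^ 3 then
      (1 : ℝ) else 0) ≤ ((nv v : ℝ))⁻¹ * (1 - ((nv v : ℝ))⁻¹ + 2 * ((nv v : ℝ) ^ 2)⁻¹) := by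
  have hq : (0 : ℝ) < nv v := by exact_mod_cast P2_pos v
  have := P2_fin v 3
  let _ : Fintype (𝓞 K ⧸ (v.asIdeal ^ 3)) := Fintype.ofFinite _
  constructor
  · intro a a' h
    have h1 := P2_le v (j := 1) (by norm_num) h
    have h2 := P2_le v (j := 2) (by norm_num) h
    have h3 := P2_le v (j := 3) le_rfl h
    rw [pow_one] at h1
    simp only [h1, h2, h3]
  · unfold mn
    rw [finsum_eq_sum_of_fintype]
    have e : ∀ y : 𝓞 K ⧸ (v.asIdeal ^ 3),
        (if (Quotient.out y ∈ v.asIdeal ∧ Quotient.out y ∉ v.asIdeal ^ 2) ∨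
          Quotient.out y ∈ v.asIdeal ^ 3 then (1 : ℝ) else 0) =
        (if Quotient.out y ∈ v.asIdeal ^ 1 then (1 : ℝ) else 0) -
        (if Quotient.out y ∈ v.asIdeal ^ 2 then (1 : ℝ) else 0) +
        (if Quotient.out y ∈ v.asIdeal ^ 3 then (1 : ℝ) else 0) := by
      intro y
      have h12 : Quotient.out y ∈ v.asIdeal ^ 2 → Quotient.out y ∈ v.asIdeal := fun h =>
        Ideal.pow_le_self two_ne_zero h
      have h23 : Quotient.out y ∈ v.asIdeal ^ 3 → Quotient.out y ∈ v.asIdeal ^ 2 := fun h =>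
        Ideal.pow_le_pow_right (by norm_num) h
      rw [pow_one]
      by_cases h1 : Quotient.out y ∈ v.asIdeal
      · by_cases h2 : Quotient.out y ∈ v.asIdeal ^ 2
        · simp [h1, h2]
        · have h3 : ¬ Quotient.out y ∈ v.asIdeal ^ 3 := fun h => h2 (h23 h)
          simp [h1, h2, h3]
      · have h2 : ¬ Quotient.out y ∈ v.asIdeal ^ 2 := fun h => h1 (h12 h)
        have h3 : ¬ Quotient.out y ∈ v.asIdeal ^ 3 := fun h => h2 (h23 h)
        simp [h1, h2, h3]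
    rw [Finset.sum_congr rfl (fun y _ => e y), Finset.sum_add_distrib, Finset.sum_sub_distrib,
      P2_sum v 1 (by norm_num), P2_sum v 2 (by norm_num), P2_sum v 3 le_rfl]
    norm_num
    rw [div_le_iff₀ (pow_pos hq 3)]
    have e2 : (nv v : ℝ)⁻¹ * (1 - (nv v : ℝ)⁻¹ + 2 * ((nv v : ℝ) ^ 2)⁻¹) * (nv v : ℝ) ^ 3 =
        (nv v : ℝ) ^ 2 - nv v + 2 := by
      field_simp
    rw [e2]
    linarith

end SC8
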