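import Pool.Agent.MP_c1dca2_ag.SC8.P1
import Pool.Agent.MP_c1dca2_ag.SC8.P2

/-!
# [SC8-P3] mean values modulo `v³`, II

`q = nv v`, `V = v.asIdeal`, `ν` the valuation, `r ≠ 0` with `¬ Ev v r`. `SC3.Ev v d : ∃ b, ν d = ν b ^ 2`.
For `c ∈ V \ V²` let `Ψ c = psi v (c r)`.
1. `Ψ c` depends only on `c` modulo `V²` (a fortiori modulo `V³`): `c - c' ∈ V²`, `c ∉ V²`: `ν (c r - c' r) < ν (c r)` as `ν (c - c') < ν c`
   (`valuation_le_pow..`: `d ∈ V^n ↔ ν d ≤ exp (-n)`), `psi_congr`.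
2. Let `ν₀ = exp (-1)` be the value of the elements of `V \ V²` (`SC5.h6_val_exp`) and `c₀ ∈ V \ V²` (exists). `ν (c₀ r)` is the square of a
   value: `ν r` is not, the values are `exp n`, so `ν r = exp (odd)`. So there is `s` with `ν s ^ 2 = ν (c₀ r)`, `s ≠ 0`.
   Let `u = c₀ r / s²`, `ν u = 1`. For `g : 𝓞 K`, `g ∉ V`: `Ψ (c₀ g) = psi v (u g s²) = psi v (u g)` (`psi_sq`), and if `g g' - 1 ∈ V`...:
   choose `h : 𝓞 K`, `h ∉ V` with `ν (u - h) < 1` (`h1_frac` and inverting the denominator modulo `V`); `psi v (u g) = psi v (h g)` (`psi_congr`)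
   `= sg v (h g)` (`psi_eq_sg` with `D = h g`, `a = h g`, `t = h g`) `= sg v h * sg v g` (`SC5.h6_sg_mul`, needs `2 ∉ V`).
3. The classes modulo `V³` in `V \ V²`: for every class `y` of `V / V³` outside `V²` and the map `g ↦ c₀ g` from the units modulo `V` onto
   `(V \ V²)` modulo `V²`: bijective (`c₀ g - c₀ g' ∈ V² ↔ g - g' ∈ V`, and every `c ∈ V` is `≡ c₀ g` modulo `V²`: count, `#(V/V²) = q`).
   Exactly `(q-1)/2` of the `q - 1` classes of units `g` are squares (`SC5.E2sq`), so `(q-1)/2` classes modulo `V²` in `V \ V²` have `Ψ = 1` and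
   `(q-1)/2` have `Ψ = -1`. Every class modulo `V²` consists of `q` classes modulo `V³`: `(q² - q)/2` each.
4. The sum of `G` over the classes modulo `V³` is `a ((q² - q)/2 + 1) + b ((q² - q)/2 + 1)`, and
   `((q² - q)/2 + 1)/q³ = (1/2)(1/q)(1 - 1/q + 2/q²)`.
(An involution argument is simpler for 3: let `n` be a nonsquare modulo `V` (`n : 𝓞 K`, `sg v n = -1`, exists by `SC5.E2sq` with `ε = -1`).
Multiplication by `n` permutes the classes modulo `V³` in `V \ V²` and changes the sign `Ψ` by step 2. So the two sets have the same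
cardinality, the sum of their cardinalities is `q² - q`.)
-/

set_option autoImplicit false

open NumberField IsDedekindDomain SC5 SC7

namespace SC8

theorem P3_notev {K : Type} [Field K] [NumberField K] (v : Pr K) {c : K}
    (h : v.valuation K c = WithZero.exp (-1 : ℤ)) : ¬ SC3.Ev v c := by
  rintro ⟨b, hb⟩
  have hb0 : v.valuation K b ≠ 0 := by
    intro h0
    rw [h, h0, zero_pow two_ne_zero] at hb
    exact WithZero.exp_ne_zero hb
  obtain ⟨m, hm⟩ : ∃ m : ℤ, v.valuation K b = WithZero.exp m :=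
    ⟨_, (WithZero.exp_log hb0).symm⟩
  rw [h, hm, ← WithZero.exp_nsmul, WithZero.exp_inj] at hb
  simp only [nsmul_eq_mul] at hb
  push_cast at hb
  omega

theorem P3_val {K : Type} [Field K] [NumberField K] (v : Pr K) (c : 𝓞 K) (n : ℕ) :
    v.valuation K (c : K) ≤ WithZero.exp (-(n : ℤ)) ↔ c ∈ v.asIdeal ^ n := by
  rw [show v.valuation K (c : K) = v.intValuation c from v.valuation_of_algebraMap c]
  exact v.intValuation_le_pow_iff_mem c n

/-- the sign of an element depends only on its class modulo `v²` -/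
theorem P3_congr {K : Type} [Field K] [NumberField K] (v : Pr K) {c c' : 𝓞 K}
    (hc : c ∈ v.asIdeal) (hc2 : c ∉ v.asIdeal ^ 2) (h : c - c' ∈ v.asIdeal ^ 2) (r : K) (hr : r ≠ 0) :
    psi v ((c : K) * r) = psi v ((c' : K) * r) := by
  refine psi_congr v _ _ ?_
  have e : (c : K) * r - (c' : K) * r = ((c - c' : 𝓞 K) : K) * r := by
    push_cast
    ring
  rw [e, map_mul, map_mul]
  refine mul_lt_mul_of_pos_right ?_ (zero_lt_iff.2 ((Valuation.ne_zero_iff _).2 hr))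
  rw [h6_val_exp v c hc hc2]
  refine lt_of_le_of_lt ((P3_val v _ 2).2 h) ?_
  rw [WithZero.exp_lt_exp]
  norm_num

/-- multiplication by `n` -/
theorem P3_mul {K : Type} [Field K] [NumberField K] (v : Pr K) {n : 𝓞 K} (hn : n ∉ v.asIdeal)
    (c : 𝓞 K) (j : ℕ) : n * c ∈ v.asIdeal ^ j ↔ c ∈ v.asIdeal ^ j := by
  rw [← P3_val, ← P3_val]
  have e : ((n * c : 𝓞 K) : K) = (n : K) * (c : K) := by
    push_cast
    rfl
  rw [e, map_mul, h6_val_one v n hn, one_mul]

theorem P3_sign {K : Type} [Field K] [NumberField K] (v : Pr K) {n : 𝓞 K} (hn : n ∉ v.asIdeal)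
    {c : 𝓞 K} (hc : c ∈ v.asIdeal) (hc2 : c ∉ v.asIdeal ^ 2) {r : K} (hr : r ≠ 0)
    (hodd : ¬ SC3.Ev v r) : psi v (((n * c : 𝓞 K) : K) * r) = sg v n * psi v ((c : K) * r) := by
  have hcv := h6_val_exp v c hc hc2
  have hc0 : (c : K) ≠ 0 := by
    intro h0
    rw [h0, map_zero] at hcv
    exact WithZero.exp_ne_zero hcv.symm
  have hcr : (c : K) * r ≠ 0 := mul_ne_zero hc0 hr
  have hvcr : v.valuation K ((c : K) * r) ≠ 0 := (Valuation.ne_zero_iff _).2 hcr
  obtain ⟨s, hs⟩ := SC3.ev_of_not (P3_notev v hcv) hodd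
  have hs0 : s ≠ 0 := by
    rintro rfl
    rw [map_zero, zero_pow two_ne_zero] at hs
    exact hvcr hs
  have hvs : v.valuation K s ≠ 0 := (Valuation.ne_zero_iff _).2 hs0
  set u : K := (c : K) * r / s ^ 2 with hu
  have hus : (c : K) * r = u * s ^ 2 := by
    rw [hu, div_mul_cancel₀ _ (pow_ne_zero 2 hs0)]
  have hu1 : v.valuation K u = 1 := by
    rw [hu, map_div₀, map_pow, hs]
    exact div_self (pow_ne_zero 2 hvs)
  obtain ⟨a, d, hd, had⟩ := h1_frac v hu1.le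
  have hd1 := h6_val_one v d hd
  obtain ⟨y, i, hi, hyi⟩ := v.isMaximal.exists_inv hd
  -- `h = a y`
  have hlt : v.valuation K (u - ((a * y : 𝓞 K) : K)) < 1 := by
    have e : u - ((a * y : 𝓞 K) : K) = u * (i : K) := by
      have e1 : ((a * y : 𝓞 K) : K) = (a : K) * (y : K) := by
        push_cast
        rfl
      have e2 : (y : K) * (d : K) + (i : K) = 1 := by
        have := congrArg (fun x : 𝓞 K => (x : K)) hyi
        simpa using this
      rw [e1, ← had]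
      linear_combination u * (-e2)
    rw [e, map_mul, hu1, one_mul]
    exact (v.valuation_lt_one_iff_mem i).2 hi
  have hh1 : v.valuation K ((a * y : 𝓞 K) : K) = 1 := by
    have e : ((a * y : 𝓞 K) : K) = u - (u - ((a * y : 𝓞 K) : K)) := by ring
    rw [e, ← hu1]
    refine Valuation.map_sub_eq_of_lt_left _ ?_
    rw [hu1]
    exact hlt
  have hh : a * y ∉ v.asIdeal := by
    intro h0
    have := (v.valuation_lt_one_iff_mem (K := K) _).2 h0
    exact absurd hh1 this.ne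
  have h1 : psi v ((c : K) * r) = sg v (a * y) := by
    rw [hus, psi_sq v u s hs0, psi_congr v u ((a * y : 𝓞 K) : K) (by rw [hu1]; exact hlt)]
    refine (psi_eq_sg v (a * y) hh _ ((a * y : 𝓞 K) : K) ?_ (by ring)).symm
    intro h0
    rw [h0, map_zero] at hh1
    exact zero_ne_one hh1
  have hn1 := h6_val_one v n hn
  have hnh : n * (a * y) ∉ v.asIdeal := fun h0 => (v.isPrime.mem_or_mem h0).elim hn hh
  have h2 : psi v (((n * c : 𝓞 K) : K) * r) = sg v (n * (a * y)) := by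
    have e : ((n * c : 𝓞 K) : K) * r = ((n : K) * u) * s ^ 2 := by
      have e1 : ((n * c : 𝓞 K) : K) = (n : K) * (c : K) := by
        push_cast
        rfl
      rw [e1, mul_assoc, hus]
      ring
    have e3 : (n : K) * u - ((n * (a * y) : 𝓞 K) : K) = (n : K) * (u - ((a * y : 𝓞 K) : K)) := by
      push_cast
      ring
    rw [e, psi_sq v _ s hs0, psi_congr v ((n : K) * u) ((n * (a * y) : 𝓞 K) : K) (by
      rw [e3, map_mul, map_mul, hn1, one_mul, one_mul, hu1]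
      exact hlt)]
    refine (psi_eq_sg v (n * (a * y)) hnh _ ((n * (a * y) : 𝓞 K) : K) ?_ (by ring)).symm
    intro h0
    have h3 := h6_val_one v _ hnh
    rw [h0, map_zero] at h3
    exact zero_ne_one h3
  rw [h1, h2, h6_sg_mul v n (a * y) hn hh]

theorem P3_nonsq {K : Type} [Field K] [NumberField K] (v : Pr K) (h2 : (2 : 𝓞 K) ∉ v.asIdeal) :
    ∃ n : 𝓞 K, n ∉ v.asIdeal ∧ sg v n = -1 := by
  classical
  have := v.isMaximal
  let _ : Field (𝓞 K ⧸ v.asIdeal) := Ideal.Quotient.field v.asIdeal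
  have hfin : Finite (𝓞 K ⧸ v.asIdeal) := v.asIdeal.finiteQuotientOfFreeOfNeBot v.ne_bot
  have hr : ringChar (𝓞 K ⧸ v.asIdeal) ≠ 2 := by
    intro hr
    apply h2
    rw [← Ideal.Quotient.eq_zero_iff_mem]
    have := ringChar.spec (𝓞 K ⧸ v.asIdeal) 2
    rw [hr] at this
    have h3 := this.2 dvd_rfl
    rw [map_ofNat]
    exact_mod_cast h3
  obtain ⟨a, ha⟩ := FiniteField.exists_nonsquare hr
  obtain ⟨n, rfl⟩ := Ideal.Quotient.mk_surjective a
  refine ⟨n, ?_, ?_⟩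
  · intro hn
    apply ha
    rw [Ideal.Quotient.eq_zero_iff_mem.2 hn]
    exact IsSquare.zero
  · unfold sg
    exact if_neg ha

open scoped Classical in
theorem P3_count {K : Type} [Field K] [NumberField K] (v : Pr K) (h2 : (2 : 𝓞 K) ∉ v.asIdeal)
    (r : K) (hr : r ≠ 0) (hodd : ¬ SC3.Ev v r) [Fintype (𝓞 K ⧸ (v.asIdeal ^ 3))] :
    ∑ y : 𝓞 K ⧸ (v.asIdeal ^ 3), (if Quotient.out y ∈ v.asIdeal ∧ Quotient.out y ∉ v.asIdeal ^ 2 ∧
      psi v (((Quotient.out y : 𝓞 K) : K) * r) = 1 then (1 : ℝ) else 0) =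
    ∑ y : 𝓞 K ⧸ (v.asIdeal ^ 3), (if Quotient.out y ∈ v.asIdeal ∧ Quotient.out y ∉ v.asIdeal ^ 2 ∧
      psi v (((Quotient.out y : 𝓞 K) : K) * r) = -1 then (1 : ℝ) else 0) := by
  obtain ⟨n, hn, hsn⟩ := P3_nonsq v h2
  have hinj : Function.Injective (fun y : 𝓞 K ⧸ (v.asIdeal ^ 3) =>
      Ideal.Quotient.mk (v.asIdeal ^ 3) n * y) := by
    intro x y hxy
    obtain ⟨a, rfl⟩ := Ideal.Quotient.mk_surjective x
    obtain ⟨b, rfl⟩ := Ideal.Quotient.mk_surjective y
    simp only [← map_mul] at hxy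
    rw [Ideal.Quotient.eq, ← mul_sub] at hxy
    rw [Ideal.Quotient.eq]
    exact (P3_mul v hn _ 3).1 hxy
  have hbij := Finite.injective_iff_bijective.1 hinj
  rw [← hbij.sum_comp (fun y => if Quotient.out y ∈ v.asIdeal ∧ Quotient.out y ∉ v.asIdeal ^ 2 ∧
      psi v (((Quotient.out y : 𝓞 K) : K) * r) = -1 then (1 : ℝ) else 0)]
  refine Finset.sum_congr rfl fun y _ => ?_
  set c : 𝓞 K := Quotient.out y with hc
  set z : 𝓞 K := Quotient.out (Ideal.Quotient.mk (v.asIdeal ^ 3) n * y) with hz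
  have h3 : n * c - z ∈ v.asIdeal ^ 3 := by
    rw [← Ideal.Quotient.eq, map_mul, hc, hz, Ideal.Quotient.mk_out, Ideal.Quotient.mk_out]
  have e1 : z ∈ v.asIdeal ↔ c ∈ v.asIdeal := by
    have h4 := P2_le v (j := 1) (by norm_num) h3
    have h5 := P3_mul v hn c 1
    rw [pow_one] at h4 h5
    rw [← h4, h5]
  have e2 : z ∈ v.asIdeal ^ 2 ↔ c ∈ v.asIdeal ^ 2 := by
    rw [← P2_le v (j := 2) (by norm_num) h3, P3_mul v hn c 2]
  by_cases hc1 : c ∈ v.asIdeal
  · by_cases hc2 : c ∈ v.asIdeal ^ 2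
    · rw [if_neg (fun h => h.2.1 hc2), if_neg (fun h => h.2.1 (e2.2 hc2))]
    · have h6 : psi v ((z : K) * r) = -psi v ((c : K) * r) := by
        have hnc1 : n * c ∈ v.asIdeal := v.asIdeal.mul_mem_left _ hc1
        have hnc2 : n * c ∉ v.asIdeal ^ 2 := fun h => hc2 ((P3_mul v hn c 2).1 h)
        rw [← P3_congr v hnc1 hnc2 (Ideal.pow_le_pow_right (by norm_num) h3) r hr,
          P3_sign v hn hc1 hc2 hr hodd, hsn, neg_one_mul]
      have e3 : psi v ((z : K) * r) = -1 ↔ psi v ((c : K) * r) = 1 := by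
        rw [h6, neg_inj]
      by_cases h7 : psi v ((c : K) * r) = 1
      · rw [if_pos ⟨hc1, hc2, h7⟩, if_pos ⟨e1.2 hc1, fun h => hc2 (e2.1 h), e3.2 h7⟩]
      · rw [if_neg (fun h => h7 h.2.2), if_neg (fun h => h7 (e3.1 h.2.2))]
  · rw [if_neg (fun h => hc1 h.1), if_neg (fun h => hc1 (e1.1 h.1))]

open scoped Classical in
theorem mn_psi {K : Type} [Field K] [NumberField K] (v : Pr K) (h2 : (2 : 𝓞 K) ∉ v.asIdeal)
    (r : K) (hr : r ≠ 0) (hodd : ¬ SC3.Ev v r) (a b : ℝ) :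
    Per v (fun c : 𝓞 K =>
      (if (c ∈ v.asIdeal ∧ c ∉ v.asIdeal ^ 2 ∧ psi v ((c : K) * r) = 1) ∨ c ∈ v.asIdeal ^ 3 then
        a else 0) +
      (if (c ∈ v.asIdeal ∧ c ∉ v.asIdeal ^ 2 ∧ psi v ((c : K) * r) = -1) ∨ c ∈ v.asIdeal ^ 3 then
        b else 0)) ∧
    mn v (fun c : 𝓞 K =>
      (if (c ∈ v.asIdeal ∧ c ∉ v.asIdeal ^ 2 ∧ psi v ((c : K) * r) = 1) ∨ c ∈ v.asIdeal ^ 3 then
        a else 0) +
      (if (c ∈ v.asIdeal ∧ c ∉ v.asIdeal ^ 2 ∧ psi v ((c : K) * r) = -1) ∨ c ∈ v.asIdeal ^ 3 then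
        b else 0)) =
      (a + b) / 2 * (((nv v : ℝ))⁻¹ * (1 - ((nv v : ℝ))⁻¹ + 2 * ((nv v : ℝ) ^ 2)⁻¹)) := by
  have hq : (0 : ℝ) < nv v := by exact_mod_cast P2_pos v
  have := P2_fin v 3
  let _ : Fintype (𝓞 K ⧸ (v.asIdeal ^ 3)) := Fintype.ofFinite _
  constructor
  · intro c c' h
    have h1 := P2_le v (j := 1) (by norm_num) h
    have h3 := P2_le v (j := 2) (by norm_num) h
    have h4 := P2_le v (j := 3) le_rfl h
    rw [pow_one] at h1
    have h5 : ∀ ε : ℤˣ, (c ∈ v.asIdeal ∧ c ∉ v.asIdeal ^ 2 ∧ psi v ((c : K) * r) = ε) ↔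
        (c' ∈ v.asIdeal ∧ c' ∉ v.asIdeal ^ 2 ∧ psi v ((c' : K) * r) = ε) := by
      intro ε
      by_cases hc1 : c ∈ v.asIdeal
      · by_cases hc2 : c ∈ v.asIdeal ^ 2
        · exact ⟨fun h => absurd hc2 h.2.1, fun h => absurd (h3.1 hc2) h.2.1⟩
        · rw [P3_congr v hc1 hc2 (Ideal.pow_le_pow_right (by norm_num) h) r hr, h1, h3]
      · exact ⟨fun h => absurd h.1 hc1, fun h => absurd (h1.2 h.1) hc1⟩
    simp only [h5, h4]
  · unfold mn
    rw [finsum_eq_sum_of_fintype]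
    set N₁ : ℝ := ∑ y : 𝓞 K ⧸ (v.asIdeal ^ 3), (if Quotient.out y ∈ v.asIdeal ∧
      Quotient.out y ∉ v.asIdeal ^ 2 ∧
      psi v (((Quotient.out y : 𝓞 K) : K) * r) = 1 then (1 : ℝ) else 0) with hN₁
    set N₂ : ℝ := ∑ y : 𝓞 K ⧸ (v.asIdeal ^ 3), (if Quotient.out y ∈ v.asIdeal ∧
      Quotient.out y ∉ v.asIdeal ^ 2 ∧
      psi v (((Quotient.out y : 𝓞 K) : K) * r) = -1 then (1 : ℝ) else 0) with hN₂
    have hN : N₁ = N₂ := P3_count v h2 r hr hodd
    have hS : N₁ + N₂ = (nv v : ℝ) ^ 2 - nv v := by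
      have e1 : ∑ y : 𝓞 K ⧸ (v.asIdeal ^ 3), (if Quotient.out y ∈ v.asIdeal then (1 : ℝ) else 0) =
          (nv v : ℝ) ^ 2 := by
        have h := P2_sum v 1 (by norm_num)
        simp only [pow_one] at h
        exact h
      have e2 : ∑ y : 𝓞 K ⧸ (v.asIdeal ^ 3), (if Quotient.out y ∈ v.asIdeal ^ 2 then (1 : ℝ) else 0) =
          (nv v : ℝ) := by
        have h := P2_sum v 2 (by norm_num)
        rw [h]
        exact pow_one _
      rw [← e1, ← e2, ← Finset.sum_sub_distrib, hN₁, hN₂, ← Finset.sum_add_distrib]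
      refine Finset.sum_congr rfl fun y _ => ?_
      have h12 : Quotient.out y ∈ v.asIdeal ^ 2 → Quotient.out y ∈ v.asIdeal := fun h =>
        Ideal.pow_le_self two_ne_zero h
      by_cases h1 : Quotient.out y ∈ v.asIdeal
      · by_cases h2 : Quotient.out y ∈ v.asIdeal ^ 2
        · simp [h1, h2]
        · rcases Int.units_eq_one_or (psi v (((Quotient.out y : 𝓞 K) : K) * r)) with h | h
          · simp [h1, h2, h]
          · simp [h1, h2, h]
      · have h2 : ¬ Quotient.out y ∈ v.asIdeal ^ 2 := fun h => h1 (h12 h)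
        simp [h1, h2]
    have e3 := P2_sum v 3 le_rfl
    have e : ∀ y : 𝓞 K ⧸ (v.asIdeal ^ 3),
        ((if (Quotient.out y ∈ v.asIdeal ∧ Quotient.out y ∉ v.asIdeal ^ 2 ∧
          psi v (((Quotient.out y : 𝓞 K) : K) * r) = 1) ∨ Quotient.out y ∈ v.asIdeal ^ 3 then a else 0) +
        (if (Quotient.out y ∈ v.asIdeal ∧ Quotient.out y ∉ v.asIdeal ^ 2 ∧
          psi v (((Quotient.out y : 𝓞 K) : K) * r) = -1) ∨ Quotient.out y ∈ v.asIdeal ^ 3 then b else 0)) =
        a * (if Quotient.out y ∈ v.asIdeal ∧ Quotient.out y ∉ v.asIdeal ^ 2 ∧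
          psi v (((Quotient.out y : 𝓞 K) : K) * r) = 1 then (1 : ℝ) else 0) +
        b * (if Quotient.out y ∈ v.asIdeal ∧ Quotient.out y ∉ v.asIdeal ^ 2 ∧
          psi v (((Quotient.out y : 𝓞 K) : K) * r) = -1 then (1 : ℝ) else 0) +
        (a + b) * (if Quotient.out y ∈ v.asIdeal ^ 3 then (1 : ℝ) else 0) := by
      intro y
      have h23 : Quotient.out y ∈ v.asIdeal ^ 3 → Quotient.out y ∈ v.asIdeal ^ 2 := fun h =>
        Ideal.pow_le_pow_right (by norm_num) h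
      by_cases h3 : Quotient.out y ∈ v.asIdeal ^ 3
      · have h2 := h23 h3
        simp [h2, h3]
      · simp [h3]
    rw [Finset.sum_congr rfl (fun y _ => e y), Finset.sum_add_distrib, Finset.sum_add_distrib,
      ← Finset.mul_sum, ← Finset.mul_sum, ← Finset.mul_sum, e3, ← hN₁, ← hN₂]
    have hN1 : N₁ = ((nv v : ℝ) ^ 2 - nv v) / 2 := by linarith
    have hN2 : N₂ = ((nv v : ℝ) ^ 2 - nv v) / 2 := by linarith
    rw [hN1, hN2]
    norm_num
    field_simp

end SC8
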