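import Pool.Agent.MP_c1dca2_ag.SC8.P2
import Pool.Agent.MP_c1dca2_ag.SC5.E1
import Pool.Agent.MP_c1dca2_ag.SC5.E2

/-!
# [SC8-R1a] the Chinese remainder theorem modulo `q³` and the box (cf. SC5/E2, SC5/E3)

`crt8`: copy the proof of `SC5.E2prod` with `f q = q.1.asIdeal ^ 3` (pairwise coprime: `IsCoprime.pow` of the coprime maximal ideals; use
`E2hom` with the quotients modulo `q³`, which are finite rings with `nv q ^ 3` elements (`Ideal.absNorm` multiplicative; `Fintype` instance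
from `Finite`)); `G q (el b c) = G q (Quotient.out (mk (el b c)))` by `Per`; `finsum_eq_sum_of_fintype`.
`box8`: `SC5.class_count` with `M = ∏_{q ∈ P} nv q ^ 3` (`(M : 𝓞 K) ∈ q³`: `nv_mem`, powers), `f c = ∏ q ∈ P, G q (el b c)` (periodic
modulo `M`: `el b (c + M d) - el b c = M * el b d ∈ q³`), and `crt8`:
`((2B+1)/M)^n * (M^n * ∏ mn) = (2B+1)^n ∏ mn`.
-/

set_option autoImplicit false

open NumberField IsDedekindDomain SC5 SC7

namespace SC8

theorem r1a_finite {K : Type} [Field K] [NumberField K] (q : Pr K) :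
    Finite (𝓞 K ⧸ (q.asIdeal ^ 3)) :=
  Ideal.finiteQuotientOfFreeOfNeBot (q.asIdeal ^ 3) (pow_ne_zero 3 q.ne_bot)

theorem r1a_card {K : Type} [Field K] [NumberField K] (q : Pr K) :
    Nat.card (𝓞 K ⧸ (q.asIdeal ^ 3)) = nv q ^ 3 := by
  rw [nv, ← map_pow, Ideal.absNorm_apply, Submodule.cardQuot_apply]

theorem crt8 {K : Type} [Field K] [NumberField K] {ι : Type} [Fintype ι] [DecidableEq ι]
    (b : Module.Basis ι ℤ (𝓞 K)) (M : ℕ) (hM : 0 < M) (P : Finset (Pr K))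
    (hP : ∀ q ∈ P, ((M : ℕ) : 𝓞 K) ∈ q.asIdeal ^ 3) (G : Pr K → 𝓞 K → ℝ)
    (hG : ∀ q ∈ P, Per q (G q)) :
    ∑ c ∈ Fintype.piFinset (fun _ : ι => Finset.Ico (0 : ℤ) M), ∏ q ∈ P, G q (el b c) =
      (M : ℝ) ^ (Fintype.card ι) * ∏ q ∈ P, mn q (G q) := by
  classical
  have : NeZero M := ⟨hM.ne'⟩
  let f : P → Ideal (𝓞 K) := fun q => q.1.asIdeal ^ 3
  have hfin : ∀ q : Pr K, Finite (𝓞 K ⧸ (q.asIdeal ^ 3)) := r1a_finite
  let _ : ∀ q : Pr K, Fintype (𝓞 K ⧸ (q.asIdeal ^ 3)) := fun q => Fintype.ofFinite _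
  have hcard : ∀ q : Pr K, Fintype.card (𝓞 K ⧸ (q.asIdeal ^ 3)) = nv q ^ 3 := fun q => by
    rw [← Nat.card_eq_fintype_card]
    exact r1a_card q
  have hf : Pairwise (Function.onFun IsCoprime f) := by
    intro q q' hqq
    have hne : q.1.asIdeal ≠ q'.1.asIdeal := by
      intro h
      exact hqq (Subtype.ext (HeightOneSpectrum.ext h))
    have := q.1.isMaximal
    have := q'.1.isMaximal
    exact (Ideal.isCoprime_of_isMaximal hne).pow
  have hm : ((M : ℕ) : 𝓞 K) ∈ ⨅ i, f i := by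
    rw [Ideal.mem_iInf]
    intro i
    exact hP i.1 i.2
  obtain ⟨φ, hφ, hs⟩ := SC4.X3_hom b M _ hm
  let e := Ideal.quotientInfRingEquivPiQuotient f hf
  let ψ : (ι → ZMod M) →+ (∀ i : P, 𝓞 K ⧸ (i.1.asIdeal ^ 3)) :=
    (e.toAddEquiv.toAddMonoidHom).comp φ
  have hψ : Function.Surjective ψ := e.surjective.comp hs
  have hψ2 : ∀ (c : ι → ℤ) (q : P), ψ (fun i => (c i : ZMod M)) q =
      Ideal.Quotient.mk (q.1.asIdeal ^ 3) (el b c) := by
    intro c q
    change e (φ _) q = _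
    rw [hφ]
    rfl
  have key := E2hom ψ hψ (fun y => ∏ q : P, G q.1 (Quotient.out (y q)))
  have k1 : ∑ y : (∀ i : P, 𝓞 K ⧸ (i.1.asIdeal ^ 3)), ∏ q : P, G q.1 (Quotient.out (y q)) =
      ∏ q : P, ∑ y : 𝓞 K ⧸ (q.1.asIdeal ^ 3), G q.1 (Quotient.out y) := by
    rw [Finset.prod_univ_sum, Fintype.piFinset_univ]
  have k2 : Fintype.card (∀ i : P, 𝓞 K ⧸ (i.1.asIdeal ^ 3)) = ∏ q : P, nv q.1 ^ 3 := by
    rw [Fintype.card_pi]
    exact Finset.prod_congr rfl (fun q _ => hcard q.1)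
  have k3 : ∑ x : ι → ZMod M, ∏ q : P, G q.1 (Quotient.out (ψ x q)) =
      ∑ c ∈ Fintype.piFinset (fun _ : ι => Finset.Ico (0 : ℤ) M), ∏ q ∈ P, G q (el b c) := by
    symm
    refine Finset.sum_bij (fun c _ => (fun i => (c i : ZMod M))) (fun _ _ => Finset.mem_univ _) ?_ ?_ ?_
    · intro c hc d hd hcd
      funext i
      have h1 := Finset.mem_Ico.1 (Fintype.mem_piFinset.1 hc i)
      have h2 := Finset.mem_Ico.1 (Fintype.mem_piFinset.1 hd i)
      have h3 : ((c i : ℤ) : ZMod M) = ((d i : ℤ) : ZMod M) := congrFun hcd i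
      rw [ZMod.intCast_eq_intCast_iff'] at h3
      rwa [Int.emod_eq_of_lt h1.1 h1.2, Int.emod_eq_of_lt h2.1 h2.2] at h3
    · intro x _
      refine ⟨fun i => ((x i).val : ℤ), ?_, ?_⟩
      · rw [Fintype.mem_piFinset]
        intro i
        rw [Finset.mem_Ico]
        exact ⟨by positivity, by exact_mod_cast ZMod.val_lt (x i)⟩
      · funext i
        simp
    · intro c _
      rw [← Finset.prod_coe_sort]
      refine Finset.prod_congr rfl (fun q _ => ?_)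
      rw [hψ2]
      refine hG q.1 q.2 _ _ ?_
      rw [← Ideal.Quotient.eq]
      exact (Ideal.Quotient.mk_out _).symm
  have hnv : ∀ q : Pr K, (0 : ℝ) < (nv q : ℝ) ^ 3 := by
    intro q
    have := two_le_nv q
    have h2 : (2 : ℝ) ≤ nv q := by exact_mod_cast this
    positivity
  have hmn : ∀ q : Pr K, mn q (G q) =
      (∑ y : 𝓞 K ⧸ (q.asIdeal ^ 3), G q (Quotient.out y)) / (nv q : ℝ) ^ 3 := fun q => by
    unfold mn
    rw [finsum_eq_sum_of_fintype]
  simp only [hmn]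
  rw [k1, k2, k3, Fintype.card_fun, ZMod.card] at key
  rw [Finset.prod_div_distrib, ← mul_div_assoc, eq_div_iff (Finset.prod_pos (fun q _ => hnv q)).ne']
  rw [Nat.cast_prod, Nat.cast_pow] at key
  simp only [Nat.cast_pow] at key
  rw [Finset.prod_coe_sort P (fun q => (nv q : ℝ) ^ 3),
    Finset.prod_coe_sort P (fun q => ∑ y : 𝓞 K ⧸ (q.asIdeal ^ 3), G q (Quotient.out y))] at key
  exact key

end SC8
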