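import Pool.Agent.MP_c1dca2_ag.SC8.R1a
import Pool.Agent.MP_c1dca2_ag.SC8.P2
import Pool.Agent.MP_c1dca2_ag.SC5.E1
import Pool.Agent.MP_c1dca2_ag.SC5.E2

/-!
# [SC8-R1b] the Chinese remainder theorem modulo `q³` and the box (cf. SC5/E2, SC5/E3)

`crt8`: copy the proof of `SC5.E2prod` with `f q = q.1.asIdeal ^ 3` (pairwise coprime: `IsCoprime.pow` of the coprime maximal ideals; use
`E2hom` with the quotients modulo `q³`, which are finite rings with `nv q ^ 3` elements (`Ideal.absNorm` multiplicative; `Fintype` instance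
from `Finite`)); `G q (el b c) = G q (Quotient.out (mk (el b c)))` by `Per`; `finsum_eq_sum_of_fintype`.
`box8`: `SC5.class_count` with `M = ∏_{q ∈ P} nv q ^ 3` (`(M : 𝓞 K) ∈ q³`: `nv_mem`, powers), `f c = ∏ q ∈ P, G q (el b c)` (periodic
modulo `M`: `el b (c + M d) - el b c = M * el b d ∈ q³`), and `crt8`:
`((2B+1)/M)^n * (M^n * ∏ mn) = (2B+1)^n ∏ mn`.
-/

set_option autoImplicit false

open NumberField IsDedekindDomain SC5 SC7

namespace SC8

theorem box8 {K : Type} [Field K] [NumberField K] {ι : Type} [Fintype ι] [DecidableEq ι]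
    (b : Module.Basis ι ℤ (𝓞 K)) (P : Finset (Pr K)) (G : Pr K → 𝓞 K → ℝ)
    (hG0 : ∀ q ∈ P, ∀ a, 0 ≤ G q a) (hG : ∀ q ∈ P, Per q (G q)) (B : ℕ)
    (hB : ∏ q ∈ P, nv q ^ 3 ≤ 2 * B + 1) :
    |∑ c ∈ Fintype.piFinset (fun _ : ι => Finset.Icc (-(B : ℤ)) B), ∏ q ∈ P, G q (el b c) -
        (2 * B + 1 : ℝ) ^ (Fintype.card ι) * ∏ q ∈ P, mn q (G q)| ≤
      2 ^ (Fintype.card ι) * (((∏ q ∈ P, nv q ^ 3 : ℕ) : ℝ) / (2 * B + 1)) *
        ((2 * B + 1 : ℝ) ^ (Fintype.card ι) * ∏ q ∈ P, mn q (G q)) := by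
  classical
  set M : ℕ := ∏ q ∈ P, nv q ^ 3 with hMdef
  have hpos : ∀ q : Pr K, 0 < nv q := fun q => by have := two_le_nv q; omega
  have hM : 0 < M := Finset.prod_pos fun q _ => pow_pos (hpos q) 3
  have hMP : ∀ q ∈ P, ((M : ℕ) : 𝓞 K) ∈ q.asIdeal ^ 3 := by
    intro q hq
    obtain ⟨t, ht⟩ := Finset.dvd_prod_of_mem (fun q : Pr K => nv q ^ 3) hq
    rw [hMdef, ht, Nat.cast_mul, Nat.cast_pow]
    exact Ideal.mul_mem_right _ _ (Ideal.pow_mem_pow (nv_mem q) 3)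
  have hel : ∀ c d : ι → ℤ, el b (fun i => c i + M * d i) - el b c = ((M : ℕ) : 𝓞 K) * el b d := by
    intro c d
    unfold el
    rw [← Finset.sum_sub_distrib, Finset.mul_sum]
    refine Finset.sum_congr rfl fun i _ => ?_
    simp only [zsmul_eq_mul]
    push_cast
    ring
  have hper : ∀ c d : ι → ℤ,
      ∏ q ∈ P, G q (el b (fun i => c i + M * d i)) = ∏ q ∈ P, G q (el b c) := by
    intro c d
    refine Finset.prod_congr rfl fun q hq => hG q hq _ _ ?_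
    rw [hel]
    exact Ideal.mul_mem_right _ _ (hMP q hq)
  have key := class_count (ι := ι) M B hM hB (fun c => ∏ q ∈ P, G q (el b c))
    (fun c => Finset.prod_nonneg fun q hq => hG0 q hq _) hper
  rw [crt8 b M hM P hMP G hG] at key
  have hM' : (M : ℝ) ≠ 0 := by exact_mod_cast hM.ne'
  have e1 : ((2 * B + 1 : ℝ) / M) ^ (Fintype.card ι) *
      ((M : ℝ) ^ (Fintype.card ι) * ∏ q ∈ P, mn q (G q)) =
      (2 * B + 1 : ℝ) ^ (Fintype.card ι) * ∏ q ∈ P, mn q (G q) := by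
    rw [← mul_assoc, ← mul_pow, div_mul_cancel₀ _ hM']
  rw [e1] at key
  exact key

end SC8
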