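import Pool.Agent.MP_c1dca2_ag.SC8.R1b
import Pool.Agent.MP_c1dca2_ag.SC5.E4

/-!
# [SC8-R2] Brun's sieve (cf. SC5/E6)

Write `F_q c = 1` if `el b c ∈ q \ q²`, else `0` (`mn_ev`: periodic, mean value `d_q = 1/nv q - 1/(nv q)²`, `0 ≤ d_q ≤ 1`).
For every `c` let `A = {q ∈ Z | F_q c = 1}`. `SC5.bonf A h`: `[A = ∅] ≤ ∑_{D ⊆ A, |D| ≤ 2h} (-1)^|D| = ∑_{D ⊆ Z, |D| ≤ 2h} (-1)^|D| ∏_{q ∈ D} F_q c`.
Multiply by `∏_{v ∈ V} G v ≥ 0`, sum over `c`, use `box8` for `P = V ∪ D` (disjoint; the product over `P` of `G v` on `V` and `F_q` on `D`):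
the main terms give `(2B+1)^n ∏_V mn · ∑_D (-1)^|D| ∏_{q ∈ D} d_q`, bounded by `SC5.tail` (with `x q = d_q`) by
`(2B+1)^n ∏_V mn · (∏_Z (1 - d_q) + exp (-2h + 3 ∑_Z d_q))`. The errors: each at most
`2^n (∏_V nv³ ∏_D nv³)/(2B+1) · (2B+1)^n ∏_V mn` (`∏_D d_q ≤ 1`), `∏_D nv³ ≤ y^(6h)` (`y ≥ 1`), at most `(card Z + 1)^(2h)` sets `D`
(`SC5.card_small`); `hB` ensures the hypothesis of `box8`. `d_q ≤ (nv q)⁻¹` in the exponential.
-/

set_option autoImplicit false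

open NumberField IsDedekindDomain SC5 SC7

namespace SC8

open scoped Classical in
/-- the indicator function of `q \ q²` -/
noncomputable def r2F {K : Type} [Field K] [NumberField K] (q : Pr K) (c : 𝓞 K) : ℝ :=
  if c ∈ q.asIdeal ∧ c ∉ q.asIdeal ^ 2 then 1 else 0

theorem r2F_nonneg {K : Type} [Field K] [NumberField K] (q : Pr K) (c : 𝓞 K) : 0 ≤ r2F q c := by
  unfold r2F
  split_ifs
  · exact zero_le_one
  · exact le_rfl

open scoped Classical in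
/-- the pointwise inequality -/
theorem r2_pointwise {K : Type} [Field K] [NumberField K] (Z : Finset (Pr K)) (h : ℕ) (a : 𝓞 K)
    (g : ℝ) (hg : 0 ≤ g) :
    (if ∃ q ∈ Z, a ∈ q.asIdeal ∧ a ∉ q.asIdeal ^ 2 then 0 else g) ≤
      ∑ D ∈ Z.powerset.filter (fun D => D.card ≤ 2 * h),
        (-1 : ℝ) ^ D.card * (g * ∏ q ∈ D, r2F q a) := by
  set A : Finset (Pr K) := Z.filter (fun q => a ∈ q.asIdeal ∧ a ∉ q.asIdeal ^ 2) with hA
  have hb := bonf A h
  have e1 : (if ∃ q ∈ Z, a ∈ q.asIdeal ∧ a ∉ q.asIdeal ^ 2 then 0 else g) =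
      (if A = ∅ then (1 : ℝ) else 0) * g := by
    by_cases h1 : ∃ q ∈ Z, a ∈ q.asIdeal ∧ a ∉ q.asIdeal ^ 2
    · obtain ⟨q, hq, hqa⟩ := h1
      rw [if_pos ⟨q, hq, hqa⟩, if_neg, zero_mul]
      intro h2
      have : q ∈ A := Finset.mem_filter.2 ⟨hq, hqa⟩
      rw [h2] at this
      exact absurd this (Finset.notMem_empty q)
    · rw [if_neg h1, if_pos, one_mul]
      rw [hA, Finset.filter_eq_empty_iff]
      intro q hq hqa
      exact h1 ⟨q, hq, hqa⟩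
  have e2 : ∑ D ∈ Z.powerset.filter (fun D => D.card ≤ 2 * h),
        (-1 : ℝ) ^ D.card * (g * ∏ q ∈ D, r2F q a) =
      (∑ D ∈ A.powerset.filter (fun D => D.card ≤ 2 * h), (-1 : ℝ) ^ D.card) * g := by
    rw [Finset.sum_mul]
    symm
    apply Finset.sum_subset_zero_on_sdiff
    · intro D hD
      rw [Finset.mem_filter, Finset.mem_powerset] at hD ⊢
      exact ⟨hD.1.trans (Finset.filter_subset _ _), hD.2⟩
    · intro D hD
      rw [Finset.mem_sdiff, Finset.mem_filter, Finset.mem_powerset, Finset.mem_filter,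
        Finset.mem_powerset] at hD
      obtain ⟨⟨h1, h2⟩, h3⟩ := hD
      have h4 : ∃ q ∈ D, r2F q a = 0 := by
        by_contra hcon
        push Not at hcon
        apply h3
        refine ⟨fun q hq => Finset.mem_filter.2 ⟨h1 hq, ?_⟩, h2⟩
        by_contra h5
        exact hcon q hq (if_neg h5)
      obtain ⟨q, hq, hq0⟩ := h4
      rw [Finset.prod_eq_zero hq hq0, mul_zero, mul_zero]
    · intro D hD
      rw [Finset.mem_filter, Finset.mem_powerset] at hD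
      have h4 : ∏ q ∈ D, r2F q a = 1 := by
        apply Finset.prod_eq_one
        intro q hq
        exact if_pos (Finset.mem_filter.1 (hD.1 hq)).2
      rw [h4, mul_one]
  rw [e1, e2]
  exact mul_le_mul_of_nonneg_right hb hg

open scoped Classical in
theorem sieve8 {K : Type} [Field K] [NumberField K] {ι : Type} [Fintype ι] [DecidableEq ι]
    (b : Module.Basis ι ℤ (𝓞 K)) (V : Finset (Pr K)) (G : Pr K → 𝓞 K → ℝ)
    (hG0 : ∀ q ∈ V, ∀ a, 0 ≤ G q a) (hG : ∀ q ∈ V, Per q (G q)) (Z : Finset (Pr K))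
    (hZ : Disjoint Z V) (y B h : ℕ) (hy : 1 ≤ y) (hZy : ∀ q ∈ Z, nv q ≤ y)
    (hB : (∏ q ∈ V, nv q ^ 3) * y ^ (6 * h) ≤ 2 * B + 1) :
    (∑ c ∈ Fintype.piFinset (fun _ : ι => Finset.Icc (-(B : ℤ)) B),
        if ∃ q ∈ Z, el b c ∈ q.asIdeal ∧ el b c ∉ q.asIdeal ^ 2 then 0
        else ∏ v ∈ V, G v (el b c)) ≤
      (2 * B + 1 : ℝ) ^ (Fintype.card ι) * (∏ v ∈ V, mn v (G v)) *
        (∏ q ∈ Z, (1 - (((nv q : ℝ))⁻¹ - ((nv q : ℝ) ^ 2)⁻¹)) +
          Real.exp (-(2 * h : ℝ) + 3 * ∑ q ∈ Z, ((nv q : ℝ))⁻¹) +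
          2 ^ (Fintype.card ι) * (((∏ q ∈ V, nv q ^ 3) * y ^ (6 * h) : ℕ) : ℝ) *
            (Z.card + 1) ^ (2 * h) / (2 * B + 1)) := by
  set N : ℕ := Fintype.card ι with hN
  set Vol : ℝ := (2 * B + 1 : ℝ) ^ N with hVol
  have hB0 : (0 : ℝ) < 2 * B + 1 := by positivity
  have hV0 : 0 < Vol := by positivity
  set box := Fintype.piFinset (fun _ : ι => Finset.Icc (-(B : ℤ)) B) with hbox
  set M₀ : ℕ := ∏ q ∈ V, nv q ^ 3 with hM₀
  set Fl := Z.powerset.filter (fun D => D.card ≤ 2 * h) with hFl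
  have hnv2 : ∀ q : Pr K, (2 : ℝ) ≤ nv q := fun q => by exact_mod_cast two_le_nv q
  set d : Pr K → ℝ := fun q => ((nv q : ℝ))⁻¹ - ((nv q : ℝ) ^ 2)⁻¹ with hd
  have hd0 : ∀ q, 0 ≤ d q := fun q => by
    have h2 := hnv2 q
    have h3 : (nv q : ℝ) ≤ (nv q : ℝ) ^ 2 := by nlinarith
    exact sub_nonneg.2 (inv_anti₀ (by linarith) h3)
  have hdn : ∀ q, d q ≤ ((nv q : ℝ))⁻¹ := fun q => by
    have h2 := hnv2 q
    have : 0 ≤ ((nv q : ℝ) ^ 2)⁻¹ := by positivity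
    simp only [hd]
    linarith
  have hd1 : ∀ q, d q ≤ 1 := fun q => by
    have h2 := hnv2 q
    exact (hdn q).trans (inv_le_one_of_one_le₀ (by linarith))
  set Mn : ℝ := ∏ v ∈ V, mn v (G v) with hMn
  have hMn0 : 0 ≤ Mn := Finset.prod_nonneg fun v hv => mn_nonneg v (G v) (hG0 v hv)
  set Er : ℝ := 2 ^ N * (((M₀ * y ^ (6 * h) : ℕ) : ℝ) / (2 * B + 1)) * (Vol * Mn) with hEr
  have hEr0 : 0 ≤ Er := by positivity
  -- the inner sums
  have hinner : ∀ D ∈ Fl, (-1 : ℝ) ^ D.card *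
      ∑ c ∈ box, (∏ v ∈ V, G v (el b c)) * ∏ q ∈ D, r2F q (el b c) ≤
      (-1 : ℝ) ^ D.card * (∏ q ∈ D, d q) * (Vol * Mn) + Er := by
    intro D hD
    rw [hFl, Finset.mem_filter, Finset.mem_powerset] at hD
    obtain ⟨hDZ, hDc⟩ := hD
    have hVD : Disjoint V D := (hZ.mono_left hDZ).symm
    have hMD : ∏ q ∈ V ∪ D, nv q ^ 3 ≤ M₀ * y ^ (6 * h) := by
      rw [Finset.prod_union hVD]
      apply Nat.mul_le_mul_left
      calc ∏ q ∈ D, nv q ^ 3 ≤ ∏ _q ∈ D, y ^ 3 :=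
            Finset.prod_le_prod' fun q hq => Nat.pow_le_pow_left (hZy q (hDZ hq)) 3
        _ = (y ^ 3) ^ D.card := Finset.prod_const _
        _ = y ^ (3 * D.card) := (pow_mul y 3 _).symm
        _ ≤ y ^ (6 * h) := Nat.pow_le_pow_right hy (by omega)
    let G' : Pr K → 𝓞 K → ℝ := fun q => if q ∈ V then G q else r2F q
    have hGV : ∀ q ∈ V, G' q = G q := fun q hq => if_pos hq
    have hGD : ∀ q ∈ D, G' q = r2F q := fun q hq => if_neg (Finset.disjoint_right.1 hVD hq)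
    have hG0' : ∀ q ∈ V ∪ D, ∀ a, 0 ≤ G' q a := by
      intro q hq a
      rcases Finset.mem_union.1 hq with hq | hq
      · rw [hGV q hq]
        exact hG0 q hq a
      · rw [hGD q hq]
        exact r2F_nonneg q a
    have hPer' : ∀ q ∈ V ∪ D, Per q (G' q) := by
      intro q hq
      rcases Finset.mem_union.1 hq with hq | hq
      · rw [hGV q hq]
        exact hG q hq
      · rw [hGD q hq]
        exact (mn_ev q).1
    have hb := box8 b (V ∪ D) G' hG0' hPer' B (hMD.trans hB)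
    have e1 : ∀ c : ι → ℤ, ∏ q ∈ V ∪ D, G' q (el b c) =
        (∏ v ∈ V, G v (el b c)) * ∏ q ∈ D, r2F q (el b c) := fun c => by
      rw [Finset.prod_union hVD]
      congr 1
      · exact Finset.prod_congr rfl fun q hq => by rw [hGV q hq]
      · exact Finset.prod_congr rfl fun q hq => by rw [hGD q hq]
    have e2 : ∏ q ∈ V ∪ D, mn q (G' q) = Mn * ∏ q ∈ D, d q := by
      rw [Finset.prod_union hVD]
      congr 1
      · exact Finset.prod_congr rfl fun q hq => by rw [hGV q hq]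
      · exact Finset.prod_congr rfl fun q hq => by rw [hGD q hq]; exact (mn_ev q).2
    simp only [e1] at hb
    rw [e2, ← hN, ← hVol, ← hbox] at hb
    have hpd0 : 0 ≤ ∏ q ∈ D, d q := Finset.prod_nonneg fun q _ => hd0 q
    have hpd1 : ∏ q ∈ D, d q ≤ 1 := Finset.prod_le_one (fun q _ => hd0 q) fun q _ => hd1 q
    have hEr' : 2 ^ N * (((∏ q ∈ V ∪ D, nv q ^ 3 : ℕ) : ℝ) / (2 * B + 1)) *
        (Vol * (Mn * ∏ q ∈ D, d q)) ≤ Er := by
      rw [hEr]
      refine mul_le_mul ?_ ?_ (by positivity) (by positivity)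
      · refine mul_le_mul_of_nonneg_left ?_ (by positivity)
        refine div_le_div_of_nonneg_right ?_ hB0.le
        exact_mod_cast hMD
      · refine mul_le_mul_of_nonneg_left ?_ hV0.le
        exact mul_le_of_le_one_right hMn0 hpd1
    have hb' := abs_le.1 (hb.trans hEr')
    rcases neg_one_pow_eq_or ℝ D.card with h1 | h1
    · rw [h1]
      linarith [hb'.2]
    · rw [h1]
      linarith [hb'.1]
  -- summation
  have hsum : (∑ c ∈ box, if ∃ q ∈ Z, el b c ∈ q.asIdeal ∧ el b c ∉ q.asIdeal ^ 2 then 0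
        else ∏ v ∈ V, G v (el b c)) ≤
      ∑ D ∈ Fl, (-1 : ℝ) ^ D.card *
        ∑ c ∈ box, (∏ v ∈ V, G v (el b c)) * ∏ q ∈ D, r2F q (el b c) := by
    calc (∑ c ∈ box, if ∃ q ∈ Z, el b c ∈ q.asIdeal ∧ el b c ∉ q.asIdeal ^ 2 then 0
        else ∏ v ∈ V, G v (el b c))
        ≤ ∑ c ∈ box, ∑ D ∈ Fl, (-1 : ℝ) ^ D.card *
          ((∏ v ∈ V, G v (el b c)) * ∏ q ∈ D, r2F q (el b c)) :=
          Finset.sum_le_sum fun c _ => r2_pointwise Z h (el b c) _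
            (Finset.prod_nonneg fun v hv => hG0 v hv _)
      _ = _ := by
        rw [Finset.sum_comm]
        apply Finset.sum_congr rfl
        intro D _
        rw [Finset.mul_sum]
  have htail := tail Z h d (fun q _ => hd0 q)
  have hcard : (Fl.card : ℝ) ≤ (Z.card + 1 : ℝ) ^ (2 * h) := by
    have := card_small Z (2 * h)
    exact_mod_cast this
  have hexp : Real.exp (-(2 * h : ℝ) + 3 * ∑ q ∈ Z, d q) ≤
      Real.exp (-(2 * h : ℝ) + 3 * ∑ q ∈ Z, ((nv q : ℝ))⁻¹) := by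
    apply Real.exp_le_exp.2
    have : ∑ q ∈ Z, d q ≤ ∑ q ∈ Z, ((nv q : ℝ))⁻¹ := Finset.sum_le_sum fun q _ => hdn q
    linarith
  have hsum2 : ∑ D ∈ Fl, (-1 : ℝ) ^ D.card *
        ∑ c ∈ box, (∏ v ∈ V, G v (el b c)) * ∏ q ∈ D, r2F q (el b c) ≤
      (∏ q ∈ Z, (1 - d q) +
        Real.exp (-(2 * h : ℝ) + 3 * ∑ q ∈ Z, ((nv q : ℝ))⁻¹)) * (Vol * Mn) +
      (Z.card + 1 : ℝ) ^ (2 * h) * Er := by
    calc ∑ D ∈ Fl, (-1 : ℝ) ^ D.card *
          ∑ c ∈ box, (∏ v ∈ V, G v (el b c)) * ∏ q ∈ D, r2F q (el b c)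
        ≤ ∑ D ∈ Fl, ((-1 : ℝ) ^ D.card * (∏ q ∈ D, d q) * (Vol * Mn) + Er) :=
          Finset.sum_le_sum hinner
      _ = (∑ D ∈ Fl, (-1 : ℝ) ^ D.card * (∏ q ∈ D, d q)) * (Vol * Mn) + Fl.card * Er := by
        rw [Finset.sum_add_distrib, Finset.sum_mul, Finset.sum_const, nsmul_eq_mul]
      _ ≤ _ := add_le_add (mul_le_mul_of_nonneg_right (htail.trans (by linarith)) (by positivity))
        (mul_le_mul_of_nonneg_right hcard hEr0)
  refine (hsum.trans hsum2).trans (le_of_eq ?_)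
  rw [hEr]
  simp only [hd]
  ring

end SC8
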