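import Pool.Agent.MP_c1dca2_ag.SC8.Defs
import Pool.Agent.MP_c1dca2_ag.SC5.A7

/-!
# [SC8-R3] the Mertens product

`x = (nv v)⁻¹ ≤ 1/2`: `0 ≤ 1 - x + x² ≤ 1 - x + 2 x² ≤ 1` and `1 - x + 2 x² ≤ exp (-x + 2 x²)` (`Real.add_one_le_exp`).
`∑_v x_v² ≤ C₂` for every finset (`SC5.sum_sq K 1`: the `v` with `nv v > z` contribute at most `1`; the finitely many with `nv v ≤ z`
(`finite_nv`) a constant). `sum_lower k`: `z = 3/2`, `z' = y ≥ 2`: there is `T` with `nv v ≤ y` for `v ∈ T` and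
`∑_T x_v ≥ log (log y / log (3/2)) - C ≥ log log y - C'`. Let `T' = T \ S`: `∑_{T'} x_v ≥ log log y - C' - card S`. `T' ⊆ V ∪ Z`, so
(all factors are in `[0, 1]`, `V`, `Z` disjoint) the product is at most `∏_{T'} (1 - x + 2x²) ≤ exp (- ∑_{T'} x + 2 C₂) ≤ C / log y`.
-/

set_option autoImplicit false

open NumberField IsDedekindDomain SC5 SC7

namespace SC8

theorem r3_sq (k : Type) [Field k] [NumberField k] : ∃ C : ℝ,
    ∀ T : Finset (Pr k), ∑ v ∈ T, ((nv v : ℝ) ^ 2)⁻¹ ≤ C := by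
  classical
  obtain ⟨z, hz⟩ := sum_sq k 1 one_pos
  refine ⟨∑ v ∈ (finite_nv k ⌊z⌋₊).toFinset, ((nv v : ℝ) ^ 2)⁻¹ + 1, fun T => ?_⟩
  rw [← Finset.sum_filter_add_sum_filter_not T (fun v => (nv v : ℝ) ≤ z)]
  refine add_le_add ?_ (hz _ fun v hv => not_le.1 (Finset.mem_filter.1 hv).2)
  refine Finset.sum_le_sum_of_subset_of_nonneg (fun v hv => ?_) fun v _ _ => by positivity
  rw [Set.Finite.mem_toFinset, Set.mem_ofPred_eq]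
  exact Nat.le_floor (Finset.mem_filter.1 hv).2

/-- the bounds for the factors -/
theorem r3_fac {x : ℝ} (h0 : 0 ≤ x) (h1 : x ≤ 1 / 2) :
    (0 ≤ 1 - x + 2 * x ^ 2 ∧ 1 - x + 2 * x ^ 2 ≤ 1 ∧ 1 - x + 2 * x ^ 2 ≤ Real.exp (-x + 2 * x ^ 2)) ∧
    (0 ≤ 1 - (x - x ^ 2) ∧ 1 - (x - x ^ 2) ≤ 1 ∧ 1 - (x - x ^ 2) ≤ Real.exp (-x + 2 * x ^ 2)) := by
  have h2 := Real.add_one_le_exp (-x + 2 * x ^ 2)
  have h3 : 0 ≤ x ^ 2 := sq_nonneg x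
  refine ⟨⟨by nlinarith, by nlinarith, by linarith⟩, ⟨by nlinarith, by nlinarith, by linarith⟩⟩

theorem mertens8 (k : Type) [Field k] [NumberField k] (S : Finset (Pr k)) : ∃ C : ℝ, 0 < C ∧
    ∀ y : ℝ, 2 ≤ y → ∀ V Z : Finset (Pr k), Disjoint Z V →
      (∀ q : Pr k, q ∉ S → (nv q : ℝ) ≤ y → q ∈ V ∨ q ∈ Z) →
      (∏ v ∈ V, (1 - ((nv v : ℝ))⁻¹ + 2 * ((nv v : ℝ) ^ 2)⁻¹)) *
        ∏ q ∈ Z, (1 - (((nv q : ℝ))⁻¹ - ((nv q : ℝ) ^ 2)⁻¹)) ≤ C / Real.log y := by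
  classical
  obtain ⟨C₂, hC₂⟩ := r3_sq k
  obtain ⟨C, hC⟩ := sum_lower k
  refine ⟨Real.exp (C + S.card + 2 * C₂), Real.exp_pos _, ?_⟩
  intro y hy V Z hVZ hcov
  have hly : 0 < Real.log y := Real.log_pos (by linarith)
  obtain ⟨T, hT, hT2⟩ := hC (3 / 2) y le_rfl (by linarith)
  have hnv2 : ∀ q : Pr k, (2 : ℝ) ≤ nv q := fun q => by exact_mod_cast two_le_nv q
  have hx0 : ∀ q : Pr k, 0 ≤ ((nv q : ℝ))⁻¹ := fun q => by positivity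
  have hx1 : ∀ q : Pr k, ((nv q : ℝ))⁻¹ ≤ 1 / 2 := fun q => by
    rw [one_div]
    exact inv_anti₀ (by norm_num) (hnv2 q)
  let a : Pr k → ℝ := fun v => if v ∈ V then 1 - ((nv v : ℝ))⁻¹ + 2 * ((nv v : ℝ) ^ 2)⁻¹
    else 1 - (((nv v : ℝ))⁻¹ - ((nv v : ℝ) ^ 2)⁻¹)
  have ha : ∀ v, 0 ≤ a v ∧ a v ≤ 1 ∧ a v ≤ Real.exp (-((nv v : ℝ))⁻¹ + 2 * ((nv v : ℝ) ^ 2)⁻¹) := by
    intro v
    have h := r3_fac (hx0 v) (hx1 v)
    simp only [inv_pow] at h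
    simp only [a]
    split_ifs
    · exact h.1
    · exact h.2
  have e1 : (∏ v ∈ V, (1 - ((nv v : ℝ))⁻¹ + 2 * ((nv v : ℝ) ^ 2)⁻¹)) *
        ∏ q ∈ Z, (1 - (((nv q : ℝ))⁻¹ - ((nv q : ℝ) ^ 2)⁻¹)) = ∏ v ∈ V ∪ Z, a v := by
    rw [Finset.prod_union hVZ.symm]
    congr 1
    · exact Finset.prod_congr rfl fun v hv => (if_pos hv).symm
    · exact Finset.prod_congr rfl fun v hv => (if_neg (Finset.disjoint_left.1 hVZ hv)).symm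
  rw [e1]
  have hsub : T \ S ⊆ V ∪ Z := by
    intro v hv
    rw [Finset.mem_sdiff] at hv
    rw [Finset.mem_union]
    exact hcov v hv.2 (hT v hv.1).2.2
  have e2 : ∏ v ∈ V ∪ Z, a v ≤ ∏ v ∈ T \ S, a v := by
    rw [← Finset.prod_sdiff hsub]
    exact mul_le_of_le_one_left (Finset.prod_nonneg fun v _ => (ha v).1)
      (Finset.prod_le_one (fun v _ => (ha v).1) fun v _ => (ha v).2.1)
  refine e2.trans ?_
  have e3 : ∏ v ∈ T \ S, a v ≤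
      Real.exp (∑ v ∈ T \ S, (-((nv v : ℝ))⁻¹ + 2 * ((nv v : ℝ) ^ 2)⁻¹)) := by
    rw [Real.exp_sum]
    exact Finset.prod_le_prod (fun v _ => (ha v).1) fun v _ => (ha v).2.2
  refine e3.trans ?_
  have e4 : ∑ v ∈ T, ((nv v : ℝ))⁻¹ - S.card ≤ ∑ v ∈ T \ S, ((nv v : ℝ))⁻¹ := by
    have h1 : ∑ v ∈ T, ((nv v : ℝ))⁻¹ ≤ ∑ v ∈ T \ S, ((nv v : ℝ))⁻¹ + ∑ v ∈ S, ((nv v : ℝ))⁻¹ := by
      have h2 : T ⊆ (T \ S) ∪ S := by
        intro v hv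
        rw [Finset.mem_union, Finset.mem_sdiff]
        by_cases h : v ∈ S
        · exact Or.inr h
        · exact Or.inl ⟨hv, h⟩
      have h3 : ∑ v ∈ T, ((nv v : ℝ))⁻¹ ≤ ∑ v ∈ (T \ S) ∪ S, ((nv v : ℝ))⁻¹ :=
        Finset.sum_le_sum_of_subset_of_nonneg h2 fun v _ _ => hx0 v
      rw [Finset.sum_union Finset.sdiff_disjoint] at h3
      exact h3
    have h2 : ∑ v ∈ S, ((nv v : ℝ))⁻¹ ≤ S.card := by
      have h3 : ∑ v ∈ S, ((nv v : ℝ))⁻¹ ≤ ∑ _v ∈ S, (1 : ℝ) :=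
        Finset.sum_le_sum fun v _ => by linarith [hx1 v]
      simpa using h3
    linarith
  have e5 : Real.log (Real.log y) ≤ Real.log (Real.log y / Real.log (3 / 2)) := by
    apply Real.log_le_log hly
    rw [le_div_iff₀ (Real.log_pos (by norm_num))]
    have h1 : Real.log (3 / 2) ≤ 1 := by
      have := Real.log_le_sub_one_of_pos (show (0 : ℝ) < 3 / 2 by norm_num)
      linarith
    exact mul_le_of_le_one_right hly.le h1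
  have e6 : ∑ v ∈ T \ S, (-((nv v : ℝ))⁻¹ + 2 * ((nv v : ℝ) ^ 2)⁻¹) ≤
      (C + S.card + 2 * C₂) - Real.log (Real.log y) := by
    rw [Finset.sum_add_distrib, Finset.sum_neg_distrib, ← Finset.mul_sum]
    have h1 := hC₂ (T \ S)
    linarith
  calc Real.exp (∑ v ∈ T \ S, (-((nv v : ℝ))⁻¹ + 2 * ((nv v : ℝ) ^ 2)⁻¹))
      ≤ Real.exp ((C + S.card + 2 * C₂) - Real.log (Real.log y)) := Real.exp_le_exp.2 e6
    _ = Real.exp (C + S.card + 2 * C₂) / Real.log y := by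
        rw [Real.exp_sub, Real.exp_log hly]

end SC8
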