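import Pool.Agent.MP_c1dca2_ag.SC8.R2
import Pool.Agent.MP_c1dca2_ag.SC8.R3
import Pool.Agent.MP_c1dca2_ag.SC5.C7

/-!
# [SC8-R4] elements of the box with prescribed behaviour at all primes up to `y`

Let `n = card ι ≥ 1`, `l = log N`, `y' = ⌊y⌋₊`, `Z` = the primes `∉ S`, `∉ V` with `nv ≤ y` (`finite_nv`), `B = N`. `sieve8` with
`h = ⌈2 log log y + C₁⌉₊` (`log log y ≥ log log 2`; take `C₁` so large that `2 h ≥ 4 log log y + C₁` and `h ≥ 1`):
`∑_{q ∈ Z} 1/nv q ≤ log log y + C₂` (`sum_upper` with `z = 3/2`), so `exp (-2h + 3 ∑) ≤ C₃ / log y`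
(choose `C₁` with `-2h + 3 ∑ ≤ - log log y`). Since
`∏_V mn v (G v) ≤ ∏_V g v (1/nv)(1 - 1/nv + 2/nv²)`, `mertens8` bounds the first term by `∏_V (g v / nv v) · C / log y`; for the
other two use `1 - 1/nv + 2/nv² ≤ 1`. Third term: `log (∏_V nv³) ≤ 3 card V · log y ≤ 3 (log l)² l^(1-1/K)`,
`log (y^(6h)) ≤ 6 h l^(1-1/K)`, `h ≤ 2 log l + C`, `Z.card ≤ [k:ℚ] y` (SC5/E7 `e7_card` is private: copy), so
`log ((card Z + 1)^(2h)) ≤ 2 h (log y + C)`: all is at most `l / 4` for `N ≥ N₀` (powers of logarithms times `l^(1-1/K)` against `l`), so `hB` holds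
and the third term is at most `2^n exp (l/2) / N = 2^n N^(-1/2) ≤ 1 / l ≤ 1 / log y` for large `N`. `(2N+1)^n ≤ 3^n N^n`.
The sum over the filtered box is the sum in `sieve8` (`c7_mem_box`; the terms of the filtered set are those with no `q ∈ Z` with
`el ∈ q \ q²`).
-/

set_option autoImplicit false

open NumberField IsDedekindDomain SC5 SC7 Filter

namespace SC8

private theorem r4_pow (a b c : ℝ) (hab : a < b) (hc : 0 < c) :
    ∀ᶠ l : ℝ in atTop, l ^ a ≤ c * l ^ b := by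
  have h := (tendsto_rpow_atTop (sub_pos.2 hab)).eventually_ge_atTop (1 / c)
  filter_upwards [h, eventually_gt_atTop 0] with l h1 h2
  have h3 : l ^ b = l ^ a * l ^ (b - a) := by
    rw [← Real.rpow_add h2]
    congr 1
    ring
  have h4 : 0 < l ^ a := Real.rpow_pos_of_pos h2 _
  rw [div_le_iff₀ hc] at h1
  rw [h3]
  nlinarith

private theorem r4_pow1 (a c : ℝ) (hab : a < 1) (hc : 0 < c) :
    ∀ᶠ l : ℝ in atTop, l ^ a ≤ c * l := by
  filter_upwards [r4_pow a 1 c hab hc] with l h1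
  rwa [Real.rpow_one] at h1

private theorem r4_log (a c : ℝ) (ha : 0 < a) (hc : 0 < c) :
    ∀ᶠ l : ℝ in atTop, Real.log l ≤ c * l ^ a := by
  have h := (isLittleO_log_rpow_atTop ha).bound hc
  filter_upwards [h, eventually_ge_atTop 1] with l h1 h2
  rwa [Real.norm_of_nonneg (Real.log_nonneg h2),
    Real.norm_of_nonneg (Real.rpow_nonneg (by linarith) _)] at h1

/-- the number of primes of norm at most `y` -/
private theorem r4_card (K : Type) [Field K] [NumberField K] (y : ℕ) (Z : Finset (Pr K))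
    (hZ : ∀ q ∈ Z, nv q ≤ y) : Z.card ≤ Module.finrank ℚ K * y := by
  classical
  -- the rational prime below
  have hp : ∀ q : Pr K, ∃ p : ℕ, p.Prime ∧ (p : 𝓞 K) ∈ q.asIdeal ∧ p ≤ nv q := by
    intro q
    have h1 : nv q ≠ 1 := by
      have := two_le_nv q
      omega
    have h0 : ((nv q : ℕ) : 𝓞 K) ∈ q.asIdeal := nv_mem q
    have hpr : q.asIdeal.IsPrime := q.isPrime
    -- some prime factor of `nv q` is in `q`
    have key : ∀ m : ℕ, m ≠ 0 → m ≠ 1 → (m : 𝓞 K) ∈ q.asIdeal →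
        ∃ p : ℕ, p.Prime ∧ (p : 𝓞 K) ∈ q.asIdeal ∧ p ≤ m := by
      intro m
      induction m using Nat.strong_induction_on with
      | _ m ih =>
        intro hm0 hm1 hm
        obtain ⟨p, hp, k, rfl⟩ := Nat.exists_prime_and_dvd hm1
        have hk0 : k ≠ 0 := by
          rintro rfl
          simp at hm0
        by_cases hpm : (p : 𝓞 K) ∈ q.asIdeal
        · exact ⟨p, hp, hpm, Nat.le_mul_of_pos_right p (Nat.pos_of_ne_zero hk0)⟩
        · rw [Nat.cast_mul] at hm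
          have hk : (k : 𝓞 K) ∈ q.asIdeal := (hpr.mem_or_mem hm).resolve_left hpm
          have hk1 : k ≠ 1 := by
            rintro rfl
            rw [Nat.cast_one] at hk
            exact hpr.ne_top ((Ideal.eq_top_iff_one _).2 hk)
          have hlt : k < p * k := by
            have := hp.two_le
            nlinarith [Nat.pos_of_ne_zero hk0]
          obtain ⟨p', h1, h2, h3⟩ := ih k hlt hk0 hk1 hk
          exact ⟨p', h1, h2, h3.trans hlt.le⟩
    exact key _ (by have := two_le_nv q; omega) h1 h0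
  choose p hp1 hp2 hp3 using hp
  have h1 : Z.card = ∑ a ∈ Finset.Icc 1 y, (Z.filter (fun q => p q = a)).card := by
    apply Finset.card_eq_sum_card_fiberwise
    intro q hq
    have := hp3 q
    have h2 := hZ q hq
    have h3 := (hp1 q).one_lt
    simp only [Finset.coe_Icc, Set.mem_Icc]
    omega
  rw [h1]
  calc ∑ a ∈ Finset.Icc 1 y, (Z.filter (fun q => p q = a)).card
      ≤ ∑ _a ∈ Finset.Icc 1 y, Module.finrank ℚ K := by
        apply Finset.sum_le_sum
        intro a _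
        by_cases hne : (Z.filter (fun q => p q = a)).Nonempty
        · obtain ⟨q0, hq0⟩ := hne
          have ha : a.Prime := by
            rw [← (Finset.mem_filter.1 hq0).2]
            exact hp1 q0
          have hinj : Function.Injective (fun q : Pr K => q.asIdeal) := by
            intro q q' h
            exact HeightOneSpectrum.ext h
          rw [← Finset.card_image_of_injective (Z.filter (fun q => p q = a)) hinj]
          apply SC4.card_above_le K a ha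
          intro P hP
          obtain ⟨q, hq, rfl⟩ := Finset.mem_image.1 hP
          refine ⟨q.isPrime, q.ne_bot, ?_⟩
          rw [← (Finset.mem_filter.1 hq).2]
          exact hp2 q
        · rw [Finset.not_nonempty_iff_eq_empty] at hne
          rw [hne]
          simp
    _ = Module.finrank ℚ K * y := by
        rw [Finset.sum_const, Nat.card_Icc, smul_eq_mul]
        simp [mul_comm]

/-- the conditions on `l = log N` -/
private structure R4Cond (K n n₀ : ℕ) (C₁ l : ℝ) : Prop where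
  c0 : 4 ≤ l
  c1 : (3 * Real.log l ^ 2 + 8 * (2 * Real.log l + C₁ + 1)) * l ^ (1 - 1 / (K : ℝ)) ≤ l / 4
  c2 : n * Real.log 2 ≤ l / 4
  c3 : 2 * (2 * Real.log l + C₁ + 1) * Real.log (n₀ + 1) ≤ l / 4
  c4 : Real.log l ≤ l / 4

private theorem r4_cond (K n n₀ : ℕ) (hK : 2 ≤ K) (C₁ : ℝ) (hC₁ : 0 ≤ C₁) :
    ∀ᶠ l : ℝ in atTop, R4Cond K n n₀ C₁ l := by
  have hK' : (2 : ℝ) ≤ K := by exact_mod_cast hK
  have hK0 : (0 : ℝ) < K := by linarith
  have hlog : 0 ≤ Real.log ((n₀ : ℝ) + 1) := Real.log_nonneg (by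
    have : (0 : ℝ) ≤ n₀ := Nat.cast_nonneg _
    linarith)
  have h1 := r4_log (1 / (4 * K)) 1 (by positivity) one_pos
  have h2 := r4_pow1 (1 - 1 / (2 * K)) (1 / (4 * (19 + 8 * (C₁ + 1)))) (by
    have : 0 < 1 / (2 * (K : ℝ)) := by positivity
    linarith) (by positivity)
  have h3 := r4_log 1 (1 / (32 * (Real.log (n₀ + 1) + 1))) one_pos (by positivity)
  have h4 := r4_log 1 (1 / 4) one_pos (by norm_num)
  filter_upwards [h1, h2, h3, h4, eventually_ge_atTop 4, eventually_ge_atTop (4 * (n * Real.log 2)),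
    eventually_ge_atTop (16 * (C₁ + 1) * (Real.log (n₀ + 1) + 1))] with l g1 g2 g3 g4 g5 g6 g7
  have hl0 : 0 < l := by linarith
  have hlog0 : 0 ≤ Real.log l := Real.log_nonneg (by linarith)
  rw [Real.rpow_one] at g3 g4
  rw [one_mul] at g1
  refine ⟨g5, ?_, by linarith, ?_, by linarith⟩
  · -- main
    have e1 : l ^ (1 / (4 * (K : ℝ))) ≤ l ^ (1 / (2 * (K : ℝ))) := by
      apply Real.rpow_le_rpow_of_exponent_le (by linarith)
      apply one_div_le_one_div_of_le (by positivity)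
      linarith
    have e2 : (l ^ (1 / (4 * (K : ℝ)))) ^ 2 = l ^ (1 / (2 * (K : ℝ))) := by
      rw [← Real.rpow_natCast, ← Real.rpow_mul hl0.le]
      congr 1
      push_cast
      field_simp
      norm_num
    have e3 : 1 ≤ l ^ (1 / (2 * (K : ℝ))) := Real.one_le_rpow (by linarith) (by positivity)
    have e4 : Real.log l ^ 2 ≤ l ^ (1 / (2 * (K : ℝ))) := by
      rw [← e2]
      gcongr
    have e5 : Real.log l ≤ l ^ (1 / (2 * (K : ℝ))) := g1.trans e1
    have e6 : 3 * Real.log l ^ 2 + 8 * (2 * Real.log l + C₁ + 1) ≤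
        (19 + 8 * (C₁ + 1)) * l ^ (1 / (2 * (K : ℝ))) := by
      nlinarith
    have e7 : l ^ (1 / (2 * (K : ℝ))) * l ^ (1 - 1 / (K : ℝ)) = l ^ (1 - 1 / (2 * (K : ℝ))) := by
      rw [← Real.rpow_add hl0]
      congr 1
      field_simp
      ring
    have e8 : 0 ≤ l ^ (1 - 1 / (K : ℝ)) := Real.rpow_nonneg hl0.le _
    calc (3 * Real.log l ^ 2 + 8 * (2 * Real.log l + C₁ + 1)) * l ^ (1 - 1 / (K : ℝ))
        ≤ (19 + 8 * (C₁ + 1)) * l ^ (1 / (2 * (K : ℝ))) * l ^ (1 - 1 / (K : ℝ)) := by gcongr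
      _ = (19 + 8 * (C₁ + 1)) * l ^ (1 - 1 / (2 * (K : ℝ))) := by rw [mul_assoc, e7]
      _ ≤ (19 + 8 * (C₁ + 1)) * (1 / (4 * (19 + 8 * (C₁ + 1))) * l) := by gcongr
      _ = l / 4 := by field_simp
  · -- third
    have f0 : 0 < Real.log ((n₀ : ℝ) + 1) + 1 := by linarith
    have f1 : Real.log l * (32 * (Real.log (n₀ + 1) + 1)) ≤ l := by
      have := mul_le_mul_of_nonneg_right g3 (by positivity : 0 ≤ 32 * (Real.log ((n₀ : ℝ) + 1) + 1))
      refine this.trans (le_of_eq ?_)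
      field_simp
    nlinarith [mul_nonneg hlog0 hlog, mul_nonneg hC₁ hlog]

set_option maxHeartbeats 2000000 in
open scoped Classical in
theorem sieve_small {k : Type} [Field k] [NumberField k] {ι : Type} [Fintype ι]
    (b : Module.Basis ι ℤ (𝓞 k)) (S : Finset (Pr k)) (K : ℕ) (hK : 2 ≤ K) :
    ∃ (A : ℝ) (N₀ : ℕ), 0 < A ∧ ∀ N : ℕ, N₀ ≤ N → ∀ y : ℝ, 2 ≤ y →
      Real.log y ≤ Real.log N ^ (1 - 1 / (K : ℝ)) → ∀ V : Finset (Pr k),
      (∀ v ∈ V, v ∉ S ∧ (nv v : ℝ) ≤ y) → (V.card : ℝ) ≤ Real.log (Real.log N) ^ 2 →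
      ∀ G : Pr k → 𝓞 k → ℝ, (∀ v ∈ V, (∀ a, 0 ≤ G v a) ∧ Per v (G v)) →
      ∀ g : Pr k → ℝ, (∀ v ∈ V, 0 ≤ g v ∧
        mn v (G v) ≤ g v * (((nv v : ℝ))⁻¹ * (1 - ((nv v : ℝ))⁻¹ + 2 * ((nv v : ℝ) ^ 2)⁻¹))) →
      ∑ c ∈ (c7_box ι N).filter (fun c => ∀ q : Pr k, q ∉ S → (nv q : ℝ) ≤ y → q ∉ V →
          ¬ (el b c ∈ q.asIdeal ∧ el b c ∉ q.asIdeal ^ 2)), ∏ v ∈ V, G v (el b c) ≤
        A * (N : ℝ) ^ (Fintype.card ι) / Real.log y * ∏ v ∈ V, (g v / nv v) := by
  obtain ⟨C2, hC2⟩ := sum_upper k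
  obtain ⟨C3, hC3, hmert⟩ := mertens8 k S
  set n := Fintype.card ι with hn
  set n₀ := Module.finrank ℚ k with hn₀
  set C₁ : ℝ := |3 / 2 * (C2 - Real.log (Real.log (3 / 2)))| + 2 * |Real.log (Real.log 2)| with hC₁
  have hC₁0 : 0 ≤ C₁ := by positivity
  have hcond := Real.tendsto_log_atTop.eventually (r4_cond K n n₀ hK C₁ hC₁0)
  have hcond' := tendsto_natCast_atTop_atTop.eventually hcond
  obtain ⟨N₁, hN₁⟩ := eventually_atTop.1 hcond'
  refine ⟨3 ^ n * (C3 + 2), max N₁ 1, by positivity, ?_⟩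
  intro N hN y hy hly V hV hVc G hG g hg
  have hc := hN₁ N ((le_max_left _ _).trans hN)
  have hN1 : 1 ≤ N := (le_max_right _ _).trans hN
  have hN1' : (1 : ℝ) ≤ N := by exact_mod_cast hN1
  set l := Real.log N with hl
  have hNl : (N : ℝ) = Real.exp l := (Real.exp_log (by linarith)).symm
  set t := Real.log y with ht
  have hy0 : 0 < y := by linarith
  have hyt : y = Real.exp t := (Real.exp_log hy0).symm
  have hl2 : 0 < Real.log 2 := Real.log_pos (by norm_num)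
  have ht2 : Real.log 2 ≤ t := Real.log_le_log (by norm_num) hy
  have ht0 : 0 < t := by linarith
  have hl4 := hc.c0
  have hl0 : 0 < l := by linarith
  have htl : t ≤ l := by
    refine hly.trans ?_
    calc l ^ (1 - 1 / (K : ℝ)) ≤ l ^ (1 : ℝ) := by
          apply Real.rpow_le_rpow_of_exponent_le (by linarith)
          have : 0 ≤ 1 / (K : ℝ) := by positivity
          linarith
      _ = l := Real.rpow_one l
  have hlt : Real.log t ≤ Real.log l := Real.log_le_log ht0 htl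
  have hlt2 : Real.log (Real.log 2) ≤ Real.log t := Real.log_le_log hl2 ht2
  -- y'
  set y' := ⌊y⌋₊ with hy'
  have hy'1 : (y' : ℝ) ≤ y := Nat.floor_le hy0.le
  have hy'2 : 2 ≤ y' := Nat.le_floor (by exact_mod_cast hy)
  have hy'2' : (2 : ℝ) ≤ y' := by exact_mod_cast hy'2
  -- h
  set h := ⌈2 * Real.log t + C₁⌉₊ with hh
  have hh0 : 0 ≤ 2 * Real.log t + C₁ := by
    have h1 := neg_abs_le (Real.log (Real.log 2))
    have h2 := abs_nonneg (3 / 2 * (C2 - Real.log (Real.log (3 / 2))))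
    rw [hC₁]
    linarith
  have hh1 : 2 * Real.log t + C₁ ≤ h := Nat.le_ceil _
  have hh2 : (h : ℝ) ≤ 2 * Real.log l + C₁ + 1 := by
    have := (Nat.ceil_lt_add_one hh0).le
    linarith
  -- Z
  obtain ⟨Z, hZmem⟩ : ∃ Z : Finset (Pr k), ∀ q, q ∈ Z ↔ nv q ≤ y' ∧ q ∉ S ∧ q ∉ V := by
    refine ⟨(finite_nv k y').toFinset.filter (fun q => q ∉ S ∧ q ∉ V), ?_⟩
    intro q
    rw [Finset.mem_filter, Set.Finite.mem_toFinset]
    rfl
  have hZV : Disjoint Z V := by
    rw [Finset.disjoint_left]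
    intro q hq
    exact ((hZmem q).1 hq).2.2
  have hZc : ∀ q : Pr k, q ∉ S → (nv q : ℝ) ≤ y → q ∈ V ∨ q ∈ Z := by
    intro q hq1 hq2
    by_cases hqV : q ∈ V
    · exact Or.inl hqV
    · exact Or.inr ((hZmem q).2 ⟨Nat.le_floor hq2, hq1, hqV⟩)
  -- the product over V
  have hnv0 : ∀ v : Pr k, (2 : ℝ) ≤ nv v := by
    intro v
    exact_mod_cast two_le_nv v
  have hPV : ((∏ v ∈ V, nv v ^ 3 : ℕ) : ℝ) ≤ Real.exp (3 * Real.log l ^ 2 * t) := by
    push_cast
    calc ∏ v ∈ V, (nv v : ℝ) ^ 3 ≤ ∏ _v ∈ V, Real.exp t ^ 3 := by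
          apply Finset.prod_le_prod
          · intro v _
            positivity
          · intro v hv
            rw [← hyt]
            have := (hV v hv).2
            gcongr
      _ = Real.exp ((V.card : ℝ) * (3 * t)) := by
          rw [Finset.prod_const, ← Real.exp_nat_mul, ← Real.exp_nat_mul]
          congr 1
      _ ≤ _ := by
          apply Real.exp_le_exp.2
          nlinarith
  have hPy : ((y' ^ (6 * h) : ℕ) : ℝ) ≤ Real.exp (6 * h * t) := by
    push_cast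
    calc (y' : ℝ) ^ (6 * h) ≤ Real.exp t ^ (6 * h) := by
          rw [← hyt]
          gcongr
      _ = Real.exp (6 * h * t) := by
          rw [← Real.exp_nat_mul]
          push_cast
          rfl
  have hht : (h : ℝ) * t ≤ (2 * Real.log l + C₁ + 1) * t := by gcongr
  have hll0 : 0 ≤ Real.log l := Real.log_nonneg (by linarith)
  have hmain : 3 * Real.log l ^ 2 * t + 8 * h * t ≤ l / 4 := by
    calc 3 * Real.log l ^ 2 * t + 8 * h * t ≤
          (3 * Real.log l ^ 2 + 8 * (2 * Real.log l + C₁ + 1)) * t := by nlinarith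
      _ ≤ (3 * Real.log l ^ 2 + 8 * (2 * Real.log l + C₁ + 1)) * l ^ (1 - 1 / (K : ℝ)) := by
          gcongr
      _ ≤ l / 4 := hc.c1
  have hh00 : 0 ≤ (h : ℝ) * t := by positivity
  have hB : (∏ q ∈ V, nv q ^ 3) * y' ^ (6 * h) ≤ 2 * N + 1 := by
    have h1 : (((∏ q ∈ V, nv q ^ 3) * y' ^ (6 * h) : ℕ) : ℝ) ≤ ((2 * N + 1 : ℕ) : ℝ) := by
      rw [Nat.cast_mul]
      calc ((∏ q ∈ V, nv q ^ 3 : ℕ) : ℝ) * ((y' ^ (6 * h) : ℕ) : ℝ) ≤
            Real.exp (3 * Real.log l ^ 2 * t) * Real.exp (6 * h * t) := by gcongr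
        _ = Real.exp (3 * Real.log l ^ 2 * t + 6 * h * t) := (Real.exp_add _ _).symm
        _ ≤ Real.exp l := by
            apply Real.exp_le_exp.2
            nlinarith
        _ = N := hNl.symm
        _ ≤ ((2 * N + 1 : ℕ) : ℝ) := by
            push_cast
            linarith
    exact_mod_cast h1
  have hsieve := sieve8 b V G (fun q hq => (hG q hq).1) (fun q hq => (hG q hq).2) Z hZV y' N h
    (by omega) (fun q hq => ((hZmem q).1 hq).1) hB
  rw [← hn] at hsieve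
  have hle : ∑ c ∈ (c7_box ι N).filter (fun c => ∀ q : Pr k, q ∉ S → (nv q : ℝ) ≤ y → q ∉ V →
          ¬ (el b c ∈ q.asIdeal ∧ el b c ∉ q.asIdeal ^ 2)), ∏ v ∈ V, G v (el b c) ≤
      ∑ c ∈ Fintype.piFinset (fun _ : ι => Finset.Icc (-(N : ℤ)) N),
        if ∃ q ∈ Z, el b c ∈ q.asIdeal ∧ el b c ∉ q.asIdeal ^ 2 then 0
        else ∏ v ∈ V, G v (el b c) := by
    rw [Finset.sum_filter]
    have hbox : c7_box ι N = Fintype.piFinset (fun _ : ι => Finset.Icc (-(N : ℤ)) N) := by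
      ext c
      rw [c7_mem_box, Fintype.mem_piFinset]
      refine forall_congr' fun i => ?_
      rw [Finset.mem_Icc, abs_le]
    rw [hbox]
    apply Finset.sum_le_sum
    intro c _
    have hG0 : 0 ≤ ∏ v ∈ V, G v (el b c) := Finset.prod_nonneg (fun v hv => (hG v hv).1 _)
    by_cases hp : ∀ q : Pr k, q ∉ S → (nv q : ℝ) ≤ y → q ∉ V →
          ¬ (el b c ∈ q.asIdeal ∧ el b c ∉ q.asIdeal ^ 2)
    · rw [if_pos hp, if_neg]
      rintro ⟨q, hq, hq'⟩
      obtain ⟨q1, q2, q3⟩ := (hZmem q).1 hq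
      refine hp q q2 ?_ q3 hq'
      have : (nv q : ℝ) ≤ y' := by exact_mod_cast q1
      linarith
    · rw [if_neg hp]
      split_ifs
      · exact le_refl _
      · exact hG0
  refine hle.trans (hsieve.trans ?_)
  -- the three terms
  have hT2 : Real.exp (-(2 * h : ℝ) + 3 * ∑ q ∈ Z, ((nv q : ℝ))⁻¹) ≤ t⁻¹ := by
    have h1 := hC2 (3 / 2) y (by norm_num) (by linarith) Z (by
      intro q hq
      have h2 := hnv0 q
      have h3 : (nv q : ℝ) ≤ y' := by exact_mod_cast ((hZmem q).1 hq).1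
      exact ⟨by linarith, by linarith⟩)
    have hl32 : 0 < Real.log (3 / 2) := Real.log_pos (by norm_num)
    rw [← ht, Real.log_div ht0.ne' hl32.ne'] at h1
    have h4 : t⁻¹ = Real.exp (-Real.log t) := by
      rw [Real.exp_neg, Real.exp_log ht0]
    rw [h4]
    apply Real.exp_le_exp.2
    have h5 := le_abs_self (3 / 2 * (C2 - Real.log (Real.log (3 / 2))))
    have h6 := abs_nonneg (Real.log (Real.log 2))
    rw [hC₁] at hh1
    linarith
  have hcard0 := r4_card k y' Z (fun q hq => ((hZmem q).1 hq).1)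
  rw [← hn₀] at hcard0
  have hlogn : 0 ≤ Real.log ((n₀ : ℝ) + 1) := Real.log_nonneg (by
    have : (0 : ℝ) ≤ n₀ := Nat.cast_nonneg _
    linarith)
  have hT3 : 2 ^ n * (((∏ q ∈ V, nv q ^ 3) * y' ^ (6 * h) : ℕ) : ℝ) *
            (Z.card + 1) ^ (2 * h) / (2 * N + 1) ≤ t⁻¹ := by
    clear hsieve hle hmert
    clear_value h y' l t C₁ n n₀
    generalize Z.card = c0 at hcard0 ⊢
    have hcard : (c0 + 1 : ℝ) ≤ Real.exp (t + Real.log (n₀ + 1)) := by
      have h2 : (c0 : ℝ) ≤ n₀ * y' := by exact_mod_cast hcard0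
      have h3 : (0 : ℝ) ≤ n₀ := Nat.cast_nonneg _
      rw [Real.exp_add, Real.exp_log (show (0 : ℝ) < (n₀ : ℝ) + 1 by linarith), ← hyt]
      nlinarith
    have h1 : (c0 + 1 : ℝ) ^ (2 * h) ≤ Real.exp (2 * h * t + 2 * h * Real.log (n₀ + 1)) := by
      calc (c0 + 1 : ℝ) ^ (2 * h) ≤ Real.exp (t + Real.log (n₀ + 1)) ^ (2 * h) := by gcongr
        _ = _ := by
          rw [← Real.exp_nat_mul]
          congr 1
          push_cast
          ring
    have h2 : (2 : ℝ) ^ n = Real.exp (n * Real.log 2) := by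
      rw [Real.exp_nat_mul, Real.exp_log (by norm_num)]
    have h3 : t⁻¹ = Real.exp (-Real.log t) := by
      rw [Real.exp_neg, Real.exp_log ht0]
    have h4 : (h : ℝ) * Real.log (n₀ + 1) ≤ (2 * Real.log l + C₁ + 1) * Real.log (n₀ + 1) := by
      gcongr
    rw [div_le_iff₀ (by positivity), Nat.cast_mul]
    calc 2 ^ n * (((∏ q ∈ V, nv q ^ 3 : ℕ) : ℝ) * ((y' ^ (6 * h) : ℕ) : ℝ)) *
            (c0 + 1) ^ (2 * h)
        ≤ Real.exp (n * Real.log 2) * (Real.exp (3 * Real.log l ^ 2 * t) *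
          Real.exp (6 * h * t)) * Real.exp (2 * h * t + 2 * h * Real.log (n₀ + 1)) := by
          rw [h2]
          gcongr
      _ = Real.exp (n * Real.log 2 + (3 * Real.log l ^ 2 * t + 6 * h * t) +
            (2 * h * t + 2 * h * Real.log (n₀ + 1))) := by
          rw [← Real.exp_add, ← Real.exp_add, ← Real.exp_add]
      _ ≤ Real.exp (-Real.log t + l) := by
          apply Real.exp_le_exp.2
          have g2 := hc.c2
          have g3 := hc.c3
          have g4 := hc.c4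
          linarith
      _ = t⁻¹ * N := by
          rw [Real.exp_add, h3, ← hNl]
      _ ≤ t⁻¹ * (2 * N + 1) := by
          gcongr
          linarith
  have hm0 : ∀ v ∈ V, 0 ≤ mn v (G v) := by
    intro v hv
    unfold mn
    apply div_nonneg _ (by positivity)
    exact finsum_nonneg (fun _ => (hG v hv).1 _)
  have hx : ∀ v : Pr k, 0 ≤ 1 - ((nv v : ℝ))⁻¹ + 2 * ((nv v : ℝ) ^ 2)⁻¹ ∧
      1 - ((nv v : ℝ))⁻¹ + 2 * ((nv v : ℝ) ^ 2)⁻¹ ≤ 1 := by
    intro v
    have h2 := hnv0 v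
    have h3 : 0 < ((nv v : ℝ))⁻¹ := by positivity
    have h4 : ((nv v : ℝ))⁻¹ ≤ 1 / 2 := by
      rw [inv_eq_one_div]
      exact one_div_le_one_div_of_le (by norm_num) h2
    rw [← inv_pow]
    constructor
    · nlinarith
    · nlinarith
  have hprod : ∏ v ∈ V, mn v (G v) ≤ (∏ v ∈ V, (g v / nv v)) *
      ∏ v ∈ V, (1 - ((nv v : ℝ))⁻¹ + 2 * ((nv v : ℝ) ^ 2)⁻¹) := by
    rw [← Finset.prod_mul_distrib]
    apply Finset.prod_le_prod hm0
    intro v hv
    refine ((hg v hv).2).trans (le_of_eq ?_)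
    rw [div_eq_mul_inv]
    ring
  have hg0 : 0 ≤ ∏ v ∈ V, (g v / nv v) :=
    Finset.prod_nonneg (fun v hv => div_nonneg (hg v hv).1 (Nat.cast_nonneg _))
  have hW0 : 0 ≤ ∏ v ∈ V, (1 - ((nv v : ℝ))⁻¹ + 2 * ((nv v : ℝ) ^ 2)⁻¹) :=
    Finset.prod_nonneg (fun v _ => (hx v).1)
  have hW1 : ∏ v ∈ V, (1 - ((nv v : ℝ))⁻¹ + 2 * ((nv v : ℝ) ^ 2)⁻¹) ≤ 1 :=
    Finset.prod_le_one (fun v _ => (hx v).1) (fun v _ => (hx v).2)
  have hT1 := hmert y hy V Z hZV hZc
  rw [← ht] at hT1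
  have hT10 : 0 ≤ ∏ q ∈ Z, (1 - (((nv q : ℝ))⁻¹ - ((nv q : ℝ) ^ 2)⁻¹)) := by
    apply Finset.prod_nonneg
    intro q _
    have h2 := hnv0 q
    have h4 : ((nv q : ℝ))⁻¹ ≤ 1 / 2 := by
      rw [inv_eq_one_div]
      exact one_div_le_one_div_of_le (by norm_num) h2
    have h5 : 0 ≤ ((nv q : ℝ) ^ 2)⁻¹ := by positivity
    linarith
  generalize hE2 : Real.exp (-(2 * h : ℝ) + 3 * ∑ q ∈ Z, ((nv q : ℝ))⁻¹) = E2 at hT2 ⊢
  generalize hE3 : 2 ^ n * (((∏ q ∈ V, nv q ^ 3) * y' ^ (6 * h) : ℕ) : ℝ) *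
            (Z.card + 1) ^ (2 * h) / (2 * N + 1) = E3 at hT3 ⊢
  have hE20 : 0 ≤ E2 := by
    rw [← hE2]
    positivity
  have hE30 : 0 ≤ E3 := by
    rw [← hE3]
    exact div_nonneg (mul_nonneg (mul_nonneg (pow_nonneg zero_le_two _) (Nat.cast_nonneg _))
      (pow_nonneg (add_nonneg (Nat.cast_nonneg _) zero_le_one) _)) (by linarith)
  generalize hP1 : ∏ q ∈ Z, (1 - (((nv q : ℝ))⁻¹ - ((nv q : ℝ) ^ 2)⁻¹)) = T1 at hT1 hT10 ⊢
  generalize hPW : ∏ v ∈ V, (1 - ((nv v : ℝ))⁻¹ + 2 * ((nv v : ℝ) ^ 2)⁻¹) = PW at *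
  generalize hPg : ∏ v ∈ V, (g v / nv v) = Pg at *
  clear hsieve hle hmert
  clear_value h y' l t C₁ n n₀
  have hfin : PW * (T1 + E2 + E3) ≤ (C3 + 2) / t := by
    have h1 : PW * (E2 + E3) ≤ 1 * (E2 + E3) := by gcongr
    have h2 : (C3 + 2) / t = C3 / t + t⁻¹ + t⁻¹ := by
      field_simp
      ring
    rw [h2]
    linarith
  have h3N : (2 * N + 1 : ℝ) ^ n ≤ 3 ^ n * (N : ℝ) ^ n := by
    rw [← mul_pow]
    exact pow_le_pow_left₀ (by linarith) (by linarith) n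
  calc (2 * N + 1 : ℝ) ^ n * (∏ v ∈ V, mn v (G v)) * (T1 + E2 + E3)
      ≤ (2 * N + 1 : ℝ) ^ n * (Pg * PW) * (T1 + E2 + E3) := by gcongr
    _ = (2 * N + 1 : ℝ) ^ n * Pg * (PW * (T1 + E2 + E3)) := by ring
    _ ≤ (3 ^ n * (N : ℝ) ^ n) * Pg * ((C3 + 2) / t) := by gcongr
    _ = 3 ^ n * (C3 + 2) * (N : ℝ) ^ n / t * Pg := by ring

end SC8
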