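import Pool.Agent.MP_c1dca2_ag.SC8.C2
import Pool.Agent.MP_c1dca2_ag.SC8.M2
import Pool.Agent.MP_c1dca2_ag.SC5.B3

/-!
# [SC8-W1] Part II: the sum over the special elements, the signs at the primes of `L W` being random

Copy SC8/C2.lean (`slot_sum8`) with `SC5.multi` (SC5/B3) instead of `multi_top`: `O = X = W = PL L`, `vis o = vis p (blk K Λ o)`,
`U i o = up k {i} o`, `UU o = up k univ o`, `b w q = bt al q w`, `ω w = (nv w.2)⁻¹`, `Sl = {i | 1 ≤ p i}` (`W ∉ Sl`), `V = P'` (all of it),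
`Γ o = rw8 k W (E o) o` (nonnegative, `≤ 1`: `avg_mono`, `avg_const`; it depends only on the signs at `up k univ o`: `avg_loc`-like,
`c2_rel`), `cc o = cpW k W K Λ p o`, `e = sgn al P'`, `Θ i = A₀ Λ^ε` for `i ≠ i₁` as in C2 (`slot_a`, resp. `c2_crude` for `p i = K`) and
`Θ i₁ = 4 Ab Λ^(-1+ε)`: by `slot_b` with `t = Λ - log 2 ≥ Λ/2`, `Y = exp Λ` (all `w ∈ T i₁` have `t < log (nv w)`, `nv w ≤ Y`):
`∑ (nv w)⁻¹ ∏ g ≤ (2/Y) ∑ (Y / nv w)^(3/4) ∏ g ≤ 2 Ab t^(-1+ε) ∏ avg`, `t^(-1+ε) ≤ (Λ/2)^(-1+ε) ≤ 2 Λ^(-1+ε)`.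
(the hypothesis `∑_{o ∈ V'} log nv (bl o) ≤ t^(1-ε₁)` of `slot_b` with `ε₁ = 1/(4K)`: `V'` = the `o ∈ P'` in blocks `≥ 3`; by `c2_card_log` the
sum is `≤ tau K Λ 1 ^ (1 - 1/(2K)) ≤ Λ^(1 - 1/(2K)) ≤ (Λ/2)^(1 - 1/(4K))` for large `Λ`.)
`hcc`: let `J = Sl ∩ vis o = vis o`. If `o.1 ∈ insert W (vis o)`: `avg (up k (vis o) o) (avg (up k {W} o) 1_Rel) = avg (up k (insert W (vis o)) o) 1_Rel`
(`avg_union`, the two sets are disjoint since `W ∉ vis o`, their union is `up k (insert W ..) o`) `≤ beta3 k (insert W (vis o)) o`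
(`SC7.rel_avg3`). Otherwise `cpW = 1` and `Γ ≤ 1`.
The sum in the statement is the sum in `multi`: `sgn al (P' ∪ Sl.image w) q = sgn al P' q * ∏ i ∈ Sl, bt al q (w i)` (`c2_sgn`).
-/

set_option autoImplicit false

open NumberField IsDedekindDomain SC5 SC7

namespace SC8

theorem w1_const {ε Λ : ℝ} (hε : 0 < ε) (hε' : ε < 1) (hΛ : 1 ≤ Λ) (t : ℝ) (ht : Λ / 2 ≤ t) :
    2 * t ^ (-1 + ε) ≤ 4 * Λ ^ (-1 + ε) := by
  have h1 : t ^ (-1 + ε) ≤ (Λ / 2) ^ (-1 + ε) :=
    Real.rpow_le_rpow_of_nonpos (by linarith) ht (by linarith)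
  have h2 : (Λ / 2) ^ (-1 + ε) = Λ ^ (-1 + ε) * (2 : ℝ) ^ (1 - ε) := by
    rw [Real.div_rpow (by linarith) (by norm_num), div_eq_mul_inv, ← Real.rpow_neg (by norm_num)]
    congr 2
    ring
  have h3 : (2 : ℝ) ^ (1 - ε) ≤ 2 := by
    calc (2 : ℝ) ^ (1 - ε) ≤ (2 : ℝ) ^ (1 : ℝ) :=
          Real.rpow_le_rpow_of_exponent_le (by norm_num) (by linarith)
      _ = 2 := Real.rpow_one 2
  have h4 : 0 ≤ Λ ^ (-1 + ε) := Real.rpow_nonneg (by linarith) _
  rw [h2] at h1
  nlinarith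

open scoped Classical in
theorem rw8_nonneg {k : Type} [Field k] [NumberField k] {I : Type} [Fintype I] {L : I → Type}
    [∀ i, Field (L i)] [∀ i, NumberField (L i)] [∀ i, Algebra k (L i)] (W : I)
    (E : PL L → PL L → ℤˣ) (o : PL L) (e : PL L → ℤˣ) : 0 ≤ rw8 k W E o e := by
  unfold rw8
  apply avg_nonneg
  intro e
  show (0 : ℝ) ≤ if Rel k E o e then (1 : ℝ) else 0
  split_ifs <;> norm_num

open scoped Classical in
theorem rw8_le_one {k : Type} [Field k] [NumberField k] {I : Type} [Fintype I] {L : I → Type}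
    [∀ i, Field (L i)] [∀ i, NumberField (L i)] [∀ i, Algebra k (L i)] (W : I)
    (E : PL L → PL L → ℤˣ) (o : PL L) (e : PL L → ℤˣ) : rw8 k W E o e ≤ 1 := by
  unfold rw8
  refine (avg_mono _ _ (fun _ => (1 : ℝ)) ?_ e).trans (le_of_eq (avg_const _ _ _))
  intro e
  show (if Rel k E o e then (1 : ℝ) else 0) ≤ 1
  split_ifs <;> norm_num

open scoped Classical in
theorem rw8_loc {k : Type} [Field k] [NumberField k] {I : Type} [Fintype I] {L : I → Type}
    [∀ i, Field (L i)] [∀ i, NumberField (L i)] [∀ i, Algebra k (L i)] (W : I)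
    (E : PL L → PL L → ℤˣ) (o : PL L) (e e' : PL L → ℤˣ)
    (h : ∀ q ∈ up k Finset.univ o, e q = e' q) : rw8 k W E o e = rw8 k W E o e' := by
  unfold rw8
  refine avg_loc _ (up k Finset.univ o) _ ?_ e e' h
  intro e e' hee
  show (if Rel k E o e then (1 : ℝ) else 0) = if Rel k E o e' then (1 : ℝ) else 0
  simp only [c2_rel E o e e' hee]

open scoped Classical in
theorem w1_cc {k : Type} [Field k] [NumberField k] {I : Type} [Fintype I] {L : I → Type}
    [∀ i, Field (L i)] [∀ i, NumberField (L i)] [∀ i, Algebra k (L i)] {S : Finset (Pr k)}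
    {al : ∀ i, Pr (L i) → 𝓞 (L i)} {Cg : ℕ} (hF : Fam8 k L S al Cg) (W : I)
    (heven : Even (∑ i, Module.finrank k (L i))) (K : ℕ) (Λ : ℝ) (p : I → ℕ) (hW : p W = 0)
    (o : PL L) (hd : dg k o.2 = 1) (hS : bl k o.2 ∉ S) (E : PL L → PL L → ℤˣ)
    (e : PL L → ℤˣ) :
    avg (up k (vis p (blk K Λ o)) o) (rw8 k W E o) e ≤ cpW k W K Λ p o := by
  have hWv : W ∉ vis p (blk K Λ o) := by
    intro h
    unfold vis at h
    rw [Finset.mem_filter] at h
    omega
  unfold cpW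
  by_cases ho : o.1 ∈ insert W (vis p (blk K Λ o))
  · rw [if_pos ho]
    refine le_trans (le_of_eq ?_) (rel_avg3 S heven hF.unr o hd hS _ ho E e)
    have hdis : Disjoint (up k (vis p (blk K Λ o)) o) (up k {W} o) := by
      rw [Finset.disjoint_left]
      intro q hq hq'
      rw [mem_up] at hq hq'
      rw [Finset.mem_singleton] at hq'
      exact hWv (hq'.1 ▸ hq.1)
    have hun : up k (vis p (blk K Λ o)) o ∪ up k {W} o =
        up k (insert W (vis p (blk K Λ o))) o := by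
      ext q
      rw [Finset.mem_union, mem_up, mem_up, mem_up, Finset.mem_singleton, Finset.mem_insert]
      tauto
    have h1 := avg_union (up k (vis p (blk K Λ o)) o) (up k {W} o) hdis
      (fun e => if Rel k E o e then (1 : ℝ) else 0) e
    rw [← hun, h1]
    rfl
  · rw [if_neg ho]
    refine (avg_mono _ _ (fun _ => (1 : ℝ)) (fun e => rw8_le_one W E o e) e).trans
      (le_of_eq (avg_const _ _ _))

open scoped Classical in
theorem slotW_sum {k : Type} [Field k] [NumberField k] {I : Type} [Fintype I] {L : I → Type}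
    [∀ i, Field (L i)] [∀ i, NumberField (L i)] [∀ i, Algebra k (L i)] {S : Finset (Pr k)}
    {al : ∀ i, Pr (L i) → 𝓞 (L i)} {Cg : ℕ} (hF : Fam8 k L S al Cg) (W : I)
    (heven : Even (∑ i, Module.finrank k (L i))) (K : ℕ) (hK : 2 ≤ K) (ε : ℝ)
    (hε : 0 < ε) (hε' : ε < 1) :
    ∃ A Λ₀ : ℝ, 0 < A ∧ 1 ≤ Λ₀ ∧ ∀ Λ : ℝ, Λ₀ ≤ Λ → ∀ p : I → ℕ, (∀ i, p i ≤ K) → p W = 0 →
      ∀ i₁ : I, i₁ ≠ W → p i₁ = 1 → ∀ P' : Finset (PL L), Cfg k S P' →
      (P'.card : ℝ) ≤ Real.log Λ ^ 2 → ∀ (d : PL L) (T : I → Finset (PL L)),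
      (∀ i, p i = 0 → T i = {d}) →
      (∀ i, 1 ≤ p i → ∀ w ∈ T i, w.1 = i ∧ blk K Λ w = p i ∧ ∀ o ∈ P', bl k w.2 ≠ bl k o.2) →
      (∀ w ∈ T i₁, Real.exp Λ / 2 < nv w.2 ∧ (nv w.2 : ℝ) ≤ Real.exp Λ) →
      ∀ E : PL L → PL L → PL L → ℤˣ,
      ∑ w ∈ Fintype.piFinset T,
        (∏ i ∈ Finset.univ.filter (fun i => 1 ≤ p i), ((nv (w i).2 : ℝ))⁻¹) *
          ∏ o ∈ P', rw8 k W (E o) o
            (sgn al (P' ∪ (Finset.univ.filter (fun i => 1 ≤ p i)).image w)) ≤
      A * Λ ^ (-1 + ε) * Λ ^ (ε * Fintype.card I) * ∏ o ∈ P', cpW k W K Λ p o := by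
  have hK0 : (0 : ℝ) < K := Nat.cast_pos.2 (by omega)
  have hε₁ : (0 : ℝ) < 1 / (2 * (K : ℝ)) := by positivity
  obtain ⟨Aa, ta, hAa, hta, ha⟩ := SC8.slot_a hF ε (1 / (2 * (K : ℝ))) hε hε' hε₁
  obtain ⟨Ab, tb, hAb, htb, hb⟩ := SC8.slot_b hF ε (1 / (2 * (K : ℝ))) hε hε' hε₁
  obtain ⟨Ac, hAc, hc⟩ := c2_crude L ε hε
  obtain ⟨Λ₁, hΛ₁⟩ := c2_log hK
  set A₀ : ℝ := max 1 (max Aa Ac) with hA₀
  have hA1 : 1 ≤ A₀ := le_max_left _ _
  have hAaA : Aa ≤ A₀ := (le_max_left _ _).trans (le_max_right _ _)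
  have hAcA : Ac ≤ A₀ := (le_max_right _ _).trans (le_max_right _ _)
  set t₀ : ℝ := max ta tb with ht₀
  have ht₀1 : 1 ≤ t₀ := hta.trans (le_max_left _ _)
  refine ⟨4 * Ab * A₀ ^ Fintype.card I, max (max (max Λ₁ 1) (t₀ ^ (K : ℝ)))
    (max ((2 : ℝ) ^ (K : ℝ)) (2 * t₀)), by positivity,
    (le_max_right _ _).trans ((le_max_left _ _).trans (le_max_left _ _)), ?_⟩
  intro Λ hΛ' p hpK hpW i₁ hi₁W hi₁ P' hP' hcard d T hT0 hT hT₁ E
  have hΛ : max (max Λ₁ 1) (t₀ ^ (K : ℝ)) ≤ Λ := (le_max_left _ _).trans hΛ'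
  have hΛ2 : (2 : ℝ) ^ (K : ℝ) ≤ Λ := (le_max_left _ _).trans ((le_max_right _ _).trans hΛ')
  have hΛt : 2 * t₀ ≤ Λ := (le_max_right _ _).trans ((le_max_right _ _).trans hΛ')
  have hΛ1 : 1 ≤ Λ := (le_max_right _ _).trans ((le_max_left _ _).trans hΛ)
  have hΛ0 : 0 < Λ := by linarith
  have hlog := hΛ₁ Λ ((le_max_left _ _).trans ((le_max_left _ _).trans hΛ))
  have hτ₀ : ∀ j : ℕ, j < K → t₀ ≤ tau K Λ j := by
    intro j hj
    have h1 : t₀ ≤ Λ ^ (1 / (K : ℝ)) := by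
      have h2 : t₀ ^ (K : ℝ) ≤ Λ := (le_max_right _ _).trans hΛ
      have h3 := Real.rpow_le_rpow (by positivity) h2 (by positivity : (0 : ℝ) ≤ 1 / (K : ℝ))
      rwa [← Real.rpow_mul (by linarith), mul_one_div_cancel hK0.ne', Real.rpow_one] at h3
    refine h1.trans ?_
    unfold tau
    rw [if_pos hj]
    apply Real.rpow_le_rpow_of_exponent_le hΛ1
    have h4 : ((j : ℝ) + 1) ≤ K := by exact_mod_cast hj
    rw [le_sub_iff_add_le, ← add_div, div_le_one hK0]
    linarith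
  -- the first block
  have hτ1 : tau K Λ 1 ≤ Λ / 2 := by
    have h1 : (2 : ℝ) ≤ Λ ^ (1 / (K : ℝ)) := by
      have h3 := Real.rpow_le_rpow (by positivity) hΛ2 (by positivity : (0 : ℝ) ≤ 1 / (K : ℝ))
      rwa [← Real.rpow_mul (by norm_num), mul_one_div_cancel hK0.ne', Real.rpow_one] at h3
    have h2 : tau K Λ 1 * Λ ^ (1 / (K : ℝ)) = Λ := by
      unfold tau
      rw [if_pos (by omega), ← Real.rpow_add hΛ0]
      have h5 : 1 - ((1 : ℕ) : ℝ) / K + 1 / (K : ℝ) = 1 := by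
        push_cast
        ring
      rw [h5, Real.rpow_one]
    have h4 := tau_nonneg K Λ hΛ1 1
    nlinarith
  set t : ℝ := Λ - Real.log 2 with ht
  have hln2 : Real.log 2 ≤ 1 / 2 + 1 / 4 := by
    have := Real.log_two_lt_d9
    linarith
  have hln2' : 0 ≤ Real.log 2 := Real.log_nonneg (by norm_num)
  have htΛ : Λ / 2 ≤ t := by
    have h1 : 2 * t₀ ≥ 2 := by linarith
    rw [ht]
    linarith
  have htt : t₀ ≤ t := by linarith
  have ht0 : 0 ≤ t := by linarith
  set Sl : Finset I := Finset.univ.filter (fun i => 1 ≤ p i) with hSl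
  have hSlmem : ∀ i, i ∈ Sl ↔ 1 ≤ p i := fun i => by
    rw [hSl, Finset.mem_filter]; exact ⟨fun h => h.2, fun h => ⟨Finset.mem_univ _, h⟩⟩
  have hvmem : ∀ i (o : PL L), i ∈ vis p (blk K Λ o) ↔ 1 ≤ p i ∧ p i + 2 ≤ blk K Λ o := by
    intro i o
    unfold vis
    rw [Finset.mem_filter]
    exact ⟨fun h => h.2, fun h => ⟨Finset.mem_univ _, h⟩⟩
  have hVi : ∀ i, ∀ o ∈ P'.filter (fun o => i ∈ vis p (blk K Λ o)), p i + 2 ≤ blk K Λ o := by
    intro i o ho
    exact ((hvmem i o).1 (Finset.mem_filter.1 ho).2).2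
  have hViP : ∀ i, P'.filter (fun o => i ∈ vis p (blk K Λ o)) ⊆ P' := fun i =>
    Finset.filter_subset _ _
  have hVic : ∀ i, ((P'.filter (fun o => i ∈ vis p (blk K Λ o))).card : ℝ) ≤ Real.log Λ ^ 2 :=
    fun i => le_trans (Nat.cast_le.2 (Finset.card_le_card (hViP i))) hcard
  have hsumlog : ∀ i, (∑ o ∈ P'.filter (fun o => i ∈ vis p (blk K Λ o)),
      Real.log (nv (bl k o.2))) ≤ tau K Λ (p i) ^ (1 - 1 / (2 * (K : ℝ))) := fun i =>
    c2_card_log hK hΛ1 hlog (p i) _ (hVi i) (hVic i)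
  have hLε : 1 ≤ Λ ^ ε := Real.one_le_rpow hΛ1 hε.le
  have hnpos : ∀ w : PL L, (0 : ℝ) < nv w.2 := fun w =>
    Nat.cast_pos.2 (by have := two_le_nv w.2; omega)
  have hΘ0 : ∀ i : I, 0 ≤ (if i = i₁ then 4 * Ab * Λ ^ (-1 + ε) else A₀ * Λ ^ ε) := by
    intro i
    have h1 : 0 ≤ Λ ^ (-1 + ε) := Real.rpow_nonneg hΛ0.le _
    split_ifs <;> positivity
  have key := multi p (fun o : PL L => vis p (blk K Λ o)) (fun i o => up k {i} o)
    (fun o => up k Finset.univ o) (fun w q => bt al q w) (fun w : PL L => ((nv w.2 : ℝ))⁻¹)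
    (fun w => (inv_pos.2 (hnpos w)).le)
    (fun i => if i = i₁ then 4 * Ab * Λ ^ (-1 + ε) else A₀ * Λ ^ ε) hΘ0 d Sl T
    (fun i hi => hT0 i (by
      by_contra h
      exact hi ((hSlmem i).2 (by omega))))
    P'
    (by
      intro o _ i _ i' hi' hio hpi
      rw [hvmem] at hio ⊢
      exact ⟨(hSlmem i').1 hi', by omega⟩)
    (by
      intro o _ i i' hii
      rw [Finset.disjoint_left]
      intro q hq hq'
      rw [mem_up, Finset.mem_singleton] at hq hq'
      exact hii (hq.1.symm.trans hq'.1))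
    (by
      intro i hi w hw o _ q hq hq'
      rw [mem_up] at hq
      rw [mem_up, Finset.mem_singleton, not_and] at hq'
      have h1 := (hT i ((hSlmem i).1 hi) w hw).1
      have h2 : w.1 ≠ q.1 := by
        intro h
        exact hq' (h.symm.trans h1) hq.2
      show bt al q w = 1
      unfold bt
      rw [dif_neg h2])
    (by
      intro i hi g hg hgl
      have hpi := (hSlmem i).1 hi
      by_cases hii₁ : i = i₁
      · subst hii₁
        rw [if_pos rfl]
        set Y : ℝ := Real.exp Λ with hY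
        have hY0 : 0 < Y := Real.exp_pos _
        have hsl : (∑ o ∈ P'.filter (fun o => i ∈ vis p (blk K Λ o)),
            Real.log (nv (bl k o.2))) ≤ t ^ (1 - 1 / (2 * (K : ℝ))) := by
          refine (hsumlog i).trans ?_
          apply Real.rpow_le_rpow (tau_nonneg K Λ hΛ1 _)
          · rw [hi₁]; linarith
          · rw [sub_nonneg, div_le_one (by positivity)]
            have : (2 : ℝ) ≤ K := by exact_mod_cast hK
            linarith
        have h0 := hb t Y ((le_max_right _ _).trans htt) hY0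
          (P'.filter (fun o => i ∈ vis p (blk K Λ o)))
          (fun o ho => hP'.out o (hViP i ho))
          (fun o ho o' ho' => hP'.inj o (hViP i ho) o' (hViP i ho')) hsl i g hg hgl (T i) (by
            intro w hw
            obtain ⟨h1, h2, h3⟩ := hT i hpi w hw
            obtain ⟨h4, h5⟩ := hT₁ w hw
            refine ⟨h1, ?_, h5, fun o ho => h3 o (hViP i ho)⟩
            have h6 : Real.log (Y / 2) < Real.log (nv w.2) :=
              Real.log_lt_log (by positivity) h4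
            rwa [Real.log_div hY0.ne' (by norm_num), hY, Real.log_exp] at h6)
        have h7 : ∑ w ∈ T i, ((nv w.2 : ℝ))⁻¹ *
            ∏ o ∈ P'.filter (fun o => i ∈ vis p (blk K Λ o)), g o (fun q => bt al q w) ≤
            (2 / Y) * ∑ w ∈ T i, (Y / nv w.2) ^ (3 / 4 : ℝ) *
              ∏ o ∈ P'.filter (fun o => i ∈ vis p (blk K Λ o)), g o (fun q => bt al q w) := by
          rw [Finset.mul_sum]
          apply Finset.sum_le_sum
          intro w hw
          obtain ⟨h4, h5⟩ := hT₁ w hw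
          rw [← mul_assoc]
          apply mul_le_mul_of_nonneg_right _ (Finset.prod_nonneg fun o _ => hg o _)
          have h8 : (1 : ℝ) ≤ (Y / nv w.2) ^ (3 / 4 : ℝ) := by
            apply Real.one_le_rpow _ (by norm_num)
            rw [one_le_div (hnpos w)]
            exact h5
          have h9 : ((nv w.2 : ℝ))⁻¹ ≤ 2 / Y := by
            rw [inv_eq_one_div, div_le_div_iff₀ (hnpos w) hY0]
            linarith
          have h10 : 0 ≤ 2 / Y := by positivity
          nlinarith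
        refine h7.trans ((mul_le_mul_of_nonneg_left h0 (by positivity)).trans ?_)
        have h11 : 0 ≤ ∏ o ∈ P'.filter (fun o => i ∈ vis p (blk K Λ o)),
            avg (up k {i} o) (g o) 1 := Finset.prod_nonneg fun o _ => avg_nonneg _ _ (hg o) _
        have h12 : 2 / Y * (Ab * Y * t ^ (-1 + ε) *
            ∏ o ∈ P'.filter (fun o => i ∈ vis p (blk K Λ o)), avg (up k {i} o) (g o) 1) =
            Ab * (2 * t ^ (-1 + ε)) *
            ∏ o ∈ P'.filter (fun o => i ∈ vis p (blk K Λ o)), avg (up k {i} o) (g o) 1 := by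
          field_simp
        rw [h12]
        apply mul_le_mul_of_nonneg_right _ h11
        have h13 := w1_const hε hε' hΛ1 t htΛ
        calc Ab * (2 * t ^ (-1 + ε)) ≤ Ab * (4 * Λ ^ (-1 + ε)) :=
              mul_le_mul_of_nonneg_left h13 hAb.le
          _ = 4 * Ab * Λ ^ (-1 + ε) := by ring
      rw [if_neg hii₁]
      rcases lt_or_eq_of_le (hpK i) with hlt | heq
      · refine (ha (tau K Λ (p i)) (tau K Λ (p i - 1)) ((le_max_left _ _).trans (hτ₀ _ hlt))
          (tau_anti K Λ hΛ1 _ _ (by omega)) _ (fun o ho => hP'.out o (hViP i ho))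
          (fun o ho o' ho' => hP'.inj o (hViP i ho) o' (hViP i ho')) (hsumlog i) i g hg hgl (T i)
          ?_).trans ?_
        · intro w hw
          obtain ⟨h1, h2, h3⟩ := hT i hpi w hw
          refine ⟨h1, ?_, ?_, fun o ho => h3 o (hViP i ho)⟩
          · rw [← h2]; exact tau_blk_lt K Λ w
          · exact log_le_tau K Λ w (p i - 1) (by omega)
        · apply mul_le_mul_of_nonneg_right
          · apply mul_le_mul hAaA _ (Real.rpow_nonneg (tau_nonneg K Λ hΛ1 _) _) (by positivity)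
            exact Real.rpow_le_rpow (tau_nonneg K Λ hΛ1 _) (tau_le K (by omega) Λ hΛ1 _) hε.le
          · exact Finset.prod_nonneg fun o _ => avg_nonneg _ _ (hg o) _
      · have hemp : P'.filter (fun o => i ∈ vis p (blk K Λ o)) = ∅ := by
          apply Finset.eq_empty_of_forall_notMem
          intro o ho
          have h1 := hVi i o ho
          have h2 := blk_le K Λ o
          omega
        simp only [hemp, Finset.prod_empty, mul_one]
        refine (hc K hK Λ hΛ1 (T i) (fun w hw => ?_)).trans ?_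
        · rw [(hT i hpi w hw).2.1, heq]
        · exact mul_le_mul_of_nonneg_right hAcA (by positivity))
    (fun o e => rw8 k W (E o) o e) (fun o e => rw8_nonneg W (E o) o e)
    (fun o e e' hee => rw8_loc W (E o) o e e' hee)
    (fun o => cpW k W K Λ p o)
    (by
      intro o ho e
      have h1 : (Sl ∩ vis p (blk K Λ o)).biUnion (fun i => up k {i} o)
          = up k (vis p (blk K Λ o)) o := by
        ext q
        rw [Finset.mem_biUnion, mem_up]
        constructor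
        · rintro ⟨i, hi, hq⟩
          rw [mem_up, Finset.mem_singleton] at hq
          rw [Finset.mem_inter] at hi
          exact ⟨hq.1 ▸ hi.2, hq.2⟩
        · rintro ⟨h2, h3⟩
          refine ⟨q.1, ?_, (mem_up _ _ _).2 ⟨Finset.mem_singleton_self _, h3⟩⟩
          rw [Finset.mem_inter]
          exact ⟨(hSlmem _).2 ((hvmem _ _).1 h2).1, h2⟩
      rw [h1]
      exact w1_cc hF W heven K Λ p hpW o (hP'.deg o ho) (hP'.out o ho) (E o) e)
    (sgn al P')
  -- comparison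
  have hcp0 : 0 ≤ ∏ o ∈ P', cpW k W K Λ p o := by
    apply Finset.prod_nonneg
    intro o _
    unfold cpW beta3
    split_ifs <;> positivity
  have hi₁Sl : i₁ ∈ Sl := (hSlmem i₁).2 (by omega)
  have hΘ : ∏ i ∈ Sl.erase i₁, (if i = i₁ then 4 * Ab * Λ ^ (-1 + ε) else A₀ * Λ ^ ε) ≤
      A₀ ^ Fintype.card I * Λ ^ (ε * Fintype.card I) := by
    have h1 : ∏ i ∈ Sl.erase i₁, (if i = i₁ then 4 * Ab * Λ ^ (-1 + ε) else A₀ * Λ ^ ε) =
        ∏ i ∈ Sl.erase i₁, (A₀ * Λ ^ ε) := by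
      apply Finset.prod_congr rfl
      intro i hi
      rw [if_neg (Finset.ne_of_mem_erase hi)]
    rw [h1, Finset.prod_const, Real.rpow_mul hΛ0.le, Real.rpow_natCast, ← mul_pow]
    apply pow_le_pow_right₀ _ (Finset.card_le_univ _)
    nlinarith
  have step1 : ∑ w ∈ Fintype.piFinset T,
        (∏ i ∈ Sl, ((nv (w i).2 : ℝ))⁻¹) *
          ∏ o ∈ P', rw8 k W (E o) o (sgn al (P' ∪ Sl.image w)) =
      ∑ w ∈ Fintype.piFinset T, (∏ i ∈ Sl, ((nv (w i).2 : ℝ))⁻¹) *
        ∏ o ∈ P', rw8 k W (E o) o (fun q => sgn al P' q * ∏ i ∈ Sl, bt al q (w i)) := by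
    apply Finset.sum_congr rfl
    intro w hw
    rw [Fintype.mem_piFinset] at hw
    have h1 : (fun q => sgn al P' q * ∏ i ∈ Sl, bt al q (w i)) =
        sgn al (P' ∪ Sl.image w) := by
      funext q
      rw [c2_sgn al P' Sl w (fun i hi => (hT i ((hSlmem i).1 hi) (w i) (hw i)).1)
        (fun i hi hmem => (hT i ((hSlmem i).1 hi) (w i) (hw i)).2.2 _ hmem rfl)]
    rw [h1]
  rw [step1]
  refine key.trans ?_
  rw [← Finset.mul_prod_erase Sl _ hi₁Sl, if_pos rfl]
  have h20 : 0 ≤ 4 * Ab * Λ ^ (-1 + ε) := by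
    have := Real.rpow_nonneg hΛ0.le (-1 + ε)
    positivity
  refine (mul_le_mul_of_nonneg_right (mul_le_mul_of_nonneg_left hΘ h20) hcp0).trans
    (le_of_eq ?_)
  ring

end SC8
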