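import Pool.Agent.MP_c1dca2_ag.SC8.W1
import Pool.Agent.MP_c1dca2_ag.SC8.C4b
import Pool.Agent.MP_c1dca2_ag.SC5.C5

/-!
# [SC8-W2a] Part II: the sum over the configurations up to norm `exp Λ` of a given pattern
(cf. SC5/C5, its private lemmas can be copied)

`η` from `cpW_sum`, `r = card I`, `A, Λ₀` from `slotW_sum`, `C₂` from `cpW_sum`. For `i` with `1 ≤ p i` choose `w_P i ∈ P` of index `i` in block `p i` (`pat K Λ P i = p i`:
the minimum over the elements of index `i` is attained), for `i = i₁` take the element `o₁` with `exp Λ / 2 < nv o₁.2` (it is in block `1`: `tau K Λ 1 = Λ^(1 - 1/K) < Λ - log 2` for large `Λ`, and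
`one_le_blk`); `w_P i = d` (any fixed element of `PL L`) for `p i = 0`. Let `P' = P \ {w_P i}`; `P ↦ (P', w_P)` is injective. The elements of `P` have `blk ≥ 1`; those of index `i ≠ W` have `1 ≤ p i ≤ blk`; index `W`: in `P'`.
The factors `rw8 ≤ 1` (`avg_mono`, `avg_const`) of the special elements are dropped:
`∏_{o ∈ P} (rw8 .. / nv o) ≤ ∏_{1 ≤ p i} (nv (w_P i))⁻¹ · ∏_{o ∈ P'} rw8 (E o) o (sgn al (P' ∪ {w_P i})) · (NP P')⁻¹`. For fixed `P'` let `T i` be the set of all `w_P i` (`P` with this `P'`; for `p i = 0`: `{d}`): by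
`slotW_sum` (`p W = 0`, `p i ≤ K`) the sum over the `P` with given `P'` is at most `A Λ^(-1+ε) Λ^(ε r) ∏_{o ∈ P'} (cpW o / nv o)`. The sum over the `P'` of the products is
at most `∏_{o ∈ X} (1 + cpW o / nv o) ≤ exp (∑_X cpW/nv)`, `X` = the union of all `P'` (`prod_sum_le` or its version in SC5), and by `cpW_sum` `≤ exp C₂ · Λ^((1-η) + 4 r²/K)`.
-/

set_option autoImplicit false

open NumberField IsDedekindDomain SC5 SC7

namespace SC8

/-! ### auxiliary -/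

theorem w2_tau {K : ℕ} (hK : 2 ≤ K) {Λ : ℝ} (hΛ1 : 1 ≤ Λ) (hΛ2 : (2 : ℝ) ^ (K : ℝ) ≤ Λ) :
    tau K Λ 1 ≤ Λ / 2 := by
  have hK0 : (0 : ℝ) < K := Nat.cast_pos.2 (by omega)
  have hΛ0 : 0 < Λ := by linarith
  have h1 : (2 : ℝ) ≤ Λ ^ (1 / (K : ℝ)) := by
    have h3 := Real.rpow_le_rpow (by positivity) hΛ2 (by positivity : (0 : ℝ) ≤ 1 / (K : ℝ))
    rwa [← Real.rpow_mul (by norm_num), mul_one_div_cancel hK0.ne', Real.rpow_one] at h3
  have h2 : tau K Λ 1 * Λ ^ (1 / (K : ℝ)) = Λ := by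
    unfold tau
    rw [if_pos (by omega), ← Real.rpow_add hΛ0]
    have h5 : 1 - ((1 : ℕ) : ℝ) / K + 1 / (K : ℝ) = 1 := by
      push_cast
      ring
    rw [h5, Real.rpow_one]
  have h4 := tau_nonneg K Λ hΛ1 1
  nlinarith

/-- a large element is in the first block -/
theorem w2_blk {I : Type} {L : I → Type} [∀ i, Field (L i)] [∀ i, NumberField (L i)] {K : ℕ}
    (hK : 2 ≤ K) {Λ : ℝ} (hΛ1 : 2 ≤ Λ) (hΛ2 : (2 : ℝ) ^ (K : ℝ) ≤ Λ) (o : PL L)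
    (ho : Real.exp Λ / 2 < nv o.2) (ho' : Real.log (nv o.2) ≤ Λ) : blk K Λ o = 1 := by
  apply le_antisymm _ (one_le_blk K (by omega) Λ o ho')
  apply Nat.sInf_le
  show tau K Λ 1 < Real.log (nv o.2)
  have h6 : Real.log (Real.exp Λ / 2) < Real.log (nv o.2) :=
    Real.log_lt_log (by positivity) ho
  rw [Real.log_div (Real.exp_pos _).ne' (by norm_num), Real.log_exp] at h6
  have h7 := w2_tau hK (by linarith : (1 : ℝ) ≤ Λ) hΛ2
  have h8 := Real.log_two_lt_d9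
  linarith

section aux

variable {I : Type} {L : I → Type} [∀ i, Field (L i)] [∀ i, NumberField (L i)]

theorem w2_nv_pos (o : PL L) : (0 : ℝ) < nv o.2 := by
  have h : (2 : ℝ) ≤ nv o.2 := by exact_mod_cast two_le_nv o.2
  linarith

theorem w2_pat_ex {K : ℕ} {Λ : ℝ} {P : Finset (PL L)} {i : I} {m : ℕ}
    (hp : pat K Λ P i = m) (hi : 1 ≤ m) : ∃ o ∈ P, o.1 = i ∧ blk K Λ o = m := by
  classical
  unfold pat at hp
  split_ifs at hp with hne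
  · obtain ⟨o, ho, he⟩ := Finset.exists_mem_eq_inf' hne (blk K Λ)
    rw [he] at hp
    rw [Finset.mem_filter] at ho
    exact ⟨o, ho.1, ho.2, hp⟩
  · omega

theorem w2_pat_mem {K : ℕ} (hK : 1 ≤ K) {Λ : ℝ} {P : Finset (PL L)} {m : ℕ}
    (hlog : ∀ o ∈ P, Real.log (nv o.2) ≤ Λ) {o : PL L} (ho : o ∈ P)
    (hp : pat K Λ P o.1 = m) : 1 ≤ m ∧ m ≤ blk K Λ o := by
  classical
  unfold pat at hp
  have hne : (P.filter (fun q => q.1 = o.1)).Nonempty := ⟨o, by simp [ho]⟩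
  rw [dif_pos hne] at hp
  refine ⟨?_, ?_⟩
  · rw [← hp]
    refine (Finset.le_inf'_iff _ _).2 fun q hq => ?_
    rw [Finset.mem_filter] at hq
    exact one_le_blk K hK Λ q (hlog q hq.1)
  · rw [← hp]
    exact Finset.inf'_le _ (by simp [ho])

theorem w2_pat_le {K : ℕ} {Λ : ℝ} {P : Finset (PL L)} {i : I} {m : ℕ}
    (hp : pat K Λ P i = m) : m ≤ K := by
  rcases Nat.eq_zero_or_pos m with h | h
  · omega
  · obtain ⟨o, -, -, he⟩ := w2_pat_ex hp h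
    rw [← he]
    exact blk_le K Λ o

theorem w2_cfg_sub {k : Type} [Field k] [NumberField k] [∀ i, Algebra k (L i)]
    {S : Finset (Pr k)} {P Q : Finset (PL L)} (h : Cfg k S P) (hQ : Q ⊆ P) : Cfg k S Q :=
  ⟨fun o ho => h.out o (hQ ho), fun o ho => h.deg o (hQ ho),
    fun o ho o' ho' he => h.inj o (hQ ho) o' (hQ ho') he⟩

theorem w2_cp_nonneg {k : Type} [Field k] [NumberField k] [∀ i, Algebra k (L i)]
    [Fintype I] (W : I) (K : ℕ) (Λ : ℝ) (p : I → ℕ) (o : PL L) : 0 ≤ cpW k W K Λ p o := by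
  unfold cpW beta3
  split_ifs <;> positivity

/-- A choice of special elements. -/
theorem w2_choice {K : ℕ} {Λ : ℝ} (p : I → ℕ) (i₁ : I) (d : PL L)
    (Ps : Finset (Finset (PL L)))
    (hPs : ∀ P ∈ Ps, ∀ i, 1 ≤ p i → ∃ o ∈ P, o.1 = i ∧ blk K Λ o = p i ∧
      (i = i₁ → Real.exp Λ / 2 < nv o.2)) :
    ∃ V : Finset (PL L) → I → PL L, (∀ P ∈ Ps, ∀ i, 1 ≤ p i → V P i ∈ P ∧ (V P i).1 = i ∧
      blk K Λ (V P i) = p i ∧ (i = i₁ → Real.exp Λ / 2 < nv (V P i).2)) ∧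
      ∀ P, ∀ i, p i = 0 → V P i = d := by
  have h : ∀ (P : Finset (PL L)) (i : I), ∃ o : PL L, (P ∈ Ps → 1 ≤ p i → o ∈ P ∧ o.1 = i ∧
      blk K Λ o = p i ∧ (i = i₁ → Real.exp Λ / 2 < nv o.2)) ∧ (p i = 0 → o = d) := by
    intro P i
    by_cases h1 : P ∈ Ps ∧ 1 ≤ p i
    · obtain ⟨o, ho⟩ := hPs P h1.1 i h1.2
      exact ⟨o, fun _ _ => ho, fun h2 => absurd h1.2 (by omega)⟩
    · exact ⟨d, fun h2 h3 => absurd ⟨h2, h3⟩ h1, fun _ => rfl⟩
  choose V hV using h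
  exact ⟨V, fun P hP i hi => (hV P i).1 hP hi, fun P i hi => (hV P i).2 hi⟩

open scoped Classical in
/-- The sum over the configurations with given rest `P'`. -/
theorem w2_fiber {k : Type} [Field k] [NumberField k] [∀ i, Algebra k (L i)] [Fintype I]
    {S : Finset (Pr k)} {al : ∀ i, Pr (L i) → 𝓞 (L i)} (W : I) (K : ℕ) (Λ : ℝ) (A : ℝ)
    (p : I → ℕ) (i₁ : I) (hi₁ : p i₁ = 1) (P' : Finset (PL L)) (d : PL L)
    (E : PL L → PL L → PL L → ℤˣ)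
    (hslot : ∀ (T : I → Finset (PL L)), (∀ i, p i = 0 → T i = {d}) →
      (∀ i, 1 ≤ p i → ∀ w ∈ T i, w.1 = i ∧ blk K Λ w = p i ∧ ∀ o ∈ P', bl k w.2 ≠ bl k o.2) →
      (∀ w ∈ T i₁, Real.exp Λ / 2 < nv w.2 ∧ (nv w.2 : ℝ) ≤ Real.exp Λ) →
      ∑ w ∈ Fintype.piFinset T,
        (∏ i ∈ Finset.univ.filter (fun i => 1 ≤ p i), ((nv (w i).2 : ℝ))⁻¹) *
          ∏ o ∈ P', rw8 k W (E o) o
            (sgn al (P' ∪ (Finset.univ.filter (fun i => 1 ≤ p i)).image w)) ≤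
      A * ∏ o ∈ P', cpW k W K Λ p o)
    (Ps : Finset (Finset (PL L))) (V : Finset (PL L) → I → PL L)
    (hV : ∀ P ∈ Ps, ∀ i, 1 ≤ p i → V P i ∈ P ∧ (V P i).1 = i ∧
      blk K Λ (V P i) = p i ∧ (i = i₁ → Real.exp Λ / 2 < nv (V P i).2))
    (hV0 : ∀ P, ∀ i, p i = 0 → V P i = d)
    (hcfg : ∀ P ∈ Ps, Cfg k S P) (hlog : ∀ P ∈ Ps, ∀ o ∈ P, Real.log (nv o.2) ≤ Λ)
    (hQ : ∀ P ∈ Ps, P \ (Finset.univ.filter (fun i => 1 ≤ p i)).image (V P) = P') :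
    ∑ P ∈ Ps, ∏ o ∈ P, (rw8 k W (E o) o (sgn al P) / nv o.2) ≤
      A * ∏ o ∈ P', (cpW k W K Λ p o / nv o.2) := by
  set Sl : Finset I := Finset.univ.filter (fun i => 1 ≤ p i) with hSl
  have hmemSl : ∀ i, i ∈ Sl ↔ 1 ≤ p i := fun i => by simp [hSl]
  have hunion : ∀ P ∈ Ps, P' ∪ Sl.image (V P) = P := by
    intro P hP
    rw [← hQ P hP]
    apply Finset.sdiff_union_of_subset
    intro w hw
    obtain ⟨i, hi, rfl⟩ := Finset.mem_image.1 hw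
    exact (hV P hP i ((hmemSl i).1 hi)).1
  have hdisj : ∀ P ∈ Ps, Disjoint P' (Sl.image (V P)) := by
    intro P hP
    rw [← hQ P hP]
    exact Finset.sdiff_disjoint
  have himg : ∀ P ∈ Ps, ∀ f : PL L → ℝ, ∏ o ∈ Sl.image (V P), f o = ∏ i ∈ Sl, f (V P i) := by
    intro P hP f
    apply Finset.prod_image
    intro i hi j hj hij
    have h1 := (hV P hP i ((hmemSl i).1 hi)).2.1
    have h2 := (hV P hP j ((hmemSl j).1 hj)).2.1
    rw [← h1, ← h2, hij]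
  have hNP' : 0 < NP P' := lt_of_lt_of_le one_pos (one_le_NP P')
  set T : I → Finset (PL L) := fun i => if 1 ≤ p i then Ps.image (fun P => V P i) else {d} with hT
  have h1 := hslot T (fun i hi => by simp [hT, hi]) (fun i hi w hw => by
    simp only [hT, hi, if_true] at hw
    obtain ⟨P, hP, rfl⟩ := Finset.mem_image.1 hw
    obtain ⟨a1, a2, a3, -⟩ := hV P hP i hi
    refine ⟨a2, a3, fun o ho he => ?_⟩
    have ho' : o ∈ P := by rw [← hunion P hP]; exact Finset.mem_union_left _ ho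
    have h2 := (hcfg P hP).inj _ a1 _ ho' he
    have h3 : V P i ∈ Sl.image (V P) := Finset.mem_image_of_mem _ ((hmemSl i).2 hi)
    rw [h2] at h3
    exact Finset.disjoint_left.1 (hdisj P hP) ho h3) (fun w hw => by
    have hi : 1 ≤ p i₁ := by omega
    simp only [hT, hi, if_true] at hw
    obtain ⟨P, hP, rfl⟩ := Finset.mem_image.1 hw
    obtain ⟨a1, a2, a3, a4⟩ := hV P hP i₁ hi
    refine ⟨a4 rfl, ?_⟩
    rw [← Real.log_le_iff_le_exp (w2_nv_pos _)]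
    exact hlog P hP _ a1)
  have hmaps : ∀ P ∈ Ps, V P ∈ Fintype.piFinset T := by
    intro P hP
    rw [Fintype.mem_piFinset]
    intro i
    by_cases hi : 1 ≤ p i
    · simp only [hT, hi, if_true]
      exact Finset.mem_image_of_mem (fun P => V P i) hP
    · simp only [hT, hi, if_false, Finset.mem_singleton]
      exact hV0 P i (by omega)
  have hinj : Set.InjOn V (Ps : Set (Finset (PL L))) := by
    intro P hP Q hQ' he
    rw [← hunion P hP, ← hunion Q hQ', he]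
  set F : (I → PL L) → ℝ := fun w => (∏ i ∈ Sl, ((nv (w i).2 : ℝ))⁻¹) *
    ∏ o ∈ P', rw8 k W (E o) o (sgn al (P' ∪ Sl.image w)) with hFd
  have hF0 : ∀ w, 0 ≤ F w := fun w => mul_nonneg
    (Finset.prod_nonneg fun i _ => (inv_pos.2 (w2_nv_pos _)).le)
    (Finset.prod_nonneg fun o _ => rw8_nonneg _ _ _ _)
  have h2 : ∑ P ∈ Ps, F (V P) ≤ ∑ w ∈ Fintype.piFinset T, F w := by
    rw [← Finset.sum_image (f := F) hinj]
    refine Finset.sum_le_sum_of_subset_of_nonneg ?_ fun w _ _ => hF0 w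
    intro w hw
    obtain ⟨P, hP, rfl⟩ := Finset.mem_image.1 hw
    exact hmaps P hP
  have h3 : ∀ P ∈ Ps, ∏ o ∈ P, (rw8 k W (E o) o (sgn al P) / nv o.2) ≤ F (V P) / NP P' := by
    intro P hP
    have h4 : ∏ o ∈ P, (rw8 k W (E o) o (sgn al P) / nv o.2) =
        (∏ o ∈ P', (rw8 k W (E o) o (sgn al P) / nv o.2)) *
        ∏ i ∈ Sl, (rw8 k W (E (V P i)) (V P i) (sgn al P) / nv (V P i).2) := by
      rw [← himg P hP (fun o => rw8 k W (E o) o (sgn al P) / nv o.2),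
        ← Finset.prod_union (hdisj P hP), hunion P hP]
    have h5 : ∏ i ∈ Sl, (rw8 k W (E (V P i)) (V P i) (sgn al P) / nv (V P i).2) ≤
        ∏ i ∈ Sl, ((nv (V P i).2 : ℝ))⁻¹ := by
      apply Finset.prod_le_prod
      · intro i _
        exact div_nonneg (rw8_nonneg _ _ _ _) (w2_nv_pos _).le
      · intro i _
        rw [div_eq_mul_inv]
        have h6 := rw8_le_one (k := k) W (E (V P i)) (V P i) (sgn al P)
        have h7 : 0 ≤ ((nv (V P i).2 : ℝ))⁻¹ := (inv_pos.2 (w2_nv_pos _)).le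
        nlinarith
    have h8 : ∏ o ∈ P', (rw8 k W (E o) o (sgn al P) / nv o.2) =
        (∏ o ∈ P', rw8 k W (E o) o (sgn al (P' ∪ Sl.image (V P)))) / NP P' := by
      rw [Finset.prod_div_distrib, hunion P hP]
      rfl
    have h9 : 0 ≤ (∏ o ∈ P', rw8 k W (E o) o (sgn al (P' ∪ Sl.image (V P)))) / NP P' :=
      div_nonneg (Finset.prod_nonneg fun o _ => rw8_nonneg _ _ _ _) hNP'.le
    rw [h4, h8]
    refine (mul_le_mul_of_nonneg_left h5 h9).trans (le_of_eq ?_)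
    rw [hFd]
    ring
  calc ∑ P ∈ Ps, ∏ o ∈ P, (rw8 k W (E o) o (sgn al P) / nv o.2)
      ≤ ∑ P ∈ Ps, F (V P) / NP P' := Finset.sum_le_sum h3
    _ = (∑ P ∈ Ps, F (V P)) / NP P' := by rw [Finset.sum_div]
    _ ≤ (A * ∏ o ∈ P', cpW k W K Λ p o) / NP P' :=
        div_le_div_of_nonneg_right (h2.trans h1) hNP'.le
    _ = A * ∏ o ∈ P', (cpW k W K Λ p o / nv o.2) := by
        rw [Finset.prod_div_distrib]
        unfold NP
        ring

end aux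

theorem patternW_sum {k : Type} [Field k] [NumberField k] {I : Type} [Fintype I] {L : I → Type}
    [∀ i, Field (L i)] [∀ i, NumberField (L i)] [∀ i, Algebra k (L i)] (M : Type) [Field M]
    [NumberField M] [Algebra k M] [IsGalois k M] [∀ i, Algebra (L i) M]
    [∀ i, IsScalarTower k (L i) M] {S : Finset (Pr k)}
    {al : ∀ i, Pr (L i) → 𝓞 (L i)} {Cg : ℕ} (hF : Fam8 k L S al Cg) (W : I)
    (hdeg : Deg8 k L W) :
    ∃ η : ℝ, 0 < η ∧ η ≤ 1 ∧ ∀ K : ℕ, 2 ≤ K → ∀ ε : ℝ, 0 < ε → ε < 1 →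
      ∃ C Λ₀ : ℝ, 0 < C ∧ 1 ≤ Λ₀ ∧ ∀ Λ : ℝ, Λ₀ ≤ Λ → ∀ p : I → ℕ, p W = 0 → ∀ i₁ : I, i₁ ≠ W →
      p i₁ = 1 → ∀ (E : PL L → PL L → PL L → ℤˣ) (Ps : Finset (Finset (PL L))),
        (∀ P ∈ Ps, Cfg k S P ∧ (P.card : ℝ) ≤ Real.log Λ ^ 2 ∧
          (∀ o ∈ P, Real.log (nv o.2) ≤ Λ) ∧ (∀ i, i ≠ W → pat K Λ P i = p i) ∧
          ∃ o ∈ P, o.1 = i₁ ∧ Real.exp Λ / 2 < nv o.2) →
        ∑ P ∈ Ps, ∏ o ∈ P, (rw8 k W (E o) o (sgn al P) / nv o.2) ≤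
          C * Λ ^ (-1 + ε) * Λ ^ (ε * Fintype.card I) *
            Λ ^ ((1 - η) + 4 * (Fintype.card I : ℝ) ^ 2 / K) := by
  classical
  obtain ⟨η, hη0, hη1, hcp⟩ := cpW_sum M hF W hdeg
  refine ⟨η, hη0, hη1, fun K hK ε hε hε1 => ?_⟩
  obtain ⟨C₂, hC₂⟩ := hcp K (by omega)
  obtain ⟨A, Λ₀, hA, hΛ₀, hslot⟩ := slotW_sum hF W hdeg.even K hK ε hε hε1
  refine ⟨A * Real.exp C₂, max Λ₀ (max 2 ((2 : ℝ) ^ (K : ℝ))), by positivity,
    hΛ₀.trans (le_max_left _ _), ?_⟩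
  intro Λ hΛ' p hpW i₁ hi₁W hi₁ E Ps hPs
  have hΛ : Λ₀ ≤ Λ := (le_max_left _ _).trans hΛ'
  have hΛ2 : 2 ≤ Λ := (le_max_left _ _).trans ((le_max_right _ _).trans hΛ')
  have hΛ3 : (2 : ℝ) ^ (K : ℝ) ≤ Λ := (le_max_right _ _).trans ((le_max_right _ _).trans hΛ')
  have hΛ1 : 1 ≤ Λ := hΛ₀.trans hΛ
  have hτε : 0 ≤ Λ ^ (-1 + ε) := Real.rpow_nonneg (by linarith) _
  have hΛε : 0 ≤ Λ ^ (ε * Fintype.card I) := Real.rpow_nonneg (by linarith) _
  rcases Ps.eq_empty_or_nonempty with hemp | ⟨P₀, hP₀⟩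
  · rw [hemp, Finset.sum_empty]
    have : 0 ≤ Λ ^ ((1 - η) + 4 * (Fintype.card I : ℝ) ^ 2 / K) :=
      Real.rpow_nonneg (by linarith) _
    positivity
  obtain ⟨d, -, -⟩ := (hPs P₀ hP₀).2.2.2.2
  have hlog : ∀ P ∈ Ps, ∀ o ∈ P, Real.log (nv o.2) ≤ Λ := fun P hP => (hPs P hP).2.2.1
  have hpat : ∀ P ∈ Ps, ∀ i, i ≠ W → pat K Λ P i = p i := fun P hP => (hPs P hP).2.2.2.1
  have hne : ∀ i, 1 ≤ p i → i ≠ W := by
    intro i hi h
    rw [h] at hi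
    omega
  obtain ⟨V, hV, hV0⟩ := w2_choice (K := K) (Λ := Λ) p i₁ d Ps (by
    intro P hP i hi
    by_cases h : i = i₁
    · obtain ⟨o, ho, ho1, ho2⟩ := (hPs P hP).2.2.2.2
      refine ⟨o, ho, ho1.trans h.symm, ?_, fun _ => ho2⟩
      rw [w2_blk hK hΛ2 hΛ3 o ho2 (hlog P hP o ho), h, hi₁]
    · obtain ⟨o, ho, ho1, ho2⟩ := w2_pat_ex (hpat P hP i (hne i hi)) hi
      exact ⟨o, ho, ho1, ho2, fun h' => absurd h' h⟩)
  set Sl : Finset I := Finset.univ.filter (fun i => 1 ≤ p i) with hSl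
  set Q : Finset (PL L) → Finset (PL L) := fun P => P \ Sl.image (V P) with hQ
  have hQsub : ∀ P, Q P ⊆ P := fun P => Finset.sdiff_subset
  set B : ℝ := A * Λ ^ (-1 + ε) * Λ ^ (ε * Fintype.card I) with hB
  have hB0 : 0 ≤ B := by positivity
  have hfib : ∀ P' ∈ Ps.image Q, ∑ P ∈ Ps.filter (fun P => Q P = P'),
      ∏ o ∈ P, (rw8 k W (E o) o (sgn al P) / nv o.2) ≤
      B * ∏ o ∈ P', (cpW k W K Λ p o / nv o.2) := by
    intro P' hP'
    obtain ⟨P₁, hP₁, rfl⟩ := Finset.mem_image.1 hP'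
    have hcfg : Cfg k S (Q P₁) := w2_cfg_sub (hPs P₁ hP₁).1 (hQsub P₁)
    have hcard : ((Q P₁).card : ℝ) ≤ Real.log Λ ^ 2 := by
      refine le_trans ?_ (hPs P₁ hP₁).2.1
      exact_mod_cast Finset.card_le_card (hQsub P₁)
    refine w2_fiber (S := S) (al := al) W K Λ B p i₁ hi₁ (Q P₁) d E ?_
      (Ps.filter (fun P => Q P = Q P₁)) V ?_ hV0 ?_ ?_ ?_
    · intro T hT1 hT2 hT3
      exact hslot Λ hΛ p (fun i => by
        by_cases h : i = W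
        · rw [h, hpW]; exact Nat.zero_le _
        · exact w2_pat_le (hpat P₁ hP₁ i h)) hpW i₁ hi₁W hi₁ (Q P₁) hcfg hcard d T hT1 hT2 hT3 E
    · exact fun P hP i hi => hV P (Finset.mem_filter.1 hP).1 i hi
    · exact fun P hP => (hPs P (Finset.mem_filter.1 hP).1).1
    · exact fun P hP => hlog P (Finset.mem_filter.1 hP).1
    · exact fun P hP => (Finset.mem_filter.1 hP).2
  have hsum : ∑ P ∈ Ps, ∏ o ∈ P, (rw8 k W (E o) o (sgn al P) / nv o.2) =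
      ∑ P' ∈ Ps.image Q, ∑ P ∈ Ps.filter (fun P => Q P = P'),
        ∏ o ∈ P, (rw8 k W (E o) o (sgn al P) / nv o.2) :=
    (Finset.sum_fiberwise_of_maps_to (fun P hP => Finset.mem_image_of_mem Q hP) _).symm
  rw [hsum]
  have hexp : ∑ P' ∈ Ps.image Q, ∏ o ∈ P', (cpW k W K Λ p o / nv o.2) ≤
      Real.exp (∑ o ∈ (Ps.image Q).biUnion id, cpW k W K Λ p o / nv o.2) := by
    apply prod_sum_le
    · intro o
      exact div_nonneg (w2_cp_nonneg W K Λ p o) (w2_nv_pos o).le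
    · intro P' hP' o ho
      exact Finset.mem_biUnion.2 ⟨P', hP', ho⟩
  have hcs := hC₂ Λ hΛ1 p i₁ hi₁W hi₁ ((Ps.image Q).biUnion id) (by
    intro o ho
    obtain ⟨P', hP', ho'⟩ := Finset.mem_biUnion.1 ho
    obtain ⟨P, hP, rfl⟩ := Finset.mem_image.1 hP'
    have hoP : o ∈ P := hQsub P ho'
    refine ⟨(hPs P hP).1.deg o hoP, (hPs P hP).1.out o hoP,
      one_le_blk K (by omega) Λ o (hlog P hP o hoP), fun h => ?_⟩
    exact w2_pat_mem (by omega : 1 ≤ K) (hlog P hP) hoP (hpat P hP o.1 h))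
  have hΛpos : 0 < Λ := by linarith
  have hfin : Real.exp (∑ o ∈ (Ps.image Q).biUnion id, cpW k W K Λ p o / nv o.2) ≤
      Λ ^ ((1 - η) + 4 * (Fintype.card I : ℝ) ^ 2 / K) * Real.exp C₂ := by
    rw [Real.rpow_def_of_pos hΛpos, ← Real.exp_add]
    apply Real.exp_le_exp.2
    calc ∑ o ∈ (Ps.image Q).biUnion id, cpW k W K Λ p o / nv o.2 ≤ _ := hcs
      _ = _ := by ring
  calc ∑ P' ∈ Ps.image Q, ∑ P ∈ Ps.filter (fun P => Q P = P'),
        ∏ o ∈ P, (rw8 k W (E o) o (sgn al P) / nv o.2)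
      ≤ ∑ P' ∈ Ps.image Q, B * ∏ o ∈ P', (cpW k W K Λ p o / nv o.2) := Finset.sum_le_sum hfib
    _ = B * ∑ P' ∈ Ps.image Q, ∏ o ∈ P', (cpW k W K Λ p o / nv o.2) := by
      rw [Finset.mul_sum]
    _ ≤ B * (Λ ^ ((1 - η) + 4 * (Fintype.card I : ℝ) ^ 2 / K) * Real.exp C₂) :=
      mul_le_mul_of_nonneg_left (hexp.trans hfin) hB0
    _ = _ := by rw [hB]; ring

end SC8
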