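import Pool.Agent.MP_c1dca2_ag.SC8.W2a
import Pool.Agent.MP_c1dca2_ag.SC5.C6

/-!
# [SC8-W2b] Part II: the sum over the configurations up to norm `exp Λ`

`η` from `patternW_sum`, `r = card I`, `ε = η / (8 (r + 1))`, `K ≥ 2` with `4 r^2 / K ≤ η / 4`. For `P ∈ Ps` let `p i = pat K Λ P i` for `i ≠ W`, `p W = 0`, and `i₁ = o₁.1` for an `o₁ ∈ P` with `o₁.1 ≠ W`,
`exp Λ / 2 < nv o₁.2`. For large `Λ` `o₁` is in block `1` (`tau K Λ 1 = Λ^(1 - 1/K) < Λ - log 2`; `one_le_blk`) and all blocks are `≥ 1`, so `p i₁ = 1`. All `p i ≤ K` (blocks of `o` with `log nv o > 0` are `≤ K`, see SC5/C6).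
At most `(K+1)^r * r` pairs `(p, i₁)`; the part of each is bounded by `patternW_sum`: exponent
`-1 + ε (r+1) + 1 - η + η/4 ≤ η/8 - η + η/4 ≤ -η/2`. `δ = η/2`.
-/

set_option autoImplicit false

open NumberField IsDedekindDomain SC5 SC7

namespace SC8

theorem w2b_pat_one {I : Type} {L : I → Type} [∀ i, Field (L i)] [∀ i, NumberField (L i)]
    {K : ℕ} (hK : 2 ≤ K) {Λ : ℝ} (hΛ1 : 2 ≤ Λ) (hΛ2 : (2 : ℝ) ^ (K : ℝ) ≤ Λ)
    (P : Finset (PL L)) (hlog : ∀ o ∈ P, Real.log (nv o.2) ≤ Λ) (o : PL L) (ho : o ∈ P)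
    (h : Real.exp Λ / 2 < nv o.2) : pat K Λ P o.1 = 1 := by
  have h1 := w2_blk hK hΛ1 hΛ2 o h (hlog o ho)
  obtain ⟨h2, h3⟩ := w2_pat_mem (by omega : 1 ≤ K) hlog ho (m := pat K Λ P o.1) rfl
  omega

theorem w2b_expo (η ε r K : ℝ) (hη : 0 < η) (hr : 0 ≤ r)
    (hε : ε = η / (8 * (r + 1))) (hK0 : 0 < K) (hK : 16 * r ^ 2 / η ≤ K) :
    (-1 + ε) + ε * r + ((1 - η) + 4 * r ^ 2 / K) ≤ -(η / 2) := by
  have h1 : ε * (r + 1) = η / 8 := by
    rw [hε]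
    field_simp
  have h2 : 4 * r ^ 2 / K ≤ η / 4 := by
    rw [div_le_iff₀ hK0]
    rw [div_le_iff₀ hη] at hK
    linarith
  nlinarith [h1, h2]

theorem totalW {k : Type} [Field k] [NumberField k] {I : Type} [Fintype I] {L : I → Type}
    [∀ i, Field (L i)] [∀ i, NumberField (L i)] [∀ i, Algebra k (L i)] (M : Type) [Field M]
    [NumberField M] [Algebra k M] [IsGalois k M] [∀ i, Algebra (L i) M]
    [∀ i, IsScalarTower k (L i) M] {S : Finset (Pr k)}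
    {al : ∀ i, Pr (L i) → 𝓞 (L i)} {Cg : ℕ} (hF : Fam8 k L S al Cg) (W : I)
    (hdeg : Deg8 k L W) :
    ∃ δ C Λ₀ : ℝ, 0 < δ ∧ 0 < C ∧ 1 ≤ Λ₀ ∧ ∀ Λ : ℝ, Λ₀ ≤ Λ →
      ∀ (E : PL L → PL L → PL L → ℤˣ) (Ps : Finset (Finset (PL L))),
        (∀ P ∈ Ps, Cfg k S P ∧ (P.card : ℝ) ≤ Real.log Λ ^ 2 ∧
          (∀ o ∈ P, Real.log (nv o.2) ≤ Λ) ∧
          ∃ o ∈ P, o.1 ≠ W ∧ Real.exp Λ / 2 < nv o.2) →
        ∑ P ∈ Ps, ∏ o ∈ P, (rw8 k W (E o) o (sgn al P) / nv o.2) ≤ C * Λ ^ (-δ) := by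
  classical
  obtain ⟨η, hη0, hη1, hps⟩ := patternW_sum M hF W hdeg
  set r : ℝ := (Fintype.card I : ℝ) with hr
  have hr0 : 0 ≤ r := Nat.cast_nonneg _
  set ε : ℝ := η / (8 * (r + 1)) with hε
  have hε0 : 0 < ε := by positivity
  have hε1 : ε < 1 := by
    rw [hε, div_lt_one (by positivity)]
    nlinarith
  obtain ⟨K, hK⟩ := exists_nat_ge (max 2 (16 * r ^ 2 / η))
  have hK2 : 2 ≤ K := by
    have : (2 : ℝ) ≤ K := (le_max_left _ _).trans hK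
    exact_mod_cast this
  have hK3 : 16 * r ^ 2 / η ≤ K := (le_max_right _ _).trans hK
  have hK0 : (0 : ℝ) < K := Nat.cast_pos.2 (by omega)
  obtain ⟨C, Λ₀, hC, hΛ₀, hmain⟩ := hps K hK2 ε hε0 hε1
  refine ⟨η / 2, C * (((K + 1 : ℕ) : ℝ) ^ Fintype.card I * (r + 1)),
    max Λ₀ (max 2 ((2 : ℝ) ^ (K : ℝ))), by positivity, by positivity,
    hΛ₀.trans (le_max_left _ _), ?_⟩
  intro Λ hΛ' E Ps hPs
  have hΛ : Λ₀ ≤ Λ := (le_max_left _ _).trans hΛ'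
  have hΛ2 : 2 ≤ Λ := (le_max_left _ _).trans ((le_max_right _ _).trans hΛ')
  have hΛ3 : (2 : ℝ) ^ (K : ℝ) ≤ Λ := (le_max_right _ _).trans ((le_max_right _ _).trans hΛ')
  have hΛ1 : 1 ≤ Λ := hΛ₀.trans hΛ
  have hΛ0 : 0 < Λ := by linarith
  -- the index of a large element
  have hex : ∀ P : Finset (PL L), ∃ i : I, P ∈ Ps → i ≠ W ∧ ∃ o ∈ P, o.1 = i ∧
      Real.exp Λ / 2 < nv o.2 := by
    intro P
    by_cases hP : P ∈ Ps
    · obtain ⟨o, ho, ho1, ho2⟩ := (hPs P hP).2.2.2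
      exact ⟨o.1, fun _ => ⟨ho1, o, ho, rfl, ho2⟩⟩
    · exact ⟨W, fun h => absurd h hP⟩
  choose ix hix using hex
  set pt : Finset (PL L) → I → ℕ := fun P i => if i = W then 0 else pat K Λ P i with hpt
  set R : Finset ((I → ℕ) × I) :=
    (Fintype.piFinset (fun _ => Finset.range (K + 1))) ×ˢ Finset.univ with hR
  have hmaps : ∀ P ∈ Ps, (pt P, ix P) ∈ R := by
    intro P _
    rw [hR, Finset.mem_product, Fintype.mem_piFinset]
    refine ⟨fun i => ?_, Finset.mem_univ _⟩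
    rw [Finset.mem_range]
    show (if i = W then 0 else pat K Λ P i) < K + 1
    split_ifs
    · omega
    · exact Nat.lt_succ_of_le (w2_pat_le rfl)
  rw [← Finset.sum_fiberwise_of_maps_to hmaps]
  have hcardR : R.card = (K + 1) ^ Fintype.card I * Fintype.card I := by
    rw [hR, Finset.card_product, Fintype.card_piFinset]
    simp
  have hbound : ∀ x ∈ R, ∑ P ∈ Ps with (pt P, ix P) = x,
      ∏ o ∈ P, (rw8 k W (E o) o (sgn al P) / nv o.2) ≤ C * Λ ^ (-(η / 2)) := by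
    intro x _
    by_cases hne : (Ps.filter (fun P => (pt P, ix P) = x)).Nonempty
    swap
    · rw [Finset.not_nonempty_iff_eq_empty] at hne
      rw [hne, Finset.sum_empty]
      positivity
    obtain ⟨P₀, hP₀⟩ := hne
    rw [Finset.mem_filter] at hP₀
    obtain ⟨hP₀, hx⟩ := hP₀
    have hxW : x.1 W = 0 := by
      rw [← hx]
      show (if W = W then 0 else pat K Λ P₀ W) = 0
      rw [if_pos rfl]
    obtain ⟨hi1, o₁, ho₁, ho₁i, ho₁b⟩ := hix P₀ hP₀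
    have hx2 : x.2 = ix P₀ := by rw [← hx]
    have hi₁W : x.2 ≠ W := by rw [hx2]; exact hi1
    have hi₁ : x.1 x.2 = 1 := by
      have h1 : x.1 x.2 = pat K Λ P₀ (ix P₀) := by
        rw [← hx]
        show (if ix P₀ = W then 0 else pat K Λ P₀ (ix P₀)) = _
        rw [if_neg hi1]
      rw [h1, ← ho₁i]
      exact w2b_pat_one hK2 hΛ2 hΛ3 P₀ (hPs P₀ hP₀).2.2.1 o₁ ho₁ ho₁b
    have h := hmain Λ hΛ x.1 hxW x.2 hi₁W hi₁ E (Ps.filter (fun P => (pt P, ix P) = x)) (by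
      intro P hP
      rw [Finset.mem_filter] at hP
      obtain ⟨hP, hPx⟩ := hP
      refine ⟨(hPs P hP).1, (hPs P hP).2.1, (hPs P hP).2.2.1, ?_, ?_⟩
      · intro i hi
        rw [← hPx]
        show pat K Λ P i = if i = W then 0 else pat K Λ P i
        rw [if_neg hi]
      · obtain ⟨-, o, ho, hoi, hob⟩ := hix P hP
        refine ⟨o, ho, ?_, hob⟩
        rw [hoi, ← hPx])
    refine h.trans ?_
    rw [mul_assoc, mul_assoc, ← Real.rpow_add hΛ0, ← Real.rpow_add hΛ0]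
    apply mul_le_mul_of_nonneg_left _ hC.le
    apply Real.rpow_le_rpow_of_exponent_le hΛ1
    have := w2b_expo η ε r K hη0 hr0 hε hK0 hK3
    linarith
  calc _ ≤ ∑ p ∈ R, C * Λ ^ (-(η / 2)) := Finset.sum_le_sum hbound
    _ = (((K + 1 : ℕ) : ℝ) ^ Fintype.card I * r) * (C * Λ ^ (-(η / 2))) := by
      rw [Finset.sum_const, nsmul_eq_mul, hcardR]
      push_cast
      ring
    _ ≤ (((K + 1 : ℕ) : ℝ) ^ Fintype.card I * (r + 1)) * (C * Λ ^ (-(η / 2))) := by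
      apply mul_le_mul_of_nonneg_right _ (by positivity)
      apply mul_le_mul_of_nonneg_left _ (by positivity)
      linarith
    _ = _ := by ring

end SC8
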