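import Pool.Agent.MP_c1dca2_ag.SC8.P1
import Pool.Agent.MP_c1dca2_ag.SC5.H6
import Pool.Agent.MP_c1dca2_ag.SC5.H9
import Pool.Agent.MP_c1dca2_ag.SC5.H1
import Pool.Agent.MP_c1dca2_ag.SC3.G0
import Pool.Agent.MP_c1dca2_ag.SC3.G2

/-!
# [SC8-W3] Part II: the signs at the primes of `L W` in terms of `c`

`algebraMap k (L W)` is bijective (`hW`: finrank 1; `bijective_algebraMap..` or `Subalgebra.bot_eq_top_iff_finrank_eq_one`). Over every `v` there is
exactly one `w : Pr (L W)` (`exists_bl`; uniqueness: `h1_bl` / `mem_bl` and surjectivity), write `w_v`; let `β v ∈ k` be the element with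
`algebraMap k (L W) (β v) = al W w_v`. For `a b : k`: `w_v.valuation (algebraMap a) ≤ w_v.valuation (algebraMap b) ↔ v.valuation a ≤ v.valuation b`
(`SC5.h1_bl` for `a / b`), so `psi w_v (algebraMap a) = psi v a` and `Ev w_v (algebraMap a) ↔ Ev v a` (the values of `L W` are those of `k`).
1. For `v ∉ S`: `¬ Ev v (β v)` (`al W w_v ∈ w_v \ w_v²`: `Gen.mem`, `Gen.one`, `Fam8.large`; `SC5.h6_val_exp`: the value is `exp (-1)`, not a square)
   and `v.valuation (β v') = 1` for `v ∉ S`, `v' ≠ v` (`Gen.oth`, `large`).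
2. `SC3.finite_sel S`: a finite set `U₀ ⊆ k*` such that every `d ≠ 0` with `Ev v d` for all `v ∉ S` has `d * u = t * t` for some `u ∈ U₀`, `t ≠ 0`.
   `U = {u ∈ U₀ | ∀ v ∉ S, Ev v u}` as a type; `rr u P' = u * ∏ v ∈ P'.image (fun o => bl k o.2), β v` (`= u * ∏ o ∈ P', β (bl k o.2)` for
   `P'` with different `bl`). For `o ∈ P'`, `v = bl k o.2 ∉ S`: `rr` is `β v` (odd) times an even element and units: `¬ Ev v (rr u P')`
   (values are integers `exp n`; parity).
3. `c, P` as given, `T = P.image bl = TT S c` (as a set). `d = c * ∏_{v ∈ T} β v` satisfies `Ev v d` for all `v ∉ S`: for `v ∈ T` both `c`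
   (`v ∈ TT S c`) and the product are odd, for `v ∉ T` both are even (`TT`: `v ∉ S` and `¬ Ev v c`). So `d * u = t²` with `u ∈ U₀`; and then
   `u` is even outside `S`, `u ∈ U`. Let `o ∈ P`, `o.1 ≠ W`, `v = bl k o.2`, `w = w_v`. `PP al P W = ∏_{o' ∈ P, o'.1 = W} al W o'.2` (`SC5.PP`) is
   the image of `D = ∏_{o' ∈ P, o'.1 = W} β (bl k o'.2)` and `D * (c * rr u (P.filter (·.1 ≠ W))) = d u = t²`. `⟨W, w⟩ ∉ P` (`Cfg.inj`: it has
   the same `bl` as `o`), so by `sg_PP`: `sgn al P ⟨W, w⟩ = sg w (PP al P W)` and by `PP_notin`, `psi_eq_sg` (for `w` and the images in `L W`)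
   `= psi w (algebraMap (c * rr ..)) = psi v (c * rr ..)`. (`2 ∉ w`: `Fam8.two`, `mem_bl`.)
-/

set_option autoImplicit false

open NumberField IsDedekindDomain SC5 SC7

namespace SC8

section
variable {k L : Type} [Field k] [NumberField k] [Field L] [NumberField L] [Algebra k L]

theorem W3_notev {K : Type} [Field K] [NumberField K] (v : Pr K) {c : K}
    (h : v.valuation K c = WithZero.exp (-1 : ℤ)) : ¬ SC3.Ev v c := by
  rintro ⟨b, hb⟩
  have hb0 : v.valuation K b ≠ 0 := by
    intro h0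
    rw [h, h0, zero_pow two_ne_zero] at hb
    exact WithZero.exp_ne_zero hb
  obtain ⟨m, hm⟩ : ∃ m : ℤ, v.valuation K b = WithZero.exp m :=
    ⟨_, (WithZero.exp_log hb0).symm⟩
  rw [h, hm, ← WithZero.exp_nsmul, WithZero.exp_inj] at hb
  simp only [nsmul_eq_mul] at hb
  push_cast at hb
  omega

theorem W3_le (w : Pr L) (a b : k) :
    w.valuation L (algebraMap k L a) ≤ w.valuation L (algebraMap k L b) ↔
      (bl k w).valuation k a ≤ (bl k w).valuation k b := by
  by_cases hb : b = 0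
  · subst hb
    rw [map_zero, map_zero, map_zero, le_zero_iff, le_zero_iff, Valuation.zero_iff, Valuation.zero_iff,
      map_eq_zero]
  · have h := h1_bl (k := k) w (a / b)
    have h1 : (0 : WithZero (Multiplicative ℤ)) < (bl k w).valuation k b :=
      zero_lt_iff.2 ((Valuation.ne_zero_iff _).2 hb)
    have h2 : (0 : WithZero (Multiplicative ℤ)) < w.valuation L (algebraMap k L b) :=
      zero_lt_iff.2 ((Valuation.ne_zero_iff _).2 ((_root_.map_ne_zero _).2 hb))
    rw [map_div₀, map_div₀, map_div₀, div_le_one₀ h1, div_le_one₀ h2] at h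
    exact h

theorem W3_lt (w : Pr L) (a b : k) :
    w.valuation L (algebraMap k L a) < w.valuation L (algebraMap k L b) ↔
      (bl k w).valuation k a < (bl k w).valuation k b := by
  rw [← not_le, ← not_le, W3_le]

theorem W3_eq (w : Pr L) (a b : k) :
    w.valuation L (algebraMap k L a) = w.valuation L (algebraMap k L b) ↔
      (bl k w).valuation k a = (bl k w).valuation k b := by
  rw [le_antisymm_iff, le_antisymm_iff, W3_le, W3_le]

theorem W3_psi (hs : Function.Surjective (algebraMap k L)) (w : Pr L) (a : k) :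
    psi w (algebraMap k L a) = psi (bl k w) a := by
  have key : (∃ t : L, w.valuation L (algebraMap k L a - t ^ 2) < w.valuation L (algebraMap k L a)) ↔
      ∃ t : k, (bl k w).valuation k (a - t ^ 2) < (bl k w).valuation k a := by
    constructor
    · rintro ⟨t, ht⟩
      obtain ⟨s, rfl⟩ := hs t
      refine ⟨s, ?_⟩
      rw [← map_pow, ← map_sub, W3_lt] at ht
      exact ht
    · rintro ⟨s, hs⟩
      refine ⟨algebraMap k L s, ?_⟩
      rw [← map_pow, ← map_sub, W3_lt]
      exact hs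
  unfold psi
  by_cases h : ∃ t : k, (bl k w).valuation k (a - t ^ 2) < (bl k w).valuation k a
  · rw [if_pos h, if_pos (key.2 h)]
  · rw [if_neg h, if_neg (fun h1 => h (key.1 h1))]

theorem W3_ev (w : Pr L) (a : k) (h : SC3.Ev (bl k w) a) : SC3.Ev w (algebraMap k L a) := by
  obtain ⟨b, hb⟩ := h
  refine ⟨algebraMap k L b, ?_⟩
  rw [← map_pow, ← map_pow, W3_eq, map_pow]
  exact hb

theorem W3_uniq (hs : Function.Surjective (algebraMap k L)) (w w' : Pr L) (h : bl k w = bl k w') :
    w = w' := by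
  refine HeightOneSpectrum.ext (Ideal.ext fun x => ?_)
  have e : ∀ u : Pr L, x ∈ u.asIdeal ↔ u.valuation L (x : L) < u.valuation L (algebraMap k L 1) := by
    intro u
    rw [map_one, map_one]
    exact (u.valuation_lt_one_iff_mem (K := L) x).symm
  obtain ⟨a, ha⟩ := hs (x : L)
  rw [e, e, ← ha, W3_lt, W3_lt, h]

end

theorem W3_ev_one {K : Type} [Field K] [NumberField K] {v : Pr K} {a : K}
    (h : v.valuation K a = 1) : SC3.Ev v a := ⟨1, by rw [h, map_one, one_pow]⟩

theorem W3_prod_one {K ι : Type} [Field K] [NumberField K] (v : Pr K) (s : Finset ι) (g : ι → K)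
    (h : ∀ i ∈ s, v.valuation K (g i) = 1) : v.valuation K (∏ i ∈ s, g i) = 1 := by
  rw [map_prod]
  exact Finset.prod_eq_one h

open scoped Classical in
/-- a product over a set of primes containing `v` -/
theorem W3_odd {K : Type} [Field K] [NumberField K] {β : Pr K → K} {v : Pr K} (T : Finset (Pr K))
    (hv : v ∈ T) (h1 : ¬ SC3.Ev v (β v)) (h2 : ∀ v' ∈ T, v' ≠ v → v.valuation K (β v') = 1) :
    ¬ SC3.Ev v (∏ v' ∈ T, β v') := by
  intro h
  rw [← Finset.mul_prod_erase T β hv, mul_comm] at h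
  have h3 : v.valuation K (∏ v' ∈ T.erase v, β v') = 1 :=
    W3_prod_one v _ _ fun v' hv' => h2 v' (Finset.mem_of_mem_erase hv') (Finset.ne_of_mem_erase hv')
  refine h1 (SC3.Ev.of_mul (W3_ev_one h3) ?_ h)
  intro h0
  rw [h0, map_zero] at h3
  exact zero_ne_one h3

open scoped Classical in
theorem wid {k : Type} [Field k] [NumberField k] {I : Type} [Fintype I] {L : I → Type}
    [∀ i, Field (L i)] [∀ i, NumberField (L i)] [∀ i, Algebra k (L i)] {S : Finset (Pr k)}
    {al : ∀ i, Pr (L i) → 𝓞 (L i)} {Cg : ℕ} (hF : Fam8 k L S al Cg) (W : I)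
    (hW : Module.finrank k (L W) = 1) :
    ∃ (U : Type) (_ : Finite U) (rr : U → Finset (PL L) → k),
      (∀ (x : U) (P' : Finset (PL L)), Cfg k S P' →
        rr x P' ≠ 0 ∧ ∀ o ∈ P', ¬ SC3.Ev (bl k o.2) (rr x P')) ∧
      ∀ (c : 𝓞 k) (P : Finset (PL L)), c ≠ 0 → Cfg k S P →
        TT S (c : k) = (fun o => bl k o.2) '' (P : Set (PL L)) →
        ∃ x : U, ∀ o ∈ P, o.1 ≠ W → ∀ w : Pr (L W), bl k w = bl k o.2 →
          sgn al P ⟨W, w⟩ = psi (bl k o.2) ((c : k) * rr x (P.filter (fun o => o.1 ≠ W))) := by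
  have hs : Function.Surjective (algebraMap k (L W)) := by
    have h1 : (⊥ : Subalgebra k (L W)) = ⊤ := Subalgebra.bot_eq_top_iff_finrank_eq_one.2 hW
    intro x
    have hx : x ∈ (⊥ : Subalgebra k (L W)) := by
      rw [h1]
      exact Algebra.mem_top
    exact Algebra.mem_bot.1 hx
  -- the primes above
  choose wv hwv using fun v : Pr k => exists_bl (L := L W) v
  choose β hβ using fun v : Pr k => hs ((al W (wv v) : 𝓞 (L W)) : L W)
  have hlarge : ∀ v : Pr k, v ∉ S → Cg < nv (wv v) := fun v hv => hF.large W _ (by rw [hwv]; exact hv)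
  have hβ0 : ∀ v, β v ≠ 0 := by
    intro v h0
    have h1 := hβ v
    rw [h0, map_zero] at h1
    exact (hF.gen W).ne (wv v) (RingOfIntegers.ext h1.symm)
  have hβ1 : ∀ v, v ∉ S → ¬ SC3.Ev v (β v) := by
    intro v hv hev
    have h1 : (wv v).valuation (L W) ((al W (wv v) : 𝓞 (L W)) : L W) = WithZero.exp (-1 : ℤ) :=
      h6_val_exp _ _ ((hF.gen W).mem _) ((hF.gen W).one _ (hlarge v hv))
    refine W3_notev _ h1 ?_
    rw [← hβ v]
    refine W3_ev (k := k) (wv v) (β v) ?_
    rw [hwv]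
    exact hev
  have hβ2 : ∀ v, v ∉ S → ∀ v', v' ≠ v → v.valuation k (β v') = 1 := by
    intro v hv v' hne
    have h1 : al W (wv v') ∉ (wv v).asIdeal := by
      intro h
      rcases (hF.gen W).oth _ _ h with h2 | h2
      · apply hne
        rw [← hwv v, ← hwv v', h2]
      · have := hlarge v hv
        omega
    have h2 : (wv v).valuation (L W) (algebraMap k (L W) (β v')) =
        (wv v).valuation (L W) (algebraMap k (L W) 1) := by
      rw [hβ, map_one, map_one]
      exact h6_val_one _ _ h1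
    rw [W3_eq, hwv, map_one] at h2
    exact h2
  obtain ⟨U₀, hU1, hU2⟩ := SC3.finite_sel (S : Set (Pr k)) S.finite_toSet
  refine ⟨{u // u ∈ U₀}, inferInstance,
    fun u P' => u.1 * ∏ v ∈ P'.image (fun o => bl k o.2), β v, ?_, ?_⟩
  · intro x P' hP'
    refine ⟨mul_ne_zero (hU1 x.1 x.2).1 (Finset.prod_ne_zero_iff.2 fun v _ => hβ0 v), ?_⟩
    intro o ho hev
    have hvS : bl k o.2 ∉ S := hP'.out o ho
    have h1 : ¬ SC3.Ev (bl k o.2) (∏ v ∈ P'.image (fun o => bl k o.2), β v) :=
      W3_odd _ (Finset.mem_image_of_mem _ ho) (hβ1 _ hvS) fun v' _ hne => hβ2 _ hvS v' hne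
    exact h1 (SC3.Ev.of_mul ((hU1 x.1 x.2).2 _ hvS) (hU1 x.1 x.2).1 hev)
  · intro c P hc hP hT
    have hinj : ∀ o ∈ P, ∀ o' ∈ P, bl k o.2 = bl k o'.2 → o = o' := hP.inj
    have hc0 : (c : k) ≠ 0 := by
      intro h0
      exact hc (RingOfIntegers.ext h0)
    set T : Finset (Pr k) := P.image (fun o => bl k o.2) with hTdef
    have hTT : ∀ v, v ∈ T ↔ v ∈ TT S (c : k) := by
      intro v
      rw [hT, hTdef, Finset.mem_image]
      rfl
    have hd0 : (c : k) * ∏ v ∈ T, β v ≠ 0 :=
      mul_ne_zero hc0 (Finset.prod_ne_zero_iff.2 fun v _ => hβ0 v)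
    have hdev : ∀ v, v ∉ (S : Set (Pr k)) → SC3.Ev v ((c : k) * ∏ v ∈ T, β v) := by
      intro v hv
      have hvS : v ∉ S := hv
      by_cases hvT : v ∈ T
      · exact SC3.ev_of_not ((hTT v).1 hvT).2 (W3_odd T hvT (hβ1 v hvS) fun v' _ hne => hβ2 v hvS v' hne)
      · have h1 : SC3.Ev v (c : k) := by
          by_contra h2
          exact hvT ((hTT v).2 ⟨hvS, h2⟩)
        refine h1.mul (W3_ev_one (W3_prod_one v _ _ fun v' hv' => hβ2 v hvS v' ?_))
        rintro rfl
        exact hvT hv'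
    obtain ⟨u, hu, t, ht⟩ := hU2 _ hd0 hdev
    refine ⟨⟨u, hu⟩, ?_⟩
    intro o ho hoW w hw
    have hvS : bl k w ∉ S := by
      rw [hw]
      exact hP.out o ho
    have hnot : (⟨W, w⟩ : PL L) ∉ P := by
      intro h
      have h1 := hinj _ h o ho hw
      apply hoW
      rw [← h1]
    have hCg : Cg < nv w := hF.large W w hvS
    have h2w : (2 : 𝓞 (L W)) ∉ w.asIdeal := by
      intro h
      apply hF.two _ hvS
      rw [mem_bl, map_ofNat]
      exact h
    rw [sg_PP hF.gen P W w hCg h2w hnot, ← hw, ← W3_psi hs w]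
    -- the product
    have hPP : ((PP al P W : 𝓞 (L W)) : L W) =
        algebraMap k (L W) (∏ o' ∈ P.filter (fun o' => o'.1 = W), β (bl k o'.2)) := by
      unfold PP
      rw [map_prod, Finset.prod_filter]
      have e0 : ((∏ o' ∈ P, (if h : o'.1 = W then al W (h ▸ o'.2) else 1) : 𝓞 (L W)) : L W) =
          ∏ o' ∈ P, (((if h : o'.1 = W then al W (h ▸ o'.2) else 1 : 𝓞 (L W))) : L W) :=
        map_prod (algebraMap (𝓞 (L W)) (L W)) _ _
      rw [e0]
      refine Finset.prod_congr rfl fun o' _ => ?_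
      obtain ⟨i', w'⟩ := o'
      by_cases h : i' = W
      · subst h
        rw [dif_pos rfl, if_pos rfl, hβ]
        have h3 : wv (bl k w') = w' := W3_uniq hs _ _ (hwv _)
        show ((al i' w' : 𝓞 (L i')) : L i') = ((al i' (wv (bl k w')) : 𝓞 (L i')) : L i')
        rw [h3]
      · rw [dif_neg h, if_neg h]
        rfl
    have hprod : (∏ o' ∈ P.filter (fun o' => o'.1 = W), β (bl k o'.2)) *
        (∏ v ∈ (P.filter (fun o' => o'.1 ≠ W)).image (fun o' => bl k o'.2), β v) = ∏ v ∈ T, β v := by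
      rw [Finset.prod_image, hTdef, Finset.prod_image]
      · exact Finset.prod_filter_mul_prod_filter_not P (fun o' => o'.1 = W) _
      · intro a ha b hb hab
        exact hinj a ha b hb hab
      · intro a ha b hb hab
        exact hinj a (Finset.mem_filter.1 ha).1 b (Finset.mem_filter.1 hb).1 hab
    refine psi_eq_sg w (PP al P W) (PP_notin hF.gen P W w hCg hnot) _ (algebraMap k (L W) t) ?_ ?_
    · refine (_root_.map_ne_zero _).2 (mul_ne_zero hc0 (mul_ne_zero (hU1 u hu).1 ?_))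
      exact Finset.prod_ne_zero_iff.2 fun v _ => hβ0 v
    · rw [hPP, ← map_mul, ← map_pow, sq, ← ht, ← hprod]
      congr 1
      ring

end SC8
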