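import Pool.Agent.MP_c1dca2_ag.SC8.P3
import Pool.Agent.MP_c1dca2_ag.SC8.R4
import Pool.Agent.MP_c1dca2_ag.SC8.W3
import Pool.Agent.MP_c1dca2_ag.SC5.B3

/-!
# [SC8-W4a] Part II: the number of `c` with given primes up to `y`

`A, N₀` from `sieve_small b S K`. Let `V = P₀.image (fun o => bl k o.2)` (`o ↦ bl k o.2` is injective on `P₀`: `Cfg.inj`; `V.card = P₀.card`, `v ∉ S`: `Cfg.out`; `nv v = nv o.2` because
`dg k o.2 = 1`: `nv_eq`), `e = sgn al P₀`, and for `v = bl k o.2`, `o ∈ P₀`, `g v = rw8 k W (E o) o e ∈ [0, 1]`. `2 ∉ v` (`Fam8.two`). Over every `v` there is exactly one `w : Pr (L W)` and `dg k w = 1` (`exists_bl`,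
`card_bl`, `dg_pos`, `hW1`). `Rel k (E o) o e'` only depends on the signs `e' q` at `q` above `v`, `q ≠ o`.
* `o.1 = W`: `up k {W} o = {o}` (the elements of index `W` above `v`), so `g v = 1` if `Rel k (E o) o e` and `0` otherwise (changing the sign at `o` does not matter); also `Rel` for the function of the
  statement is equivalent to `Rel k (E o) o e` (all `q ≠ o` above `v` have `q.1 ≠ W`). `G v c = g v * [c ∈ v \ v² or c ∈ v³]` (`mn_odd`).
* `o.1 ≠ W`: `up k {W} o = {⟨W, w⟩}`; let `e⁺`, `e⁻` be `e` with the sign at `⟨W, w⟩` replaced by `1`, `-1`, `a = [Rel k (E o) o e⁺]`,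
  `b' = [Rel k (E o) o e⁻]`; `(a + b')/2 = g v` (`avg` over the subsets of a one element set; `e ⟨W, w⟩ = ±1`). `G v` as in `mn_psi` with `r`, `a`, `b'`. If `el b c ∈ v \ v²`, or `∈ v³`, and the relation of the statement
  holds, then `1 ≤ G v (el b c)` (`psi = ± 1`; for `c ∈ v³`: `G = a + b'`).
So `0 ≤ G v`, `Per v (G v)`, `mn v (G v) ≤ g v (1/nv)(1 - 1/nv + 2/nv²)`, every `c` of the statement satisfies `1 ≤ ∏_{v ∈ V} G v (el b c)` and is in the set of `sieve_small`. So the number is at most the sum in `sieve_small`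
(`c7_box`, `c7_mem_box` of SC5/C7), `≤ A N^n / log y · ∏_{v ∈ V} (g v / nv v) = A N^n / log y · ∏_{o ∈ P₀} (rw8 .. / nv o.2)`.
-/

set_option autoImplicit false

open NumberField IsDedekindDomain SC5 SC7

namespace SC8

section aux

variable {k : Type} [Field k] [NumberField k] {I : Type} [Fintype I] {L : I → Type}
    [∀ i, Field (L i)] [∀ i, NumberField (L i)] [∀ i, Algebra k (L i)]

/-- there is only one prime above `v` -/
private theorem w4_uniq {M : Type} [Field M] [NumberField M] [Algebra k M]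
    (h1 : Module.finrank k M = 1) (w w' : Pr M) (h : bl k w = bl k w') : w = w' := by
  classical
  by_contra hne
  have h2 := card_bl (bl k w) {w, w'} (by
    intro x hx
    rw [Finset.mem_insert, Finset.mem_singleton] at hx
    rcases hx with rfl | rfl
    · rfl
    · exact h.symm)
  rw [Finset.sum_pair hne, h1] at h2
  have h3 := dg_pos (k := k) w
  have h4 := dg_pos (k := k) w'
  omega

private theorem w4_rel (E : PL L → PL L → ℤˣ) (o : PL L) (e e' : PL L → ℤˣ)
    (h : ∀ q : PL L, bl k q.2 = bl k o.2 → q ≠ o → e q = e' q) :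
    Rel k E o e ↔ Rel k E o e' := by
  unfold SC5.Rel
  refine forall_congr' fun q => forall_congr' fun q' => forall_congr' fun h1 =>
    forall_congr' fun h2 => forall_congr' fun h3 => forall_congr' fun h4 =>
    forall_congr' fun h5 => ?_
  rw [h q h1 h3, h q' h2 h4]

open scoped Classical in
private noncomputable def w4_a (k : Type) [Field k] [NumberField k] {I : Type} {L : I → Type}
    [∀ i, Field (L i)] [∀ i, NumberField (L i)] [∀ i, Algebra k (L i)] (W : I)
    (E : PL L → PL L → ℤˣ) (o : PL L) (e : PL L → ℤˣ) (ε : ℤˣ) : ℝ :=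
  if Rel k E o (fun q => if q.1 = W then ε else e q) then 1 else 0

private theorem w4_a_cases (W : I) (E : PL L → PL L → ℤˣ) (o : PL L) (e : PL L → ℤˣ) (ε : ℤˣ) :
    0 ≤ w4_a k W E o e ε := by
  unfold w4_a
  split_ifs <;> norm_num

open scoped Classical in
private theorem w4_a_one (W : I) (E : PL L → PL L → ℤˣ) (o : PL L) (e : PL L → ℤˣ) (ε : ℤˣ)
    (h : Rel k E o (fun q => if q.1 = W then ε else e q)) : w4_a k W E o e ε = 1 := by
  unfold w4_a
  rw [if_pos h]

open scoped Classical in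
private theorem w4_rw (W : I) (hW1 : Module.finrank k (L W) = 1) (E : PL L → PL L → ℤˣ)
    (o : PL L) (e : PL L → ℤˣ) :
    rw8 k W E o e = (w4_a k W E o e 1 + w4_a k W E o e (-1)) / 2 := by
  obtain ⟨w, hw⟩ := exists_bl (L := L W) (bl k o.2)
  set q0 : PL L := ⟨W, w⟩ with hq0
  have huq : ∀ q : PL L, q.1 = W → bl k q.2 = bl k o.2 → q = q0 := by
    rintro ⟨i, x⟩ h1 h2
    change i = W at h1
    subst h1
    have h3 : x = w := w4_uniq (k := k) hW1 x w (by
      exact Eq.trans h2 hw.symm)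
    rw [h3]
  have hup : up k {W} o = {q0} := by
    ext q
    rw [mem_up, Finset.mem_singleton, Finset.mem_singleton]
    constructor
    · rintro ⟨h1, h2⟩
      exact huq q h1 h2
    · rintro rfl
      exact ⟨rfl, hw⟩
  have e1 : (if Rel k E o (fun q => if q ∈ (∅ : Finset (PL L)) then -e q else e q) then (1 : ℝ)
      else 0) = w4_a k W E o e (e q0) := by
    unfold w4_a
    rw [w4_rel E o (fun q => if q ∈ (∅ : Finset (PL L)) then -e q else e q)
      (fun q => if q.1 = W then e q0 else e q)]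
    intro q h1 h2
    rw [if_neg (Finset.notMem_empty q)]
    split_ifs with h3
    · rw [huq q h3 h1]
    · rfl
  have e2 : (if Rel k E o (fun q => if q ∈ ({q0} : Finset (PL L)) then -e q else e q) then (1 : ℝ)
      else 0) = w4_a k W E o e (-e q0) := by
    unfold w4_a
    rw [w4_rel E o (fun q => if q ∈ ({q0} : Finset (PL L)) then -e q else e q)
      (fun q => if q.1 = W then -e q0 else e q)]
    intro q h1 h2
    by_cases h3 : q.1 = W
    · rw [if_pos h3, huq q h3 h1, if_pos (Finset.mem_singleton_self _)]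
    · rw [if_neg h3, if_neg]
      rw [Finset.mem_singleton]
      rintro rfl
      exact h3 rfl
  unfold rw8 avg
  rw [hup, Finset.card_singleton, pow_one]
  have hps : ({q0} : Finset (PL L)).powerset = {∅, {q0}} := by
    ext A
    rw [Finset.mem_powerset, Finset.subset_singleton_iff, Finset.mem_insert, Finset.mem_singleton]
  rw [hps, Finset.sum_pair (by
    intro h
    exact absurd h.symm (Finset.singleton_ne_empty q0))]
  congr 1
  have e3 : (if Rel k E o (fun q => if q ∈ (∅ : Finset (PL L)) then -e q else e q) then (1 : ℝ)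
      else 0) + (if Rel k E o (fun q => if q ∈ ({q0} : Finset (PL L)) then -e q else e q) then
      (1 : ℝ) else 0) = w4_a k W E o e 1 + w4_a k W E o e (-1) := by
    rw [e1, e2]
    rcases Int.units_eq_one_or (e q0) with h | h
    · rw [h]
    · rw [h, neg_neg, add_comm]
  exact e3

/-- if `o` has index `W`, the relation does not depend on the signs of index `W` -/
private theorem w4_a_eq (W : I) (hW1 : Module.finrank k (L W) = 1) (E : PL L → PL L → ℤˣ)
    (o : PL L) (ho : o.1 = W) (e : PL L → ℤˣ) (ε ε' : ℤˣ) :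
    w4_a k W E o e ε = w4_a k W E o e ε' := by
  classical
  unfold w4_a
  rw [w4_rel E o (fun q => if q.1 = W then ε else e q) (fun q => if q.1 = W then ε' else e q)]
  intro q h1 h2
  have h3 : q.1 ≠ W := by
    intro h3
    apply h2
    obtain ⟨i, x⟩ := q
    obtain ⟨j, x'⟩ := o
    change i = W at h3
    change j = W at ho
    change bl k x = bl k x' at h1
    subst h3
    subst ho
    rw [w4_uniq (k := k) hW1 x x' h1]
  rw [if_neg h3, if_neg h3]

open scoped Classical in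
private noncomputable def w4_G {k : Type} [Field k] [NumberField k] {I : Type} {L : I → Type}
    [∀ i, Field (L i)] [∀ i, NumberField (L i)] [∀ i, Algebra k (L i)] (W : I) (r : k)
    (E : PL L → PL L → ℤˣ) (e : PL L → ℤˣ) (o : PL L) : 𝓞 k → ℝ :=
  if o.1 = W then (fun c => w4_a k W E o e 1 *
    (if (c ∈ (bl k o.2).asIdeal ∧ c ∉ (bl k o.2).asIdeal ^ 2) ∨ c ∈ (bl k o.2).asIdeal ^ 3 then
      (1 : ℝ) else 0))
  else (fun c => (if (c ∈ (bl k o.2).asIdeal ∧ c ∉ (bl k o.2).asIdeal ^ 2 ∧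
      psi (bl k o.2) ((c : k) * r) = 1) ∨ c ∈ (bl k o.2).asIdeal ^ 3 then
        w4_a k W E o e 1 else 0) +
      (if (c ∈ (bl k o.2).asIdeal ∧ c ∉ (bl k o.2).asIdeal ^ 2 ∧
      psi (bl k o.2) ((c : k) * r) = -1) ∨ c ∈ (bl k o.2).asIdeal ^ 3 then
        w4_a k W E o e (-1) else 0))

private theorem w4_G0 (W : I) (r : k)
    (E : PL L → PL L → ℤˣ) (e : PL L → ℤˣ) (o : PL L) (c : 𝓞 k) : 0 ≤ w4_G W r E e o c := by
  have h1 := w4_a_cases (k := k) W E o e 1
  have h2 := w4_a_cases (k := k) W E o e (-1)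
  unfold w4_G
  split_ifs with h
  · dsimp only
    split_ifs
    · linarith
    · linarith
  · dsimp only
    split_ifs <;> linarith

private theorem w4_mn (W : I) (hW1 : Module.finrank k (L W) = 1) (r : k)
    (E : PL L → PL L → ℤˣ) (e : PL L → ℤˣ) (o : PL L)
    (h2 : (2 : 𝓞 k) ∉ (bl k o.2).asIdeal) (hr : r ≠ 0)
    (hodd : o.1 ≠ W → ¬ SC3.Ev (bl k o.2) r) :
    Per (bl k o.2) (w4_G W r E e o) ∧ mn (bl k o.2) (w4_G W r E e o) ≤
      rw8 k W E o e * (((nv (bl k o.2) : ℝ))⁻¹ *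
        (1 - ((nv (bl k o.2) : ℝ))⁻¹ + 2 * ((nv (bl k o.2) : ℝ) ^ 2)⁻¹)) := by
  classical
  rw [w4_rw W hW1]
  by_cases ho : o.1 = W
  · have h3 : (w4_a k W E o e 1 + w4_a k W E o e (-1)) / 2 = w4_a k W E o e 1 := by
      rw [w4_a_eq W hW1 E o ho e (-1) 1]
      ring
    rw [h3]
    obtain ⟨g1, g2⟩ := mn_odd (bl k o.2)
    unfold w4_G
    rw [if_pos ho]
    have h4 : w4_a k W E o e 1 = 1 ∨ w4_a k W E o e 1 = 0 := by
      unfold w4_a
      split_ifs
      · exact Or.inl rfl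
      · exact Or.inr rfl
    rcases h4 with h4 | h4
    · rw [h4]
      simp only [one_mul]
      exact ⟨g1, g2⟩
    · rw [h4]
      simp only [zero_mul]
      refine ⟨fun _ _ _ => rfl, ?_⟩
      unfold mn
      rw [finsum_zero, zero_div]
  · unfold w4_G
    rw [if_neg ho]
    obtain ⟨g1, g2⟩ := mn_psi (bl k o.2) h2 r hr (hodd ho) (w4_a k W E o e 1)
      (w4_a k W E o e (-1))
    exact ⟨g1, g2.le⟩

open scoped Classical in
private theorem w4_one (W : I) (hW1 : Module.finrank k (L W) = 1) (r : k)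
    (E : PL L → PL L → ℤˣ) (e : PL L → ℤˣ) (o : PL L) (c : 𝓞 k)
    (hc : (c ∈ (bl k o.2).asIdeal ∧ c ∉ (bl k o.2).asIdeal ^ 2) ∨ c ∈ (bl k o.2).asIdeal ^ 3)
    (hrel : Rel k E o (fun q => if q.1 = W then psi (bl k o.2) ((c : k) * r) else e q)) :
    1 ≤ w4_G W r E e o c := by
  have h1 := w4_a_cases (k := k) W E o e 1
  have h2 := w4_a_cases (k := k) W E o e (-1)
  have h3 := w4_a_one (k := k) W E o e _ hrel
  unfold w4_G
  by_cases ho : o.1 = W
  · rw [if_pos ho]
    rw [if_pos hc, mul_one, w4_a_eq W hW1 E o ho e 1 _, h3]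
  · rw [if_neg ho]
    rcases Int.units_eq_one_or (psi (bl k o.2) ((c : k) * r)) with h4 | h4
    · rw [h4] at h3
      rw [if_pos (by
        rcases hc with h | h
        · exact Or.inl ⟨h.1, h.2, h4⟩
        · exact Or.inr h), h3]
      split_ifs <;> linarith
    · rw [h4] at h3
      rw [add_comm, if_pos (by
        rcases hc with h | h
        · exact Or.inl ⟨h.1, h.2, h4⟩
        · exact Or.inr h), h3]
      split_ifs <;> linarith

end aux

open scoped Classical in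
theorem point_count {k : Type} [Field k] [NumberField k] {I : Type} [Fintype I] {L : I → Type}
    [∀ i, Field (L i)] [∀ i, NumberField (L i)] [∀ i, Algebra k (L i)] {S : Finset (Pr k)}
    {al : ∀ i, Pr (L i) → 𝓞 (L i)} {Cg : ℕ} (hF : Fam8 k L S al Cg) (W : I)
    (hW1 : Module.finrank k (L W) = 1) {ι : Type} [Fintype ι] (b : Module.Basis ι ℤ (𝓞 k))
    (K : ℕ) (hK : 2 ≤ K) :
    ∃ (A : ℝ) (N₀ : ℕ), 0 < A ∧ ∀ N : ℕ, N₀ ≤ N → ∀ y : ℝ, 2 ≤ y →
      Real.log y ≤ Real.log N ^ (1 - 1 / (K : ℝ)) →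
      ∀ (E : PL L → PL L → PL L → ℤˣ) (P₀ : Finset (PL L)), Cfg k S P₀ →
      (∀ o ∈ P₀, (nv o.2 : ℝ) ≤ y) → (P₀.card : ℝ) ≤ Real.log (Real.log N) ^ 2 →
      ∀ r : k, r ≠ 0 → (∀ o ∈ P₀, o.1 ≠ W → ¬ SC3.Ev (bl k o.2) r) →
      (Nat.card {c : ι → ℤ // (∀ i, |c i| ≤ N) ∧
        (∀ q : Pr k, q ∉ S → (nv q : ℝ) ≤ y → (∀ o ∈ P₀, bl k o.2 ≠ q) →
          ¬ (el b c ∈ q.asIdeal ∧ el b c ∉ q.asIdeal ^ 2)) ∧
        ∀ o ∈ P₀, ((el b c ∈ (bl k o.2).asIdeal ∧ el b c ∉ (bl k o.2).asIdeal ^ 2) ∨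
            el b c ∈ (bl k o.2).asIdeal ^ 3) ∧
          Rel k (E o) o (fun q => if q.1 = W then
            psi (bl k o.2) (((el b c : 𝓞 k) : k) * r) else sgn al P₀ q)} : ℝ) ≤
      A * (N : ℝ) ^ (Fintype.card ι) / Real.log y *
        ∏ o ∈ P₀, (rw8 k W (E o) o (sgn al P₀) / nv o.2) := by
  obtain ⟨A, N₀, hA, hmain⟩ := sieve_small b S K hK
  refine ⟨A, N₀, hA, ?_⟩
  intro N hN y hy hly E P₀ hP hPy hPc r hr hodd
  set e := sgn al P₀ with he
  set V := P₀.image (fun o => bl k o.2) with hV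
  have hfil : ∀ o ∈ P₀, P₀.filter (fun o' => bl k o'.2 = bl k o.2) = {o} := by
    intro o ho
    ext o'
    rw [Finset.mem_filter, Finset.mem_singleton]
    constructor
    · rintro ⟨h1, h2⟩
      exact hP.inj o' h1 o ho h2
    · rintro rfl
      exact ⟨ho, rfl⟩
  set G : Pr k → 𝓞 k → ℝ := fun v c => ∑ o ∈ P₀.filter (fun o => bl k o.2 = v),
    w4_G W r (E o) e o c with hG
  set g : Pr k → ℝ := fun v => ∑ o ∈ P₀.filter (fun o => bl k o.2 = v),
    rw8 k W (E o) o e with hg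
  have hGo : ∀ o ∈ P₀, G (bl k o.2) = w4_G W r (E o) e o := by
    intro o ho
    funext c
    show ∑ o' ∈ P₀.filter (fun o' => bl k o'.2 = bl k o.2), w4_G W r (E o') e o' c = _
    rw [hfil o ho, Finset.sum_singleton]
  have hgo : ∀ o ∈ P₀, g (bl k o.2) = rw8 k W (E o) o e := by
    intro o ho
    show ∑ o' ∈ P₀.filter (fun o' => bl k o'.2 = bl k o.2), rw8 k W (E o') o' e = _
    rw [hfil o ho, Finset.sum_singleton]
  have hnv : ∀ o ∈ P₀, nv (bl k o.2) = nv o.2 := by
    intro o ho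
    rw [nv_eq (k := k) o.2, hP.deg o ho, pow_one]
  have hinj : ∀ o ∈ P₀, ∀ o' ∈ P₀, bl k o.2 = bl k o'.2 → o = o' := hP.inj
  have hrw0 : ∀ o ∈ P₀, 0 ≤ rw8 k W (E o) o e := by
    intro o _
    rw [w4_rw W hW1]
    have h1 := w4_a_cases (k := k) W (E o) o e 1
    have h2 := w4_a_cases (k := k) W (E o) o e (-1)
    linarith
  have hmn : ∀ o ∈ P₀, Per (bl k o.2) (w4_G W r (E o) e o) ∧
      mn (bl k o.2) (w4_G W r (E o) e o) ≤
      rw8 k W (E o) o e * (((nv (bl k o.2) : ℝ))⁻¹ *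
        (1 - ((nv (bl k o.2) : ℝ))⁻¹ + 2 * ((nv (bl k o.2) : ℝ) ^ 2)⁻¹)) := by
    intro o ho
    exact w4_mn W hW1 r (E o) e o (hF.two _ (hP.out o ho)) hr (hodd o ho)
  have hcard : V.card = P₀.card := Finset.card_image_of_injOn hinj
  have hres := hmain N hN y hy hly V (by
    intro v hv
    obtain ⟨o, ho, rfl⟩ := Finset.mem_image.1 hv
    refine ⟨hP.out o ho, ?_⟩
    rw [hnv o ho]
    exact hPy o ho) (by rw [hcard]; exact hPc) G (by
    intro v hv
    obtain ⟨o, ho, rfl⟩ := Finset.mem_image.1 hv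
    rw [hGo o ho]
    exact ⟨fun a => w4_G0 W r (E o) e o a, (hmn o ho).1⟩) g (by
    intro v hv
    obtain ⟨o, ho, rfl⟩ := Finset.mem_image.1 hv
    rw [hGo o ho, hgo o ho]
    exact ⟨hrw0 o ho, (hmn o ho).2⟩)
  have hprod : ∏ v ∈ V, (g v / nv v) = ∏ o ∈ P₀, (rw8 k W (E o) o e / nv o.2) := by
    rw [hV, Finset.prod_image hinj]
    apply Finset.prod_congr rfl
    intro o ho
    rw [hgo o ho, hnv o ho]
  rw [hprod] at hres
  refine le_trans ?_ hres
  rw [c7_card N (fun c : ι → ℤ => (∀ q : Pr k, q ∉ S → (nv q : ℝ) ≤ y →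
          (∀ o ∈ P₀, bl k o.2 ≠ q) → ¬ (el b c ∈ q.asIdeal ∧ el b c ∉ q.asIdeal ^ 2)) ∧
        ∀ o ∈ P₀, ((el b c ∈ (bl k o.2).asIdeal ∧ el b c ∉ (bl k o.2).asIdeal ^ 2) ∨
            el b c ∈ (bl k o.2).asIdeal ^ 3) ∧
          Rel k (E o) o (fun q => if q.1 = W then
            psi (bl k o.2) (((el b c : 𝓞 k) : k) * r) else e q))]
  rw [Finset.card_eq_sum_ones, Nat.cast_sum, Nat.cast_one]
  have hG0 : ∀ v ∈ V, ∀ a, 0 ≤ G v a := by
    intro v hv a
    obtain ⟨o, ho, rfl⟩ := Finset.mem_image.1 hv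
    rw [hGo o ho]
    exact w4_G0 W r (E o) e o a
  calc ∑ c ∈ (c7_box ι N).filter (fun c : ι → ℤ => (∀ q : Pr k, q ∉ S → (nv q : ℝ) ≤ y →
          (∀ o ∈ P₀, bl k o.2 ≠ q) → ¬ (el b c ∈ q.asIdeal ∧ el b c ∉ q.asIdeal ^ 2)) ∧
        ∀ o ∈ P₀, ((el b c ∈ (bl k o.2).asIdeal ∧ el b c ∉ (bl k o.2).asIdeal ^ 2) ∨
            el b c ∈ (bl k o.2).asIdeal ^ 3) ∧
          Rel k (E o) o (fun q => if q.1 = W then
            psi (bl k o.2) (((el b c : 𝓞 k) : k) * r) else e q)), (1 : ℝ)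
      ≤ ∑ c ∈ (c7_box ι N).filter (fun c : ι → ℤ => (∀ q : Pr k, q ∉ S → (nv q : ℝ) ≤ y →
          (∀ o ∈ P₀, bl k o.2 ≠ q) → ¬ (el b c ∈ q.asIdeal ∧ el b c ∉ q.asIdeal ^ 2)) ∧
        ∀ o ∈ P₀, ((el b c ∈ (bl k o.2).asIdeal ∧ el b c ∉ (bl k o.2).asIdeal ^ 2) ∨
            el b c ∈ (bl k o.2).asIdeal ^ 3) ∧
          Rel k (E o) o (fun q => if q.1 = W then
            psi (bl k o.2) (((el b c : 𝓞 k) : k) * r) else e q)), ∏ v ∈ V, G v (el b c) := by
        apply Finset.sum_le_sum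
        intro c hc
        obtain ⟨_, _, hc2⟩ := Finset.mem_filter.1 hc
        have h1 : ∏ v ∈ V, (1 : ℝ) ≤ ∏ v ∈ V, G v (el b c) := by
          apply Finset.prod_le_prod
          · intro v _
            exact zero_le_one
          · intro v hv
            obtain ⟨o, ho, rfl⟩ := Finset.mem_image.1 hv
            rw [hGo o ho]
            exact w4_one W hW1 r (E o) e o (el b c) (hc2 o ho).1 (hc2 o ho).2
        rwa [Finset.prod_const_one] at h1
    _ ≤ _ := by
        apply Finset.sum_le_sum_of_subset_of_nonneg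
        · intro c hc
          obtain ⟨h0, h1, _⟩ := Finset.mem_filter.1 hc
          refine Finset.mem_filter.2 ⟨h0, ?_⟩
          intro q hq1 hq2 hq3
          apply h1 q hq1 hq2
          intro o ho heq
          apply hq3
          rw [hV]
          exact Finset.mem_image.2 ⟨o, ho, heq⟩
        · intro c _ _
          exact Finset.prod_nonneg (fun v hv => hG0 v hv _)

end SC8
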