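import Pool.Agent.MP_c1dca2_ag.SC8.W2b
import Pool.Agent.MP_c1dca2_ag.SC8.W4a

/-!
# [SC8-W4b] Part II: the number of `c` with largest element of index `≠ W` of norm in `(y/2, y]`

`U, rr` from `wid`, `A₁, N₀` from `point_count` (for `K`), `δ, C, Λ₀` from `totalW`, `Y₀ = exp (Λ₀ + 2)`, `Λ = log y`. (`card P₀ ≤ (log Λ)² ≤ (log log N)²` since `1 ≤ Λ ≤ log N` for large `N`.)
Every `c` of the statement, with `(x, P)`: `c ≠ 0`, so `el b c ≠ 0` (`a4_zero`), and `wid` gives `u : U` (`Cf8.cfg`, `Cf8.tt`). Let `P₀ = P.filter (nv o.2 ≤ y)`, `r = rr u (P₀.filter (·.1 ≠ W))`. `P₀` is in the finite set `𝒫` of the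
`P₀` with `Cfg k S P₀`, `nv o.2 ≤ y` for `o ∈ P₀`, `P₀.card ≤ (log Λ)²` and an element of index `≠ W` of norm `> y/2` (finite: `finite_nv` for every `L i`, `I` finite). All elements of `P` of index `≠ W` are in `P₀`:
`P.filter (·.1 ≠ W) = P₀.filter (·.1 ≠ W)`. `r ≠ 0`, not even at `bl k o.2` for `o ∈ P₀`, `o.1 ≠ W`: first property of `wid` for `P₀.filter (·.1 ≠ W)` (`Cfg` of a subset).
CLAIM: `c` satisfies the conditions in `point_count` for `(E x, P₀, r)`. If `q ∉ S`, `nv q ≤ y` and `el b c ∈ q \ q²`, then `q ∈ TT S (el b c)` (`h6_val_exp`: the value `exp (-1)` is not a square), so `q = bl k o.2`, `o ∈ P` (`Cf8.tt`),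
`nv o.2 = nv q ≤ y`, `o ∈ P₀`. For `o ∈ P₀`: `v = bl k o.2 ∈ TT S (el b c)`, so `¬ Ev v (el b c)`: `el b c ∈ v` (otherwise the value is `1`), and if `el b c ∈ v²`, then `el b c ∈ v³` (an element of `v² \ v³` has the value `exp (-2)`, a
square). `Cf8.rel`: `Rel k (E x o) o (sgn al P)`; for `q` above `v`, `q.1 ≠ W`: `sgn al P q = sgn al P₀ q` (`bt al q o' = 1` for `o'.1 ≠ q.1`; the elements of `P \ P₀` have index `W`); for `q` above `v`, `q ≠ o`, `q.1 = W`: then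
`o.1 ≠ W` (there is only one prime of index `W` above `v`), and `sgn al P q = psi v (c r)` by `wid`. So the relation holds for the function in `point_count`.
Hence the number of `c` is at most `∑_{x, u} ∑_{P₀ ∈ 𝒫} A₁ N^n / log y · ∏ (..) ≤ card κ · card U · A₁ C N^n (log y)^(-1-δ)` by `totalW` with `E = E x`, `Ps = 𝒫` (`exp Λ = y`).
-/

set_option autoImplicit false

open NumberField IsDedekindDomain SC5 SC7

namespace SC8

/-- `exp (-1)` is not the square of a value -/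
private theorem w5_not_ev {K : Type} [Field K] [NumberField K] (v : Pr K) (a : 𝓞 K)
    (h1 : a ∈ v.asIdeal) (h2 : a ∉ v.asIdeal ^ 2) : ¬ SC3.Ev v (a : K) := by
  rintro ⟨c, hc⟩
  rw [h6_val_exp v a h1 h2] at hc
  have h4 : v.valuation K c ≠ 0 := by
    intro h5
    rw [h5] at hc
    simp at hc
  obtain ⟨n, hn⟩ : ∃ n : ℤ, v.valuation K c = WithZero.exp n := ⟨_, (WithZero.exp_log h4).symm⟩
  rw [hn, ← WithZero.exp_nsmul, WithZero.exp_inj] at hc
  simp only [nsmul_eq_mul] at hc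
  push_cast at hc
  omega

private theorem w5_odd {K : Type} [Field K] [NumberField K] (v : Pr K) (a : 𝓞 K)
    (h : ¬ SC3.Ev v (a : K)) :
    (a ∈ v.asIdeal ∧ a ∉ v.asIdeal ^ 2) ∨ a ∈ v.asIdeal ^ 3 := by
  by_contra hcon
  rw [not_or, not_and_or, not_not] at hcon
  obtain ⟨hc1, hc2⟩ := hcon
  apply h
  rcases hc1 with hc1 | hc1
  · refine ⟨1, ?_⟩
    rw [h6_val_one v a hc1, Valuation.map_one, one_pow]
  · have g1 : v.intValuation a ≤ WithZero.exp (-((2 : ℕ) : ℤ)) := by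
      rw [v.intValuation_le_pow_iff_mem]
      exact hc1
    have g2 : ¬ v.intValuation a ≤ WithZero.exp (-((3 : ℕ) : ℤ)) := by
      rw [v.intValuation_le_pow_iff_mem]
      exact hc2
    have g3 : v.intValuation a ≠ 0 := by
      intro h
      apply g2
      rw [h]
      exact zero_le
    obtain ⟨n, hn⟩ : ∃ n : ℤ, v.intValuation a = WithZero.exp n :=
      ⟨_, (WithZero.exp_log g3).symm⟩
    have h4 : n = -2 := by
      rw [hn] at g1 g2
      rw [WithZero.exp_le_exp] at g1 g2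
      push_cast at g1 g2
      omega
    obtain ⟨π, hπ⟩ := v.valuation_exists_uniformizer K
    refine ⟨π, ?_⟩
    rw [hπ, show v.valuation K (a : K) = v.intValuation a from v.valuation_of_algebraMap a, hn, h4,
      ← WithZero.exp_nsmul]
    rfl

section aux

variable {k : Type} [Field k] [NumberField k] {I : Type} [Fintype I] {L : I → Type}
    [∀ i, Field (L i)] [∀ i, NumberField (L i)] [∀ i, Algebra k (L i)]

/-- there is only one prime above `v` -/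
private theorem w5_uniq {M : Type} [Field M] [NumberField M] [Algebra k M]
    (h1 : Module.finrank k M = 1) (w w' : Pr M) (h : bl k w = bl k w') : w = w' := by
  classical
  by_contra hne
  have h2 := card_bl (bl k w) {w, w'} (by
    intro x hx
    rw [Finset.mem_insert, Finset.mem_singleton] at hx
    rcases hx with rfl | rfl
    · rfl
    · exact h.symm)
  rw [Finset.sum_pair hne, h1] at h2
  have h3 := dg_pos (k := k) w
  have h4 := dg_pos (k := k) w'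
  omega

omit [Fintype I] in
private theorem w5_rel (E : PL L → PL L → ℤˣ) (o : PL L) (e e' : PL L → ℤˣ)
    (h : ∀ q : PL L, bl k q.2 = bl k o.2 → q ≠ o → e q = e' q) (hr : Rel k E o e) :
    Rel k E o e' := by
  intro q q' h1 h2 h3 h4 h5
  have h6 := hr q q' h1 h2 h3 h4 h5
  rwa [h q h1 h3, h q' h2 h4] at h6

/-- the elements of norm at most `y` -/
private theorem w5_fin (L : I → Type) [∀ i, Field (L i)] [∀ i, NumberField (L i)] (y : ℝ) : {o : PL L | (nv o.2 : ℝ) ≤ y}.Finite := by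
  have h1 : (⋃ i : I, (fun w : Pr (L i) => (⟨i, w⟩ : PL L)) '' {w | nv w ≤ ⌊y⌋₊}).Finite :=
    Set.finite_iUnion fun i => (finite_nv (L i) _).image _
  refine h1.subset ?_
  rintro ⟨i, w⟩ hw
  rw [Set.mem_iUnion]
  exact ⟨i, w, Nat.le_floor hw, rfl⟩

omit [Fintype I] in
private theorem w5_sgn (W : I) (al : ∀ i, Pr (L i) → 𝓞 (L i)) (P P₀ : Finset (PL L))
    (h0 : P₀ ⊆ P) (h : ∀ o ∈ P, o ∉ P₀ → o.1 = W) (q : PL L) (hq : q.1 ≠ W) :
    sgn al P q = sgn al P₀ q := by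
  classical
  unfold sgn
  symm
  apply Finset.prod_subset h0
  intro o ho ho'
  unfold bt
  rw [dif_neg]
  intro heq
  exact hq (heq.symm.trans (h o ho ho'))

omit [Fintype I] in
open scoped Classical in
/-- the claim -/
private theorem w5_claim {S : Finset (Pr k)}
    {al : ∀ i, Pr (L i) → 𝓞 (L i)} (W : I)
    (hW1 : Module.finrank k (L W) = 1) (E : PL L → PL L → PL L → ℤˣ) (c : 𝓞 k) (r : k) (y : ℝ)
    (P : Finset (PL L)) (hP : Cf8 S al E (c : k) P) (hPW : ∀ o ∈ P, o.1 ≠ W → (nv o.2 : ℝ) ≤ y)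
    (hsgn : ∀ o ∈ P, o.1 ≠ W → ∀ w : Pr (L W), bl k w = bl k o.2 →
          sgn al P ⟨W, w⟩ = psi (bl k o.2) ((c : k) * r)) :
    (∀ q : Pr k, q ∉ S → (nv q : ℝ) ≤ y →
      (∀ o ∈ P.filter (fun o => (nv o.2 : ℝ) ≤ y), bl k o.2 ≠ q) →
          ¬ (c ∈ q.asIdeal ∧ c ∉ q.asIdeal ^ 2)) ∧
        ∀ o ∈ P.filter (fun o => (nv o.2 : ℝ) ≤ y),
          ((c ∈ (bl k o.2).asIdeal ∧ c ∉ (bl k o.2).asIdeal ^ 2) ∨
            c ∈ (bl k o.2).asIdeal ^ 3) ∧
          Rel k (E o) o (fun q => if q.1 = W then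
            psi (bl k o.2) ((c : k) * r) else
              sgn al (P.filter (fun o => (nv o.2 : ℝ) ≤ y)) q) := by
  constructor
  · rintro q hq1 hq2 hq3 ⟨hq4, hq5⟩
    have h1 : q ∈ TT S (c : k) := ⟨hq1, w5_not_ev q c hq4 hq5⟩
    rw [hP.tt] at h1
    obtain ⟨o, ho, hoq⟩ := h1
    have ho' : o ∈ P := ho
    have hoq' : bl k o.2 = q := hoq
    have h2 : nv o.2 = nv q := by
      rw [nv_eq (k := k) o.2, hP.cfg.deg o ho', pow_one, hoq']
    exact hq3 o (Finset.mem_filter.2 ⟨ho', by rw [h2]; exact hq2⟩) hoq'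
  · intro o ho
    obtain ⟨ho1, ho2⟩ := Finset.mem_filter.1 ho
    constructor
    · apply w5_odd
      have h1 : bl k o.2 ∈ TT S (c : k) := by
        rw [hP.tt]
        exact ⟨o, ho1, rfl⟩
      exact h1.2
    · apply w5_rel (E o) o (sgn al P) _ _ (hP.rel o ho1)
      intro q h1 h2
      split_ifs with h3
      · have hoW : o.1 ≠ W := by
          intro hoW
          apply h2
          obtain ⟨i, x⟩ := q
          obtain ⟨j, x'⟩ := o
          change i = W at h3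
          change j = W at hoW
          change bl k x = bl k x' at h1
          subst h3
          subst hoW
          rw [w5_uniq (k := k) hW1 x x' h1]
        obtain ⟨i, x⟩ := q
        change i = W at h3
        subst h3
        exact hsgn o ho1 hoW x h1
      · apply w5_sgn W al P _ (Finset.filter_subset _ _) _ q h3
        intro o' ho' ho''
        by_contra hne
        exact ho'' (Finset.mem_filter.2 ⟨ho', hPW o' ho' hne⟩)

end aux

open scoped Classical in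
theorem scale_count {k : Type} [Field k] [NumberField k] {I : Type} [Fintype I] {L : I → Type}
    [∀ i, Field (L i)] [∀ i, NumberField (L i)] [∀ i, Algebra k (L i)] (M : Type) [Field M]
    [NumberField M] [Algebra k M] [IsGalois k M] [∀ i, Algebra (L i) M]
    [∀ i, IsScalarTower k (L i) M] {S : Finset (Pr k)}
    {al : ∀ i, Pr (L i) → 𝓞 (L i)} {Cg : ℕ} (hF : Fam8 k L S al Cg) (W : I)
    (hdeg : Deg8 k L W) {κ : Type} [Finite κ] (E : κ → PL L → PL L → PL L → ℤˣ)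
    {ι : Type} [Fintype ι] (b : Module.Basis ι ℤ (𝓞 k)) (K : ℕ) (hK : 2 ≤ K) :
    ∃ (δ A Y₀ : ℝ) (N₀ : ℕ), 0 < δ ∧ 0 < A ∧ 2 ≤ Y₀ ∧ ∀ N : ℕ, N₀ ≤ N → ∀ y : ℝ, Y₀ ≤ y →
      Real.log y ≤ Real.log N ^ (1 - 1 / (K : ℝ)) →
      (Nat.card {c : ι → ℤ // (∀ i, |c i| ≤ N) ∧ c ≠ 0 ∧ ∃ (x : κ) (P : Finset (PL L)),
        Cf8 S al (E x) ((el b c : 𝓞 k) : k) P ∧
        ((P.filter (fun o => (nv o.2 : ℝ) ≤ y)).card : ℝ) ≤ Real.log (Real.log y) ^ 2 ∧
        (∀ o ∈ P, o.1 ≠ W → (nv o.2 : ℝ) ≤ y) ∧ ∃ o ∈ P, o.1 ≠ W ∧ y / 2 < nv o.2} : ℝ) ≤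
      A * (N : ℝ) ^ (Fintype.card ι) * Real.log y ^ (-1 - δ) := by
  have hW1 := hdeg.one
  obtain ⟨U, hU, rr, hrr1, hrr2⟩ := wid hF W hW1
  obtain ⟨A₁, N₀, hA₁, hpc⟩ := point_count hF W hW1 b K hK
  obtain ⟨δ, C, Λ₀, hδ, hC, hΛ₀, htot⟩ := totalW M hF W hdeg
  have _ := Fintype.ofFinite κ
  have _ := Fintype.ofFinite U
  refine ⟨δ, ((Fintype.card κ : ℝ) * Fintype.card U + 1) * (A₁ * C), Real.exp (Λ₀ + 2), max N₀ 3,
    hδ, by positivity, ?_, ?_⟩
  · have := Real.add_one_le_exp (Λ₀ + 2)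
    linarith
  intro N hN y hy hly
  have hN0 : N₀ ≤ N := (le_max_left _ _).trans hN
  have hN3 : 3 ≤ N := (le_max_right _ _).trans hN
  have hN3' : (3 : ℝ) ≤ N := by exact_mod_cast hN3
  have hy2 : 2 ≤ y := by
    have := Real.add_one_le_exp (Λ₀ + 2)
    linarith
  have hy0 : 0 < y := by linarith
  set Λ := Real.log y with hΛ
  have hyΛ : Real.exp Λ = y := Real.exp_log hy0
  have hΛ2 : Λ₀ + 2 ≤ Λ := by
    rw [hΛ, Real.le_log_iff_exp_le hy0]
    exact hy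
  have hΛ0 : Λ₀ ≤ Λ := by linarith
  have hΛ1 : 1 ≤ Λ := by linarith
  have hl1 : 1 ≤ Real.log N := by
    rw [Real.le_log_iff_exp_le (by linarith)]
    have := Real.exp_one_lt_d9
    linarith
  have hΛl : Λ ≤ Real.log N := by
    refine hly.trans ?_
    calc Real.log N ^ (1 - 1 / (K : ℝ)) ≤ Real.log N ^ (1 : ℝ) := by
          apply Real.rpow_le_rpow_of_exponent_le hl1
          have : 0 ≤ 1 / (K : ℝ) := by positivity
          linarith
      _ = Real.log N := Real.rpow_one _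
  have hll : Real.log Λ ^ 2 ≤ Real.log (Real.log N) ^ 2 := by
    have h1 : 0 ≤ Real.log Λ := Real.log_nonneg hΛ1
    have h2 : Real.log Λ ≤ Real.log (Real.log N) := Real.log_le_log (by linarith) hΛl
    exact pow_le_pow_left₀ h1 h2 2
  -- the finite set of the `P₀`
  have hTf := w5_fin L y
  set PP : Finset (Finset (PL L)) := hTf.toFinset.powerset.filter (fun P₀ => Cfg k S P₀ ∧
    (P₀.card : ℝ) ≤ Real.log Λ ^ 2 ∧ ∃ o ∈ P₀, o.1 ≠ W ∧ y / 2 < nv o.2) with hPP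
  have hmemPP : ∀ P₀, P₀ ∈ PP ↔ (∀ o ∈ P₀, (nv o.2 : ℝ) ≤ y) ∧ Cfg k S P₀ ∧
      (P₀.card : ℝ) ≤ Real.log Λ ^ 2 ∧ ∃ o ∈ P₀, o.1 ≠ W ∧ y / 2 < nv o.2 := by
    intro P₀
    rw [hPP, Finset.mem_filter, Finset.mem_powerset]
    refine and_congr_left fun _ => ?_
    constructor
    · intro h o ho
      exact (Set.Finite.mem_toFinset hTf).1 (h ho)
    · intro h o ho
      exact (Set.Finite.mem_toFinset hTf).2 (h o ho)
  set q : κ × U × Finset (PL L) → (ι → ℤ) → Prop := fun t c =>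
    (∀ q : Pr k, q ∉ S → (nv q : ℝ) ≤ y → (∀ o ∈ t.2.2, bl k o.2 ≠ q) →
          ¬ (el b c ∈ q.asIdeal ∧ el b c ∉ q.asIdeal ^ 2)) ∧
        ∀ o ∈ t.2.2, ((el b c ∈ (bl k o.2).asIdeal ∧ el b c ∉ (bl k o.2).asIdeal ^ 2) ∨
            el b c ∈ (bl k o.2).asIdeal ^ 3) ∧
          Rel k (E t.1 o) o (fun q => if q.1 = W then
            psi (bl k o.2) (((el b c : 𝓞 k) : k) * rr t.2.1 (t.2.2.filter (fun o => o.1 ≠ W)))
              else sgn al t.2.2 q) with hq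
  set TS : Finset (κ × U × Finset (PL L)) := Finset.univ ×ˢ (Finset.univ ×ˢ PP) with hTS
  have hsubcfg : ∀ P P' : Finset (PL L), P' ⊆ P → Cfg k S P → Cfg k S P' := by
    intro P P' hsub hP
    exact ⟨fun o ho => hP.out o (hsub ho), fun o ho => hP.deg o (hsub ho),
      fun o ho o' ho' => hP.inj o (hsub ho) o' (hsub ho')⟩
  rw [c7_card N (fun c : ι → ℤ => c ≠ 0 ∧ ∃ (x : κ) (P : Finset (PL L)),
        Cf8 S al (E x) ((el b c : 𝓞 k) : k) P ∧
        ((P.filter (fun o => (nv o.2 : ℝ) ≤ y)).card : ℝ) ≤ Real.log Λ ^ 2 ∧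
        (∀ o ∈ P, o.1 ≠ W → (nv o.2 : ℝ) ≤ y) ∧ ∃ o ∈ P, o.1 ≠ W ∧ y / 2 < nv o.2)]
  have hsub : (c7_box ι N).filter (fun c : ι → ℤ => c ≠ 0 ∧ ∃ (x : κ) (P : Finset (PL L)),
        Cf8 S al (E x) ((el b c : 𝓞 k) : k) P ∧
        ((P.filter (fun o => (nv o.2 : ℝ) ≤ y)).card : ℝ) ≤ Real.log Λ ^ 2 ∧
        (∀ o ∈ P, o.1 ≠ W → (nv o.2 : ℝ) ≤ y) ∧ ∃ o ∈ P, o.1 ≠ W ∧ y / 2 < nv o.2) ⊆
      TS.biUnion (fun t => (c7_box ι N).filter (q t)) := by
    intro c hc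
    obtain ⟨hc0, hc1, x, P, hP1, hP2, hP3, o₁, ho₁, ho₁W, ho₁y⟩ := Finset.mem_filter.1 hc
    obtain ⟨u, hu⟩ := hrr2 (el b c) P (fun h => hc1 (a4_zero b c h)) hP1.cfg hP1.tt
    rw [Finset.mem_biUnion]
    refine ⟨(x, u, P.filter (fun o => (nv o.2 : ℝ) ≤ y)), ?_, ?_⟩
    · rw [hTS, Finset.mem_product, Finset.mem_product]
      refine ⟨Finset.mem_univ _, Finset.mem_univ _, ?_⟩
      rw [hmemPP]
      refine ⟨fun o ho => (Finset.mem_filter.1 ho).2,
        hsubcfg _ _ (Finset.filter_subset _ _) hP1.cfg, hP2, o₁,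
        Finset.mem_filter.2 ⟨ho₁, hP3 o₁ ho₁ ho₁W⟩, ho₁W, ho₁y⟩
    · rw [Finset.mem_filter]
      refine ⟨hc0, ?_⟩
      have hfilt : (P.filter (fun o => (nv o.2 : ℝ) ≤ y)).filter (fun o => o.1 ≠ W) =
          P.filter (fun o => o.1 ≠ W) := by
        ext o
        rw [Finset.mem_filter, Finset.mem_filter, Finset.mem_filter]
        constructor
        · rintro ⟨⟨h1, _⟩, h3⟩
          exact ⟨h1, h3⟩
        · rintro ⟨h1, h3⟩
          exact ⟨⟨h1, hP3 o h1 h3⟩, h3⟩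
      have hcl := w5_claim W hW1 (E x) (el b c) (rr u (P.filter (fun o => o.1 ≠ W))) y P hP1 hP3 hu
      rw [← hfilt] at hcl
      exact hcl
  have hn0 : 0 ≤ A₁ * (N : ℝ) ^ (Fintype.card ι) / Λ := by positivity
  have hone : ∀ t ∈ TS, (((c7_box ι N).filter (q t)).card : ℝ) ≤
      A₁ * (N : ℝ) ^ (Fintype.card ι) / Λ *
        ∏ o ∈ t.2.2, (rw8 k W (E t.1 o) o (sgn al t.2.2) / nv o.2) := by
    rintro ⟨x, u, P₀⟩ ht
    rw [hTS, Finset.mem_product, Finset.mem_product] at ht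
    obtain ⟨h1, h2, h3, _⟩ := (hmemPP P₀).1 ht.2.2
    have hr := hrr1 u (P₀.filter (fun o => o.1 ≠ W))
      (hsubcfg _ _ (Finset.filter_subset _ _) h2)
    have h4 := hpc N hN0 y hy2 hly (E x) P₀ h2 h1 (h3.trans hll)
      (rr u (P₀.filter (fun o => o.1 ≠ W))) hr.1 (fun o ho hoW => hr.2 o
        (Finset.mem_filter.2 ⟨ho, hoW⟩))
    rw [c7_card N (q (x, u, P₀))] at h4
    exact h4
  have hcardle : (((c7_box ι N).filter (fun c : ι → ℤ => c ≠ 0 ∧ ∃ (x : κ) (P : Finset (PL L)),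
        Cf8 S al (E x) ((el b c : 𝓞 k) : k) P ∧
        ((P.filter (fun o => (nv o.2 : ℝ) ≤ y)).card : ℝ) ≤ Real.log Λ ^ 2 ∧
        (∀ o ∈ P, o.1 ≠ W → (nv o.2 : ℝ) ≤ y) ∧ ∃ o ∈ P, o.1 ≠ W ∧ y / 2 < nv o.2)).card : ℝ) ≤
      ∑ t ∈ TS, (((c7_box ι N).filter (q t)).card : ℝ) := by
    have h1 := (Finset.card_le_card hsub).trans Finset.card_biUnion_le
    exact_mod_cast h1
  refine hcardle.trans ((Finset.sum_le_sum hone).trans ?_)
  rw [← Finset.mul_sum, hTS, Finset.sum_product]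
  have hin : ∀ x : κ, ∑ t ∈ (Finset.univ : Finset U) ×ˢ PP,
      ∏ o ∈ (x, t).2.2, (rw8 k W (E (x, t).1 o) o (sgn al (x, t).2.2) / nv o.2) ≤
      Fintype.card U * (C * Λ ^ (-δ)) := by
    intro x
    rw [Finset.sum_product]
    have h1 : ∀ u ∈ (Finset.univ : Finset U), ∑ P₀ ∈ PP,
        ∏ o ∈ (x, u, P₀).2.2, (rw8 k W (E (x, u, P₀).1 o) o (sgn al (x, u, P₀).2.2) / nv o.2) ≤
        C * Λ ^ (-δ) := by
      intro u _
      apply htot Λ hΛ0 (E x) PP
      intro P₀ hP₀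
      obtain ⟨h1, h2, h3, o₁, ho₁, ho₁W, ho₁y⟩ := (hmemPP P₀).1 hP₀
      refine ⟨h2, h3, ?_, o₁, ho₁, ho₁W, ?_⟩
      · intro o ho
        apply Real.log_le_log _ (h1 o ho)
        have := two_le_nv o.2
        exact_mod_cast (by omega : 0 < nv o.2)
      · rw [hyΛ]
        exact ho₁y
    refine (Finset.sum_le_sum h1).trans (le_of_eq ?_)
    rw [Finset.sum_const, Finset.card_univ, nsmul_eq_mul]
  have hsum : ∑ x : κ, ∑ t ∈ (Finset.univ : Finset U) ×ˢ PP,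
      ∏ o ∈ (x, t).2.2, (rw8 k W (E (x, t).1 o) o (sgn al (x, t).2.2) / nv o.2) ≤
      Fintype.card κ * (Fintype.card U * (C * Λ ^ (-δ))) := by
    refine (Finset.sum_le_sum (fun x _ => hin x)).trans (le_of_eq ?_)
    rw [Finset.sum_const, Finset.card_univ, nsmul_eq_mul]
  have hΛpos : 0 < Λ := by linarith
  have hpow : Λ ^ (-1 - δ) = Λ⁻¹ * Λ ^ (-δ) := by
    rw [sub_eq_add_neg, Real.rpow_add hΛpos, Real.rpow_neg_one]
  have hpd : 0 ≤ Λ ^ (-δ) := Real.rpow_nonneg hΛpos.le _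
  calc A₁ * (N : ℝ) ^ (Fintype.card ι) / Λ * _ ≤ A₁ * (N : ℝ) ^ (Fintype.card ι) / Λ *
        (Fintype.card κ * (Fintype.card U * (C * Λ ^ (-δ)))) :=
        mul_le_mul_of_nonneg_left hsum hn0
    _ = (Fintype.card κ * Fintype.card U) * (A₁ * C) * (N : ℝ) ^ (Fintype.card ι) *
        Λ ^ (-1 - δ) := by
        rw [hpow, div_eq_mul_inv]
        ring
    _ ≤ ((Fintype.card κ : ℝ) * Fintype.card U + 1) * (A₁ * C) * (N : ℝ) ^ (Fintype.card ι) *
        Λ ^ (-1 - δ) := by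
        have h1 : 0 ≤ Λ ^ (-1 - δ) := Real.rpow_nonneg hΛpos.le _
        gcongr
        linarith

end SC8
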